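import Pool.Agent.Lib.U4.BlueA
import Pool.Agent.Lib.MP_3a84e0_co.Norm

noncomputable section

open Finset Module
open scoped BigOperators

namespace Pool.Agent.Lib.U4

open Pool.Agent.Lib.MP_3a84e0_co

namespace BLRb

lemma ind_nonneg (P : Prop) : 0 ≤ ind P := by unfold ind; split_ifs <;> norm_num

lemma ind_pos {P : Prop} (h : P) : ind P = 1 := by unfold ind; simp [h]

lemma ind_neg {P : Prop} (h : ¬P) : ind P = 0 := by unfold ind; simp [h]

lemma ind_le {P : Prop} {a : ℝ} (h0 : 0 ≤ a) (h1 : P → 1 ≤ a) : ind P ≤ a := by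
  by_cases h : P
  · rw [ind_pos h]; exact h1 h
  · rw [ind_neg h]; exact h0

lemma ind_or {P Q R : Prop} (h : P → Q ∨ R) : ind P ≤ ind Q + ind R :=
  ind_le (add_nonneg (ind_nonneg _) (ind_nonneg _)) fun hp => by
    rcases h hp with h | h
    · rw [ind_pos h]; linarith [ind_nonneg R]
    · rw [ind_pos h]; linarith [ind_nonneg Q]

lemma exists_not {G : Type} [Fintype G] [Nonempty G] {f : G → ℝ} (h : 𝔼 w, f w < 1) :
    ∃ w, f w < 1 := by
  by_contra h'
  push Not at h'
  exact absurd (le_expect univ_nonempty fun w _ => h' w) (not_le.2 h)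

lemma of_lt {P : Prop} (h : ind P < 1) : ¬P := fun hp => by rw [ind_pos hp] at h; exact lt_irrefl _ h

end BLRb

open BLRb in
theorem stBLRb : St_BLR := by
  intro p _ hA ⟨C, hC, H⟩
  refine ⟨24 * C + 4, by positivity, ?_⟩
  intro G V U _ _ _ _ _ _ _ _ φ R hR hφ
  have A := hA V U
  have h1 : ∀ v, ∃ M : Bil p V U, 𝔼 w, ind (2 * R < rk (φ (v + w) - φ w - M)) ≤ 1 / 5 := by
    intro v
    have h2 : 𝔼 w', 𝔼 w, ind (2 * R < rk (φ (v + w) - φ w - (φ (v + w') - φ w'))) ≤ 1 / 5 := by
      calc _ ≤ 𝔼 w', 𝔼 w, (ind (R < rk (df φ (v + w) w')) + ind (R < rk (df φ (v + w') w))) := by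
            refine expect_le_expect fun w' _ => expect_le_expect fun w _ => ind_or fun h => ?_
            by_contra hc
            push Not at hc
            have e : φ (v + w) - φ w - (φ (v + w') - φ w') =
                df φ (v + w') w - df φ (v + w) w' := by
              unfold df
              rw [add_right_comm v w' w]
              abel
            rw [e] at h
            linarith [A.rk_sub (df φ (v + w') w) (df φ (v + w) w'), hc.1, hc.2]
        _ = 𝔼 w', 𝔼 w, ind (R < rk (df φ (v + w) w')) +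
            𝔼 w', 𝔼 w, ind (R < rk (df φ (v + w') w)) := by
            simp only [expect_add_distrib]
        _ ≤ 1 / 5 := by
            rw [expect_comm, expect_shift' (fun x => 𝔼 y, ind (R < rk (df φ x y))) v]
            linarith
    obtain ⟨w', -, hw'⟩ := exists_le_of_expect_le univ_nonempty h2
    exact ⟨_, hw'⟩
  choose M hM using h1
  have h2 : ∀ v v', rk (df M v v') ≤ 6 * R := by
    intro v v'
    have h3 : 𝔼 w, (ind (2 * R < rk (φ (v + v' + w) - φ w - M (v + v'))) +
        ind (2 * R < rk (φ (v + (v' + w)) - φ (v' + w) - M v)) +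
        ind (2 * R < rk (φ (v' + w) - φ w - M v'))) < 1 := by
      rw [expect_add_distrib, expect_add_distrib,
        expect_shift' (fun x => ind (2 * R < rk (φ (v + x) - φ x - M v))) v']
      linarith [hM (v + v'), hM v, hM v']
    obtain ⟨w, hw⟩ := exists_not h3
    have a1 := ind_nonneg (2 * R < rk (φ (v + v' + w) - φ w - M (v + v')))
    have a2 := ind_nonneg (2 * R < rk (φ (v + (v' + w)) - φ (v' + w) - M v))
    have a3 := ind_nonneg (2 * R < rk (φ (v' + w) - φ w - M v'))
    have b1 := not_lt.1 (of_lt (P := 2 * R < rk (φ (v + v' + w) - φ w - M (v + v'))) (by linarith))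
    have b2 := not_lt.1
      (of_lt (P := 2 * R < rk (φ (v + (v' + w)) - φ (v' + w) - M v)) (by linarith))
    have b3 := not_lt.1 (of_lt (P := 2 * R < rk (φ (v' + w) - φ w - M v')) (by linarith))
    have e : df M v v' = (φ (v + (v' + w)) - φ (v' + w) - M v) + (φ (v' + w) - φ w - M v') -
        (φ (v + v' + w) - φ w - M (v + v')) := by
      unfold df
      rw [add_assoc v v' w]
      abel
    rw [e]
    linarith [A.rk_sub ((φ (v + (v' + w)) - φ (v' + w) - M v) + (φ (v' + w) - φ w - M v'))
      (φ (v + v' + w) - φ w - M (v + v')),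
      A.rk_add (φ (v + (v' + w)) - φ (v' + w) - M v) (φ (v' + w) - φ w - M v')]
  obtain ⟨T, hT⟩ := H M
  have h3 : 𝔼 x, rk (M x - T x) ≤ C * (6 * R) :=
    hT.trans (mul_le_mul_of_nonneg_left
      (expect_le univ_nonempty fun x _ => expect_le univ_nonempty fun y _ => h2 x y) hC)
  refine ⟨T, ?_⟩
  have hD : 0 < (24 * C + 1) * R := by positivity
  have h4 : ∀ x, ind ((24 * C + 4) * R < rk (φ x - T x)) ≤
      rk (M x - T x) / ((24 * C + 1) * R) + 5 / 4 * 𝔼 w, ind (R < rk (df φ x w)) := by
    intro x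
    have e0 : 0 ≤ 𝔼 w, ind (R < rk (df φ x w)) := expect_nonneg fun w _ => ind_nonneg _
    have e1 : 0 ≤ rk (M x - T x) / ((24 * C + 1) * R) := div_nonneg (A.rk_nonneg _) hD.le
    refine ind_le (by positivity) fun h => ?_
    by_cases hx : 4 / 5 ≤ 𝔼 w, ind (R < rk (df φ x w))
    · linarith
    have h5 : 𝔼 w, (ind (R < rk (df φ x w)) + ind (2 * R < rk (φ (x + w) - φ w - M x))) < 1 := by
      rw [expect_add_distrib]
      linarith [hM x]
    obtain ⟨w, hw⟩ := exists_not h5
    have a1 := ind_nonneg (R < rk (df φ x w))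
    have a2 := ind_nonneg (2 * R < rk (φ (x + w) - φ w - M x))
    have b1 := not_lt.1 (of_lt (P := R < rk (df φ x w)) (by linarith))
    have b2 := not_lt.1 (of_lt (P := 2 * R < rk (φ (x + w) - φ w - M x)) (by linarith))
    have e : φ x - T x = (φ (x + w) - φ w - M x) - df φ x w + (M x - T x) := by
      unfold df
      abel
    rw [e] at h
    have h6 : (24 * C + 1) * R ≤ rk (M x - T x) := by
      linarith [A.rk_add ((φ (x + w) - φ w - M x) - df φ x w) (M x - T x),
        A.rk_sub (φ (x + w) - φ w - M x) (df φ x w)]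
    have := (one_le_div hD).2 h6
    linarith
  refine (expect_le_expect fun x _ => h4 x).trans ?_
  rw [expect_add_distrib, ← mul_expect, ← expect_div]
  have h5 : (𝔼 x, rk (M x - T x)) / ((24 * C + 1) * R) ≤ 1 / 4 := by
    rw [div_le_iff₀ hD]
    nlinarith
  linarith

end Pool.Agent.Lib.U4
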