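import Pool.Agent.Lib.U4.BlueA

/-! Gowers-Cauchy-Schwarz on a graph. -/

noncomputable section

open Finset
open scoped BigOperators

namespace Pool.Agent.Lib.U4

namespace GCS

lemma ind_congr {P Q : Prop} (h : P ↔ Q) : ind P = ind Q := by rw [propext h]

lemma ind_and (P Q : Prop) : ind (P ∧ Q) = ind P * ind Q := by
  unfold ind
  by_cases hP : P <;> by_cases hQ : Q <;> simp [hP, hQ]

lemma ind_le_one (P : Prop) : ind P ≤ 1 := by
  unfold ind
  split_ifs <;> norm_num

lemma ind_nonneg (P : Prop) : 0 ≤ ind P := by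
  unfold ind
  split_ifs <;> norm_num

variable {G W : Type} [Fintype G]

/-- the kernel of an equivalence relation is positive semidefinite -/
lemma psd (u : G → W) (c : G → ℝ) : 0 ≤ 𝔼 x, 𝔼 y, c x * c y * ind (u x = u y) := by
  classical
  have h1 : ∀ x y, c x * c y * ind (u x = u y) =
      ∑ w ∈ univ.image u, (c x * ind (u x = w)) * (c y * ind (u y = w)) := by
    intro x y
    rw [sum_eq_single (u x)]
    · rw [ind_congr (eq_comm (a := u y))]
      simp only [ind, if_true]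
      ring
    · intro w _ hw
      simp [ind, hw.symm]
    · intro h
      exact absurd (mem_image_of_mem u (mem_univ x)) h
  simp only [h1, expect_sum_comm]
  refine sum_nonneg fun w _ => ?_
  rw [← expect_mul_expect]
  exact mul_self_nonneg _

/-- Cauchy-Schwarz against the constant function -/
lemma cs [Nonempty G] (u : G → G → W) (a : G → G → ℝ) :
    (𝔼 t, 𝔼 x, 𝔼 y, a t x * ind (u t x = u t y)) ^ 2 ≤
      𝔼 t, 𝔼 x, 𝔼 y, a t x * a t y * ind (u t x = u t y) := by
  set m := 𝔼 t, 𝔼 x, 𝔼 y, a t x * ind (u t x = u t y) with hm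
  have h1 : 0 ≤ 𝔼 t, 𝔼 x, 𝔼 y, (a t x - m) * (a t y - m) * ind (u t x = u t y) :=
    expect_nonneg fun t _ => psd (u t) fun x => a t x - m
  have h2 : ∀ t x y, (a t x - m) * (a t y - m) * ind (u t x = u t y) =
      a t x * a t y * ind (u t x = u t y) - m * (a t x * ind (u t x = u t y))
        - m * (a t y * ind (u t y = u t x)) + m ^ 2 * ind (u t x = u t y) := by
    intro t x y
    rw [ind_congr (eq_comm (a := u t y))]
    ring
  simp only [h2, expect_add_distrib, expect_sub_distrib, ← mul_expect] at h1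
  have h3 : 𝔼 t, 𝔼 x, 𝔼 y, a t y * ind (u t y = u t x) = m :=
    expect_congr rfl fun t _ => expect_comm _ _ _
  have h4 : 𝔼 t, 𝔼 x, 𝔼 y, ind (u t x = u t y) ≤ 1 :=
    expect_le univ_nonempty fun t _ => expect_le univ_nonempty fun x _ =>
      expect_le univ_nonempty fun y _ => ind_le_one _
  have h5 : 𝔼 t, 𝔼 x, a t x * 𝔼 y, ind (u t x = u t y) = m := by
    simp only [hm, mul_expect]
  rw [h3, h5] at h1
  nlinarith [sq_nonneg m]

lemma rot (F : G → G → G → ℝ) : 𝔼 x, 𝔼 y, 𝔼 t, F x y t = 𝔼 t, 𝔼 x, 𝔼 y, F x y t := by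
  rw [expect_comm (s := univ) (t := univ) (f := fun t x => 𝔼 y, F x y t)]
  exact expect_congr rfl fun x _ => expect_comm _ _ _

end GCS

open GCS in
theorem stGCS : St_GCS := by
  intro G W _ _ _ g B
  have hq : ∀ x y t, dq g x y t = 0 ↔ g x - g (x + t) = g y - g (y + t) := by
    intro x y t
    rw [← sub_eq_zero (a := g x - g (x + t)), dq]
    exact Eq.congr_left (by abel)
  have h1 := cs (fun t x => g x - g (x + t)) (fun _ x => ind (x ∈ B))
  have h2 := cs (fun t x => g x - g (x + t)) (fun t x => ind (x ∈ B) * ind (x + t ∈ B))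
  have e1 : 𝔼 x, 𝔼 y, 𝔼 t, ind (x ∈ B ∧ dq g x y t = 0) =
      𝔼 t, 𝔼 x, 𝔼 y, ind (x ∈ B) * ind (g x - g (x + t) = g y - g (y + t)) := by
    rw [rot]
    simp only [ind_and, hq]
  have e2 : 𝔼 x, 𝔼 y, 𝔼 t, in4 B x y t * ind (dq g x y t = 0) =
      𝔼 t, 𝔼 x, 𝔼 y, ind (x ∈ B) * ind (x + t ∈ B) * (ind (y ∈ B) * ind (y + t ∈ B)) *
        ind (g x - g (x + t) = g y - g (y + t)) := by
    rw [rot]
    simp only [in4, ind_and, hq, mul_assoc]
  have e3 : 𝔼 t, 𝔼 x, 𝔼 y, ind (x ∈ B) * ind (y ∈ B) * ind (g x - g (x + t) = g y - g (y + t)) =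
      𝔼 t, 𝔼 x, 𝔼 y, ind (x ∈ B) * ind (x + t ∈ B) * ind (g x - g (x + t) = g y - g (y + t)) := by
    rw [← rot (fun x y t => ind (x ∈ B) * ind (y ∈ B) * ind (g x - g (x + t) = g y - g (y + t))),
      expect_comm]
    rw [expect_comm]
    conv_rhs => rw [expect_comm]
    refine expect_congr rfl fun x _ => ?_
    refine (Fintype.expect_equiv (Equiv.addLeft x) _ _ fun s => ?_).symm
    refine (Fintype.expect_equiv (Equiv.addLeft x) _ _ fun t => ?_).symm
    simp only [Equiv.coe_addLeft]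
    congr 1
    refine ind_congr ?_
    rw [show x + s + t = x + t + s by abel, sub_eq_sub_iff_sub_eq_sub]
  rw [e1, e2]
  rw [e3] at h1
  calc _ = (_ ^ 2) ^ 2 := by rw [← pow_mul]
    _ ≤ _ := pow_le_pow_left₀ (sq_nonneg _) h1 2
    _ ≤ _ := h2

end Pool.Agent.Lib.U4
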