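import Pool.Agent.Lib.U4.BlueA

/-!
Maps into bilinear forms that respect many quadruples up to low rank agree, up to low rank, with
an affine map on a large set.
-/

noncomputable section

open Finset Module
open scoped BigOperators

namespace Pool.Agent.Lib.U4

namespace RM2b

lemma ind_nonneg (P : Prop) : 0 ≤ ind P := by
  unfold ind; split_ifs <;> norm_num

lemma ind_le_one (P : Prop) : ind P ≤ 1 := by
  unfold ind; split_ifs <;> norm_num

lemma ind_mono {P Q : Prop} (h : P → Q) : ind P ≤ ind Q := by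
  unfold ind
  by_cases hP : P
  · simp [hP, h hP]
  · simp only [hP, if_false]; split_ifs <;> norm_num

lemma ind_and (P Q : Prop) : ind (P ∧ Q) = ind P * ind Q := by
  unfold ind
  by_cases hP : P <;> by_cases hQ : Q <;> simp [hP, hQ]

lemma ind_of {P : Prop} (h : P) : ind P = 1 := by simp [ind, h]

lemma ind_of_not {P : Prop} (h : ¬ P) : ind P = 0 := by simp [ind, h]

variable {p : ℕ} {G V U : Type} [AddCommGroup G] [Fintype G] [Module (ZMod p) G]
  [AddCommGroup V] [Module (ZMod p) V] [Fintype V] [AddCommGroup U] [Module (ZMod p) U]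

lemma bb_nonneg (M : Bil p V U) : 0 ≤ bb M := expect_nonneg fun _ _ => ind_nonneg _

lemma bb_le_one (M : Bil p V U) : bb M ≤ 1 := expect_le univ_nonempty fun _ _ => ind_le_one _

omit [Module (ZMod p) G] in
lemma eps_le_one (φ : G → Bil p V U) (A : Set G) :
    𝔼 x, 𝔼 y, 𝔼 t, in4 A x y t * bb (dq φ x y t) ≤ 1 :=
  expect_le univ_nonempty fun _ _ => expect_le univ_nonempty fun _ _ =>
    expect_le univ_nonempty fun _ _ =>
      mul_le_one₀ (ind_le_one _) (bb_nonneg _) (bb_le_one _)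

/-- Passing from the ambient space to the subspace, for pairs. -/
lemma pair_avg (hL : LinA p) (K : Submodule (ZMod p) V) [Fintype K] (P : V → V → Prop) :
    𝔼 v, 𝔼 v', ind (v ∈ K ∧ v' ∈ K ∧ P v v') =
      (𝔼 v, ind (v ∈ K)) ^ 2 * 𝔼 v : K, 𝔼 v' : K, ind (P v v') := by
  have h1 : ∀ v, 𝔼 v', ind (v ∈ K ∧ v' ∈ K ∧ P v v') =
      ind (v ∈ K) * ((𝔼 v, ind (v ∈ K)) * 𝔼 v' : K, ind (P v v')) := by
    intro v
    rw [← hL.sub_avg K (fun v' => ind (P v v')), mul_expect]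
    exact expect_congr rfl fun v' _ => by rw [ind_and, ind_and]
  simp only [h1]
  rw [hL.sub_avg K (fun v => (𝔼 v, ind (v ∈ K)) * 𝔼 v' : K, ind (P v v')), ← mul_expect]
  ring

/-- The final averaging. -/
lemma final (hL : LinA p) [Finite U] (φ : G → Bil p V U) (A : Set G) (K : Submodule (ZMod p) V)
    [Fintype K] (l : V → Bil p G U) (c : V → U →ₗ[ZMod p] ZMod p)
    (T : G →ₗ[ZMod p] Bil p V U) (a b R : ℝ) (hb : 0 ≤ b) (hp : (1 : ℝ) ≤ p)
    (h : a ≤ 𝔼 v : K, ind (rk (l v - T.flip v) ≤ R ∧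
      b ≤ 𝔼 x, ind (x ∈ A ∧ φ x v = l v x + c v))) :
    ∃ B0 : Bil p V U, (𝔼 v, ind (v ∈ K)) * (a * (b ^ 2 * (p : ℝ) ^ (-R))) ≤
      𝔼 x, ind (x ∈ A) * bb (φ x - T x - B0) := by
  set F : V → ℝ := fun v => 𝔼 x, 𝔼 x', ind (x ∈ A ∧ (φ x - T x - (φ x' - T x')) v = 0) with hF
  have hF0 : ∀ v, 0 ≤ F v := fun v =>
    expect_nonneg fun _ _ => expect_nonneg fun _ _ => ind_nonneg _
  have hq : 0 ≤ b ^ 2 * (p : ℝ) ^ (-R) := by positivity
  have h1 : ∀ v, ind (rk (l v - T.flip v) ≤ R ∧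
      b ≤ 𝔼 x, ind (x ∈ A ∧ φ x v = l v x + c v)) * (b ^ 2 * (p : ℝ) ^ (-R)) ≤ F v := by
    intro v
    by_cases hv : rk (l v - T.flip v) ≤ R ∧ b ≤ 𝔼 x, ind (x ∈ A ∧ φ x v = l v x + c v)
    · rw [ind_of hv, one_mul]
      have h2 := hL.coll (l v - T.flip v) {x | x ∈ A ∧ φ x v = l v x + c v}
      simp only [Set.mem_ofPred_eq] at h2
      refine le_trans ?_ (h2.trans ?_)
      · refine mul_le_mul (pow_le_pow_left₀ hb hv.2 2) ?_ (by positivity) (by positivity)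
        exact Real.rpow_le_rpow_of_exponent_le hp (by linarith [hv.1])
      · refine expect_le_expect fun x _ => expect_le_expect fun x' _ => ind_mono ?_
        rintro ⟨⟨hx, e1⟩, ⟨-, e2⟩, e3⟩
        refine ⟨hx, ?_⟩
        simp only [LinearMap.sub_apply, LinearMap.flip_apply] at e3 ⊢
        rw [e1, e2]
        have : l v x = l v x' - T x' v + T x v := by rw [← e3]; abel
        rw [this]; abel
    · rw [ind_of_not hv, zero_mul]; exact hF0 v
  have h3 : a * (b ^ 2 * (p : ℝ) ^ (-R)) ≤ 𝔼 v : K, F v := by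
    refine (mul_le_mul_of_nonneg_right h hq).trans ?_
    rw [expect_mul]
    exact expect_le_expect fun v _ => h1 v
  have h4 : (𝔼 v, ind (v ∈ K)) * 𝔼 v : K, F v ≤ 𝔼 v, F v := by
    rw [← hL.sub_avg K F]
    exact expect_le_expect fun v _ => mul_le_of_le_one_left (hF0 v) (ind_le_one _)
  have h5 : 𝔼 v, F v = 𝔼 x', 𝔼 x, ind (x ∈ A) * bb (φ x - T x - (φ x' - T x')) := by
    rw [hF]
    simp only [bb, mul_expect, ind_and]
    rw [expect_comm, expect_comm univ univ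
      (fun x' x => 𝔼 v, ind (x ∈ A) * ind ((φ x - T x - (φ x' - T x')) v = 0))]
    exact expect_congr rfl fun x _ => expect_comm _ _ _
  have hκ : 0 ≤ 𝔼 v, ind (v ∈ K) := expect_nonneg fun _ _ => ind_nonneg _
  have h6 := (mul_le_mul_of_nonneg_left h3 hκ).trans (h4.trans h5.le)
  obtain ⟨x', -, hx'⟩ := exists_le_of_le_expect univ_nonempty h6
  exact ⟨φ x' - T x', hx'⟩

/-- Jointly valid affine maps have a defect of low rank. -/
lemma rk_le (hL : LinA p) [Finite U] (φ : G → Bil p V U) (A : Set G)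
    (l : V → Bil p G U) (c : V → U →ₗ[ZMod p] ZMod p) (v v' : V) :
    𝔼 x, ind (x ∈ A ∧ φ x v = l v x + c v ∧ φ x v' = l v' x + c v' ∧
      φ x (v + v') = l (v + v') x + c (v + v')) ≤ (p : ℝ) ^ (-rk (df l v v')) := by
  refine le_trans ?_ (hL.aff (df l v v') (c (v + v') - c v - c v'))
  refine expect_le_expect fun x _ => ind_mono ?_
  rintro ⟨-, e1, e2, e3⟩
  rw [map_add, e1, e2] at e3
  simp only [df, LinearMap.sub_apply]
  have : l (v + v') x = l v x + c v + (l v' x + c v') - c (v + v') := by rw [e3]; abel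
  rw [this]; abel

end RM2b

open RM2b in
theorem stRM2 : St_RM2 := by
  intro p _ hL hB hS
  obtain ⟨Cb, hCb, hB⟩ := hB
  obtain ⟨Cs, hS⟩ := hS
  refine ⟨(Cs + 1) * (2 + ⌈Cb⌉₊) + 3, ?_⟩
  intro G V U _ _ _ _ _ _ _ _ _ φ A ε hε h
  classical
  obtain ⟨K, l, c, hκ, hbad⟩ := hS φ A ε hε h
  have hε1 : ε ≤ 1 := h.trans (eps_le_one φ A)
  set θ : ℝ := ε / 2 with hθ
  have hθ0 : 0 < θ := by positivity
  have hθ1 : θ ≤ 1 / 2 := by rw [hθ]; linarith
  have hp1 : (1 : ℝ) < p := by exact_mod_cast (Fact.out : p.Prime).one_lt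
  set β : ℝ := θ ^ (Cs + 1) with hβ
  have hβ0 : 0 < β := by positivity
  have hβ1 : β < 1 := pow_lt_one₀ hθ0.le (by linarith) (by omega)
  have hββ : β ≤ θ ^ Cs := pow_le_pow_of_le_one hθ0.le (by linarith) (by omega)
  set R : ℝ := -Real.logb p β with hR
  have hR0 : 0 < R := by
    rw [hR, neg_pos]; exact Real.logb_neg hp1 hβ0 hβ1
  have hRβ : (p : ℝ) ^ (-R) = β := by
    rw [hR, neg_neg]; exact Real.rpow_logb (by linarith) hp1.ne' hβ0
  have : Fintype K := Fintype.ofFinite K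
  set D : V → V → ℝ := fun v v' => 𝔼 x, ind (x ∈ A ∧ φ x v = l v x + c v ∧
      φ x v' = l v' x + c v' ∧ φ x (v + v') = l (v + v') x + c (v + v')) with hD
  have hbad' : 𝔼 v : K, 𝔼 v' : K, ind (D v v' < θ ^ Cs) ≤ 1 / 10 := by
    have h1 := pair_avg hL K (fun v v' => D v v' < θ ^ Cs)
    have h2 : (𝔼 v, ind (v ∈ K)) ^ 2 * 𝔼 v : K, 𝔼 v' : K, ind (D v v' < θ ^ Cs) ≤
        (𝔼 v, ind (v ∈ K)) ^ 2 * (1 / 10) := by
      rw [← h1]; linarith
    exact le_of_mul_le_mul_left h2 (pow_pos (hθ0.trans_le hκ) 2)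
  obtain ⟨T, hT⟩ := hB (G := K) (fun v => l v) R hR0 (by
    refine le_trans (expect_le_expect fun v _ => expect_le_expect fun v' _ => ind_mono ?_) hbad'
    intro hlt
    by_contra hge
    have h1 : β ≤ (p : ℝ) ^ (-rk (df l v v')) :=
      hββ.trans ((not_lt.1 hge).trans (rk_le hL φ A l c v v'))
    rw [← hRβ, Real.rpow_le_rpow_left_iff hp1] at h1
    have h2 : df (fun v : K => l v) v v' = df l v v' := by simp [df]
    rw [h2] at hlt
    linarith)
  obtain ⟨π, hπ⟩ : ∃ π : V →ₗ[ZMod p] K, ∀ v : K, π v = v := by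
    obtain ⟨π, hπ⟩ := LinearMap.exists_leftInverse_of_injective K.subtype K.ker_subtype
    exact ⟨π, fun v => LinearMap.congr_fun hπ v⟩
  obtain ⟨T', hT'v⟩ : ∃ T' : G →ₗ[ZMod p] Bil p V U, ∀ v : K, T'.flip v = T v := by
    let T1 : V →+ Bil p G U := T.comp π.toAddMonoidHom
    let T2 : V →ₗ[ZMod p] Bil p G U :=
      { toFun := T1
        map_add' := T1.map_add
        map_smul' := fun a v => by
          have e : ∀ n : ℕ, T1 ((n : ZMod p) • v) = (n : ZMod p) • T1 v := by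
            intro n
            rw [Nat.cast_smul_eq_nsmul, Nat.cast_smul_eq_nsmul, map_nsmul]
          have := e a.val
          rwa [ZMod.natCast_zmod_val] at this }
    refine ⟨LinearMap.flip T2, fun v => ?_⟩
    rw [LinearMap.flip_flip]
    simp [T2, T1, hπ]
  have hgood : (2 / 5 : ℝ) ≤ 𝔼 v : K, ind (rk (l v - T'.flip v) ≤ Cb * R ∧
      β ≤ 𝔼 x, ind (x ∈ A ∧ φ x v = l v x + c v)) := by
    have h1 : ∀ v : K, 1 - ind (Cb * R < rk (l v - T v)) - 𝔼 v' : K, ind (D v v' < θ ^ Cs) ≤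
        ind (rk (l v - T'.flip v) ≤ Cb * R ∧ β ≤ 𝔼 x, ind (x ∈ A ∧ φ x v = l v x + c v)) := by
      intro v
      rw [hT'v]
      have e0 : 0 ≤ 𝔼 v' : K, ind (D v v' < θ ^ Cs) := expect_nonneg fun _ _ => ind_nonneg _
      by_cases a1 : Cb * R < rk (l v - T v)
      · rw [ind_of a1]
        linarith [ind_nonneg (rk (l v - T v) ≤ Cb * R ∧
          β ≤ 𝔼 x, ind (x ∈ A ∧ φ x v = l v x + c v))]
      · by_cases a2 : β ≤ 𝔼 x, ind (x ∈ A ∧ φ x v = l v x + c v)
        · rw [ind_of_not a1, ind_of ⟨not_lt.1 a1, a2⟩]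
          linarith
        · have e1 : 1 ≤ 𝔼 v' : K, ind (D v v' < θ ^ Cs) := by
            refine le_expect univ_nonempty fun v' _ => (ind_of ?_).ge
            refine lt_of_le_of_lt ?_ ((not_le.1 a2).trans_le hββ)
            exact expect_le_expect fun x _ => ind_mono fun hx => ⟨hx.1, hx.2.1⟩
          linarith [ind_nonneg (rk (l v - T v) ≤ Cb * R ∧
            β ≤ 𝔼 x, ind (x ∈ A ∧ φ x v = l v x + c v)), ind_nonneg (Cb * R < rk (l v - T v))]
    refine le_trans ?_ (expect_le_expect fun v _ => h1 v)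
    rw [expect_sub_distrib, expect_sub_distrib, Fintype.expect_const]
    linarith
  obtain ⟨B0, hB0⟩ := final hL φ A K l c T' (2 / 5) β (Cb * R) hβ0.le hp1.le hgood
  refine ⟨T', B0, le_trans ?_ hB0⟩
  have e1 : β ^ ⌈Cb⌉₊ ≤ (p : ℝ) ^ (-(Cb * R)) := by
    have : (p : ℝ) ^ (-(Cb * R)) = β ^ Cb := by
      rw [← hRβ, ← Real.rpow_mul (by linarith)]; ring_nf
    rw [this, ← Real.rpow_natCast]
    exact Real.rpow_le_rpow_of_exponent_ge hβ0 hβ1.le (Nat.le_ceil Cb)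
  have e2 : θ ^ 2 ≤ 2 / 5 := by nlinarith
  calc θ ^ ((Cs + 1) * (2 + ⌈Cb⌉₊) + 3) = θ * (θ ^ 2 * (β ^ 2 * β ^ ⌈Cb⌉₊)) := by
        rw [hβ]; ring
    _ ≤ (𝔼 v, ind (v ∈ K)) * (2 / 5 * (β ^ 2 * (p : ℝ) ^ (-(Cb * R)))) := by
        have : 0 ≤ 𝔼 v, ind (v ∈ K) := expect_nonneg fun _ _ => ind_nonneg _
        gcongr

end Pool.Agent.Lib.U4
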