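import Pool.Agent.Lib.U4.BlueA

/-!
Block SAMPLE: a subspace on which the chosen affine maps are almost always jointly valid.
-/

noncomputable section

open Finset Module
open scoped BigOperators

namespace Pool.Agent.Lib.U4

namespace SAMPLE

lemma ind_nonneg (P : Prop) : 0 ≤ ind P := by
  unfold ind; split_ifs <;> norm_num

lemma ind_le_one (P : Prop) : ind P ≤ 1 := by
  unfold ind; split_ifs <;> norm_num

lemma ind_pos {P : Prop} (h : P) : ind P = 1 := by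
  unfold ind; simp [h]

lemma ind_neg {P : Prop} (h : ¬ P) : ind P = 0 := by
  unfold ind; simp [h]

lemma ind_mono {P Q : Prop} (h : P → Q) : ind P ≤ ind Q := by
  by_cases hP : P
  · rw [ind_pos hP, ind_pos (h hP)]
  · rw [ind_neg hP]; exact ind_nonneg Q

lemma ex_mono {X : Type} [Fintype X] {f g : X → ℝ} (h : ∀ x, f x ≤ g x) :
    𝔼 x, f x ≤ 𝔼 x, g x := Finset.expect_le_expect (fun x _ => h x)

lemma ex_nonneg {X : Type} [Fintype X] {f : X → ℝ} (h : ∀ x, 0 ≤ f x) :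
    0 ≤ 𝔼 x, f x := Finset.expect_nonneg (fun x _ => h x)

lemma ex_le {X : Type} [Fintype X] [Nonempty X] {f : X → ℝ} {c : ℝ} (h : ∀ x, f x ≤ c) :
    𝔼 x, f x ≤ c := by
  have := ex_mono (g := fun _ => c) h
  rwa [Fintype.expect_const] at this

/-- Choice of a good quadruple. -/
lemma pick {G : Type} [Fintype G] [Nonempty G] (w b a : G → G → G → ℝ) (σ : G → ℝ) (θ : ℝ)
    (hθ : 0 < θ) (hθ2 : θ ≤ 1 / 2) (P : G → G → G → Prop)
    (hw : ∀ x y t, w x y t = ind (P x y t)) (hb : ∀ x y t, b x y t ≤ 1)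
    (ha0 : ∀ x y t, 0 ≤ a x y t) (hσ0 : ∀ x, 0 ≤ σ x)
    (hε : 2 * θ ≤ 𝔼 x, 𝔼 y, 𝔼 t, w x y t * b x y t)
    (ha : 𝔼 x, 𝔼 y, 𝔼 t, a x y t ≤ θ ^ 9) (hσ : 𝔼 x, σ x ≤ θ ^ 9) :
    ∃ x y t, P x y t ∧ θ ≤ b x y t ∧ 60 * θ * a x y t + 20 * σ x < θ ^ 2 := by
  by_contra hcon
  push Not at hcon
  have key : ∀ x y t, θ ^ 2 * (w x y t * b x y t) ≤
      θ ^ 3 + (60 * θ * a x y t + 20 * σ x) := by
    intro x y t
    have h1 : 0 ≤ 60 * θ * a x y t + 20 * σ x := by
      have := ha0 x y t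
      have := hσ0 x
      positivity
    have h3 : 0 < θ ^ 3 := by positivity
    have h2 : 0 < θ ^ 2 := by positivity
    by_cases hP : P x y t
    · rw [hw, ind_pos hP, one_mul]
      by_cases hbθ : θ ≤ b x y t
      · have := hcon x y t hP hbθ
        have h4 : θ ^ 2 * b x y t ≤ θ ^ 2 * 1 := mul_le_mul_of_nonneg_left (hb x y t) h2.le
        linarith
      · push Not at hbθ
        have h4 : θ ^ 2 * b x y t ≤ θ ^ 2 * θ := mul_le_mul_of_nonneg_left hbθ.le h2.le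
        nlinarith
    · rw [hw, ind_neg hP, zero_mul, mul_zero]
      linarith
  have h1 : 𝔼 x, 𝔼 y, 𝔼 t, θ ^ 2 * (w x y t * b x y t) ≤
      𝔼 x, 𝔼 y, 𝔼 t, (θ ^ 3 + (60 * θ * a x y t + 20 * σ x)) :=
    ex_mono fun x => ex_mono fun y => ex_mono fun t => key x y t
  simp only [Finset.expect_add_distrib, ← Finset.mul_expect, Fintype.expect_const] at h1
  have h2 : θ ^ 2 * (2 * θ) ≤ θ ^ 2 * 𝔼 x, 𝔼 y, 𝔼 t, w x y t * b x y t :=
    mul_le_mul_of_nonneg_left hε (by positivity)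
  have h3 : 60 * θ * 𝔼 x, 𝔼 y, 𝔼 t, a x y t ≤ 60 * θ * θ ^ 9 :=
    mul_le_mul_of_nonneg_left ha (by positivity)
  have h6 : θ ^ 6 ≤ (1 / 2) ^ 6 := pow_le_pow_left₀ hθ.le hθ2 6
  have h3' : 0 < θ ^ 3 := by positivity
  have h9 : θ ^ 9 ≤ θ ^ 3 * (1 / 2) ^ 6 := by
    have : θ ^ 9 = θ ^ 3 * θ ^ 6 := by ring
    rw [this]
    exact mul_le_mul_of_nonneg_left h6 h3'.le
  have h10 : θ * θ ^ 9 ≤ 1 / 2 * θ ^ 9 := mul_le_mul_of_nonneg_right hθ2 (by positivity)
  nlinarith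

/-- The final count. -/
lemma count {V : Type} [AddCommGroup V] [Fintype V] (K : V → Prop) (B : V → Prop)
    (E : V → V → Prop) (bad : V → V → Prop)
    (h : ∀ v v', bad v v' → K v ∧ K v' ∧ (B v ∨ B v' ∨ B (v + v') ∨ E v v')) :
    𝔼 v, 𝔼 v', ind (bad v v') ≤
      3 * (𝔼 v, ind (K v)) * (𝔼 v, ind (B v)) + 𝔼 v, 𝔼 v', ind (E v v') := by
  have key : ∀ v v', ind (bad v v') ≤ ind (B v) * ind (K v') + ind (K v) * ind (B v') +
      ind (K v) * ind (B (v + v')) + ind (E v v') := by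
    intro v v'
    have n1 := mul_nonneg (ind_nonneg (B v)) (ind_nonneg (K v'))
    have n2 := mul_nonneg (ind_nonneg (K v)) (ind_nonneg (B v'))
    have n3 := mul_nonneg (ind_nonneg (K v)) (ind_nonneg (B (v + v')))
    have n4 := ind_nonneg (E v v')
    by_cases hb : bad v v'
    · obtain ⟨h1, h2, h3⟩ := h v v' hb
      rw [ind_pos hb]
      rw [ind_pos h1, ind_pos h2] at *
      rcases h3 with h3 | h3 | h3 | h3 <;> rw [ind_pos h3] at * <;> linarith
    · rw [ind_neg hb]; linarith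
  have h1 := ex_mono fun v => ex_mono fun v' => key v v'
  have h2 : ∀ v : V, 𝔼 v', ind (B (v + v')) = 𝔼 w, ind (B w) := fun v =>
    Fintype.expect_equiv (Equiv.addLeft v) _ _ (fun _ => rfl)
  simp only [Finset.expect_add_distrib, ← Finset.mul_expect, h2, ← Finset.expect_mul] at h1
  linarith

end SAMPLE

open SAMPLE in
theorem stSAMPLE : St_SAMPLE := by
  intro p _ hAtom hLab
  obtain ⟨C1, hLab⟩ := hLab
  refine ⟨30 * C1 + 9, ?_⟩
  intro G V U _ _ _ _ _ _ _ _ _ φ A ε hε hle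
  haveI : NeZero p := ⟨(Fact.out : p.Prime).ne_zero⟩
  haveI : Finite (U →ₗ[ZMod p] ZMod p) := Finite.of_injective _ DFunLike.coe_injective
  set θ : ℝ := ε / 2 with hθdef
  have hθ : 0 < θ := by positivity
  have hb1 : ∀ x y t, bb (dq φ x y t) ≤ 1 := fun x y t => ex_le fun v => ind_le_one _
  have hb0 : ∀ x y t, 0 ≤ bb (dq φ x y t) := fun x y t => ex_nonneg fun v => ind_nonneg _
  have hθ2 : θ ≤ 1 / 2 := by
    have : 𝔼 x, 𝔼 y, 𝔼 t, in4 A x y t * bb (dq φ x y t) ≤ 1 :=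
      ex_le fun x => ex_le fun y => ex_le fun t =>
        mul_le_one₀ (ind_le_one _) (hb0 x y t) (hb1 x y t)
    linarith
  have hγ : 0 < θ ^ 9 := by positivity
  have hγ1 : θ ^ 9 ≤ 1 := pow_le_one₀ hθ.le (by linarith)
  choose lab s hs hcard hlab using fun v : V => hLab (fun x => φ x v) (θ ^ 9) hγ hγ1
  set β : ℝ := θ ^ (30 * C1 + 9) with hβ
  have hβ0 : 0 ≤ β := by positivity
  let B : V → G → Prop := fun v x => φ x v ≠ (lab v x).1 x + (lab v x).2
  let S : V → V → Set G := fun v v' => {x | x ∈ A ∧ ¬ B v x ∧ ¬ B v' x ∧ ¬ B (v + v') x}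
  let L3 := fun (v v' : V) (x : G) => (lab v x, lab v' x, lab (v + v') x)
  let E : G → V → V → Prop := fun x v v' =>
    x ∈ S v v' ∧ 𝔼 y, ind (y ∈ S v v' ∧ L3 v v' y = L3 v v' x) < β
  have hN : ∀ v, ((s v).card : ℝ) * θ ^ (10 * C1) ≤ 1 := by
    intro v
    have h1 : (2 / θ ^ 9) * θ ^ 10 ≤ 1 := by
      have : (2 / θ ^ 9) * θ ^ 10 = 2 * θ := by field_simp
      rw [this]; linarith
    calc ((s v).card : ℝ) * θ ^ (10 * C1) ≤ (2 / θ ^ 9) ^ C1 * θ ^ (10 * C1) :=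
          mul_le_mul_of_nonneg_right (hcard v) (by positivity)
      _ = ((2 / θ ^ 9) * θ ^ 10) ^ C1 := by rw [mul_pow, ← pow_mul]
      _ ≤ 1 := pow_le_one₀ (by positivity) h1
  have hE : ∀ v v', 𝔼 x, ind (E x v v') ≤ θ ^ 9 := by
    intro v v'
    have h1 := hAtom (L3 v v') (s v ×ˢ s v' ×ˢ s (v + v')) (S v v') β hβ0
      (fun x => Finset.mem_product.2 ⟨hs v x, Finset.mem_product.2 ⟨hs v' x, hs (v + v') x⟩⟩)
    refine h1.trans ?_
    rw [Finset.card_product, Finset.card_product]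
    push_cast
    have e : ((s v).card : ℝ) * (((s v').card : ℝ) * ((s (v + v')).card : ℝ)) * β =
        (((s v).card : ℝ) * θ ^ (10 * C1)) * ((((s v').card : ℝ) * θ ^ (10 * C1)) *
          (((s (v + v')).card : ℝ) * θ ^ (10 * C1))) * θ ^ 9 := by
      rw [hβ]; ring
    rw [e]
    have n : ∀ v, 0 ≤ ((s v).card : ℝ) * θ ^ (10 * C1) := fun v => by positivity
    have h2 : (((s v).card : ℝ) * θ ^ (10 * C1)) * ((((s v').card : ℝ) * θ ^ (10 * C1)) *
          (((s (v + v')).card : ℝ) * θ ^ (10 * C1))) ≤ 1 :=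
      mul_le_one₀ (hN v) (mul_nonneg (n _) (n _)) (mul_le_one₀ (hN v') (n _) (hN _))
    calc _ ≤ 1 * θ ^ 9 := mul_le_mul_of_nonneg_right h2 hγ.le
      _ = θ ^ 9 := one_mul _
  obtain ⟨x, y, t, hP, hbθ, hF⟩ := pick (in4 A) (fun x y t => bb (dq φ x y t))
    (fun x y t => 𝔼 v, ind (B v x ∧ dq (fun x => φ x v) x y t = 0))
    (fun x => 𝔼 v, 𝔼 v', ind (E x v v')) θ hθ hθ2
    (fun x y t => x ∈ A ∧ x + t ∈ A ∧ y ∈ A ∧ y + t ∈ A) (fun _ _ _ => rfl) hb1
    (fun x y t => ex_nonneg fun v => ind_nonneg _)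
    (fun x => ex_nonneg fun v => ex_nonneg fun v' => ind_nonneg _)
    (by rw [hθdef]; linarith)
    (by
      have e : 𝔼 x, 𝔼 y, 𝔼 t, 𝔼 v, ind (B v x ∧ dq (fun x => φ x v) x y t = 0) =
          𝔼 v, 𝔼 x, 𝔼 y, 𝔼 t, ind (B v x ∧ dq (fun x => φ x v) x y t = 0) := by
        rw [Finset.expect_comm (univ : Finset V)]
        refine Finset.expect_congr rfl fun x _ => ?_
        rw [Finset.expect_comm (univ : Finset V)]
        refine Finset.expect_congr rfl fun y _ => ?_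
        rw [Finset.expect_comm (univ : Finset V)]
      rw [e]
      exact ex_le fun v => hlab v)
    (by
      have e : 𝔼 x, 𝔼 v, 𝔼 v', ind (E x v v') = 𝔼 v, 𝔼 v', 𝔼 x, ind (E x v v') := by
        rw [Finset.expect_comm (univ : Finset G)]
        refine Finset.expect_congr rfl fun v _ => ?_
        rw [Finset.expect_comm (univ : Finset G)]
      rw [e]
      exact ex_le fun v => ex_le fun v' => hE v v')
  have hk : 𝔼 v, ind (v ∈ LinearMap.ker (dq φ x y t)) = bb (dq φ x y t) := rfl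
  refine ⟨LinearMap.ker (dq φ x y t), fun v => (lab v x).1, fun v => (lab v x).2, ?_, ?_⟩
  · rw [hk]; exact hbθ
  · have hK : ∀ v, v ∈ LinearMap.ker (dq φ x y t) → dq (fun x => φ x v) x y t = 0 := by
      intro v hv
      have : dq φ x y t v = 0 := hv
      simpa [dq] using this
    refine (count (fun v => v ∈ LinearMap.ker (dq φ x y t))
      (fun v => B v x ∧ dq (fun x => φ x v) x y t = 0) (E x) _ ?_).trans ?_
    · rintro v v' ⟨hv, hv', hlt⟩
      refine ⟨hv, hv', ?_⟩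
      by_cases b1 : B v x
      · exact Or.inl ⟨b1, hK v hv⟩
      by_cases b2 : B v' x
      · exact Or.inr (Or.inl ⟨b2, hK v' hv'⟩)
      by_cases b3 : B (v + v') x
      · exact Or.inr (Or.inr (Or.inl ⟨b3, hK _ (Submodule.add_mem _ hv hv')⟩))
      refine Or.inr (Or.inr (Or.inr ⟨⟨hP.1, b1, b2, b3⟩, lt_of_le_of_lt ?_ hlt⟩))
      refine ex_mono fun z => ind_mono ?_
      rintro ⟨⟨hz, c1, c2, c3⟩, hL⟩
      have e1 : lab v z = lab v x := congrArg (fun q => q.1) hL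
      have e2 : lab v' z = lab v' x := congrArg (fun q => q.2.1) hL
      have e3 : lab (v + v') z = lab (v + v') x := congrArg (fun q => q.2.2) hL
      refine ⟨hz, ?_, ?_, ?_⟩
      · beta_reduce; rw [← e1]; exact not_not.1 c1
      · beta_reduce; rw [← e2]; exact not_not.1 c2
      · beta_reduce; rw [← e3]; exact not_not.1 c3
    · rw [hk]
      set k := bb (dq φ x y t) with hkdef
      set a := 𝔼 v, ind (B v x ∧ dq (fun x => φ x v) x y t = 0) with hadef
      set σ := 𝔼 v, 𝔼 v', ind (E x v v') with hσdef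
      have ha0 : 0 ≤ a := ex_nonneg fun v => ind_nonneg _
      have hσ0 : 0 ≤ σ := ex_nonneg fun v => ex_nonneg fun v' => ind_nonneg _
      have hbθ' : θ ≤ k := hbθ
      have hF' : 60 * θ * a + 20 * σ < θ ^ 2 := hF
      have ha1 : 60 * a ≤ θ := by
        have : θ * (60 * a) ≤ θ * θ := by nlinarith
        exact le_of_mul_le_mul_left this hθ
      have hk0 : 0 ≤ k := by linarith
      have h1 : k * (60 * a) ≤ k * k := mul_le_mul_of_nonneg_left (by linarith) hk0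
      have h2 : θ ^ 2 ≤ k ^ 2 := pow_le_pow_left₀ hθ.le hbθ' 2
      have h3 : 0 ≤ θ * a := mul_nonneg hθ.le ha0
      nlinarith

end Pool.Agent.Lib.U4
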