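import Pool.Agent.Lib.U4.BlueU

/-! Block STEP: the inductive step of the inverse theorem. -/

noncomputable section

open Finset
open scoped BigOperators ComplexConjugate

namespace Pool.Agent.Lib.U4

open Pool.Agent.Lib.MP_3a84e0_co

namespace STEP

theorem half {u : ℝ} (h0 : 0 ≤ u) (h1 : u ≤ 1 / 2) (n C : ℕ) :
    u ^ ((n + 1) * C) ≤ (u ^ n / 2) ^ C := by
  rw [pow_mul, pow_succ]
  gcongr
  exact (mul_le_mul_of_nonneg_left h1 (pow_nonneg h0 n)).trans_eq (by ring)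

theorem dens {V : Type} [AddCommGroup V] [Fintype V] {a : V → ℝ} {u : ℝ} (h0 : 0 ≤ u)
    (h1 : ∀ h, a h ≤ 1) (h2 : 2 * u ≤ 𝔼 h, a h) : u ≤ 𝔼 h, ind (h ∈ {h | u ≤ a h}) := by
  have : 𝔼 h, a h ≤ 𝔼 h, (ind (h ∈ {h | u ≤ a h}) + u) := expect_le_expect fun h _ => by
    unfold ind
    split_ifs with h3
    · linarith [h1 h]
    · linarith [not_le.mp (show ¬u ≤ a h from h3)]
  rw [expect_add_distrib, Fintype.expect_const] at this
  linarith

end STEP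

open STEP in
theorem stSTEP : St_STEP := by
  rintro p _ hQ hR hS hI e he ⟨C1, h1⟩ ⟨C2, h2⟩
  obtain ⟨n1, hn1⟩ : ∃ n, n = ((1 + 1) * C1 + 1) * (4 * 2 ^ (e + 1)) := ⟨_, rfl⟩
  obtain ⟨n2, hn2⟩ : ∃ n, n = (1 + 1) * C1 + (n1 + 1) * C2 := ⟨_, rfl⟩
  obtain ⟨n3, hn3⟩ : ∃ n, n = (n2 * 2 ^ (e + 2) + n2) * 2 ^ (e + 2) := ⟨_, rfl⟩
  refine ⟨(n3 + 1) * C1, fun {V} _ _ _ f δ hδ hf hg => ?_⟩
  obtain ⟨u, rfl⟩ : ∃ u, δ = 2 * u := ⟨δ / 2, by ring⟩
  rw [mul_div_cancel_left₀ u two_ne_zero]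
  have u0 : 0 < u := by linarith
  have u1 : u ≤ 1 / 2 := by linarith [gw_le_one (e + 2) hf]
  obtain ⟨A, hA⟩ : ∃ A : Set V, A = {h | u ≤ gw (e + 1) (md h f)} := ⟨_, rfl⟩
  have a1 : u ≤ 𝔼 h, ind (h ∈ A) :=
    hA ▸ dens u0.le (fun h => gw_le_one (e + 1) (md_le hf h)) hg
  have a2 : ∀ h, ∃ P ∈ (Van (e + 1 + 1) : Submodule (ZMod p) (V → ZMod p)), h ∈ A →
      u ^ ((1 + 1) * C1) ≤ ‖𝔼 x, f (x + h) * conj (f x) * ec (P x)‖ := fun h => by
    by_cases hh : h ∈ A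
    · obtain ⟨ψ, b1, b2⟩ := h1 (md h f) u u0 (md_le hf h) (by rwa [hA] at hh)
      refine ⟨-ψ, neg_mem b1, fun _ => (half u0.le u1 1 C1).trans ?_⟩
      rw [pow_one, ← RCLike.norm_conj, conj_expect]
      refine b2.trans_eq (congrArg _ (expect_congr rfl fun x _ => ?_))
      simp only [md, Pi.neg_apply, ec_neg, map_mul, Complex.conj_conj]
      ring
    · exact ⟨0, zero_mem _, fun h' => absurd h' hh⟩
  choose P hP a3 using a2
  have hg' : ∀ x, ‖conj (f x)‖ ≤ 1 := fun x => (RCLike.norm_conj _).trans_le (hf x)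
  have a4 := hQ e f _ P hP A (u ^ ((1 + 1) * C1 + 1)) hf hg' (by positivity) (by
    rw [pow_succ]
    refine (mul_le_mul_of_nonneg_left a1 (by positivity)).trans ?_
    rw [mul_expect]
    refine expect_le_expect fun h _ => ?_
    unfold ind
    split_ifs with hh
    · simpa using a3 h hh
    · simp)
  rw [← pow_mul, ← hn1] at a4
  obtain ⟨T, B0, a5⟩ := h2 _ A _ (by positivity) a4
  obtain ⟨Θ, g', P', b1, b2, b3, b4⟩ := hR e (by omega) f _ P hP A _ _ T B0 hg' (by positivity) a3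
    ((half u0.le u1 n1 C2).trans a5)
  rw [← pow_add, ← hn2] at b4
  have b5 := hS e (by omega) f g' Θ P' _ hf b2 b1 b3 (by positivity) b4
  obtain ⟨Q, c1, c2⟩ := hI e he f g' Θ P' _ b2 b1 b3 (by positivity) b4
  obtain ⟨ψ, c3, c4⟩ := h1 (fun x => f x * ec (Q x)) (u ^ n3) (by positivity)
    (fun x => by rw [norm_mul, norm_ec, mul_one]; exact hf x) (le_trans (by
      rw [hn3, pow_mul, pow_add, pow_mul]
      gcongr) c2)
  refine ⟨Q + ψ, add_mem c1 (Van_le_succ _ c3), (half u0.le u1 n3 C1).trans (c4.trans_eq ?_)⟩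
  simp only [Pi.add_apply, ec_add, mul_assoc]

end Pool.Agent.Lib.U4
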