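import Pool.Agent.Lib.U4.BlueE

/-! Block E1: basic entropy inequalities. -/

noncomputable section

open Finset
open scoped BigOperators Classical

namespace Pool.Agent.Lib.U4

open _root_.Pool.Agent.Lib.U4.FP

namespace E1

variable {Ω α β γ δ : Type} [Fintype Ω]

lemma w_le_pr (P : FP Ω) (X : Ω → α) (a : Ω) : P.w a ≤ P.pr X (X a) := by
  unfold FP.pr
  refine le_trans ?_ (single_le_sum (f := fun b => if X b = X a then P.w b else 0)
    (fun b _ => ?_) (mem_univ a))
  · simp
  · split_ifs; exacts [P.nn b, le_rfl]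

lemma pr_pos (P : FP Ω) (X : Ω → α) {a : Ω} (h : 0 < P.w a) : 0 < P.pr X (X a) :=
  h.trans_le (w_le_pr P X a)

lemma pr_le_one (P : FP Ω) (X : Ω → α) (x : α) : P.pr X x ≤ 1 := by
  rw [← P.tot]
  exact sum_le_sum fun b _ => by split_ifs; exacts [le_rfl, P.nn b]

lemma E_mono (P : FP Ω) (f g : Ω → ℝ) (h : ∀ a, 0 < P.w a → f a ≤ g a) : P.E f ≤ P.E g :=
  sum_le_sum fun a _ => by
    rcases (P.nn a).eq_or_lt with e | e
    · rw [← e, zero_mul, zero_mul]
    · exact mul_le_mul_of_nonneg_left (h a e) e.le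

lemma E_const (P : FP Ω) (c : ℝ) : (P.E fun _ => c) = c := by
  rw [FP.E, ← sum_mul, P.tot, one_mul]

lemma pr_mono (P : FP Ω) (X : Ω → α) (Y : Ω → β) (a : Ω)
    (h : ∀ b, 0 < P.w b → X b = X a → Y b = Y a) : P.pr X (X a) ≤ P.pr Y (Y a) :=
  sum_le_sum fun b _ => by
    rcases (P.nn b).eq_or_lt with e | e
    · simp [← e]
    · by_cases h1 : X b = X a
      · rw [if_pos h1, if_pos (h b e h1)]
      · rw [if_neg h1]; split_ifs; exacts [e.le, le_rfl]

lemma H_nonneg (P : FP Ω) (X : Ω → α) : 0 ≤ P.H X := by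
  rw [← E_const P 0]
  exact E_mono P _ _ fun a _ =>
    neg_nonneg.2 (Real.log_nonpos (P.pr_nonneg _ _) (pr_le_one P X _))

lemma H_mono (P : FP Ω) (X : Ω → α) (Y : Ω → β)
    (h : ∀ a b, 0 < P.w a → 0 < P.w b → X a = X b → Y a = Y b) : P.H Y ≤ P.H X :=
  E_mono P _ _ fun a ha => neg_le_neg
    (Real.log_le_log (pr_pos P X ha) (pr_mono P X Y a fun b hb e => h b a hb ha e))

lemma H_const (P : FP Ω) (c : α) : P.H (fun _ => c) = 0 := by
  have : P.pr (fun _ => c) c = 1 := by simp [FP.pr, P.tot]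
  simp [FP.H, this, FP.E]

/-- Gibbs type inequality. -/
lemma gibbs (P : FP Ω) (r : Ω → ℝ) (h0 : ∀ a, 0 < P.w a → 0 < r a) (h1 : P.E r ≤ 1) :
    (P.E fun a => Real.log (r a)) ≤ 0 := by
  have h2 := E_mono P (fun a => Real.log (r a)) (fun a => r a - 1) fun a ha =>
    Real.log_le_sub_one_of_pos (h0 a ha)
  have h3 : (P.E fun a => r a - 1) = P.E r - 1 := by
    simp only [FP.E, mul_sub, sum_sub_distrib, mul_one, P.tot]
  linarith

lemma fib_le (P : FP Ω) (X : Ω → α) (x : α) [∀ a, Decidable (X a = x)] :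
    ∑ a, (if X a = x then P.w a / P.pr X (X a) else 0) ≤ 1 := by
  have : ∑ a, (if X a = x then P.w a / P.pr X (X a) else 0) = P.pr X x / P.pr X x := by
    conv_rhs => enter [1]; unfold FP.pr
    rw [sum_div]
    refine sum_congr rfl fun a _ => ?_
    split_ifs with h
    · rw [h]
    · simp
  rw [this]
  exact div_self_le_one _

lemma sub_key (P : FP Ω) (X : Ω → α) (Y : Ω → β) (K : Ω → γ)
    (hX : ∀ a b, 0 < P.w a → 0 < P.w b → X a = X b → K a = K b)
    (hY : ∀ a b, 0 < P.w a → 0 < P.w b → Y a = Y b → K a = K b) :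
    (P.E fun a => P.pr X (X a) * P.pr Y (Y a) /
      (P.pr K (K a) * P.pr (fun a => (X a, Y a)) (X a, Y a))) ≤ 1 := by
  set Z : Ω → α × β := fun a => (X a, Y a) with hZ
  have e1 : ∀ a, P.w a * (P.pr X (X a) * P.pr Y (Y a) / (P.pr K (K a) * P.pr Z (X a, Y a))) ≤
      ∑ b, ∑ c, (if Z a = (X b, Y c) then P.w a / P.pr Z (Z a) else 0) *
        (if K c = K b then P.w b * P.w c / P.pr K (K b) else 0) := by
    intro a
    have e2 : P.pr X (X a) * P.pr Y (Y a) =
        ∑ b, ∑ c, (if X b = X a then P.w b else 0) * (if Y c = Y a then P.w c else 0) := by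
      unfold FP.pr
      rw [sum_mul_sum]
    rw [e2, sum_div, mul_sum]
    refine sum_le_sum fun b _ => ?_
    rw [sum_div, mul_sum]
    refine sum_le_sum fun c _ => ?_
    have hnn : 0 ≤ (if Z a = (X b, Y c) then P.w a / P.pr Z (Z a) else 0) *
        (if K c = K b then P.w b * P.w c / P.pr K (K b) else 0) := by
      have := P.nn a; have := P.nn b; have := P.nn c
      have := P.pr_nonneg Z (Z a); have := P.pr_nonneg K (K b)
      split_ifs <;> positivity
    rcases (P.nn a).eq_or_lt with ha | ha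
    · rw [← ha, zero_mul]; rwa [← ha] at hnn
    by_cases h1 : X b = X a
    swap
    · rw [if_neg h1]; simpa using hnn
    by_cases h2 : Y c = Y a
    swap
    · rw [if_neg h2]; simpa using hnn
    rw [if_pos h1, if_pos h2]
    rcases (P.nn b).eq_or_lt with hb | hb
    · rw [← hb]; simp
    rcases (P.nn c).eq_or_lt with hc | hc
    · rw [← hc]; simp
    have k1 := hX b a hb ha h1
    have k2 := hY c a hc ha h2
    rw [if_pos (by rw [h1, h2]), if_pos (k2.trans k1.symm), k1]
    apply le_of_eq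
    simp only [hZ]
    ring
  refine (sum_le_sum fun a _ => e1 a).trans ?_
  rw [sum_comm]
  calc _ ≤ ∑ b, P.w b := sum_le_sum fun b _ => ?_
    _ = 1 := P.tot
  rw [sum_comm]
  calc _ ≤ ∑ c, (if K c = K b then P.w b * P.w c / P.pr K (K b) else 0) :=
        sum_le_sum fun c _ => ?_
    _ = P.w b * ∑ c, (if K c = K b then P.w c / P.pr K (K c) else 0) := by
        rw [mul_sum]
        refine sum_congr rfl fun c _ => ?_
        split_ifs with h
        · rw [h, mul_div_assoc]
        · simp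
    _ ≤ P.w b := mul_le_of_le_one_right (P.nn b) (fib_le P K (K b))
  rw [← sum_mul]
  refine mul_le_of_le_one_left ?_ (fib_le P Z _)
  have := P.nn b; have := P.nn c; have := P.pr_nonneg K (K b)
  split_ifs <;> positivity

lemma H_sub (P : FP Ω) (X : Ω → α) (Y : Ω → β) (K : Ω → γ) (J : Ω → δ)
    (hX : ∀ a b, 0 < P.w a → 0 < P.w b → X a = X b → K a = K b)
    (hY : ∀ a b, 0 < P.w a → 0 < P.w b → Y a = Y b → K a = K b)
    (hJ : ∀ a b, 0 < P.w a → 0 < P.w b → X a = X b → Y a = Y b → J a = J b) :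
    P.H J + P.H K ≤ P.H X + P.H Y := by
  set Z : Ω → α × β := fun a => (X a, Y a) with hZ
  have h1 : P.H J ≤ P.H Z := H_mono P Z J fun a b ha hb e =>
    hJ a b ha hb (congrArg Prod.fst e) (congrArg Prod.snd e)
  have h2 := gibbs P _ (fun a ha => div_pos (mul_pos (pr_pos P X ha) (pr_pos P Y ha))
    (mul_pos (pr_pos P K ha) (pr_pos P Z ha))) (sub_key P X Y K hX hY)
  have h3 := E_mono P (fun a => -Real.log (P.pr Z (Z a)) + -Real.log (P.pr K (K a)) -
    -Real.log (P.pr X (X a)) - -Real.log (P.pr Y (Y a))) (fun a => Real.log (P.pr X (X a) *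
      P.pr Y (Y a) / (P.pr K (K a) * P.pr Z (Z a)))) fun a ha => by
    have a1 := (pr_pos P X ha).ne'
    have a2 := (pr_pos P Y ha).ne'
    have a3 := (pr_pos P K ha).ne'
    have a4 := (pr_pos P Z ha).ne'
    rw [Real.log_div (mul_ne_zero a1 a2) (mul_ne_zero a3 a4), Real.log_mul a1 a2,
      Real.log_mul a3 a4]
    linarith
  have h4 : (P.E fun a => -Real.log (P.pr Z (Z a)) + -Real.log (P.pr K (K a)) -
      -Real.log (P.pr X (X a)) - -Real.log (P.pr Y (Y a))) = P.H Z + P.H K - P.H X - P.H Y := by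
    simp only [FP.H, FP.E, mul_sub, mul_add, sum_sub_distrib, sum_add_distrib]
  linarith

lemma H_le_card (P : FP Ω) (X : Ω → α) (s : Finset α) (h : ∀ a, 0 < P.w a → X a ∈ s) :
    P.H X ≤ Real.log s.card := by
  have hs : (0 : ℝ) < s.card := by
    by_contra h0
    have h1 : s = ∅ := by
      rw [← card_eq_zero]
      exact_mod_cast le_antisymm (not_lt.1 h0) (Nat.cast_nonneg _)
    have h2 : ∑ a, P.w a = 0 := sum_eq_zero fun a _ =>
      ((P.nn a).eq_or_lt.resolve_right fun e => by simpa [h1] using h a e).symm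
    rw [P.tot] at h2
    exact one_ne_zero h2
  have h1 : (P.E fun a => (s.card * P.pr X (X a))⁻¹) ≤ 1 := by
    calc _ ≤ ∑ a, (s.card : ℝ)⁻¹ * ∑ x ∈ s, (if X a = x then P.w a / P.pr X (X a) else 0) := by
          refine sum_le_sum fun a _ => ?_
          rcases (P.nn a).eq_or_lt with ha | ha
          · simp [← ha]
          · rw [sum_ite_eq, if_pos (h a ha)]
            apply le_of_eq
            simp only [mul_inv]
            ring
      _ = (s.card : ℝ)⁻¹ * ∑ x ∈ s, ∑ a, (if X a = x then P.w a / P.pr X (X a) else 0) := by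
          rw [← mul_sum, sum_comm]
      _ ≤ (s.card : ℝ)⁻¹ * ∑ _x ∈ s, (1 : ℝ) := by
          gcongr with x
          exact fib_le P X x
      _ = 1 := by rw [sum_const, nsmul_eq_mul, mul_one, inv_mul_cancel₀ hs.ne']
  have h2 := gibbs P _ (fun a ha => inv_pos.2 (mul_pos hs (pr_pos P X ha))) h1
  have h3 := E_mono P (fun a => -Real.log (P.pr X (X a)) - Real.log s.card)
    (fun a => Real.log (s.card * P.pr X (X a))⁻¹) fun a ha => by
    rw [Real.log_inv, Real.log_mul hs.ne' (pr_pos P X ha).ne']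
    linarith
  have h4 : (P.E fun a => -Real.log (P.pr X (X a)) - Real.log s.card) =
      P.H X - Real.log s.card := by
    simp only [FP.H, FP.E, mul_sub, sum_sub_distrib, ← sum_mul, P.tot, one_mul]
  linarith

lemma H_unif (s : Finset Ω) (hs : s.Nonempty) (X : Ω → α)
    (h : ∀ a ∈ s, ∀ b ∈ s, X a = X b → a = b) : (unifOn s hs).H X = Real.log s.card := by
  have hsupp : ∀ a, 0 < (unifOn s hs).w a → a ∈ s := fun a ha => by
    by_contra e
    simp [unifOn, e] at ha
  have hp : ∀ a, 0 < (unifOn s hs).w a →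
      -Real.log ((unifOn s hs).pr X (X a)) = Real.log s.card := fun a ha => by
    have h1 : (unifOn s hs).pr X (X a) = (s.card : ℝ)⁻¹ := by
      unfold FP.pr
      rw [sum_eq_single a]
      · simp [unifOn, hsupp a ha]
      · intro b _ hb
        split_ifs with e
        · have : b ∉ s := fun hb' => hb (h b hb' a (hsupp a ha) e)
          simp [unifOn, this]
        · rfl
      · simp
    rw [h1, Real.log_inv, neg_neg]
  rw [← E_const (unifOn s hs) (Real.log s.card)]
  exact le_antisymm (E_mono _ _ _ fun a ha => (hp a ha).le) (E_mono _ _ _ fun a ha => (hp a ha).ge)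

end E1

theorem stE1 : St_E1 where
  H_nonneg := E1.H_nonneg
  H_mono := E1.H_mono
  H_congr P X Y h := le_antisymm (E1.H_mono P Y X fun a b ha hb => (h a b ha hb).2)
    (E1.H_mono P X Y fun a b ha hb => (h a b ha hb).1)
  H_sub := E1.H_sub
  H_const := E1.H_const
  H_pair_le P X Y := by
    have := E1.H_sub P X Y (fun _ => ()) (fun a => (X a, Y a)) (fun _ _ _ _ _ => rfl)
      (fun _ _ _ _ _ => rfl) fun a b _ _ h1 h2 => by rw [h1, h2]
    rwa [E1.H_const, add_zero] at this
  H_le_card := E1.H_le_card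
  H_unif := E1.H_unif

end Pool.Agent.Lib.U4
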