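import Pool.Agent.Lib.U4.BlueE

/-! Block E2: expectations, laws, conditioning. -/

noncomputable section

open Finset

namespace Pool.Agent.Lib.U4

open _root_.Pool.Agent.Lib.U4.FP

namespace E2

variable {Ω α β ι : Type} [Fintype Ω]

lemma E_mono (P : FP Ω) (f g : Ω → ℝ) (h : ∀ a, 0 < P.w a → f a ≤ g a) : P.E f ≤ P.E g := by
  refine sum_le_sum fun a _ => ?_
  rcases (P.nn a).eq_or_lt with e | e
  · rw [← e, zero_mul, zero_mul]
  · exact mul_le_mul_of_nonneg_left (h a e) e.le

lemma E_congr (P : FP Ω) (f g : Ω → ℝ) (h : ∀ a, 0 < P.w a → f a = g a) : P.E f = P.E g :=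
  le_antisymm (E_mono P f g fun a ha => (h a ha).le) (E_mono P g f fun a ha => (h a ha).ge)

lemma E_const (P : FP Ω) (c : ℝ) : (P.E fun _ => c) = c := by
  unfold E
  rw [← sum_mul, P.tot, one_mul]

lemma E_sub (P : FP Ω) (f g : Ω → ℝ) : (P.E fun a => f a - g a) = P.E f - P.E g := by
  unfold E
  simp only [mul_sub, sum_sub_distrib]

lemma E_map [Fintype α] (P : FP Ω) (X : Ω → α) (f : α → ℝ) :
    (P.map X).E f = P.E fun a => f (X a) := by
  classical
  unfold E
  simp only [FP.map, pr, sum_mul]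
  rw [sum_comm]
  refine sum_congr rfl fun a _ => ?_
  simp

lemma pr_eq_E (P : FP Ω) (X : Ω → α) (x : α) :
    P.pr X x = P.E fun a => open Classical in if X a = x then 1 else 0 := by
  unfold pr E
  refine sum_congr rfl fun a _ => ?_
  by_cases e : X a = x <;> simp [e]

lemma pr_map [Fintype α] (P : FP Ω) (X : Ω → α) (f : α → β) (y : β) :
    (P.map X).pr f y = P.pr (fun a => f (X a)) y := by
  rw [pr_eq_E, pr_eq_E, E_map]

lemma H_map [Fintype α] (P : FP Ω) (X : Ω → α) (f : α → β) :
    (P.map X).H f = P.H fun a => f (X a) := by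
  unfold H
  rw [E_map]
  simp only [pr_map]

lemma pr_id (P : FP Ω) (a : Ω) : P.pr (fun a => a) a = P.w a := by
  unfold pr
  rw [sum_eq_single a]
  · simp
  · intro b _ hb
    simp [hb]
  · simp

lemma le_pr (P : FP Ω) (X : Ω → α) (a : Ω) : P.w a ≤ P.pr X (X a) := by
  classical
  unfold pr
  refine le_trans (le_of_eq ?_) (single_le_sum (f := fun b => open Classical in
    if X b = X a then P.w b else 0) (fun b _ => ?_) (mem_univ a))
  · simp
  · split_ifs
    exacts [P.nn b, le_rfl]

lemma pr_pos (P : FP Ω) (X : Ω → α) (a : Ω) (h : 0 < P.w a) : 0 < P.pr X (X a) :=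
  h.trans_le (le_pr P X a)

lemma cond_w (P : FP Ω) (Y : Ω → β) (a b : Ω) (h : 0 < P.w a) :
    (P.cond Y (Y a)).w b = (open Classical in if Y b = Y a then P.w b else 0) / P.pr Y (Y a) := by
  unfold FP.cond
  rw [dif_neg (pr_pos P Y a h).ne']

lemma cond_supp (P : FP Ω) (Y : Ω → β) (a b : Ω) (h : 0 < P.w a) :
    0 < (P.cond Y (Y a)).w b ↔ 0 < P.w b ∧ Y b = Y a := by
  rw [cond_w P Y a b h, div_pos_iff_of_pos_right (pr_pos P Y a h)]
  split_ifs with e
  · simp [e]
  · simp [e]

lemma tower (P : FP Ω) (Y : Ω → β) (F : β → Ω → ℝ) :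
    (P.E fun a => (P.cond Y (Y a)).E (F (Y a))) = P.E fun a => F (Y a) a := by
  classical
  have h1 : (P.E fun a => (P.cond Y (Y a)).E (F (Y a))) =
      P.E fun a => ∑ b, (if Y b = Y a then P.w b * F (Y b) b / P.pr Y (Y b) else 0) := by
    refine E_congr P _ _ fun a ha => ?_
    unfold E
    refine sum_congr rfl fun b _ => ?_
    rw [cond_w P Y a b ha]
    by_cases e : Y b = Y a
    · rw [if_pos e, if_pos e, e]; ring
    · rw [if_neg e, if_neg e]; simp
  rw [h1]
  unfold E
  simp only [mul_sum]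
  rw [sum_comm]
  refine sum_congr rfl fun b _ => ?_
  rcases (P.nn b).eq_or_lt with e | e
  · simp [← e]
  · have h2 : ∀ a, (P.w a * if Y b = Y a then P.w b * F (Y b) b / P.pr Y (Y b) else 0) =
        (open Classical in if Y a = Y b then P.w a else 0) * (P.w b * F (Y b) b / P.pr Y (Y b)) := by
      intro a
      by_cases e' : Y b = Y a
      · rw [if_pos e', if_pos e'.symm]
      · rw [if_neg e', if_neg (Ne.symm e')]; simp
    simp only [h2]
    rw [← sum_mul]
    exact mul_div_cancel₀ _ (pr_pos P Y b e).ne'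

lemma cond_pr (P : FP Ω) (X : Ω → α) (Y : Ω → β) (b : Ω) (h : 0 < P.w b) :
    (P.cond Y (Y b)).pr X (X b) = P.pr (fun a => (X a, Y a)) (X b, Y b) / P.pr Y (Y b) := by
  conv_lhs => unfold pr
  conv_rhs => enter [1]; unfold pr
  rw [sum_div]
  refine sum_congr rfl fun a _ => ?_
  rw [cond_w P Y b a h]
  by_cases e1 : X a = X b <;> by_cases e2 : Y a = Y b <;> simp [e1, e2]

lemma chain (P : FP Ω) (X : Ω → α) (Y : Ω → β) :
    P.cH X Y = P.E fun a => (P.cond Y (Y a)).H X := by
  have h := tower P Y fun y b => -Real.log ((P.cond Y y).pr X (X b))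
  unfold cH H
  rw [h, ← E_sub]
  refine E_congr P _ _ fun b hb => ?_
  rw [cond_pr P X Y b hb, Real.log_div (pr_pos P (fun a => (X a, Y a)) b hb).ne'
    (pr_pos P Y b hb).ne']
  ring

lemma exists_le_E (P : FP Ω) (f : Ω → ℝ) : ∃ a, 0 < P.w a ∧ f a ≤ P.E f := by
  classical
  have hne : (univ.filter fun a => 0 < P.w a).Nonempty := by
    by_contra h
    have : ∑ a, P.w a = 0 := sum_eq_zero fun a _ => by
      by_contra h'
      exact h ⟨a, mem_filter.2 ⟨mem_univ _, lt_of_le_of_ne (P.nn a) (Ne.symm h')⟩⟩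
    rw [P.tot] at this
    exact one_ne_zero this
  obtain ⟨a, ha, hmin⟩ := exists_min_image _ f hne
  refine ⟨a, (mem_filter.1 ha).2, ?_⟩
  rw [← E_const P (f a)]
  exact E_mono P _ _ fun b hb => hmin b (mem_filter.2 ⟨mem_univ _, hb⟩)

end E2

open E2 in
theorem stE2 : St_E2 where
  E_map := E_map
  H_map := H_map
  ent_map := fun P X => H_map P X id
  map_map := fun P X f => FP.ext (funext fun y => pr_map P X f y)
  map_id := fun P => FP.ext (funext fun a => pr_id P a)
  map_congr := fun P X Y h => FP.ext (funext fun x => by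
    change P.pr X x = P.pr Y x
    rw [pr_eq_E, pr_eq_E]
    exact E_congr P _ _ fun a ha => by rw [h a ha])
  map_supp := fun P X x => by
    change 0 < P.pr X x ↔ _
    constructor
    · intro h
      by_contra hn
      refine h.ne' (sum_eq_zero fun a _ => ?_)
      split_ifs with e
      · by_contra h'
        exact hn ⟨a, lt_of_le_of_ne (P.nn a) (Ne.symm h'), e⟩
      · rfl
    · rintro ⟨a, ha, rfl⟩
      exact pr_pos P X a ha
  pr_pos := pr_pos
  cond_supp := cond_supp
  chain := chain
  tower := tower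
  E_mono := E_mono
  E_congr := E_congr
  E_const := E_const
  E_add := fun P f g => by
    unfold E
    simp only [mul_add, sum_add_distrib]
  E_sub := E_sub
  E_smul := fun P c f => by
    unfold E
    rw [mul_sum]
    exact sum_congr rfl fun a _ => by ring
  E_sum := fun P s f => by
    unfold E
    simp only [mul_sum]
    exact sum_comm
  exists_le_E := exists_le_E
  ent_eq := fun μ => by
    unfold ent H E
    refine sum_congr rfl fun a _ => ?_
    have : μ.pr id (id a) = μ.w a := pr_id μ a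
    beta_reduce
    rw [this, Real.negMulLog]
    ring

end Pool.Agent.Lib.U4
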