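import Pool.Agent.Lib.U4.BlueA

/-!
Block A2: linear stability of approximate homomorphisms from the halving step.
-/

noncomputable section

open Finset Module
open scoped BigOperators

namespace Pool.Agent.Lib.U4

section aux

variable {p : ℕ} {G V U : Type} [AddCommGroup G] [Fintype G] [AddCommGroup V]
  [Module (ZMod p) V] [AddCommGroup U] [Module (ZMod p) U]

/-- The total defect as a natural number. -/
def a2Tot (φ : G → Bil p V U) : ℕ :=
  ∑ x, ∑ y, finrank (ZMod p) (LinearMap.range (df φ x y))

theorem a2_expect_eq (φ : G → Bil p V U) :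
    𝔼 x, 𝔼 y, rk (df φ x y) = (a2Tot φ : ℝ) / ((Fintype.card G : ℝ) * Fintype.card G) := by
  have hN : (Fintype.card G : ℝ) ≠ 0 := by
    exact_mod_cast Fintype.card_ne_zero
  simp only [Fintype.expect_eq_sum_div_card, a2Tot, rk]
  push_cast
  rw [← Finset.sum_div]
  field_simp

end aux

theorem stA2 : St_A2 := by
  intro p _ hA hH
  obtain ⟨C, hC, hH⟩ := hH
  refine ⟨2 * C, by positivity, ?_⟩
  intro G V U _ _ _ _ _ _ _ _ φ
  have hN : (0 : ℝ) < (Fintype.card G : ℝ) * Fintype.card G := by
    have : (0 : ℝ) < Fintype.card G := by exact_mod_cast Fintype.card_pos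
    positivity
  have key : ∀ (n : ℕ) (φ : G → Bil p V U), a2Tot φ = n → ∃ T : G →+ Bil p V U,
      𝔼 x, rk (φ x - T x) ≤ 2 * C * 𝔼 x, 𝔼 y, rk (df φ x y) := by
    intro n
    induction n using Nat.strong_induction_on with
    | _ n ih =>
      intro φ hφ
      rcases Nat.eq_zero_or_pos n with h0 | hpos
      · have hz : ∀ x y, df φ x y = 0 := by
          intro x y
          have h1 : a2Tot φ = 0 := hφ.trans h0
          unfold a2Tot at h1
          rw [Finset.sum_eq_zero_iff] at h1
          have h2 := h1 x (Finset.mem_univ x)
          rw [Finset.sum_eq_zero_iff] at h2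
          have h3 := h2 y (Finset.mem_univ y)
          apply (hA V U).eq_zero
          unfold rk
          rw [h3]
          simp
        refine ⟨AddMonoidHom.mk' φ ?_, ?_⟩
        · intro x y
          have := hz x y
          unfold df at this
          ext v u
          have h6 := congrArg (fun M : Bil p V U => M v u) this
          simp only [LinearMap.sub_apply, LinearMap.zero_apply] at h6
          simp only [LinearMap.add_apply]
          linear_combination h6
        · have h7 : ∀ x, φ x - φ x = 0 := by
            intro x
            ext v u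
            simp
          simp [hz, h7, (hA V U).rk_zero]
      · obtain ⟨φ', h1, h2⟩ := hH φ
        have hlt : a2Tot φ' < n := by
          rw [a2_expect_eq, a2_expect_eq, hφ, div_div, div_le_div_iff₀ hN (by positivity)] at h1
          have hn : (0 : ℝ) < n := by exact_mod_cast hpos
          have h3 : (a2Tot φ' : ℝ) * 2 ≤ n := by
            have : ((a2Tot φ' : ℝ) * 2) * ((Fintype.card G : ℝ) * Fintype.card G) ≤
                n * ((Fintype.card G : ℝ) * Fintype.card G) := by linarith
            exact le_of_mul_le_mul_right this hN
          have : (a2Tot φ' : ℝ) < n := by linarith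
          exact_mod_cast this
        obtain ⟨T, hT⟩ := ih _ hlt φ' rfl
        refine ⟨T, ?_⟩
        have h4 : 𝔼 x, rk (φ x - T x) ≤ 𝔼 x, (rk (φ x - φ' x) + rk (φ' x - T x)) := by
          apply Finset.expect_le_expect
          intro x _
          have : φ x - T x = (φ x - φ' x) + (φ' x - T x) := by abel
          rw [this]
          exact (hA V U).rk_add _ _
        rw [Finset.expect_add_distrib] at h4
        have h5 : 2 * C * 𝔼 x, 𝔼 y, rk (df φ' x y) ≤ 2 * C * ((𝔼 x, 𝔼 y, rk (df φ x y)) / 2) :=
          mul_le_mul_of_nonneg_left h1 (by positivity)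
        linarith
  exact key _ φ rfl

end Pool.Agent.Lib.U4
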