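import Pool.Agent.Lib.U4.BlueE

noncomputable section

open Finset
open scoped BigOperators

namespace Pool.Agent.Lib.U4

open _root_.Pool.Agent.Lib.U4.FP

namespace ARRL

lemma map_prod (h : Api) {Γ Γ' ι : Type} [AddCommGroup Γ] [Fintype Γ] [AddCommGroup Γ']
    [Fintype Γ'] (f : Γ →+ Γ') (s : Finset ι) (μ : ι → FP Γ) :
    (∏ i ∈ s, μ i).map f = ∏ i ∈ s, (μ i).map f := by
  classical
  induction s using Finset.induction_on with
  | empty =>
    rw [prod_empty, prod_empty, ← h.map_zero (Γ := Γ') (1 : FP Γ)]
    refine h.map_congr _ _ _ fun a ha => ?_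
    rw [one_w] at ha
    split_ifs at ha with h0
    · rw [h0, map_zero]
    · exact absurd ha (lt_irrefl _)
  | insert a s ha ih => rw [prod_insert ha, prod_insert ha, h.map_mul, ih]

end ARRL

theorem stARRL : St_ARRL := by
  intro h p _ Γ _ _ _ μ
  have hrow : ∀ j : ZMod p, ∏ i, μ (i - j) = ∏ i, μ i := fun j =>
    (Equiv.subRight j).prod_comp μ
  constructor
  · unfold arr
    rw [h.pi_sum (fun t : ZMod p × ZMod p => μ (t.1 - t.2)) (fun t x => t.2 • x) univ,
      Fintype.prod_prod_type_right]
    refine prod_congr rfl fun j _ => ?_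
    rw [← hrow j]
    exact (ARRL.map_prod h (DistribSMul.toAddMonoidHom Γ j) univ fun i => μ (i - j)).symm
  · have hW : (arr μ).H (fun y => ∑ t, y t) = ((∏ i, μ i) ^ p).ent := by
      unfold arr
      rw [← h.ent_map, h.pi_sum (fun t : ZMod p × ZMod p => μ (t.1 - t.2)) (fun _ x => x) univ,
        Fintype.prod_prod_type_right]
      simp only [h.map_id, hrow, prod_const, card_univ, ZMod.card]
    have hC : (arr μ).H (fun y => ∑ t ∈ univ.filter (fun t : ZMod p × ZMod p => t.2 = 0), y t) =
        (∏ i, μ i).ent := by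
      unfold arr
      rw [← h.ent_map, h.pi_sum (fun t : ZMod p × ZMod p => μ (t.1 - t.2)) (fun _ x => x),
        prod_filter, Fintype.prod_prod_type]
      simp [h.map_id]
    have hs := h.split_H (fun t : ZMod p × ZMod p => μ (t.1 - t.2))
      (univ.filter fun t : ZMod p × ZMod p => t.2 = 0)
      (fun y => ∑ t ∈ univ.filter (fun t : ZMod p × ZMod p => t.2 = 0), y t)
      (fun y t => if t.2 = 0 then 0 else y t) (fun x y hxy => sum_congr rfl hxy)
      (fun x y hxy => funext fun t => by
        split_ifs with h0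
        exacts [rfl, hxy t (by simpa using h0)])
    have hsub := h.H_sub (arr μ) (fun y => (∑ t, t.2 • y t, ∑ t, y t))
      (fun y t => if t.2 = 0 then 0 else y t) (fun y => ∑ t, t.2 • y t)
      (fun y => (∑ t ∈ univ.filter (fun t : ZMod p × ZMod p => t.2 = 0), y t,
        fun t : ZMod p × ZMod p => if t.2 = 0 then 0 else y t))
      (fun a b _ _ e => (Prod.ext_iff.1 e).1)
      (fun a b _ _ e => sum_congr rfl fun t _ => by
        have := congrFun e t
        by_cases h0 : t.2 = 0
        · simp [h0]
        · simp only [if_neg h0] at this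
          rw [this])
      (fun a b _ _ e e' => by
        refine Prod.ext ?_ e'
        have key : ∀ y : ZMod p × ZMod p → Γ,
            ∑ t ∈ univ.filter (fun t : ZMod p × ZMod p => t.2 = 0), y t =
              ∑ t, y t - ∑ t : ZMod p × ZMod p, if t.2 = 0 then 0 else y t := fun y => by
          rw [sum_filter, ← sum_sub_distrib]
          exact sum_congr rfl fun t _ => by split_ifs <;> simp
        have e1 : ∑ t, a t = ∑ t, b t := (Prod.ext_iff.1 e).2
        have e2 : (∑ t : ZMod p × ZMod p, if t.2 = 0 then 0 else a t) =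
            ∑ t : ZMod p × ZMod p, if t.2 = 0 then 0 else b t :=
          sum_congr rfl fun t _ => congrFun e' t
        simp only [key, e1, e2])
    unfold FP.I
    rw [hW, ← hC]
    unfold arr at *
    linarith

end Pool.Agent.Lib.U4
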