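import Pool.Agent.Lib.U4.BlueE

/-!
Block ARRM: the three conditional mutual informations of the array.
-/

noncomputable section

open Finset
open scoped BigOperators

namespace Pool.Agent.Lib.U4

open _root_.Pool.Agent.Lib.U4.FP

namespace ARRM

/-- data processing -/
theorem dp (h : Api) {Ω α β α' β' γ : Type} [Fintype Ω] (P : FP Ω) (X : Ω → α) (Y : Ω → β)
    (f : α → α') (g : β → β') (W : Ω → γ) :
    P.cI (fun a => f (X a)) (fun a => g (Y a)) W ≤ P.cI X Y W := by
  have h1 := h.H_sub P (fun a => (X a, W a)) (fun a => (f (X a), g (Y a), W a))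
    (fun a => (f (X a), W a)) (fun a => (X a, g (Y a), W a))
    (fun a b _ _ e => by
      obtain ⟨e1, e2⟩ := Prod.mk.inj e
      rw [e1, e2])
    (fun a b _ _ e => by
      obtain ⟨e1, e2⟩ := Prod.mk.inj e
      obtain ⟨-, e3⟩ := Prod.mk.inj e2
      rw [e1, e3])
    (fun a b _ _ e e' => by
      obtain ⟨e1, -⟩ := Prod.mk.inj e
      obtain ⟨-, e2⟩ := Prod.mk.inj e'
      rw [e1, e2])
  have h2 := h.H_sub P (fun a => (Y a, W a)) (fun a => (X a, g (Y a), W a))
    (fun a => (g (Y a), W a)) (fun a => (X a, Y a, W a))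
    (fun a b _ _ e => by
      obtain ⟨e1, e2⟩ := Prod.mk.inj e
      rw [e1, e2])
    (fun a b _ _ e => (Prod.mk.inj e).2)
    (fun a b _ _ e e' => by
      obtain ⟨e1, -⟩ := Prod.mk.inj e'
      rw [e1, e])
  unfold cI
  linarith

theorem cI_map (h : Api) {Ω Ω' α β γ : Type} [Fintype Ω] [Fintype Ω'] (P : FP Ω) (F : Ω → Ω')
    (X : Ω' → α) (Y : Ω' → β) (W : Ω' → γ) :
    (P.map F).cI X Y W = P.cI (fun a => X (F a)) (fun a => Y (F a)) fun a => W (F a) := by
  unfold cI
  rw [h.H_map, h.H_map, h.H_map, h.H_map]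

theorem key (h : Api) (hM : MutBound) (p : ℕ) [Fact p.Prime] {Γ : Type} [AddCommGroup Γ]
    [Fintype Γ] [Module (ZMod p) Γ] (η : ℝ) (μ0 : FP Γ) (μ : ZMod p → FP Γ) (hη : 0 ≤ η)
    (hm : IsMin η μ0 μ) (ε : ZMod p × ZMod p → ZMod p × ZMod p) (u v : ZMod p × ZMod p → ZMod p)
    (hu : ∀ s, u (ε s) = s.2) (hv : ∀ s, v (ε s) = s.1)
    (hc : ∀ j, Function.Injective fun a => (ε (a, j)).1 - (ε (a, j)).2)
    (hr : ∀ a, Function.Injective fun j => (ε (a, j)).1 - (ε (a, j)).2) :
    (arr μ).cI (fun y => ∑ t, u t • y t) (fun y => ∑ t, v t • y t) (fun y => ∑ t, y t) ≤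
      η * (p * mD μ) := by
  have hp : 0 < p := (Fact.out : p.Prime).pos
  obtain ⟨n, hn⟩ : ∃ n, Fintype.card (ZMod p) = n + 1 :=
    ⟨p - 1, by rw [ZMod.card]; omega⟩
  let e0 : Fin (n + 1) ≃ ZMod p := (Fintype.equivFinOfCardEq hn).symm
  have hε : Function.Bijective ε := Finite.injective_iff_bijective.1 fun s s' e =>
    Prod.ext (by rw [← hv s, ← hv s', e]) (by rw [← hu s, ← hu s', e])
  let e : ZMod p × Fin (n + 1) ≃ ZMod p × ZMod p :=
    ((Equiv.refl _).prodCongr e0).trans (Equiv.ofBijective ε hε)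
  have he : ∀ a b, e (a, b) = ε (a, e0 b) := fun a b => rfl
  have h1 := hM η μ0 μ hη hm n (fun s => μ ((e s).1 - (e s).2)) (fun b =>
    ⟨Equiv.ofBijective _ (Finite.injective_iff_bijective.1 (hc (e0 b))), fun a => rfl⟩)
  have h2 : ∀ a, ∏ b, μ ((e (a, b)).1 - (e (a, b)).2) = ∏ i, μ i := fun a =>
    (e0.trans (Equiv.ofBijective _ (Finite.injective_iff_bijective.1 (hr a)))).prod_comp μ
  have h3 : ∑ a, (∏ b, μ ((e (a, b)).1 - (e (a, b)).2)).ent - ∑ i, (μ i).ent = p * mD μ := by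
    have hp' : (p : ℝ) ≠ 0 := by exact_mod_cast hp.ne'
    simp only [h2, sum_const, card_univ, ZMod.card, nsmul_eq_mul, mD]
    field_simp
  rw [h3, ← h.pi_equiv (fun t : ZMod p × ZMod p => μ (t.1 - t.2)) e, cI_map h] at h1
  have h4 := dp h (arr μ) (fun y b => ∑ a, y (e (a, b))) (fun y a => ∑ b, y (e (a, b)))
    (fun c => ∑ b, e0 b • c b) (fun r => ∑ a, a • r a) (fun y => ∑ t, y (e t))
  have h5 : (fun y : ZMod p × ZMod p → Γ => ∑ t, u t • y t) =
      fun y => ∑ b, e0 b • ∑ a, y (e (a, b)) := by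
    funext y
    rw [← e.sum_comp, Fintype.sum_prod_type_right]
    refine sum_congr rfl fun b _ => ?_
    rw [smul_sum]
    exact sum_congr rfl fun a _ => by rw [he, hu]
  have h6 : (fun y : ZMod p × ZMod p → Γ => ∑ t, v t • y t) =
      fun y => ∑ a, a • ∑ b, y (e (a, b)) := by
    funext y
    rw [← e.sum_comp, Fintype.sum_prod_type]
    refine sum_congr rfl fun a _ => ?_
    rw [smul_sum]
    exact sum_congr rfl fun b _ => by rw [he, hv]
  have h7 : (fun y : ZMod p × ZMod p → Γ => ∑ t, y t) = fun y => ∑ t, y (e t) := by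
    funext y
    exact (e.sum_comp y).symm
  rw [h5, h6, h7]
  exact h4.trans h1

end ARRM

theorem stARRM : St_ARRM := by
  intro h hM p _ hp2 Γ _ _ _ η μ0 μ hη hm
  have h2 : (2 : ZMod p) ≠ 0 := by
    intro h0
    have h1 : ((2 : ℕ) : ZMod p) = 0 := by exact_mod_cast h0
    rw [ZMod.natCast_eq_zero_iff] at h1
    exact hp2 ((Nat.prime_dvd_prime_iff_eq Fact.out Nat.prime_two).1 h1)
  have hs : (fun y : ZMod p × ZMod p → Γ => ∑ t, t.1 • y t + ∑ t, t.2 • y t) =
      fun y => ∑ t : ZMod p × ZMod p, (t.1 + t.2) • y t := by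
    funext y
    simp only [add_smul, sum_add_distrib]
  rw [hs]
  refine ⟨ARRM.key h hM p η μ0 μ hη hm (fun s => (s.2, s.1)) (fun t => t.1) (fun t => t.2)
      (fun _ => rfl) (fun _ => rfl) (fun j a a' e => ?_) (fun a j j' e => ?_),
    ARRM.key h hM p η μ0 μ hη hm (fun s => (s.2, s.1 - s.2)) (fun t => t.1) (fun t => t.1 + t.2)
      (fun _ => rfl) (fun _ => by simp) (fun j a a' e => ?_) (fun a j j' e => ?_),
    ARRM.key h hM p η μ0 μ hη hm (fun s => (s.1 - s.2, s.2)) (fun t => t.2) (fun t => t.1 + t.2)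
      (fun _ => rfl) (fun _ => by simp) (fun j a a' e => ?_) (fun a j j' e => ?_)⟩
  · have e' : j - a = j - a' := e
    linear_combination -e'
  · have e' : j - a = j' - a := e
    linear_combination e'
  · have e' : j - (a - j) = j - (a' - j) := e
    linear_combination -e'
  · have e' : j - (a - j) = j' - (a - j') := e
    exact mul_left_cancel₀ h2 (by linear_combination e')
  · have e' : a - j - j = a' - j - j := e
    linear_combination e'
  · have e' : a - j - j = a - j' - j' := e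
    exact mul_left_cancel₀ h2 (by linear_combination -e')

end Pool.Agent.Lib.U4
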