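import Pool.Agent.Lib.U4.BlueA

/-! Block COC: the part of the cocycle that depends on the sum only. -/

noncomputable section

open Finset Module
open scoped BigOperators

namespace Pool.Agent.Lib.U4

namespace COC

section shifts

variable {G : Type} [AddCommGroup G] [Fintype G]

lemma shl (f : G → ℝ) (t : G) : 𝔼 x, f (t + x) = 𝔼 x, f x :=
  Fintype.expect_equiv (Equiv.addLeft t) _ _ fun _ => rfl

lemma shr (f : G → ℝ) (t : G) : 𝔼 x, f (x + t) = 𝔼 x, f x :=
  Fintype.expect_equiv (Equiv.addRight t) _ _ fun _ => rfl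

lemma av1 (f : G → G → ℝ) : 𝔼 x, 𝔼 y, 𝔼 z, f (x + y) z = 𝔼 x, 𝔼 y, f x y := by
  have : ∀ x : G, 𝔼 y, 𝔼 z, f (x + y) z = 𝔼 u, 𝔼 z, f u z := fun x =>
    shl (fun u => 𝔼 z, f u z) x
  simp only [this, Fintype.expect_const]

lemma av2 (f : G → G → ℝ) : 𝔼 x, 𝔼 y, 𝔼 z, f x (y + z) = 𝔼 x, 𝔼 y, f x y := by
  have : ∀ x y : G, 𝔼 z, f x (y + z) = 𝔼 u, f x u := fun x y => shl (f x) y
  simp only [this, Fintype.expect_const]

lemma av3 (f : G → G → ℝ) : 𝔼 _x : G, 𝔼 y, 𝔼 z, f y z = 𝔼 x, 𝔼 y, f x y := by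
  simp only [Fintype.expect_const]

lemma av4 (f : G → G → ℝ) : 𝔼 x, 𝔼 y, 𝔼 _z : G, f x y = 𝔼 x, 𝔼 y, f x y := by
  simp only [Fintype.expect_const]

lemma av5 (f : G → G → G → ℝ) :
    𝔼 x, 𝔼 y, 𝔼 z, f x y (x + y + z) = 𝔼 x, 𝔼 y, 𝔼 z, f x y z := by
  have : ∀ x y : G, 𝔼 z, f x y (x + y + z) = 𝔼 u, f x y u := fun x y => shl (f x y) (x + y)
  simp only [this]

lemma av6 (f : G → G → G → ℝ) :
    𝔼 x, 𝔼 y, 𝔼 z, f y z (x + y + z) = 𝔼 x, 𝔼 y, 𝔼 z, f x y z := by
  rw [expect_comm]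
  refine expect_congr rfl fun y _ => ?_
  rw [expect_comm]
  refine expect_congr rfl fun z _ => ?_
  simp only [add_assoc]
  exact shr (f y z) (y + z)

end shifts

variable {p : ℕ} {V U : Type} [AddCommGroup V] [Module (ZMod p) V] [AddCommGroup U]
  [Module (ZMod p) U]

lemma kill (h : RkB p V U) (t : Bil p V U) (A VD V0 : Submodule (ZMod p) V)
    (B UD U0 : Submodule (ZMod p) U) (h1 : ∀ v ∈ VD, ∀ u, t v u = 0)
    (h2 : ∀ v, ∀ u ∈ UD, t v u = 0) :
    rr t V0 U0 ≤ rr t A B + tv V0 A VD + tv U0 B UD := by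
  have a1 := h.rr_tv_left t V0 A VD U0
  have a2 := h.rr_tv_right t (A ⊓ V0) U0 B UD
  have a3 := h.rr_zero t (VD ⊓ V0) U0 fun v hv u _ => h1 v hv.1 u
  have a4 := h.rr_zero t (A ⊓ V0) (UD ⊓ U0) fun v _ u hu => h2 v u hu.1
  have a5 := h.rr_mono t (A ⊓ V0) A (B ⊓ U0) B inf_le_left inf_le_left
  linarith

end COC

open COC in
theorem stCOC : St_COC := by
  intro p _ hB G V U _ _ _ _ _ _ _ _ φ Va Ua V0 U0 δ hδ
  have h := hB V U
  choose r r1 r2 r3 using fun x y : G =>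
    h.r3 (df φ x y) (Va x) (Va (x + y)) (Ua y) (Ua (x + y))
  set e1 : G → G → ℝ := fun x y => rr (df φ x y) (Va x ⊓ Va (x + y)) (Ua y) with he1
  set e2 : G → G → ℝ := fun x y => rr (df φ x y) (Va x) (Ua y ⊓ Ua (x + y)) with he2
  set ε : G → G → ℝ := fun x y => rr (df φ x y - r x y) (Va x) (Ua y) with hε
  have hεδ : 𝔼 x, 𝔼 y, ε x y ≤ δ :=
    le_trans (expect_le_expect fun x _ => expect_le_expect fun y _ => r3 x y) hδ
  have hδ' : 𝔼 x, 𝔼 y, e1 x y + 𝔼 x, 𝔼 y, e2 x y ≤ δ := by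
    simpa only [expect_add_distrib] using hδ
  have key : ∀ x y z : G, rr (r (x + y) z - r x (y + z)) V0 U0 ≤
      ε (x + y) z + ε x (y + z) + e2 y z + e1 x y +
        tv V0 (Va x ⊓ Va y ⊓ Va (x + y)) (Va (x + y + z)) +
        tv U0 (Ua y ⊓ Ua z ⊓ Ua (y + z)) (Ua (x + y + z)) := by
    intro x y z
    refine (kill h _ (Va x ⊓ Va y ⊓ Va (x + y)) (Va (x + y + z)) V0
      (Ua y ⊓ Ua z ⊓ Ua (y + z)) (Ua (x + y + z)) U0 ?_ ?_).trans ?_
    · intro v hv u
      have b1 : r (x + y) z v = 0 := r1 (x + y) z hv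
      have b2 : r x (y + z) v = 0 := r1 x (y + z) (by rwa [← add_assoc])
      simp [b1, b2]
    · intro v u hu
      have b1 : (r (x + y) z).flip u = 0 := r2 (x + y) z hu
      have b2 : (r x (y + z)).flip u = 0 := r2 x (y + z) (by rwa [← add_assoc])
      have c1 : r (x + y) z v u = 0 := by simpa using LinearMap.congr_fun b1 v
      have c2 : r x (y + z) v u = 0 := by simpa using LinearMap.congr_fun b2 v
      simp [c1, c2]
    · have e : r (x + y) z - r x (y + z) = (df φ x (y + z) - r x (y + z)) -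
          (df φ (x + y) z - r (x + y) z) + df φ y z - df φ x y := by
        simp only [df, add_assoc]; abel
      set A := Va x ⊓ Va y ⊓ Va (x + y)
      set B := Ua y ⊓ Ua z ⊓ Ua (y + z)
      have a1 := h.rr_sub ((df φ x (y + z) - r x (y + z)) -
          (df φ (x + y) z - r (x + y) z) + df φ y z) (df φ x y) A B
      have a2 := h.rr_add ((df φ x (y + z) - r x (y + z)) -
          (df φ (x + y) z - r (x + y) z)) (df φ y z) A B
      have a3 := h.rr_sub (df φ x (y + z) - r x (y + z)) (df φ (x + y) z - r (x + y) z) A B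
      have a4 : rr (df φ x (y + z) - r x (y + z)) A B ≤ ε x (y + z) :=
        h.rr_mono _ _ _ _ _ (inf_le_left.trans inf_le_left) inf_le_right
      have a5 : rr (df φ (x + y) z - r (x + y) z) A B ≤ ε (x + y) z :=
        h.rr_mono _ _ _ _ _ inf_le_right (inf_le_left.trans inf_le_right)
      have a6 : rr (df φ y z) A B ≤ e2 y z :=
        h.rr_mono _ _ _ _ _ (inf_le_left.trans inf_le_right)
          (le_inf (inf_le_left.trans inf_le_right) inf_le_right)
      have a7 : rr (df φ x y) A B ≤ e1 x y :=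
        h.rr_mono _ _ _ _ _ (le_inf (inf_le_left.trans inf_le_left) inf_le_right)
          (inf_le_left.trans inf_le_left)
      rw [e]
      linarith
  have avg : 𝔼 x, 𝔼 y, 𝔼 z, rr (r (x + y) z - r x (y + z)) V0 U0 ≤
      3 * δ + tvA V0 Va + tvA U0 Ua := by
    refine le_trans (expect_le_expect fun x _ => expect_le_expect fun y _ =>
      expect_le_expect fun z _ => key x y z) ?_
    simp only [expect_add_distrib]
    rw [av1 ε, av2 ε, av3 e2, av4 e1,
      av5 fun x y w => tv V0 (Va x ⊓ Va y ⊓ Va (x + y)) (Va w),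
      av6 fun y z w => tv U0 (Ua y ⊓ Ua z ⊓ Ua (y + z)) (Ua w)]
    unfold tvA
    linarith
  obtain ⟨a, -, ha⟩ := exists_le_of_expect_le univ_nonempty avg
  refine ⟨fun D => r a (D - a), fun D => ⟨?_, ?_⟩, ?_⟩
  · simpa using r1 a (D - a)
  · simpa using r2 a (D - a)
  · have fin : ∀ y z : G, rr (df φ (a + y) z - r a (a + y + z - a)) (Va (a + y) ⊓ V0)
        (Ua z ⊓ U0) ≤ ε (a + y) z + rr (r (a + y) z - r a (y + z)) V0 U0 := by
      intro y z
      have e : df φ (a + y) z - r a (a + y + z - a) =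
          (df φ (a + y) z - r (a + y) z) + (r (a + y) z - r a (y + z)) := by
        rw [show a + y + z - a = y + z by abel]; abel
      rw [e]
      exact (h.rr_add _ _ _ _).trans (add_le_add (h.rr_mono _ _ _ _ _ inf_le_left inf_le_left)
        (h.rr_mono _ _ _ _ _ inf_le_right inf_le_right))
    rw [← shl (fun u => 𝔼 z, rr (df φ u z - r a (u + z - a)) (Va u ⊓ V0) (Ua z ⊓ U0)) a]
    refine le_trans (expect_le_expect fun y _ => expect_le_expect fun z _ => fin y z) ?_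
    simp only [expect_add_distrib]
    rw [shl (fun u => 𝔼 z, ε u z) a]
    linarith

end Pool.Agent.Lib.U4
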