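import Pool.Agent.Lib.U4.BlueU

noncomputable section

open Finset
open scoped BigOperators

namespace Pool.Agent.Lib.U4

open Pool.Agent.Lib.MP_3a84e0_co

namespace CONV

variable {p : ℕ} [Fact p.Prime] {V : Type} [AddCommGroup V] [Module (ZMod p) V] [Fintype V]

lemma one (M : Ml p 1 V) : 𝔼 h : Fin 1 → V, ec (M h) = (ind (M = 0) : ℝ) := by
  by_cases h : M = 0
  · simp [h, ind]
  · obtain ⟨t, ht⟩ : ∃ t, M t ≠ 0 := by
      by_contra! k
      exact h (MultilinearMap.ext k)
    have a : ∀ x, M (x + t) = M x + M t := fun x => by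
      have := M.map_update_add x 0 (x 0) (t 0)
      simp only [Function.update_eq_const_of_subsingleton] at this
      rw [← eq_const_of_subsingleton x 0, ← eq_const_of_subsingleton t 0] at this
      exact (congrArg M (eq_const_of_subsingleton (x + t) 0)).trans this
    have := expect_shift (fun x => ec (M x)) t
    simp only [a, ec_add, ← expect_mul] at this
    rw [ind, if_neg h, Complex.ofReal_zero]
    by_contra k
    exact ht (ZMod.injective_stdAddChar ((mul_eq_left₀ k).1 this |>.trans (AddChar.map_zero_eq_one _).symm))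

lemma ind_nonneg (P : Prop) : 0 ≤ ind P := by unfold ind; split_ifs <;> norm_num

lemma bias_one (M : Ml p 1 V) : bias M = ind (M = 0) := by
  rw [bias, one, Complex.norm_real, Real.norm_of_nonneg (ind_nonneg _)]

/-- Bilinear forms as multilinear forms. -/
def e : Ml p 2 V ≃ₗ[ZMod p] Bil p V V :=
  (multilinearCurryLeftEquiv (ZMod p) (fun _ : Fin 2 => V) (ZMod p)).trans
    (LinearEquiv.congrRight (MultilinearMap.ofSubsingletonₗ (ZMod p) (ZMod p) V (ZMod p) 0).symm)

lemma bias_two (M : Ml p 2 V) : bias M = bb (e M) := by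
  have : ∀ a, 𝔼 h : Fin 1 → V, ec (M (Fin.cons a h)) = (ind (e M a = 0) : ℝ) := fun a =>
    (one (M.curryLeft a)).trans (congrArg (fun P => ((ind P : ℝ) : ℂ)) (propext
      (MultilinearMap.ofSubsingletonₗ (ZMod p) (ZMod p) V (ZMod p) 0).symm.map_eq_zero_iff.symm))
  rw [bias, expect_cons]
  simp only [this]
  rw [← Complex.ofReal_expect, Complex.norm_real,
    Real.norm_of_nonneg (expect_nonneg fun _ _ => ind_nonneg _), bb]

end CONV

open CONV in
theorem stCONV : St_CONV := by
  refine fun p _ => ⟨fun ⟨C, h⟩ => ⟨C, @fun G V _ _ _ _ _ _ φ A ε h0 h1 => ?_⟩,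
    fun ⟨C, h⟩ => ⟨C, fun φ A ε h0 h1 => ?_⟩⟩
  · have := Finite.of_injective _ (DFunLike.coe_injective (F := Ml p 1 V))
    obtain ⟨L, c, h2⟩ := h φ A ε h0 (by simpa only [bias_one] using h1)
    refine ⟨L, c, h2.trans_eq (expect_congr rfl fun x _ => ?_)⟩
    rw [bias_one, sub_sub, sub_eq_zero]
    by_cases a : x ∈ A <;> simp [ind, a]
  · obtain ⟨T, B, h2⟩ := h (fun x => e (φ x)) A ε h0 (by
      simpa only [bias_two, dq, map_add, map_sub] using h1)
    exact ⟨e.symm.toLinearMap ∘ₗ T, e.symm B, by simpa [bias_two] using h2⟩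

end Pool.Agent.Lib.U4
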