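import Pool.Agent.Lib.U4.BlueU

/-! From the inverse theorem on abstract spaces to the polynomial inverse property. -/

open scoped BigOperators

namespace Pool.Agent.Lib.U4

open Pool.Agent.Lib.MP_3a84e0_co

theorem stFINAL : St_FINAL := by
  intro p _ s hs ⟨C, hC⟩
  have hN : 1 ≤ 2 ^ C + 2 ^ (s + 1) * C := le_add_right Nat.one_le_two_pow
  refine ⟨((2 ^ C + 2 ^ (s + 1) * C : ℕ) : ℝ), by exact_mod_cast hN,
    fun n δ f h0 h1 hf hδ => ?_⟩
  obtain ⟨ψ, hψ, h⟩ := hC f (δ ^ 2 ^ (s + 1)) (by positivity) hf ((le_gowers_iff h0.le).1 hδ)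
  obtain ⟨P, hP, h2⟩ := exists_poly hs (neg_mem hψ)
  refine ⟨P, hP, le_trans ?_ (h.trans_eq ?_)⟩
  · rw [Real.rpow_natCast, div_pow, ← pow_mul, div_eq_inv_mul]
    refine mul_le_mul (inv_anti₀ (by positivity) ?_)
      (pow_le_pow_of_le_one h0.le h1 (Nat.le_add_left _ _)) (by positivity) (by positivity)
    exact_mod_cast Nat.le_add_right _ _
  · simp only [corr, avg_eq, ep_eq, h2, Pi.neg_apply, neg_neg]

end Pool.Agent.Lib.U4
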