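import Pool.Agent.Lib.U4.BlueA

noncomputable section

open Finset Module
open scoped BigOperators

namespace Pool.Agent.Lib.U4

namespace GLOB

theorem eprod {A B : Type} [Fintype A] [Fintype B] (f : A × B → ℝ) :
    𝔼 z, f z = 𝔼 a, 𝔼 b, f (a, b) := by
  rw [← univ_product_univ, expect_product]

theorem eshift {G : Type} [AddCommGroup G] [Fintype G] (f : G → ℝ) (a : G) :
    𝔼 b, f (a + b) = 𝔼 b, f b :=
  Fintype.expect_equiv (Equiv.addLeft a) _ _ fun _ => rfl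

end GLOB

open GLOB in
theorem stGLOB : St_GLOB := by
  intro p _ hA hI G V _ _ _ _ _ Va l hl
  have h := hA V V
  obtain ⟨S, h1, h2⟩ := hI (fun z : G × G => Va z.1 ⊓ Va z.2 ⊓ Va (z.1 + z.2)) l hl
  have h3 : 𝔼 z : G × G, cd (Va z.1 ⊓ Va z.2 ⊓ Va (z.1 + z.2)) ≤ 3 * 𝔼 a, cd (Va a) := by
    calc 𝔼 z : G × G, cd (Va z.1 ⊓ Va z.2 ⊓ Va (z.1 + z.2))
        ≤ 𝔼 z : G × G, (cd (Va z.1) + cd (Va z.2) + cd (Va (z.1 + z.2))) :=
          expect_le_expect fun z _ => (h.cd_inf _ _).trans (by linarith [h.cd_inf (Va z.1) (Va z.2)])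
      _ = 3 * 𝔼 a, cd (Va a) := by
          rw [eprod]
          simp only [expect_add_distrib, Fintype.expect_const, eshift (fun b => cd (Va b))]
          ring
  refine ⟨S, h1.trans h3, ?_⟩
  have h4 : tvA S Va ≤ 𝔼 z : G × G, 𝔼 z' : G × G, tv S (Va z.1 ⊓ Va z.2 ⊓ Va (z.1 + z.2))
      (Va z'.1 ⊓ Va z'.2 ⊓ Va (z'.1 + z'.2)) := by
    rw [eprod, tvA]
    refine expect_le_expect fun a _ => expect_le_expect fun b _ => ?_
    rw [eprod]
    refine expect_le_expect fun w _ => ?_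
    rw [← Fintype.expect_const (ι := G) (tv S (Va a ⊓ Va b ⊓ Va (a + b)) (Va w))]
    exact expect_le_expect fun b' _ => h.tv_mono _ _ _ _ _ le_rfl (inf_le_left.trans inf_le_left)
  refine h4.trans (h2.trans ?_)
  rw [mul_comm 3 l, mul_assoc]
  exact mul_le_mul_of_nonneg_left h3 hl.le

end Pool.Agent.Lib.U4
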