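import Pool.Agent.Lib.U4.BlueU

/-! Block GW: facts on Gowers averages. -/

noncomputable section

open Finset
open scoped BigOperators ComplexConjugate

namespace Pool.Agent.Lib.U4

open Pool.Agent.Lib.MP_3a84e0_co

namespace GW

variable {p : ℕ} [Fact p.Prime] {V : Type} [AddCommGroup V] [Fintype V]

lemma gw_iter (j : ℕ) (f : V → ℂ) : gw j f = 𝔼 k : Fin j → V, ‖𝔼 x, mdd j k f x‖ ^ 2 := by
  induction j generalizing f with
  | zero => simp [gw, mdd]
  | succ j ih =>
    rw [expect_cons, gw]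
    refine expect_congr rfl fun t _ => ?_
    rw [ih]
    simp [mdd]

lemma gw_phase (j : ℕ) (f : V → ℂ) (P : V → ZMod p)
    (hP : P ∈ (Van (j + 1) : Submodule (ZMod p) (V → ZMod p))) :
    gw j (fun x => f x * ec (P x)) = gw j f := by
  induction j generalizing f P with
  | zero =>
    have h : ∀ x, P x = P 0 := eq_of_mem_one hP
    simp only [gw]
    rw [show (fun x => f x * ec (P x)) = fun x => f x * ec (P 0) from funext fun x => by rw [h x],
      ← expect_mul, norm_mul, norm_ec, mul_one]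
  | succ j ih =>
    refine expect_congr rfl fun t _ => ?_
    rw [← ih (md t f) _ (mem_Van_succ.1 hP t)]
    congr 1
    ext x
    simp only [md, ad_apply, ec_sub, map_mul]
    ring

lemma gw_shift' (j : ℕ) (f : V → ℂ) (h : V) : gw j (fun x => f (x + h)) = gw j f := by
  rw [← gw_shift j f h, ← gw_shift j (fun x => conj (f (x + h))) 0]
  simp

lemma norm_le (j : ℕ) (f : V → ℂ) (P : V → ZMod p)
    (hP : P ∈ (Van (j + 1) : Submodule (ZMod p) (V → ZMod p))) :
    ‖𝔼 x, f x * ec (P x)‖ ^ 2 ^ (j + 1) ≤ gw j f := by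
  have := gw_pow_le 0 j fun x => f x * ec (P x)
  rw [zero_add, gw_phase j f P hP] at this
  rw [pow_succ', pow_mul]
  exact this

omit [Fintype V] in
lemma mdd_mul (j : ℕ) (k : Fin j → V) (f g : V → ℂ) (x : V) :
    mdd j k (fun y => f y * g y) x = mdd j k f x * mdd j k g x := by
  induction j generalizing f g with
  | zero => rfl
  | succ j ih =>
    simp only [mdd]
    rw [← ih]
    congr 1
    ext y
    simp only [md, map_mul]
    ring

omit [Fintype V] in
lemma mdd_shift (j : ℕ) (k : Fin j → V) (f : V → ℂ) (h x : V) :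
    mdd j k (fun y => f (y + h)) x = mdd j k f (x + h) := by
  induction j generalizing f with
  | zero => rfl
  | succ j ih =>
    simp only [mdd]
    rw [← ih]
    congr 1
    ext y
    simp only [md, add_right_comm]

lemma mdd_ec (j : ℕ) (k : Fin j → V) (P : V → ZMod p) (x : V) :
    mdd j k (fun y => ec (P y)) x = ec (dd j k P x) := by
  induction j generalizing P with
  | zero => rfl
  | succ j ih =>
    simp only [mdd]
    rw [md_ec, ih, dd_succ]

lemma mdd_le (j : ℕ) (k : Fin j → V) (f : V → ℂ) (hf : ∀ x, ‖f x‖ ≤ 1) (x : V) :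
    ‖mdd j k f x‖ ≤ 1 := by
  induction j generalizing f with
  | zero => exact hf x
  | succ j ih => exact ih _ _ (md_le hf _)

lemma mix (j : ℕ) (f g : V → ℂ) (P : V → V → ZMod p) (hg : ∀ x, ‖g x‖ ≤ 1)
    (hP : ∀ h, P h ∈ (Van (j + 1) : Submodule (ZMod p) (V → ZMod p))) :
    (𝔼 h, ‖𝔼 x, f (x + h) * g x * ec (P h x)‖) ^ 2 ^ (j + 2) ≤ gw (j + 1) f := by
  rw [pow_succ, pow_mul]
  refine le_trans (pow_le_pow_left₀ (pow_nonneg (expect_nonneg fun _ _ => norm_nonneg _) _) ?_ 2)
    (gw_mul j f hg)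
  refine (pow_expect_le (fun _ => norm_nonneg _) _).trans ?_
  rw [← Fintype.expect_equiv (Equiv.neg V) (fun h => gw j fun x => f x * g (x + -h))
    (fun h => gw j fun x => f x * g (x + h)) fun _ => rfl]
  refine expect_le_expect fun h _ => (norm_le j (fun x => f (x + h) * g x) _ (hP h)).trans_eq ?_
  rw [← gw_shift' j (fun x => f x * g (x + -h)) h]
  simp

end GW

theorem stGW : St_GW := fun _ _ _ _ _ =>
  ⟨GW.gw_iter, GW.gw_phase, GW.gw_shift', GW.norm_le, GW.mdd_mul, GW.mdd_shift, GW.mdd_ec,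
    GW.mdd_le, GW.mix⟩

end Pool.Agent.Lib.U4
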