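import Pool.Agent.Lib.U4.BlueA

noncomputable section

open Finset Module
open scoped BigOperators

namespace Pool.Agent.Lib.U4

namespace HALF

theorem le2 {G : Type} [Fintype G] {f g : G → G → ℝ} (h : ∀ x y, f x y ≤ g x y) :
    𝔼 x, 𝔼 y, f x y ≤ 𝔼 x, 𝔼 y, g x y :=
  expect_le_expect fun x _ => expect_le_expect fun y _ => h x y

end HALF

open HALF in
theorem stHALF : St_HALF := by
  intro p _ hA hB hG hS hC hL
  refine ⟨21 * 2406 + 63 * 2406 ^ 3, by norm_num, fun {G V U} _ _ _ _ _ _ _ _ φ => ?_⟩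
  have A := hA V U
  have A' := hA U V
  have B := hB V U
  obtain ⟨Va, Ua, h1, h2⟩ := hS φ (1 / 2406) (by norm_num) (by norm_num)
  obtain ⟨V0, v1, v2⟩ := hG Va ((1 / 2406) ^ 2) (by norm_num)
  obtain ⟨U0, u1, u2⟩ := hG Ua ((1 / 2406) ^ 2) (by norm_num)
  set k := 𝔼 x, 𝔼 y, rk (df φ x y) with hk
  rw [expect_add_distrib] at h1
  have kU : 0 ≤ 𝔼 a, cd (Ua a) := expect_nonneg fun a _ => A'.cd_nonneg _
  obtain ⟨b, hb, h3⟩ := hC φ Va Ua V0 U0 (15 * (1 / 2406) * k)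
    ((le2 fun x y => le_add_of_nonneg_right (B.rr_nonneg _ _ _)).trans h2)
  let ψ : G → Bil p V U := fun x => φ x - b x
  have bl : ∀ a, ∀ v ∈ Va a, ∀ u, b a v u = 0 := fun a v hv u => by
    rw [LinearMap.mem_ker.1 ((hb a).1 hv), LinearMap.zero_apply]
  have br : ∀ a, ∀ u ∈ Ua a, ∀ v, b a v u = 0 := fun a u hu v => by
    have := DFunLike.congr_fun (LinearMap.mem_ker.1 ((hb a).2 hu)) v
    simpa using this
  have h4 := hL ψ Va Ua V0 U0 (15 * (1 / 2406) * k) _
    ((le2 fun x y => (B.rr_congr (df ψ x y) (df φ x y - b (x + y)) _ _ fun v hv u hu => by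
      simp only [df, ψ, LinearMap.sub_apply, bl x v hv.1 u, br y u hu.1 v]; ring).le).trans h3)
    ((le2 fun x y => ((B.rr_congr (df ψ x y) (df φ x y) _ _ fun v hv u hu => by
      simp only [df, ψ, LinearMap.sub_apply, bl x v hv.1 u, bl y v hv.2 u, br (x + y) u hu v]
      ring).le).trans (le_add_of_nonneg_left
        (add_nonneg (B.rr_nonneg _ _ _) (B.rr_nonneg _ _ _)))).trans h2)
  obtain ⟨P, Q, p1, -, q1, -, hPQ⟩ := A.proj V0 U0
  refine ⟨fun x => (ψ x).compl₁₂ P Q, ?_, ?_⟩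
  · have e : ∀ x y, df (fun x => (ψ x).compl₁₂ P Q) x y = (df ψ x y).compl₁₂ P Q := fun x y => by
      ext v u; simp [df]
    refine (le2 fun x y => ?_).trans (h4.trans (by linarith))
    rw [e]
    exact B.rk_compl _ _ _ P Q p1 q1
  · have h5 : ∀ x, rk (φ x - (ψ x).compl₁₂ P Q) ≤ cd (Va x) + (cd V0 + cd U0) := fun x => by
      have e : φ x - (ψ x).compl₁₂ P Q = b x + (ψ x - (ψ x).compl₁₂ P Q) := by
        simp only [ψ]; abel
      rw [e]
      exact (A.rk_add _ _).trans (add_le_add (A.rk_le_cd _ _ (hb x).1) (hPQ _))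
    refine (expect_le_expect fun x _ => h5 x).trans ?_
    rw [expect_add_distrib, Fintype.expect_const]
    linarith

end Pool.Agent.Lib.U4
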