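import Pool.Agent.Lib.U4.BlueA

/-! Block INC: the increment lemma. -/

noncomputable section

open Finset Module
open scoped BigOperators

namespace Pool.Agent.Lib.U4

namespace INC

variable {p : ℕ} [Fact p.Prime] {V : Type} [AddCommGroup V] [Module (ZMod p) V] [Finite V]

lemma modular (A B : Submodule (ZMod p) V) : dm (A ⊔ B) + dm (A ⊓ B) = dm A + dm B := by
  unfold dm
  exact_mod_cast Submodule.finrank_sup_add_finrank_inf_eq A B

lemma mono {A B : Submodule (ZMod p) V} (h : A ≤ B) : dm A ≤ dm B := by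
  unfold dm
  exact_mod_cast Submodule.finrank_mono h

lemma dm_top : dm (⊤ : Submodule (ZMod p) V) = finrank (ZMod p) V := by
  unfold dm
  rw [finrank_top]

end INC

theorem stINC : St_INC := by
  intro p _ V Z _ _ _ _ _ N l hl
  have : Finite (Submodule (ZMod p) V) :=
    Finite.of_injective _ (SetLike.coe_injective (A := Submodule (ZMod p) V))
  obtain ⟨S, hS⟩ := Finite.exists_min fun S : Submodule (ZMod p) V =>
    (𝔼 z, (dm S - dm (N z ⊓ S))) + l * cd S
  refine ⟨S, ?_, ?_⟩
  · have h1 := hS ⊤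
    have h2 : 0 ≤ 𝔼 z, (dm S - dm (N z ⊓ S)) :=
      expect_nonneg fun z _ => sub_nonneg.2 (INC.mono inf_le_right)
    simp only [inf_top_eq, cd, INC.dm_top, sub_self, mul_zero, add_zero] at h1
    simp only [cd]
    linarith
  · rw [expect_comm, mul_expect]
    refine expect_le_expect fun z' _ => ?_
    have h1 := hS (N z' ⊓ S)
    have h2 : 𝔼 z, tv S (N z) (N z') = (𝔼 z, (dm S - dm (N z ⊓ S))) -
        𝔼 z, (dm (N z' ⊓ S) - dm (N z ⊓ (N z' ⊓ S))) := by
      rw [← expect_sub_distrib]
      refine expect_congr rfl fun z _ => ?_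
      have h3 := INC.modular (N z ⊓ S) (N z' ⊓ S)
      rw [show N z ⊓ S ⊓ (N z' ⊓ S) = N z ⊓ (N z' ⊓ S) by
        rw [← inf_inf_distrib_right, inf_assoc]] at h3
      rw [tv]
      linarith
    have h4 := INC.modular (N z') S
    have h5 := INC.mono (le_top : N z' ⊔ S ≤ ⊤)
    rw [INC.dm_top] at h5
    have h6 : l * (cd (N z' ⊓ S) - cd S) ≤ l * cd (N z') := by
      refine mul_le_mul_of_nonneg_left ?_ hl.le
      simp only [cd]
      linarith
    rw [h2]
    linarith

end Pool.Agent.Lib.U4
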