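import Pool.Agent.Lib.U4.BlueU

noncomputable section

open Finset
open scoped BigOperators ComplexConjugate

namespace Pool.Agent.Lib.U4

open Pool.Agent.Lib.MP_3a84e0_co

namespace INTEG

variable {p d : ℕ} [Fact p.Prime] {V : Type} [AddCommGroup V] [Module (ZMod p) V]

lemma unc_apply (Θ : V →ₗ[ZMod p] Ml p d V) (k : Fin (d + 1) → V) :
    unc Θ k = Θ (k 0) (Fin.tail k) := rfl

lemma sw_cons (Θ : V →ₗ[ZMod p] Ml p (d + 1) V) (h x : V) :
    sw Θ (Fin.cons h fun _ => x) =
      Θ x (Function.update (fun _ => x) 0 h) - Θ h fun _ => x := by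
  have e : (Fin.tail fun i : Fin (d + 2) =>
      (Fin.cons h (fun _ => x) : Fin (d + 2) → V) (Equiv.swap 0 1 i)) =
      Function.update (fun _ => x) 0 h := by
    funext j
    refine Fin.cases ?_ (fun j => ?_) j
    · simp [Fin.tail]
    · have h1 : (j.succ.succ : Fin (d + 2)) ≠ 1 := fun h => Fin.succ_ne_zero j
        (Fin.succ_injective _ (h.trans Fin.succ_zero_eq_one.symm))
      simp only [Fin.tail]
      rw [Equiv.swap_apply_of_ne_of_ne (Fin.succ_ne_zero _) h1,
        Function.update_of_ne (Fin.succ_ne_zero _), Fin.cons_succ]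
  unfold sw
  rw [MultilinearMap.sub_apply, MultilinearMap.domDomCongr_apply, unc_apply, unc_apply, e]
  simp

lemma sum_update (Θ : V →ₗ[ZMod p] Ml p (d + 1) V) (hΘ : ∀ h, IsSym (Θ h)) (h x : V) :
    ∑ i, unc Θ (Function.update (fun _ => x) i h) =
      ((d : ZMod p) + 2) * Θ h (fun _ => x) +
        ((d : ZMod p) + 1) * sw Θ (Fin.cons h fun _ => x) := by
  have e1 : unc Θ (Function.update (fun _ => x) 0 h) = Θ h fun _ => x := by
    rw [unc_apply, Function.update_self, Fin.tail_update_zero]; rfl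
  have e2 : ∀ j : Fin (d + 1), unc Θ (Function.update (fun _ => x) j.succ h) =
      Θ x (Function.update (fun _ => x) 0 h) := by
    intro j
    rw [unc_apply, Function.update_of_ne (Fin.succ_ne_zero j).symm, Fin.tail_update_succ,
      ← hΘ x (Equiv.swap 0 j) (Function.update (fun _ => x) 0 h)]
    congr 1
    funext i
    by_cases hi : i = j
    · subst hi; simp
    · rw [Function.update_of_ne hi, Function.update_of_ne]
      · rfl
      · intro h0
        apply hi
        rw [Equiv.swap_apply_eq_iff] at h0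
        simpa using h0
  rw [Fin.sum_univ_succ, e1, sum_congr rfl fun j _ => e2 j, sw_cons, sum_const, card_univ,
    Fintype.card_fin, nsmul_eq_mul]
  push_cast
  ring

lemma ex_unit (a : ℂ) : ∃ u : ℂ, ‖u‖ ≤ 1 ∧ u * a = ‖a‖ := by
  by_cases h : a = 0
  · exact ⟨0, by simp, by simp [h]⟩
  · refine ⟨‖a‖ / a, ?_, div_mul_cancel₀ _ h⟩
    rw [norm_div, Complex.norm_real, norm_norm, div_self (norm_ne_zero_iff.2 h)]

end INTEG

open INTEG in
theorem stINTEG : St_INTEG := by
  intro p _ hG hM e he V _ _ _ f g Θ P η hg hΘ hP hη h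
  have hs : ((e : ZMod p) + 2) ≠ 0 := by
    have : ((e + 2 : ℕ) : ZMod p) ≠ 0 := by
      rw [Ne, ZMod.natCast_eq_zero_iff]
      exact Nat.not_dvd_of_pos_of_lt (by omega) he
    exact_mod_cast this
  set s : ZMod p := ((e : ZMod p) + 2)⁻¹ with hsd
  have hs1 : s * ((e : ZMod p) + 2) = 1 := inv_mul_cancel₀ hs
  set Q : V → ZMod p := s • fun x => unc Θ fun _ => x with hQ
  set R : V → V → ZMod p := fun h x => unc Θ (fun _ => x + h) - unc Θ (fun _ => x) -
    ∑ i, unc Θ (Function.update (fun _ => x) i h) with hR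
  have hRm : ∀ h, R h ∈ (Van (e + 1) : Submodule (ZMod p) (V → ZMod p)) := fun h =>
    (hM V).expand (e + 1) (unc Θ) h
  set c : ZMod p := -(s * ((e : ZMod p) + 1)) with hc
  have key : ∀ h x, Θ h (fun _ => x) + P h x = (Q (x + h) - Q x + (P h x - s * R h x)) +
      (c • sw Θ) (Fin.cons h fun _ => x) := by
    intro h x
    simp only [hQ, hR, hc, Pi.smul_apply, smul_eq_mul, MultilinearMap.smul_apply,
      sum_update Θ hΘ]
    linear_combination (-(Θ h fun _ => x)) * hs1
  choose u hu1 hu2 using fun h =>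
    ex_unit (𝔼 x, f (x + h) * g x * ec (Θ h (fun _ => x) + P h x))
  set L : Fin (e + 1 + 1) → V × V →+ V :=
    Fin.cons (AddMonoidHom.fst V V) fun _ => AddMonoidHom.snd V V with hL
  have hLz : ∀ z : V × V, (fun i => L i z) = Fin.cons z.1 fun _ => z.2 := by
    intro z
    funext i
    refine Fin.cases ?_ (fun j => ?_) i <;> simp [hL]
  obtain ⟨ψ, hψ, h2⟩ := (hM V).red (e + 1) (c • sw Θ) L fun z =>
    u z.1 * (f (z.2 + z.1) * g z.2 * ec (Q (z.2 + z.1) - Q z.2 + (P z.1 z.2 - s * R z.1 z.2)))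
  have h3 : η ≤ ‖𝔼 z : V × V, u z.1 * (f (z.2 + z.1) * g z.2 *
      ec (Q (z.2 + z.1) - Q z.2 + (P z.1 z.2 - s * R z.1 z.2))) *
        ec ((c • sw Θ) fun i => L i z)‖ := by
    have e1 : 𝔼 z : V × V, u z.1 * (f (z.2 + z.1) * g z.2 *
      ec (Q (z.2 + z.1) - Q z.2 + (P z.1 z.2 - s * R z.1 z.2))) *
        ec ((c • sw Θ) fun i => L i z) =
        ((𝔼 h, ‖𝔼 x, f (x + h) * g x * ec (Θ h (fun _ => x) + P h x)‖ : ℝ) : ℂ) := by
      rw [expect_prod, Complex.ofReal_expect]
      refine expect_congr rfl fun h _ => ?_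
      rw [← hu2, mul_expect]
      refine expect_congr rfl fun x _ => ?_
      rw [key, ec_add _ ((c • sw Θ) _), hLz]
      ring
    rw [e1, Complex.norm_real]
    exact h.trans (Real.le_norm_self _)
  have hψ2 : ∀ h : V, (fun x => ψ (h, x) - ψ (0, x)) ∈
      (Van (e + 1) : Submodule (ZMod p) (V → ZMod p)) := by
    intro h
    have := neg_mem (comp_mem' (mem_Van_succ.1 hψ (h, 0)) (AddMonoidHom.inr V V))
    convert this using 1
    funext x
    simp
  have h4 := (hG V).mix e (fun x => f x * ec (Q x)) (fun x => g x * ec (ψ (0, x) - Q x))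
    (fun h => P h - s • R h + fun x => ψ (h, x) - ψ (0, x))
    (fun x => by simpa using hg x)
    (fun h => add_mem (sub_mem (hP h) (Submodule.smul_mem _ _ (hRm h))) (hψ2 h))
  refine ⟨Q, Submodule.smul_mem _ _ ((hM V).diag_mem (e + 2) (unc Θ)), le_trans ?_ h4⟩
  have hb : 0 ≤ bias (sw Θ) := norm_nonneg _
  refine pow_le_pow_left₀ (mul_nonneg hb hη) ?_ _
  refine (mul_le_mul ((hM V).bias_smul (e + 1) (sw Θ) c) h3 hη (norm_nonneg _)).trans
    (h2.trans ?_)
  rw [expect_prod]
  refine (RCLike.norm_expect_le (K := ℂ)).trans (expect_le_expect fun h _ => ?_)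
  have e2 : 𝔼 x, u h * (f (x + h) * g x * ec (Q (x + h) - Q x + (P h x - s * R h x))) *
      ec (ψ (h, x)) = u h * 𝔼 x, f (x + h) * ec (Q (x + h)) * (g x * ec (ψ (0, x) - Q x)) *
        ec ((P h - s • R h + fun x => ψ (h, x) - ψ (0, x)) x) := by
    rw [mul_expect]
    refine expect_congr rfl fun x _ => ?_
    have e3 : ec (Q (x + h) - Q x + (P h x - s * R h x)) * ec (ψ (h, x)) =
        ec (Q (x + h)) * ec (ψ (0, x) - Q x) *
          ec ((P h - s • R h + fun x => ψ (h, x) - ψ (0, x)) x) := by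
      simp only [← ec_add, Pi.add_apply, Pi.sub_apply, Pi.smul_apply, smul_eq_mul]
      congr 1
      ring
    linear_combination (u h * f (x + h) * g x) * e3
  simp only
  rw [e2, norm_mul]
  exact mul_le_of_le_one_left (norm_nonneg _) (hu1 h)

end Pool.Agent.Lib.U4
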