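import Pool.Agent.Lib.U4.BlueU

noncomputable section

open Finset
open scoped BigOperators ComplexConjugate

namespace Pool.Agent.Lib.U4

open Pool.Agent.Lib.MP_3a84e0_co

theorem stINV1 : St_INV1 := by
  intro p _
  refine ⟨1, ?_⟩
  intro V _ _ _ f δ h0 hf hδ
  obtain ⟨l, hl⟩ := fourier (p := p) f (g := fun x => conj (f x)) (g' := fun t => 𝔼 x, md t f x)
    (fun x => by simpa using hf x) fun t => norm_expect_le_one (md_le hf t)
  have h1 : ((gw 1 f : ℝ) : ℂ) =
      𝔼 z : V × V, f (z.1 + z.2) * conj (f z.1) * 𝔼 x, md z.2 f x := by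
    rw [expect_prod, expect_comm, gw, Complex.ofReal_expect]
    refine expect_congr rfl fun t _ => ?_
    rw [gw, Complex.ofReal_pow, ← Complex.conj_mul', conj_expect, expect_mul]
    refine expect_congr rfl fun x _ => ?_
    simp only [md, map_mul, RCLike.conj_conj]
    ring
  refine ⟨l, mem_Van_succ.2 fun h => ?_, ?_⟩
  · have : ad h (l : V → ZMod p) = fun _ => -l h := by
      ext x
      simp
    rw [this]
    exact const_mem _
  · rw [← h1, Complex.norm_real] at hl
    have := Real.le_norm_self (gw 1 f)
    rw [pow_one]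
    linarith

end Pool.Agent.Lib.U4
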