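import Pool.Agent.Lib.U4.BlueA

/-!
Few affine maps explain almost all respected quadruples.
-/

noncomputable section

open Finset
open scoped BigOperators

namespace Pool.Agent.Lib.U4

namespace LABb

variable {p : ℕ} {G W : Type} [AddCommGroup G] [Fintype G] [Module (ZMod p) G] [AddCommGroup W]
  [Module (ZMod p) W]

/-- The points not explained by the affine maps in `s`. -/
def B (g : G → W) (s : Finset ((G →ₗ[ZMod p] W) × W)) : Set G :=
  {x | ∀ L ∈ s, g x ≠ L.1 x + L.2}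

lemma ind_nonneg (P : Prop) : 0 ≤ ind P := by
  unfold ind; split_ifs <;> norm_num

lemma ind_le_one (P : Prop) : ind P ≤ 1 := by
  unfold ind; split_ifs <;> norm_num

lemma greedy (g : G → W) (e θ : ℝ)
    (h : ∀ A : Set G, e ≤ 𝔼 x, 𝔼 y, 𝔼 t, in4 A x y t * ind (dq g x y t = 0) →
      ∃ (L : G →ₗ[ZMod p] W) (c : W), θ ≤ 𝔼 x, ind (x ∈ A ∧ g x = L x + c)) (n : ℕ) :
    ∃ s : Finset ((G →ₗ[ZMod p] W) × W), s.Nonempty ∧ s.card ≤ n + 1 ∧
      (𝔼 x, 𝔼 y, 𝔼 t, in4 (B g s) x y t * ind (dq g x y t = 0) ≤ e ∨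
        𝔼 x, ind (x ∈ B g s) ≤ 1 - n * θ) := by
  classical
  induction n with
  | zero =>
    refine ⟨{0}, singleton_nonempty _, by simp, Or.inr ?_⟩
    rw [Nat.cast_zero, zero_mul, sub_zero]
    exact expect_le univ_nonempty fun x _ => ind_le_one _
  | succ n ih =>
    obtain ⟨s, h1, h2, h3⟩ := ih
    by_cases h4 : 𝔼 x, 𝔼 y, 𝔼 t, in4 (B g s) x y t * ind (dq g x y t = 0) ≤ e
    · exact ⟨s, h1, by omega, Or.inl h4⟩
    obtain ⟨L, c, h5⟩ := h _ (not_le.1 h4).le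
    refine ⟨insert (L, c) s, insert_nonempty _ _, (card_insert_le _ _).trans (by omega), Or.inr ?_⟩
    have h6 : ∀ x, ind (x ∈ B g (insert (L, c) s)) =
        ind (x ∈ B g s) - ind (x ∈ B g s ∧ g x = L x + c) := by
      intro x
      have : x ∈ B g (insert (L, c) s) ↔ g x ≠ L x + c ∧ x ∈ B g s := by simp [B]
      rw [this]
      by_cases a : x ∈ B g s <;> by_cases b : g x = L x + c <;> simp [ind, a, b]
    simp only [h6]
    rw [expect_sub_distrib]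
    have := h3.resolve_left h4
    push_cast
    linarith

end LABb

theorem stLAB : St_LAB := by
  classical
  intro p _ ⟨C, hC⟩ hG
  refine ⟨4 * C + 2, fun {G W} _ _ _ _ _ _ g γ h0 h1 => ?_⟩
  have hθ : 0 < (γ ^ 4 / 2) ^ C := by positivity
  obtain ⟨s, hs, hc, h⟩ := LABb.greedy (p := p) g (γ ^ 4) ((γ ^ 4 / 2) ^ C)
    (fun A hA => hC g A _ (by positivity) hA) (⌊1 / (γ ^ 4 / 2) ^ C⌋₊ + 1)
  have h2 : 𝔼 x, 𝔼 y, 𝔼 t, in4 (LABb.B g s) x y t * ind (dq g x y t = 0) ≤ γ ^ 4 := by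
    refine h.resolve_right fun h3 => ?_
    have a1 : 0 ≤ 𝔼 x, ind (x ∈ LABb.B g s) := expect_nonneg fun x _ => LABb.ind_nonneg _
    have a2 := Nat.lt_floor_add_one (1 / (γ ^ 4 / 2) ^ C)
    rw [div_lt_iff₀ hθ] at a2
    push_cast at h3
    linarith
  have h3 : ∀ x, ∃ L ∈ s, (g x ≠ L.1 x + L.2 ↔ x ∈ LABb.B g s) := by
    intro x
    by_cases hx : x ∈ LABb.B g s
    · obtain ⟨L, hL⟩ := hs
      exact ⟨L, hL, iff_of_true (hx L hL) hx⟩
    · have hx' := hx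
      simp only [LABb.B, Set.mem_ofPred_eq, not_forall] at hx'
      obtain ⟨L, hL, hL'⟩ := hx'
      exact ⟨L, hL, iff_of_false hL' hx⟩
  choose lab hl hl' using h3
  refine ⟨lab, s, hl, ?_, ?_⟩
  · have a1 : (s.card : ℝ) ≤ ⌊1 / (γ ^ 4 / 2) ^ C⌋₊ + 1 + 1 := by exact_mod_cast hc
    have a2 := Nat.floor_le (one_div_pos.2 hθ).le
    have a3 : 2 ≤ 2 / γ := by rw [le_div_iff₀ h0]; linarith
    have a4 : 1 / (γ ^ 4 / 2) ^ C ≤ (2 / γ) ^ (4 * C) := by
      rw [pow_mul, one_div, ← inv_pow, inv_div, div_pow 2 γ]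
      gcongr
      norm_num
    have a5 : 1 ≤ (2 / γ) ^ (4 * C) := one_le_pow₀ (by linarith)
    have a6 : 4 ≤ (2 / γ) ^ 2 := by nlinarith
    rw [pow_add]
    nlinarith
  · simp only [hl']
    exact (pow_le_pow_iff_left₀ (expect_nonneg fun _ _ => expect_nonneg fun _ _ =>
      expect_nonneg fun _ _ => LABb.ind_nonneg _) h0.le (by norm_num)).1 ((hG g _).trans h2)

end Pool.Agent.Lib.U4
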