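import Pool.Agent.Lib.U4.BlueA

/-! Small atoms and counting lemmas for linear maps over a prime field. -/

noncomputable section

open Finset Module
open scoped BigOperators

namespace Pool.Agent.Lib.U4

namespace LIN

lemma ind_pos {P : Prop} (h : P) : ind P = 1 := by simp [ind, h]

lemma ind_neg {P : Prop} (h : ¬ P) : ind P = 0 := by simp [ind, h]

lemma ind_nonneg (P : Prop) : 0 ≤ ind P := by
  by_cases h : P
  · rw [ind_pos h]; exact zero_le_one
  · rw [ind_neg h]

lemma ind_and (P Q : Prop) : ind (P ∧ Q) = ind P * ind Q := by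
  by_cases h : P <;> by_cases h' : Q <;> simp [ind, h, h']

lemma ind_congr {P Q : Prop} (h : P ↔ Q) : ind P = ind Q := by rw [propext h]

/-- splitting an average along the fibres of a labelling -/
lemma fibre {G Λ : Type} [Fintype G] (lab : G → Λ) (s : Finset Λ) (S : Set G)
    (hs : ∀ x, lab x ∈ s) (H : Λ → ℝ) :
    𝔼 x, ind (x ∈ S) * H (lab x) = ∑ l ∈ s, (𝔼 y, ind (y ∈ S ∧ lab y = l)) * H l := by
  classical
  have h1 : ∀ x, ind (x ∈ S) * H (lab x) = ∑ l ∈ s, ind (x ∈ S ∧ lab x = l) * H l := by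
    intro x
    rw [sum_eq_single_of_mem (lab x) (hs x) (fun l _ hl => by
      rw [ind_neg (fun h => hl h.2.symm), zero_mul])]
    rw [ind_congr (P := x ∈ S ∧ lab x = lab x) (Q := x ∈ S) (by simp)]
  simp only [h1]
  rw [expect_sum_comm]
  exact sum_congr rfl fun l _ => (expect_mul _ _ _).symm

theorem atom : Atom := by
  intro G Λ _ _ lab s S β hβ hs
  have h1 := fibre lab s S hs (fun l => ind (𝔼 y, ind (y ∈ S ∧ lab y = l) < β))
  simp only [ind_and (_ ∈ S) (_ < β)]
  rw [h1, ← nsmul_eq_mul]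
  refine sum_le_card_nsmul _ _ _ fun l _ => ?_
  by_cases h : 𝔼 y, ind (y ∈ S ∧ lab y = l) < β
  · rw [ind_pos h, mul_one]; exact h.le
  · rw [ind_neg h, mul_zero]; exact hβ

lemma sum_ind_mul {V : Type} [Fintype V] (P : V → Prop) [Fintype {v // P v}] (F : V → ℝ) :
    ∑ v, ind (P v) * F v = ∑ v : {v // P v}, F v := by
  classical
  rw [← sum_subtype (univ.filter P) (by simp) F, sum_filter]
  refine sum_congr rfl fun v _ => ?_
  by_cases h : P v <;> simp [ind, h]

lemma expect_ind {V : Type} [Fintype V] (P : V → Prop) :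
    𝔼 v, ind (P v) = (Nat.card {v // P v} : ℝ) / Nat.card V := by
  classical
  have := sum_ind_mul P (fun _ => 1)
  simp only [mul_one, sum_const, card_univ, nsmul_eq_mul] at this
  rw [Fintype.expect_eq_sum_div_card, this, Nat.card_eq_fintype_card, Nat.card_eq_fintype_card]

variable {p : ℕ} [Fact p.Prime] {V U : Type} [AddCommGroup V] [Module (ZMod p) V] [Fintype V]
  [AddCommGroup U] [Module (ZMod p) U] [Finite U]

omit [Finite U] in
lemma rpow_rk (M : Bil p V U) :
    (p : ℝ) ^ (-rk M) = ((p : ℝ) ^ finrank (ZMod p) (LinearMap.range M))⁻¹ := by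
  rw [rk, Real.rpow_neg (Nat.cast_nonneg p), Real.rpow_natCast]

omit [Finite U] in
theorem bb_eq (M : Bil p V U) : bb M = (p : ℝ) ^ (-rk M) := by
  have hp : (p : ℝ) ≠ 0 := Nat.cast_ne_zero.2 (Fact.out : p.Prime).ne_zero
  have h1 : Nat.card {v // M v = 0} = p ^ finrank (ZMod p) (LinearMap.ker M) := by
    have := Module.natCard_eq_pow_finrank (K := ZMod p) (V := LinearMap.ker M)
    rwa [Nat.card_zmod] at this
  have h2 : Nat.card V = p ^ finrank (ZMod p) V := by
    have := Module.natCard_eq_pow_finrank (K := ZMod p) (V := V)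
    rwa [Nat.card_zmod] at this
  rw [bb, expect_ind, h1, h2, rpow_rk, ← LinearMap.finrank_range_add_finrank_ker M]
  push_cast
  rw [pow_add]
  field_simp

omit [Finite U] in
theorem aff (M : Bil p V U) (c : U →ₗ[ZMod p] ZMod p) :
    𝔼 v, ind (M v + c = 0) ≤ (p : ℝ) ^ (-rk M) := by
  by_cases h : ∃ v₀, M v₀ + c = 0
  · obtain ⟨v₀, h⟩ := h
    rw [← bb_eq, bb]
    refine le_of_eq (Fintype.expect_equiv (Equiv.subRight v₀) _ _ fun v => ind_congr ?_)
    rw [Equiv.subRight_apply, map_sub, sub_eq_zero, ← h, add_left_inj]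
  · push Not at h
    simp only [fun v => ind_neg (h v), Fintype.expect_const]
    positivity

omit [Finite U] in
theorem coll (M : Bil p V U) (S : Set V) :
    (𝔼 v, ind (v ∈ S)) ^ 2 * (p : ℝ) ^ (-rk M)
      ≤ 𝔼 v, 𝔼 v', ind (v ∈ S ∧ v' ∈ S ∧ M v = M v') := by
  classical
  have hp : (0 : ℝ) < p := Nat.cast_pos.2 (Fact.out : p.Prime).pos
  have hs : ∀ v, M v ∈ univ.image M := fun v => mem_image_of_mem _ (mem_univ v)
  set m : (U →ₗ[ZMod p] ZMod p) → ℝ := fun l => 𝔼 y, ind (y ∈ S ∧ M y = l) with hm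
  have h1 := fibre M (univ.image M) S hs (fun _ => 1)
  have h2 := fibre M (univ.image M) S hs m
  simp only [mul_one] at h1
  have h3 : ∀ v, 𝔼 v', ind (v ∈ S ∧ v' ∈ S ∧ M v = M v') = ind (v ∈ S) * m (M v) := by
    intro v
    rw [hm, mul_expect]
    refine expect_congr rfl fun v' _ => ?_
    rw [ind_and, eq_comm (a := M v)]
  have h4 : (univ.image M).card = p ^ finrank (ZMod p) (LinearMap.range M) := by
    have : Finite (LinearMap.range M) := Set.finite_range M
    have h5 := Module.natCard_eq_pow_finrank (K := ZMod p) (V := LinearMap.range M)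
    rw [Nat.card_zmod] at h5
    rw [← h5, ← Nat.card_eq_finsetCard]
    exact Nat.card_congr (Equiv.subtypeEquivRight (by simp))
  have h5 := sq_sum_le_card_mul_sum_sq (s := univ.image M) (f := m)
  simp only [h3]
  rw [h2, h1, rpow_rk, ← div_eq_mul_inv, div_le_iff₀ (by positivity), mul_comm]
  rw [h4] at h5
  push_cast at h5
  simpa only [sq] using h5

theorem sub_avg {V : Type} [AddCommGroup V] [Module (ZMod p) V] [Fintype V]
    (K : Submodule (ZMod p) V) [Fintype K] (F : V → ℝ) :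
    𝔼 v, ind (v ∈ K) * F v = (𝔼 v, ind (v ∈ K)) * 𝔼 v : K, F v := by
  have h0 : (Fintype.card K : ℝ) ≠ 0 := Nat.cast_ne_zero.2 Fintype.card_ne_zero
  rw [expect_ind, Fintype.expect_eq_sum_div_card, Fintype.expect_eq_sum_div_card,
    sum_ind_mul (fun v => v ∈ K) F, Nat.card_eq_fintype_card, Nat.card_eq_fintype_card]
  field_simp

end LIN

theorem stLIN : St_LIN :=
  ⟨LIN.atom, fun _ _ => ⟨fun M => LIN.bb_eq M, fun M c => LIN.aff M c, fun M S => LIN.coll M S,
    fun K _ F => LIN.sub_avg K F⟩⟩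

end Pool.Agent.Lib.U4
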