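import Pool.Agent.Lib.U4.BlueA

noncomputable section

open Finset Module
open scoped BigOperators

namespace Pool.Agent.Lib.U4

namespace LOC

variable {G : Type} [AddCommGroup G] [Fintype G]

theorem e3_prod (f : G → G → G → ℝ) :
    𝔼 x, 𝔼 y, 𝔼 z, f x y z = 𝔼 q : G × G × G, f q.1 q.2.1 q.2.2 := by
  rw [← univ_product_univ, expect_product]
  refine expect_congr rfl fun x _ => ?_
  rw [← univ_product_univ, expect_product]

theorem e3 (f : G → G → G → ℝ) (α β γ : G → G → G → G)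
    (h : ∀ x y z x' y' z', α x y z = α x' y' z' → β x y z = β x' y' z' → γ x y z = γ x' y' z' →
      x = x' ∧ y = y' ∧ z = z') :
    𝔼 x, 𝔼 y, 𝔼 z, f (α x y z) (β x y z) (γ x y z) = 𝔼 a, 𝔼 b, 𝔼 w, f a b w := by
  rw [e3_prod, e3_prod]
  have hi : Function.Injective fun q : G × G × G =>
      (α q.1 q.2.1 q.2.2, β q.1 q.2.1 q.2.2, γ q.1 q.2.1 q.2.2) := by
    rintro ⟨x, y, z⟩ ⟨x', y', z'⟩ hq
    simp only [Prod.mk.injEq] at hq ⊢
    exact h _ _ _ _ _ _ hq.1 hq.2.1 hq.2.2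
  exact Fintype.expect_equiv (Equiv.ofBijective _ (Finite.injective_iff_bijective.1 hi)) _ _
    fun _ => rfl

theorem e2 (f : G → G → ℝ) (α β γ : G → G → G → G)
    (h : ∀ x y z x' y' z', α x y z = α x' y' z' → β x y z = β x' y' z' → γ x y z = γ x' y' z' →
      x = x' ∧ y = y' ∧ z = z') :
    𝔼 x, 𝔼 y, 𝔼 z, f (α x y z) (β x y z) = 𝔼 a, 𝔼 b, f a b := by
  rw [e3 (fun a b _ => f a b) α β γ h]
  simp only [Fintype.expect_const]

theorem df_comm {W : Type} [AddCommGroup W] (φ : G → W) (x y : G) : df φ x y = df φ y x := by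
  unfold df
  rw [add_comm x y]
  abel

theorem df_coc {W : Type} [AddCommGroup W] (φ : G → W) (x y z : G) :
    df φ (x + y) z = df φ (y + z) x + df φ y z - df φ y x := by
  unfold df
  rw [show y + z + x = x + y + z by abel, add_comm y x]
  abel

end LOC

open LOC in
theorem stLOC : St_LOC := by
  intro p _ hA hB G V U _ _ _ _ _ _ _ _ ψ Va Ua V0 U0 δ δ' h1 h2
  have B := hB V U
  have key : ∀ x y z, rr (df ψ (x + y) z) V0 (Ua z ⊓ U0) ≤
      rr (df ψ (y + z) x) (Va (y + z) ⊓ V0) (Ua x ⊓ U0) +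
      rr (df ψ y z) (Va y ⊓ Va z) (Ua (y + z)) +
      rr (df ψ y x) (Va y ⊓ V0) (Ua x ⊓ U0) +
      rr (df ψ z (x + y)) (Va z ⊓ V0) (Ua (x + y) ⊓ U0) +
      rr (df ψ (x + y) z) (Va (x + y) ⊓ V0) (Ua z ⊓ U0) +
      tv U0 (Ua x ⊓ Ua (y + z) ⊓ Ua (x + (y + z))) (Ua (x + y)) +
      tv V0 (Va y ⊓ Va z ⊓ Va (y + z)) (Va (x + y)) := by
    intro x y z
    set A := Va y ⊓ Va z ⊓ Va (y + z) with hAd
    set C := Ua x ⊓ Ua (y + z) ⊓ Ua (x + (y + z)) with hCd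
    have a1 : A ≤ Va y := inf_le_left.trans inf_le_left
    have a2 : A ≤ Va z := inf_le_left.trans inf_le_right
    have a3 : A ≤ Va (y + z) := inf_le_right
    have c1 : C ≤ Ua x := inf_le_left.trans inf_le_left
    have c2 : C ≤ Ua (y + z) := inf_le_left.trans inf_le_right
    have s1 := B.rr_tv_left (df ψ (x + y) z) V0 A (Va (x + y)) (Ua z ⊓ U0)
    have s2 := B.rr_mono (df ψ (x + y) z) (A ⊓ V0) (A ⊓ V0) (Ua z ⊓ U0) U0 le_rfl inf_le_right
    have s3 := B.rr_tv_right (df ψ (x + y) z) (A ⊓ V0) U0 C (Ua (x + y))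
    have s4 := B.rr_mono (df ψ (x + y) z) (A ⊓ V0) (Va z ⊓ V0) (Ua (x + y) ⊓ U0) _
      (inf_le_inf_right _ a2) le_rfl
    have s5 := B.rr_sub (df ψ (y + z) x + df ψ y z) (df ψ y x) (A ⊓ V0) (C ⊓ U0)
    have s6 := B.rr_add (df ψ (y + z) x) (df ψ y z) (A ⊓ V0) (C ⊓ U0)
    have s7 := B.rr_mono (df ψ (y + z) x) (A ⊓ V0) (Va (y + z) ⊓ V0) (C ⊓ U0) (Ua x ⊓ U0)
      (inf_le_inf_right _ a3) (inf_le_inf_right _ c1)
    have s8 := B.rr_mono (df ψ y z) (A ⊓ V0) (Va y ⊓ Va z) (C ⊓ U0) (Ua (y + z))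
      (inf_le_left.trans inf_le_left) (inf_le_left.trans c2)
    have s9 := B.rr_mono (df ψ y x) (A ⊓ V0) (Va y ⊓ V0) (C ⊓ U0) (Ua x ⊓ U0)
      (inf_le_inf_right _ a1) (inf_le_inf_right _ c1)
    rw [← df_coc] at s5
    rw [df_comm ψ z (x + y)]
    linarith
  have avg := expect_le_expect (s := univ) fun x _ => expect_le_expect (s := univ) fun y _ =>
    expect_le_expect (s := univ) fun z _ => key x y z
  simp only [expect_add_distrib] at avg
  rw [e2 (fun a b => rr (df ψ a b) V0 (Ua b ⊓ U0)) (fun x y _ => x + y) (fun _ _ z => z)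
      (fun x _ _ => x) (fun x y z x' y' z' h1 h2 h3 => by subst h3; exact ⟨rfl, by simpa using h1, h2⟩),
    e2 (fun a b => rr (df ψ a b) (Va a ⊓ V0) (Ua b ⊓ U0)) (fun _ y z => y + z) (fun x _ _ => x)
      (fun _ y _ => y) (fun x y z x' y' z' h1 h2 h3 => by subst h3; exact ⟨h2, rfl, by simpa using h1⟩),
    e2 (fun a b => rr (df ψ a b) (Va a ⊓ Va b) (Ua (a + b))) (fun _ y _ => y) (fun _ _ z => z)
      (fun x _ _ => x) (fun x y z x' y' z' h1 h2 h3 => ⟨h3, h1, h2⟩),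
    e2 (fun a b => rr (df ψ a b) (Va a ⊓ V0) (Ua b ⊓ U0)) (fun _ y _ => y) (fun x _ _ => x)
      (fun _ _ z => z) (fun x y z x' y' z' h1 h2 h3 => ⟨h2, h1, h3⟩),
    e2 (fun a b => rr (df ψ a b) (Va a ⊓ V0) (Ua b ⊓ U0)) (fun _ _ z => z) (fun x y _ => x + y)
      (fun x _ _ => x) (fun x y z x' y' z' h1 h2 h3 => by subst h3; exact ⟨rfl, by simpa using h2, h1⟩),
    e2 (fun a b => rr (df ψ a b) (Va a ⊓ V0) (Ua b ⊓ U0)) (fun x y _ => x + y) (fun _ _ z => z)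
      (fun x _ _ => x) (fun x y z x' y' z' h1 h2 h3 => by subst h3; exact ⟨rfl, by simpa using h1, h2⟩),
    e3 (fun a b w => tv U0 (Ua a ⊓ Ua b ⊓ Ua (a + b)) (Ua w)) (fun x _ _ => x) (fun _ y z => y + z)
      (fun x y _ => x + y) (fun x y z x' y' z' h1 h2 h3 => by
        subst h1
        obtain rfl : y = y' := by simpa using h3
        exact ⟨rfl, rfl, by simpa using h2⟩),
    e3 (fun a b w => tv V0 (Va a ⊓ Va b ⊓ Va (a + b)) (Va w)) (fun _ y _ => y) (fun _ _ z => z)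
      (fun x y _ => x + y) (fun x y z x' y' z' h1 h2 h3 => by
        subst h1
        exact ⟨by simpa using h3, rfl, h2⟩)] at avg
  have fin := expect_le_expect (s := univ) fun a _ => expect_le_expect (s := univ) fun b _ =>
    B.rr_tv_right (df ψ a b) V0 U0 (Ua a) (Ua b)
  simp only [expect_add_distrib] at fin
  have sw : 𝔼 a, 𝔼 b, rr (df ψ a b) V0 (Ua a ⊓ U0) = 𝔼 a, 𝔼 b, rr (df ψ a b) V0 (Ua b ⊓ U0) := by
    rw [expect_comm]
    exact expect_congr rfl fun a _ => expect_congr rfl fun b _ => by rw [df_comm]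
  have tU : 𝔼 a, 𝔼 b, tv U0 (Ua a) (Ua b) ≤ tvA U0 Ua := by
    refine expect_le_expect fun a _ => ?_
    rw [← Fintype.expect_const (ι := G) (𝔼 b, tv U0 (Ua a) (Ua b))]
    exact expect_le_expect fun b _ => expect_le_expect fun w _ =>
      (hA U V).tv_mono _ _ _ _ _ (inf_le_left.trans inf_le_left) le_rfl
  have tV : 0 ≤ tvA V0 Va :=
    expect_nonneg fun a _ => expect_nonneg fun b _ => expect_nonneg fun w _ =>
      (hA V U).tv_nonneg _ _ _
  unfold tvA at tU tV ⊢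
  linarith

end Pool.Agent.Lib.U4
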