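import Pool.Agent.Lib.U4.BlueU

/-! Facts on multilinear forms. -/

noncomputable section

open Finset
open scoped BigOperators ComplexConjugate

namespace Pool.Agent.Lib.U4

open Pool.Agent.Lib.MP_3a84e0_co

namespace ML

variable {p d : ℕ} [Fact p.Prime] {V W : Type} [AddCommGroup V] [Module (ZMod p) V]
  [AddCommGroup W]

lemma aff_mem (M : Ml p d V) (n : ℕ) : ∀ (S : Finset (Fin d)) (L : Fin d → W →+ V)
    (b : Fin d → V), S.card ≤ n → (∀ i ∉ S, L i = 0) →
    (fun z => M fun i => L i z + b i) ∈ (Van (n + 1) : Submodule (ZMod p) (W → ZMod p)) := by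
  induction n with
  | zero =>
    intro S L b hS hL
    obtain rfl : S = ∅ := card_eq_zero.1 (by omega)
    have : (fun z => M fun i => L i z + b i) = fun _ => M b := by
      funext z
      simp [fun i => hL i (notMem_empty i)]
    rw [this]
    exact const_mem _
  | succ n ih =>
    intro S L b hS hL
    refine mem_Van_succ.2 fun h => ?_
    have : ad h (fun z => M fun i => L i z + b i) = -∑ T ∈ S.powerset.erase ∅,
        fun z => M fun i => (if i ∈ T then 0 else L i) z + (if i ∈ T then L i h else b i) := by
      funext z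
      have h1 := M.map_piecewise_add (fun i => L i h) (fun i => L i z + b i) S
      have h2 : S.piecewise ((fun i => L i h) + fun i => L i z + b i) (fun i => L i z + b i) =
          fun i => L i (z + h) + b i := by
        funext i
        by_cases hi : i ∈ S
        · simp only [piecewise_eq_of_mem _ _ _ hi, Pi.add_apply, map_add]; abel
        · simp [hi, hL i hi]
      rw [h2, ← add_sum_erase _ _ (empty_mem_powerset S), piecewise_empty] at h1
      rw [ad_apply, h1, Pi.neg_apply, Finset.sum_apply, sub_add_cancel_left]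
      refine congrArg _ (sum_congr rfl fun T _ => congrArg M (funext fun i => ?_))
      by_cases hi : i ∈ T <;> simp [hi]
    rw [this]
    refine neg_mem (sum_mem fun T hT => ih (S \ T) _ _ ?_ fun i hi => ?_)
    · obtain ⟨h1, h2⟩ := mem_erase.1 hT
      have h3 := card_sdiff_add_card_eq_card (mem_powerset.1 h2)
      have h4 := card_pos.2 (nonempty_iff_ne_empty.2 h1)
      omega
    · by_cases hi' : i ∈ T
      · simp [hi']
      · simp only [hi', if_false]
        exact hL i fun h => hi (mem_sdiff.2 ⟨h, hi'⟩)

lemma pw_mem (M : Ml p d V) (n : ℕ) (T : Finset (Fin d)) (L : Fin d → W →+ V) (t : Fin d → V)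
    (h : d ≤ n + T.card) : (fun z => M (T.piecewise t fun i => L i z)) ∈
      (Van (n + 1) : Submodule (ZMod p) (W → ZMod p)) := by
  have := aff_mem M n Tᶜ (fun i => if i ∈ T then 0 else L i) (fun i => if i ∈ T then t i else 0)
    (by rw [card_compl, Fintype.card_fin]; omega) fun i hi => by simp [notMem_compl.1 hi]
  convert this using 3 with z
  funext i
  by_cases hi : i ∈ T <;> simp [hi]

lemma sub_mem' (M : Ml p (d + 1) V) (L : Fin (d + 1) → W →+ V) (t : Fin (d + 1) → V) :
    (fun z => M (fun i => L i z) - M ((fun i => L i z) + t)) ∈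
      (Van (d + 1) : Submodule (ZMod p) (W → ZMod p)) := by
  have : (fun z => M (fun i => L i z) - M ((fun i => L i z) + t)) =
      -∑ T ∈ univ.erase ∅, fun z => M (Finset.piecewise T t fun i => L i z) := by
    funext z
    rw [add_comm _ t, M.map_add_univ, ← add_sum_erase _ _ (mem_univ ∅), piecewise_empty,
      Pi.neg_apply, Finset.sum_apply, sub_add_cancel_left]
  rw [this]
  refine neg_mem (sum_mem fun T hT => pw_mem M d T L t ?_)
  have := card_pos.2 (nonempty_iff_ne_empty.2 (mem_erase.1 hT).1)
  omega

lemma expand (M : Ml p (d + 1) V) (h : V) :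
    (fun x => M (fun _ => x + h) - M (fun _ => x) - ∑ i, M (Function.update (fun _ => x) i h)) ∈
      (Van d : Submodule (ZMod p) (V → ZMod p)) := by
  have : (fun x => M (fun _ => x + h) - M (fun _ => x) -
      ∑ i, M (Function.update (fun _ => x) i h)) = ∑ T : Finset (Fin (d + 1)) with 2 ≤ T.card,
        fun x => M (T.piecewise (fun _ => h) fun _ => x) := by
    funext x
    have h1 := M.map_add_univ (fun _ => h) fun _ => x
    have h2 : ((fun _ => h) + fun _ => x : Fin (d + 1) → V) = fun _ => x + h := by
      funext i; simp [add_comm]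
    have h3 : (univ.filter fun T : Finset (Fin (d + 1)) => ¬2 ≤ T.card) =
        insert ∅ (univ.image singleton) := by
      ext T
      simp only [mem_filter, mem_univ, true_and, mem_insert, mem_image, not_le]
      constructor
      · intro hT
        rcases Nat.lt_succ_iff_lt_or_eq.1 hT with h | h
        · exact Or.inl (card_eq_zero.1 (by omega))
        · obtain ⟨a, rfl⟩ := card_eq_one.1 h
          exact Or.inr ⟨a, rfl⟩
      · rintro (rfl | ⟨a, rfl⟩) <;> simp
    rw [h2, ← sum_filter_add_sum_filter_not univ fun T => 2 ≤ T.card, h3,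
      sum_insert (by simp), sum_image fun a _ b _ hab => singleton_injective hab,
      piecewise_empty] at h1
    simp only [piecewise_singleton] at h1
    rw [h1, Finset.sum_apply]
    ring
  rw [this]
  refine sum_mem fun T hT => ?_
  have h1 := (mem_filter.1 hT).2
  have h2 : T.card ≤ d + 1 := by simpa using T.card_le_univ
  obtain ⟨n, rfl⟩ : ∃ n, d = n + 1 := ⟨d - 1, by omega⟩
  exact pw_mem M n T (fun _ => AddMonoidHom.id V) _ (by omega)

lemma sym_curry {M : Ml p (d + 1) V} (hM : IsSym M) (h : V) : IsSym (M.curryLeft h) := by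
  intro σ k
  simp only [MultilinearMap.curryLeft_apply]
  rw [← hM (Equiv.Perm.decomposeFin.symm (0, σ)) (Fin.cons h k)]
  refine congrArg M (funext fun i => ?_)
  refine Fin.cases ?_ (fun j => ?_) i <;> simp

lemma sym_update {M : Ml p (d + 1) V} (hM : IsSym M) (h x : V) (i : Fin (d + 1)) :
    M (Function.update (fun _ => x) i h) = M.curryLeft h fun _ => x := by
  rw [MultilinearMap.curryLeft_apply, ← hM (Equiv.swap 0 i)]
  refine congrArg M (funext fun j => ?_)
  refine Fin.cases ?_ (fun j => ?_) j
  · simp
  · rw [Fin.cons_succ, Function.update_of_ne]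
    intro hj
    have := (Equiv.swap 0 i).injective (hj.trans (Equiv.swap_apply_left 0 i).symm)
    exact Fin.succ_ne_zero j this

lemma polar (n : ℕ) : ∀ (M : Ml p n V), IsSym M → ∀ (k : Fin n → V) (y : V),
    dd n k (fun x => M fun _ => x) y = (-1) ^ n * (n.factorial : ZMod p) * M k := by
  induction n with
  | zero =>
    intro M _ k y
    simp only [dd_zero, pow_zero, Nat.factorial_zero, Nat.cast_one, one_mul]
    exact congrArg M (Subsingleton.elim _ _)
  | succ n ih =>
    intro M hM k y
    have h1 := mem_Van_iff.1 (expand M (k 0)) (Fin.tail k)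
    have h2 : (fun x => M (fun _ => x + k 0) - M (fun _ => x) -
        ∑ i, M (Function.update (fun _ => x) i (k 0))) = -ad (k 0) (fun x => M fun _ => x) -
          ((n + 1 : ℕ) : ZMod p) • fun x => M.curryLeft (k 0) fun _ => x := by
      funext x
      simp [sym_update hM]
    rw [h2, map_sub, map_neg, map_smul] at h1
    have h3 := congrFun h1 y
    rw [Pi.sub_apply, Pi.neg_apply, Pi.smul_apply, ih _ (sym_curry hM _),
      MultilinearMap.curryLeft_apply, Fin.cons_self_tail, smul_eq_mul, Pi.zero_apply] at h3
    rw [dd_succ, Nat.factorial_succ, Nat.cast_mul]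
    linear_combination -h3

lemma bias_smul' [Fintype V] (M : Ml p (d + 1) V) {c : ZMod p} (hc : c ≠ 0) :
    bias (c • M) = bias M := by
  unfold bias
  congr 1
  refine Fintype.expect_equiv (Equiv.piCongrRight fun i =>
    MulAction.toPerm (if i = 0 then Units.mk0 c hc else 1)) _ _ fun h => ?_
  have := M.map_smul_univ (fun i => if i = 0 then c else 1) h
  rw [prod_ite_eq', if_pos (mem_univ _)] at this
  rw [_root_.smul_apply, ← this]
  refine congrArg (fun k => ec (M k)) (funext fun i => ?_)
  by_cases hi : i = 0 <;> simp [hi, Units.smul_def]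

end ML

theorem stML : St_ML := by
  intro p _ V _ _ _
  refine ⟨fun d M L => ?_, fun d M c => ?_, fun d M c hc => ML.bias_smul' M hc,
    fun d hd Θ => ?_, fun d M => ?_, fun d M h => ML.expand M h, fun d M hM k x => ?_⟩
  · rw [bias, ← RCLike.norm_conj]
    refine Red.of_avg (ι := Fin (d + 1) → V) (fun t => ML.sub_mem' M L t) fun z => ?_
    simp only [ec_sub, ← mul_expect, ← conj_expect]
    rw [← expect_shift' _ fun i => L i z]
  · by_cases hc : c = 0
    · rw [hc, zero_smul]
      refine (norm_expect_le_one fun _ => (norm_ec _).le).trans ?_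
      simp [bias]
    · exact (ML.bias_smul' M hc).ge
  · refine ⟨(d.factorial : ZMod p)⁻¹ • ∑ σ : Equiv.Perm (Fin d),
      (MultilinearMap.domDomCongrLinearEquiv (ZMod p) (ZMod p) V (ZMod p) σ).toLinearMap ∘ₗ Θ,
      fun h τ k => ?_, fun h x => ?_⟩
    · simp only [LinearMap.smul_apply, LinearMap.sum_apply, _root_.smul_apply,
        _root_.sum_apply]
      congr 1
      exact Fintype.sum_equiv (Equiv.mulLeft τ) _ _ fun σ => rfl
    · simp only [LinearMap.smul_apply, LinearMap.sum_apply, _root_.smul_apply,
        _root_.sum_apply]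
      change _ • (∑ _σ : Equiv.Perm (Fin d), Θ h fun _ => x) = _
      rw [sum_const, card_univ,
        Fintype.card_perm, Fintype.card_fin, nsmul_eq_mul, smul_eq_mul,
        inv_mul_cancel_left₀ (fact_ne hd)]
  · simpa using ML.aff_mem M d univ (fun _ => AddMonoidHom.id V) 0 (by simp) (by simp)
  · have h1 := dd_succ' d (Fin.cons x k) (fun y => M fun _ => y) 0
    rw [ML.polar _ M hM, Fin.tail_cons, Fin.cons_zero, zero_add] at h1
    linear_combination h1

end Pool.Agent.Lib.U4
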