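import Pool.Agent.Lib.U4.BlueU

noncomputable section

open Finset
open scoped BigOperators ComplexConjugate

namespace Pool.Agent.Lib.U4

open Pool.Agent.Lib.MP_3a84e0_co

namespace QUAD

lemma exists_unit (z : ℂ) : ∃ c : ℂ, ‖c‖ ≤ 1 ∧ c * z = (‖z‖ : ℂ) := by
  by_cases h : z = 0
  · exact ⟨0, by simp, by simp [h]⟩
  · have h0 : (‖z‖ : ℂ) ≠ 0 := by simpa using h
    refine ⟨conj z / ‖z‖, by simp [h], ?_⟩
    rw [div_mul_eq_mul_div, Complex.conj_mul', div_eq_iff h0, sq]

lemma cs {ι κ : Type} [Fintype ι] [Nonempty ι] [Fintype κ] {b : ι → ℂ} (hb : ∀ i, ‖b i‖ ≤ 1)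
    (F : ι → κ → ℂ) :
    ‖𝔼 i, b i * 𝔼 h, F i h‖ ^ 2 ≤ ‖𝔼 i, 𝔼 x, 𝔼 y, F i x * conj (F i y)‖ := by
  have h1 : 𝔼 i, 𝔼 x, 𝔼 y, F i x * conj (F i y) = ((𝔼 i, ‖𝔼 h, F i h‖ ^ 2 : ℝ) : ℂ) := by
    rw [Complex.ofReal_expect]
    refine expect_congr rfl fun i _ => ?_
    rw [Complex.ofReal_pow, ← Complex.mul_conj', conj_expect, expect_mul]
    simp only [mul_expect]
  rw [h1, Complex.norm_real]
  refine le_trans ?_ (Real.le_norm_self _)
  refine le_trans (pow_le_pow_left₀ (norm_nonneg _) ((RCLike.norm_expect_le (K := ℂ)).trans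
    (expect_le_expect fun z _ => ?_)) 2) (sq_expect_le _)
  rw [norm_mul]
  exact mul_le_of_le_one_left (norm_nonneg _) (hb z)

lemma ind_nonneg (P : Prop) : 0 ≤ ind P := by unfold ind; split_ifs <;> norm_num

lemma ind_pow (P : Prop) {k : ℕ} (hk : k ≠ 0) : ind P ^ k = ind P := by
  unfold ind; split_ifs <;> simp [hk]

end QUAD

open QUAD

theorem stQUAD : St_QUAD := by
  intro p _ e V _ _ _ f g P hP A η hf hg hη h
  classical
  choose c hc hc' using fun h => exists_unit (𝔼 x, f (x + h) * g x * ec (P h x))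
  let a : V → ℂ := fun h => if h ∈ A then c h else 0
  have h1 : η ≤ ‖𝔼 x, g x * 𝔼 h, a h * f (x + h) * ec (P h x)‖ := by
    have : 𝔼 x, g x * 𝔼 h, a h * f (x + h) * ec (P h x) =
        ((𝔼 h, ind (h ∈ A) * ‖𝔼 x, f (x + h) * g x * ec (P h x)‖ : ℝ) : ℂ) := by
      simp only [mul_expect]
      rw [expect_comm, Complex.ofReal_expect]
      refine expect_congr rfl fun h _ => ?_
      by_cases hA : h ∈ A
      · simp only [a, ind, if_pos hA, one_mul]
        rw [← hc', mul_expect]
        exact expect_congr rfl fun x _ => by ring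
      · simp [a, ind, hA]
    rw [this, Complex.norm_real]
    exact h.trans (Real.le_norm_self _)
  let G : V × V → V → ℂ := fun z h =>
    a h * conj (a (h + z.1)) * ec (P h (z.2 - h) - P (h + z.1) (z.2 - h))
  have h2 : η ^ 2 ≤ ‖𝔼 z : V × V, (f z.2 * conj (f (z.2 + z.1))) * 𝔼 h, G z h‖ := by
    refine (pow_le_pow_left₀ hη h1 2).trans ((cs hg _).trans_eq ?_)
    congr 1
    rw [expect_prod, expect_comm]
    simp only [mul_expect]
    rw [expect_comm (f := fun t u => 𝔼 h, f u * conj (f (u + t)) * G (t, u) h)]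
    conv_rhs => enter [2, u]; rw [expect_comm]
    conv_rhs => rw [expect_comm]
    refine expect_congr rfl fun h _ => ?_
    rw [← expect_shift _ (-h)]
    refine expect_congr rfl fun u _ => ?_
    rw [← expect_shift' _ h]
    refine expect_congr rfl fun t _ => ?_
    have e1 : u + -h + h = u := by abel
    have e2 : u + -h + (h + t) = u + t := by abel
    simp only [e1, e2]
    simp only [G, ← sub_eq_add_neg, ec_sub, map_mul]
    ring
  let R : V → V → V → V → ZMod p := fun x y t u =>
    P x (u + -x) - P (x + t) (u + -x) - P y (u + -y) + P (y + t) (u + -y)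
  have hR : ∀ x y t, R x y t ∈ (Van (e + 1 + 1) : Submodule (ZMod p) (V → ZMod p)) :=
    fun x y t => add_mem (sub_mem (sub_mem (shift_mem (hP x) (-x)) (shift_mem (hP (x + t)) (-x)))
      (shift_mem (hP y) (-y))) (shift_mem (hP (y + t)) (-y))
  have h3 : η ^ 4 ≤ 𝔼 x, 𝔼 y, 𝔼 t, in4 A x y t * ‖𝔼 u, ec (R x y t u)‖ := by
    have h4 := (pow_le_pow_left₀ (sq_nonneg η) h2 2).trans
      (cs (fun z => mul_le' (hf _) (by simpa using hf _)) G)
    rw [← pow_mul] at h4
    refine h4.trans ?_
    rw [expect_comm]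
    refine (RCLike.norm_expect_le (K := ℂ)).trans (expect_le_expect fun x _ => ?_)
    rw [expect_comm]
    refine (RCLike.norm_expect_le (K := ℂ)).trans (expect_le_expect fun y _ => ?_)
    rw [expect_prod]
    refine (RCLike.norm_expect_le (K := ℂ)).trans (expect_le_expect fun t _ => ?_)
    have h5 : 𝔼 u, G (t, u) x * conj (G (t, u) y) =
        (a x * conj (a (x + t)) * (conj (a y) * a (y + t))) * 𝔼 u, ec (R x y t u) := by
      rw [mul_expect]
      refine expect_congr rfl fun u _ => ?_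
      simp only [G, R, ← sub_eq_add_neg, ec_sub, ec_add, map_mul, Complex.conj_conj]
      ring
    rw [h5, norm_mul]
    refine mul_le_mul_of_nonneg_right ?_ (norm_nonneg _)
    unfold in4 ind
    split_ifs with h6
    · have ha : ∀ h, ‖a h‖ ≤ 1 := fun h => by
        simp only [a]
        split_ifs
        exacts [hc h, by simp]
      exact mul_le' (mul_le' (ha _) (by simpa using ha _)) (mul_le' (by simpa using ha _) (ha _))
    · simp only [not_and_or] at h6
      rcases h6 with h6 | h6 | h6 | h6 <;> simp [a, h6]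
  have hn : ∀ x y t, 0 ≤ in4 A x y t * ‖𝔼 u, ec (R x y t u)‖ := fun x y t =>
    mul_nonneg (ind_nonneg _) (norm_nonneg _)
  rw [pow_mul]
  refine (pow_le_pow_left₀ (by positivity) h3 _).trans ?_
  refine (pow_expect_le (fun x => expect_nonneg fun y _ => expect_nonneg fun t _ => hn x y t)
    _).trans (expect_le_expect fun x _ => ?_)
  refine (pow_expect_le (fun y => expect_nonneg fun t _ => hn x y t)
    _).trans (expect_le_expect fun y _ => ?_)
  refine (pow_expect_le (hn x y) _).trans (expect_le_expect fun t _ => ?_)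
  rw [mul_pow, in4, ind_pow _ (by positivity)]
  refine mul_le_mul_of_nonneg_left ?_ (ind_nonneg _)
  have h7 := gw_pow_le 0 e fun u => ec (R x y t u)
  rw [zero_add, gw, ← pow_mul, ← pow_succ'] at h7
  refine h7.trans ((Real.le_norm_self _).trans_eq ?_)
  rw [← Complex.norm_real, gw_ec (hR x y t), bias]
  congr 1
  refine expect_congr rfl fun k _ => ?_
  congr 1
  have h8 : ∀ w b, dd (e + 1) k (fun u => P w (u + b)) 0 = top (hP w) k := fun w b => by
    rw [dd_shift, dd_const (hP w), top_apply]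
  have h9 : R x y t = (fun u => P x (u + -x)) - (fun u => P (x + t) (u + -x)) -
      (fun u => P y (u + -y)) + fun u => P (y + t) (u + -y) := rfl
  rw [h9, map_add, map_sub, map_sub]
  simp only [Pi.add_apply, Pi.sub_apply, h8, dq, add_apply, sub_apply]

end Pool.Agent.Lib.U4
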