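import Pool.Agent.Lib.U4.BlueA

noncomputable section

open Finset Module

namespace Pool.Agent.Lib.U4

namespace RA1b

variable {p : ℕ} [Fact p.Prime] {V U V' : Type} [AddCommGroup V] [Module (ZMod p) V] [Finite V]
  [AddCommGroup U] [Module (ZMod p) U] [Finite U]

lemma rk_add (M N : Bil p V U) : rk (M + N) ≤ rk M + rk N := by
  unfold rk
  have h1 : LinearMap.range (M + N) ≤ LinearMap.range M ⊔ LinearMap.range N := by
    rintro _ ⟨v, rfl⟩
    exact Submodule.add_mem_sup ⟨v, rfl⟩ ⟨v, rfl⟩
  have h2 := Submodule.finrank_mono h1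
  have h3 := Submodule.finrank_add_le_finrank_add_finrank (LinearMap.range M) (LinearMap.range N)
  exact_mod_cast h2.trans h3

lemma rk_neg (M : Bil p V U) : rk (-M) = rk M := by
  unfold rk
  rw [LinearMap.range_neg]

lemma cd_ker (M : Bil p V U) : cd (LinearMap.ker M) = rk M := by
  unfold cd dm rk
  have := LinearMap.finrank_range_add_finrank_ker M
  rw [← this]
  push_cast
  ring

lemma rk_flip (M : Bil p V U) : rk M.flip = rk M := by
  unfold rk
  have h : M.flip = M.dualMap ∘ₗ (Module.evalEquiv (ZMod p) U).toLinearMap := by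
    ext u v
    simp
  rw [h, LinearMap.range_comp_of_range_eq_top _ (LinearEquiv.range _),
    LinearMap.finrank_range_dualMap_eq_finrank_range]

lemma dm_mono {A B : Submodule (ZMod p) V} (h : A ≤ B) : dm A ≤ dm B := by
  unfold dm
  exact_mod_cast Submodule.finrank_mono h

lemma rk_le_cd (M : Bil p V U) (A : Submodule (ZMod p) V) (h : A ≤ LinearMap.ker M) :
    rk M ≤ cd A := by
  rw [← cd_ker]
  unfold cd
  linarith [dm_mono h]

lemma dm_le (A : Submodule (ZMod p) V) : dm A ≤ finrank (ZMod p) V := by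
  unfold dm
  exact_mod_cast Submodule.finrank_le A

lemma exists_proj (A : Submodule (ZMod p) V) :
    ∃ P : V →ₗ[ZMod p] V, (∀ v, P v ∈ A) ∧ ∀ v ∈ A, P v = v := by
  obtain ⟨g, hg⟩ := LinearMap.exists_leftInverse_of_injective A.subtype (Submodule.ker_subtype A)
  refine ⟨A.subtype ∘ₗ g, fun v => (g v).2, fun v hv => ?_⟩
  have := LinearMap.congr_fun hg ⟨v, hv⟩
  simpa using congrArg Subtype.val this

end RA1b

open RA1b in
theorem stRA1b : St_RA1 := by
  intro p _ V U _ _ _ _ _ _
  refine
    { rk_nonneg := fun M => Nat.cast_nonneg _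
      rk_add := rk_add
      rk_neg := rk_neg
      rk_sub := fun M N => by
        have h : M - N = M + -N := by ext; simp [sub_eq_add_neg]
        rw [h, ← rk_neg N]
        exact rk_add _ _
      rk_zero := by simp [rk]
      eq_zero := fun M h => ?_
      rk_flip := rk_flip
      cd_ker := cd_ker
      cd_ker_flip := fun M => (cd_ker _).trans (rk_flip M)
      rk_le_cd := rk_le_cd
      cd_nonneg := fun A => sub_nonneg.2 (dm_le A)
      cd_inf := fun A B => ?_
      tv_nonneg := fun S N N' => sub_nonneg.2 (dm_mono (sup_le inf_le_right inf_le_right))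
      tv_comm := fun S N N' => by unfold tv; rw [sup_comm]
      tv_mono := fun S N N' N1 N1' h h' => sub_le_sub_left
        (dm_mono (sup_le_sup (inf_le_inf_right _ h) (inf_le_inf_right _ h'))) _
      proj := fun A B => ?_ }
  · have h0 : finrank (ZMod p) (LinearMap.range M) = 0 := by
      unfold rk at h
      exact_mod_cast le_antisymm h (Nat.cast_nonneg _)
    exact LinearMap.range_eq_bot.1 (Submodule.finrank_eq_zero.1 h0)
  · have h1 := Submodule.finrank_sup_add_finrank_inf_eq A B
    have h2 := dm_le (A ⊔ B)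
    have h3 : dm (A ⊔ B) + dm (A ⊓ B) = dm A + dm B := by unfold dm; exact_mod_cast h1
    unfold cd
    linarith
  · obtain ⟨P, hP, hP'⟩ := exists_proj A
    obtain ⟨Q, hQ, hQ'⟩ := exists_proj B
    refine ⟨P, Q, hP, hP', hQ, hQ', fun M => ?_⟩
    have h : M - M.compl₁₂ P Q = (M - M.compl₁₂ P LinearMap.id) +
        (M.compl₁₂ P LinearMap.id - M.compl₁₂ P Q) := by abel
    rw [h]
    refine (rk_add _ _).trans (add_le_add (rk_le_cd _ _ fun v hv => ?_) ?_)
    · ext u
      simp [hP' v hv]
    · rw [← rk_flip]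
      refine rk_le_cd _ _ fun u hu => ?_
      ext v
      simp [hQ' u hu]

end Pool.Agent.Lib.U4
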