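import Pool.Agent.Lib.U4.RA1b

noncomputable section

open Finset Module

namespace Pool.Agent.Lib.U4

namespace RA2b

open RA1b

variable {p : ℕ} [Fact p.Prime] {V U V' U' : Type} [AddCommGroup V] [Module (ZMod p) V] [Finite V]
  [AddCommGroup U] [Module (ZMod p) U] [Finite U] [AddCommGroup V'] [Module (ZMod p) V']
  [Finite V'] [AddCommGroup U'] [Module (ZMod p) U'] [Finite U']

lemma rk_left (M : Bil p V U) (f : V' →ₗ[ZMod p] V) : rk (M ∘ₗ f) ≤ rk M := by
  unfold rk
  exact_mod_cast Submodule.finrank_mono (LinearMap.range_comp_le_range f M)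

lemma rk_comp (M : Bil p V U) (f : V' →ₗ[ZMod p] V) (g : U' →ₗ[ZMod p] U) :
    rk (M.compl₁₂ f g) ≤ rk M := by
  have h1 : (M.compl₁₂ f g).flip = (M ∘ₗ f).flip ∘ₗ g := by ext; simp
  rw [← rk_flip, h1]
  exact (rk_left _ _).trans ((rk_flip _).le.trans (rk_left _ _))

lemma rk_land (M : Bil p V U) (A : Submodule (ZMod p) V) (B : Submodule (ZMod p) U)
    (f : V' →ₗ[ZMod p] V) (g : U' →ₗ[ZMod p] U) (hf : ∀ v, f v ∈ A) (hg : ∀ u, g u ∈ B) :
    rk (M.compl₁₂ f g) ≤ rr M A B := by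
  have h : M.compl₁₂ f g =
      (M.compl₁₂ A.subtype B.subtype).compl₁₂ (f.codRestrict A hf) (g.codRestrict B hg) := by
    ext; simp
  rw [h]
  exact rk_comp _ _ _

lemma rr_flip (M : Bil p V U) (A : Submodule (ZMod p) V) (B : Submodule (ZMod p) U) :
    rr M.flip B A = rr M A B := by
  unfold rr
  rw [← rk_flip]
  congr 1

lemma rr_mono (M : Bil p V U) {A A' : Submodule (ZMod p) V} {B B' : Submodule (ZMod p) U}
    (h : A ≤ A') (h' : B ≤ B') : rr M A B ≤ rr M A' B' :=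
  rk_land M A' B' _ _ (fun v => h v.2) fun u => h' u.2

lemma rr_sup (M : Bil p V U) (A A' : Submodule (ZMod p) V) (B : Submodule (ZMod p) U) :
    rr M (A ⊔ A') B ≤ rr M A B + rr M A' B := by
  unfold rr rk
  have h1 : LinearMap.range (M.compl₁₂ (A ⊔ A').subtype B.subtype) ≤
      LinearMap.range (M.compl₁₂ A.subtype B.subtype) ⊔
        LinearMap.range (M.compl₁₂ A'.subtype B.subtype) := by
    rintro _ ⟨⟨v, hv⟩, rfl⟩
    obtain ⟨a, ha, b, hb, rfl⟩ := Submodule.mem_sup.1 hv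
    refine Submodule.mem_sup.2 ⟨_, ⟨⟨a, ha⟩, rfl⟩, _, ⟨⟨b, hb⟩, rfl⟩, ?_⟩
    ext u
    simp
  exact_mod_cast (Submodule.finrank_mono h1).trans
    (Submodule.finrank_add_le_finrank_add_finrank _ _)

lemma rr_le_dm (M : Bil p V U) (C : Submodule (ZMod p) V) (B : Submodule (ZMod p) U) :
    rr M C B ≤ dm C := by
  unfold rr rk dm
  exact_mod_cast LinearMap.finrank_range_le _

lemma exists_compl {A S : Submodule (ZMod p) V} (h : A ≤ S) :
    ∃ C : Submodule (ZMod p) V, A ⊔ C = S ∧ A ⊓ C = ⊥ := by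
  obtain ⟨C, hC⟩ := Submodule.exists_isCompl A
  refine ⟨C ⊓ S, ?_, ?_⟩
  · rw [← sup_inf_assoc_of_le _ h, hC.sup_eq_top, top_inf_eq]
  · rw [← inf_assoc, hC.inf_eq_bot, bot_inf_eq]

lemma rr_codim (M : Bil p V U) {A S : Submodule (ZMod p) V} (h : A ≤ S)
    (B : Submodule (ZMod p) U) : rr M S B ≤ rr M A B + (dm S - dm A) := by
  obtain ⟨C, h1, h2⟩ := exists_compl h
  have h3 := Submodule.finrank_sup_add_finrank_inf_eq A C
  rw [h1, h2, finrank_bot, add_zero] at h3
  have h4 : dm S = dm A + dm C := by unfold dm; exact_mod_cast h3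
  have h5 := rr_sup M A C B
  rw [h1] at h5
  linarith [rr_le_dm M C B]

lemma rr_tv (M : Bil p V U) (S N N' : Submodule (ZMod p) V) (B : Submodule (ZMod p) U) :
    rr M S B ≤ rr M (N ⊓ S) B + rr M (N' ⊓ S) B + tv S N N' :=
  (rr_codim M (sup_le inf_le_right inf_le_right) B).trans (add_le_add (rr_sup _ _ _ _) le_rfl)

lemma exists_kill (A A' : Submodule (ZMod p) V) : ∃ P : V →ₗ[ZMod p] V,
    (∀ v, P v ∈ A) ∧ (∀ v ∈ A', P v = 0) ∧ ∀ v ∈ A, v - P v ∈ A ⊓ A' := by
  obtain ⟨C, h1, h2⟩ := exists_compl (inf_le_left : A ⊓ A' ≤ A)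
  have hC : C ≤ A := h1 ▸ le_sup_right
  have hinj : LinearMap.ker (A'.mkQ ∘ₗ C.subtype) = ⊥ := by
    rw [LinearMap.ker_eq_bot']
    intro c hc
    have h3 : (c : V) ∈ A' := by simpa using hc
    have h4 : (c : V) ∈ A ⊓ A' ⊓ C := ⟨⟨hC c.2, h3⟩, c.2⟩
    rw [h2] at h4
    exact Subtype.ext (by simpa using h4)
  obtain ⟨g, hg⟩ := LinearMap.exists_leftInverse_of_injective _ hinj
  refine ⟨C.subtype ∘ₗ g ∘ₗ A'.mkQ, fun v => hC (g _).2, fun v hv => ?_, fun v hv => ?_⟩
  · have : A'.mkQ v = 0 := by simpa using hv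
    simp [this]
  · rw [← h1] at hv
    obtain ⟨a, ha, c, hc, rfl⟩ := Submodule.mem_sup.1 hv
    have h3 : A'.mkQ a = 0 := by simpa using ha.2
    have h4 : g (A'.mkQ c) = ⟨c, hc⟩ := LinearMap.congr_fun hg ⟨c, hc⟩
    have h5 : (C.subtype ∘ₗ g ∘ₗ A'.mkQ) (a + c) = c := by
      simp only [LinearMap.comp_apply, map_add, h3, map_zero, zero_add, h4, Submodule.subtype_apply]
    rw [h5, add_sub_cancel_right]
    exact ha

end RA2b

open RA1b RA2b in
theorem stRA2b : St_RA2 := by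
  intro p _ _ V U _ _ _ _ _ _
  have hadd : ∀ (M N : Bil p V U) A B, rr (M + N) A B ≤ rr M A B + rr N A B := fun M N A B => by
    have h : (M + N).compl₁₂ A.subtype B.subtype =
      M.compl₁₂ A.subtype B.subtype + N.compl₁₂ A.subtype B.subtype := by ext; simp
    unfold rr
    rw [h]
    exact rk_add _ _
  have hneg : ∀ (M : Bil p V U) A B, rr (-M) A B = rr M A B := fun M A B => by
    have h : (-M).compl₁₂ A.subtype B.subtype = -M.compl₁₂ A.subtype B.subtype := by ext; simp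
    unfold rr
    rw [h]
    exact rk_neg _
  have hcongr : ∀ (M N : Bil p V U) A B, (∀ v ∈ A, ∀ u ∈ B, M v u = N v u) →
      rr M A B = rr N A B := fun M N A B h => by
    unfold rr
    congr 1
    ext v u
    exact h _ v.2 _ u.2
  refine
    { rr_nonneg := fun M A B => Nat.cast_nonneg _
      rr_add := hadd
      rr_sub := fun M N A B => ?_
      rr_neg := hneg
      rr_congr := hcongr
      rr_zero := fun M A B h => ?_
      rr_mono := fun M A A' B B' h h' => rr_mono M h h'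
      rr_le := fun M A B => rk_comp _ _ _
      rr_sup_left := rr_sup
      rr_sup_right := fun M A B B' => ?_
      rr_tv_left := rr_tv
      rr_tv_right := fun M A S N N' => ?_
      rk_compl := fun M A B P Q h h' => rk_land M A B P Q h h'
      r3 := fun M A A' B B' => ?_ }
  · have h : M - N = M + -N := by ext; simp [sub_eq_add_neg]
    rw [h, ← hneg N]
    exact hadd _ _ _ _
  · have h0 : M.compl₁₂ A.subtype B.subtype = 0 := by
      ext v u
      exact h _ v.2 _ u.2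
    simp [rr, h0, rk]
  · simp only [← rr_flip M]
    exact rr_sup _ _ _ _
  · simp only [← rr_flip M]
    exact rr_tv _ _ _ _ _
  · obtain ⟨P, hP1, hP2, hP3⟩ := exists_kill A A'
    obtain ⟨Q, hQ1, hQ2, hQ3⟩ := exists_kill B B'
    refine ⟨M.compl₁₂ P Q, fun v hv => ?_, fun u hu => ?_, ?_⟩
    · ext u
      simp [hP2 v hv]
    · ext v
      simp [hQ2 u hu]
    · have h : (M - M.compl₁₂ P Q).compl₁₂ A.subtype B.subtype =
          M.compl₁₂ (A.subtype - P ∘ₗ A.subtype) B.subtype +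
            M.compl₁₂ (P ∘ₗ A.subtype) (B.subtype - Q ∘ₗ B.subtype) := by
        ext; simp
      unfold rr
      rw [h]
      refine (rk_add _ _).trans (add_le_add (rk_land M _ _ _ _ (fun v => hP3 _ v.2) fun u => u.2)
        (rk_land M _ _ _ _ (fun v => hP1 _) fun u => hQ3 _ u.2))

end Pool.Agent.Lib.U4
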