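import Pool.Agent.Lib.U4.BlueU

noncomputable section

open Finset
open scoped BigOperators ComplexConjugate

namespace Pool.Agent.Lib.U4

open Pool.Agent.Lib.MP_3a84e0_co

theorem stREPL : St_REPL := by
  intro p _ hM e he V _ _ _ f g P hP A η η' T B0 hg hη hA hη'
  have h := hM V
  set c : ZMod p := tc p (e + 1) with hc
  obtain ⟨Θ, hΘ1, hΘ2⟩ := h.symm (e + 1) he (c • T)
  have key : ∀ k : V, ∃ ψ ∈ (Van (e + 1) : Submodule (ZMod p) (V → ZMod p)),
      bias (top (hP k) - T k - B0) * ‖𝔼 x, f (x + k) * g x * ec (P k x)‖ ≤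
        ‖𝔼 x, f (x + k) * (g x * ec (c * B0 fun _ => x)) * ec (Θ k (fun _ => x) + ψ x)‖ := by
    intro k
    obtain ⟨ψ, h1, h2⟩ := h.red e (c • (top (hP k) - T k - B0)) (fun _ => AddMonoidHom.id V)
      fun x => f (x + k) * (g x * ec (c * B0 fun _ => x)) *
        ec (Θ k (fun _ => x) + (P k - c • fun x => dd (e + 1) (fun _ => x) (P k) 0) x)
    refine ⟨(P k - c • fun x => dd (e + 1) (fun _ => x) (P k) 0) + ψ,
      add_mem (taylor he (hP k)) h1, ?_⟩
    refine le_trans (mul_le_mul_of_nonneg_right (h.bias_smul e _ c) (norm_nonneg _)) ?_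
    refine le_of_eq_of_le ?_ (h2.trans (le_of_eq ?_))
    · congr 2
      refine expect_congr rfl fun x _ => ?_
      simp only [mul_assoc, ← ec_add]
      congr 3
      simp only [hΘ2, LinearMap.smul_apply, MultilinearMap.smul_apply, MultilinearMap.sub_apply,
        top_apply, AddMonoidHom.id_apply, Pi.sub_apply, Pi.smul_apply, smul_eq_mul]
      ring
    · congr 1
      refine expect_congr rfl fun x _ => ?_
      simp only [mul_assoc, ← ec_add, Pi.add_apply, add_assoc]
  choose ψ hψ1 hψ2 using key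
  refine ⟨Θ, fun x => g x * ec (c * B0 fun _ => x), ψ, hΘ1,
    fun x => mul_le' (hg x) (by simp), hψ1, ?_⟩
  refine (mul_le_mul_of_nonneg_left hη' hη).trans ?_
  rw [mul_expect]
  refine expect_le_expect fun k _ => ?_
  by_cases hk : k ∈ A
  · refine le_trans ?_ (hψ2 k)
    rw [ind, if_pos hk, one_mul, mul_comm]
    exact mul_le_mul_of_nonneg_left (hA k hk) (norm_nonneg _)
  · rw [ind, if_neg hk, zero_mul, mul_zero]
    exact norm_nonneg _

end Pool.Agent.Lib.U4
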