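import Pool.Agent.Lib.U4.BlueA

noncomputable section

open Finset Module
open scoped BigOperators

namespace Pool.Agent.Lib.U4

namespace STR

section avg

variable {G : Type} [AddCommGroup G] [Fintype G]

theorem shr (f : G → ℝ) (c : G) : 𝔼 x, f (x + c) = 𝔼 x, f x :=
  Fintype.expect_equiv (Equiv.addRight c) _ _ fun _ => rfl

theorem shl (f : G → ℝ) (c : G) : 𝔼 x, f (c + x) = 𝔼 x, f x :=
  Fintype.expect_equiv (Equiv.addLeft c) _ _ fun _ => rfl

theorem shs (f : G → ℝ) (c : G) : 𝔼 x, f (x - c) = 𝔼 x, f x :=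
  Fintype.expect_equiv (Equiv.subRight c) _ _ fun _ => rfl

theorem rot (F : G → G → G → ℝ) :
    𝔼 z, 𝔼 x, 𝔼 y, F x y z = 𝔼 x, 𝔼 y, 𝔼 z, F x y z := by
  rw [expect_comm]
  exact expect_congr rfl fun x _ => expect_comm _ _ _

theorem a2 (F : G → G → G → ℝ) :
    𝔼 z, 𝔼 x, 𝔼 y, F x y (y + z) = 𝔼 a, 𝔼 w, 𝔼 w', F a w w' := by
  rw [rot fun x y z => F x y (y + z)]
  exact expect_congr rfl fun x _ => expect_congr rfl fun y _ => shl (F x y) y

theorem a1 (F : G → G → G → ℝ) :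
    𝔼 z, 𝔼 x, 𝔼 y, F y x (x + z) = 𝔼 a, 𝔼 w, 𝔼 w', F a w w' := by
  rw [← a2 F]
  exact expect_congr rfl fun z _ => expect_comm _ _ _

theorem a3 (F : G → G → G → ℝ) :
    𝔼 z, 𝔼 x, 𝔼 y, F (x + y) y (z - y) = 𝔼 a, 𝔼 w, 𝔼 w', F a w w' := by
  rw [rot fun x y z => F (x + y) y (z - y), expect_comm, expect_comm univ univ
    (fun a w => 𝔼 w', F a w w')]
  refine expect_congr rfl fun y _ => ?_
  rw [← shr (fun a => 𝔼 w', F a y w') y]
  exact expect_congr rfl fun x _ => shs (F (x + y) y) y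

theorem b1 (r : G → G → ℝ) : 𝔼 a, 𝔼 z, r (a - z) z = 𝔼 x, 𝔼 y, r x y := by
  rw [expect_comm, expect_comm univ univ r]
  exact expect_congr rfl fun z _ => shs (fun a => r a z) z

theorem b2 (r : G → G → ℝ) : 𝔼 a, 𝔼 z, r a (z - a) = 𝔼 x, 𝔼 y, r x y :=
  expect_congr rfl fun a _ => shs (r a) a

theorem le2 (f g : G → G → ℝ) (h : ∀ x y, f x y ≤ g x y) :
    𝔼 x, 𝔼 y, f x y ≤ 𝔼 x, 𝔼 y, g x y :=
  expect_le_expect fun x _ => expect_le_expect fun y _ => h x y

theorem three (r : G → G → ℝ) (n : G → G → ℝ)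
    (h : ∀ a z, n a z ≤ r a z + r (a - z) z + r a (z - a)) :
    𝔼 a, 𝔼 z, n a z ≤ 3 * 𝔼 x, 𝔼 y, r x y := by
  refine (le2 _ _ h).trans (le_of_eq ?_)
  simp only [expect_add_distrib]
  rw [b1 r, b2 r]
  ring

end avg

section main

variable {p : ℕ} {G V U : Type} [AddCommGroup G] [AddCommGroup V] [Module (ZMod p) V]
  [AddCommGroup U] [Module (ZMod p) U]

/-- Left kernels. -/
def NV (φ : G → Bil p V U) (a z : G) : Submodule (ZMod p) V :=
  LinearMap.ker (df φ a z) ⊓ LinearMap.ker (df φ (a - z) z) ⊓ LinearMap.ker (df φ a (z - a))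

/-- Right kernels. -/
def NU (φ : G → Bil p V U) (a z : G) : Submodule (ZMod p) U :=
  LinearMap.ker (df φ a z).flip ⊓ LinearMap.ker (df φ (a - z) z).flip ⊓
    LinearMap.ker (df φ a (z - a)).flip

theorem mV {φ : G → Bil p V U} {a z : G} {v : V} (h : v ∈ NV φ a z) (u : U) :
    df φ a z v u = 0 ∧ df φ (a - z) z v u = 0 ∧ df φ a (z - a) v u = 0 := by
  obtain ⟨⟨h1, h2⟩, h3⟩ := h
  rw [SetLike.mem_coe, LinearMap.mem_ker] at h1 h2 h3
  rw [h1, h2, h3]
  exact ⟨rfl, rfl, rfl⟩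

theorem mU {φ : G → Bil p V U} {a z : G} {u : U} (h : u ∈ NU φ a z) (v : V) :
    df φ a z v u = 0 ∧ df φ (a - z) z v u = 0 ∧ df φ a (z - a) v u = 0 := by
  obtain ⟨⟨h1, h2⟩, h3⟩ := h
  rw [SetLike.mem_coe, LinearMap.mem_ker] at h1 h2 h3
  exact ⟨LinearMap.congr_fun h1 v, LinearMap.congr_fun h2 v, LinearMap.congr_fun h3 v⟩

theorem sy (φ : G → Bil p V U) (x y : G) : df φ x y = df φ y x := by
  unfold df
  rw [add_comm x y]
  abel

theorem c1 (φ : G → Bil p V U) (x y z : G) :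
    df φ x y = df φ y (x + z) + df φ x z - df φ (x + y) z := by
  unfold df
  rw [show y + (x + z) = x + y + z by abel]
  abel

theorem c2 (φ : G → Bil p V U) (x y z : G) :
    df φ x y = df φ x (y + z) + df φ y z - df φ (x + y) z := by
  unfold df
  rw [show x + (y + z) = x + y + z by abel]
  abel

theorem c3 (φ : G → Bil p V U) (x y z : G) :
    df φ x y = df φ x z + df φ y (z - y) - df φ (x + y) (z - y) := by
  unfold df
  rw [show y + (z - y) = z by abel, show x + y + (z - y) = x + z by abel]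
  abel

theorem e1 (hB : RkB p V U) (φ : G → Bil p V U) (SV : G → Submodule (ZMod p) V)
    (SU : G → Submodule (ZMod p) U) (x y z : G) :
    rr (df φ x y) ((SV x ⊓ NV φ x z) ⊓ (SV (x + y) ⊓ NV φ (x + y) z)) (SU y ⊓ NU φ y z) ≤
      tv (SU y) (NU φ y x) (NU φ y (x + z)) := by
  refine (hB.rr_mono _ _ _ _ (SU y) le_rfl inf_le_left).trans ?_
  refine (hB.rr_tv_right _ _ _ (NU φ y x) (NU φ y (x + z))).trans (le_of_eq ?_)
  rw [hB.rr_zero, hB.rr_zero]
  · ring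
  · intro v hv u hu
    rw [c1 φ x y z]
    simp only [LinearMap.sub_apply, LinearMap.add_apply]
    rw [(mU hu.1 v).1, (mV hv.1.2 u).1, (mV hv.2.2 u).1]
    ring
  · intro v _ u hu
    rw [sy]
    exact (mU hu.1 v).1

theorem e2 (hB : RkB p V U) (φ : G → Bil p V U) (SV : G → Submodule (ZMod p) V)
    (SU : G → Submodule (ZMod p) U) (x y z : G) :
    rr (df φ x y) (SV x ⊓ NV φ x z) ((SU y ⊓ NU φ y z) ⊓ (SU (x + y) ⊓ NU φ (x + y) z)) ≤
      tv (SV x) (NV φ x y) (NV φ x (y + z)) := by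
  refine (hB.rr_mono _ _ (SV x) _ _ inf_le_left le_rfl).trans ?_
  refine (hB.rr_tv_left _ _ (NV φ x y) (NV φ x (y + z)) _).trans (le_of_eq ?_)
  rw [hB.rr_zero, hB.rr_zero]
  · ring
  · intro v hv u hu
    rw [c2 φ x y z]
    simp only [LinearMap.sub_apply, LinearMap.add_apply]
    rw [(mV hv.1 u).1, (mU hu.1.2 v).1, (mU hu.2.2 v).1]
    ring
  · intro v hv u _
    exact (mV hv.1 u).1

theorem e3 (hB : RkB p V U) (φ : G → Bil p V U) (SV : G → Submodule (ZMod p) V)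
    (SU : G → Submodule (ZMod p) U) (x y z : G) :
    rr (df φ x y) ((SV x ⊓ NV φ x z) ⊓ (SV y ⊓ NV φ y z)) (SU (x + y) ⊓ NU φ (x + y) z) ≤
      tv (SU (x + y)) (NU φ (x + y) y) (NU φ (x + y) (z - y)) := by
  refine (hB.rr_mono _ _ _ _ (SU (x + y)) le_rfl inf_le_left).trans ?_
  refine (hB.rr_tv_right _ _ _ (NU φ (x + y) y) (NU φ (x + y) (z - y))).trans (le_of_eq ?_)
  rw [hB.rr_zero, hB.rr_zero]
  · ring
  · intro v hv u hu
    rw [c3 φ x y z]
    simp only [LinearMap.sub_apply, LinearMap.add_apply]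
    rw [(mU hu.1 v).1, (mV hv.1.2 u).1, (mV hv.2.2 u).2.2]
    ring
  · intro v _ u hu
    have := (mU hu.1 v).2.1
    rwa [add_sub_cancel_right] at this

theorem cdV (hA : RkA p V U) (φ : G → Bil p V U) (a z : G) :
    cd (NV φ a z) ≤ rk (df φ a z) + rk (df φ (a - z) z) + rk (df φ a (z - a)) := by
  rw [← hA.cd_ker, ← hA.cd_ker, ← hA.cd_ker]
  exact (hA.cd_inf _ _).trans (add_le_add (hA.cd_inf _ _) le_rfl)

theorem cdU (hA : RkA p V U) (hA' : RkA p U V) (φ : G → Bil p V U) (a z : G) :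
    cd (NU φ a z) ≤ rk (df φ a z) + rk (df φ (a - z) z) + rk (df φ a (z - a)) := by
  rw [← hA.cd_ker_flip, ← hA.cd_ker_flip, ← hA.cd_ker_flip]
  exact (hA'.cd_inf _ _).trans (add_le_add (hA'.cd_inf _ _) le_rfl)

end main

end STR

open STR in
theorem stSTR : St_STR := by
  intro p _ hRA hRB hInc G V U _ _ _ _ _ _ _ _ φ l hl hl1
  have hA := hRA V U
  have hA' := hRA U V
  have hB := hRB V U
  set k : ℝ := 𝔼 x, 𝔼 y, rk (df φ x y) with hk
  have hk0 : 0 ≤ k := expect_nonneg fun x _ => expect_nonneg fun y _ => hA.rk_nonneg _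
  have hV : 𝔼 a, 𝔼 z, cd (NV φ a z) ≤ 3 * k :=
    three (fun x y => rk (df φ x y)) _ (cdV hA φ)
  have hU : 𝔼 a, 𝔼 z, cd (NU φ a z) ≤ 3 * k :=
    three (fun x y => rk (df φ x y)) _ (cdU hA hA' φ)
  choose SV hSV1 hSV2 using fun a => hInc (NV φ a) l hl
  choose SU hSU1 hSU2 using fun a => hInc (NU φ a) l hl
  have tV : 𝔼 a, 𝔼 w, 𝔼 w', tv (SV a) (NV φ a w) (NV φ a w') ≤ l * (3 * k) := by
    refine (expect_le_expect fun a _ => hSV2 a).trans ?_
    rw [← mul_expect]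
    exact mul_le_mul_of_nonneg_left hV hl.le
  have tU : 𝔼 a, 𝔼 w, 𝔼 w', tv (SU a) (NU φ a w) (NU φ a w') ≤ l * (3 * k) := by
    refine (expect_le_expect fun a _ => hSU2 a).trans ?_
    rw [← mul_expect]
    exact mul_le_mul_of_nonneg_left hU hl.le
  have sV : l * 𝔼 a, cd (SV a) ≤ 3 * k := by
    rw [mul_expect]
    exact (expect_le_expect fun a _ => hSV1 a).trans hV
  have sU : l * 𝔼 a, cd (SU a) ≤ 3 * k := by
    rw [mul_expect]
    exact (expect_le_expect fun a _ => hSU1 a).trans hU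
  let E : G → ℝ := fun z => 𝔼 x, 𝔼 y, (tv (SU y) (NU φ y x) (NU φ y (x + z)) +
    tv (SV x) (NV φ x y) (NV φ x (y + z)) +
    tv (SU (x + y)) (NU φ (x + y) y) (NU φ (x + y) (z - y)))
  let D : G → ℝ := fun z => 𝔼 a, (cd (NV φ a z) + cd (NU φ a z))
  have hE : 𝔼 z, E z ≤ 9 * (l * k) := by
    simp only [E, expect_add_distrib]
    rw [a1 fun a w w' => tv (SU a) (NU φ a w) (NU φ a w'),
      a2 fun a w w' => tv (SV a) (NV φ a w) (NV φ a w'),
      a3 fun a w w' => tv (SU a) (NU φ a w) (NU φ a w')]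
    linarith
  have hD : 𝔼 z, D z ≤ 6 * k := by
    simp only [D, expect_add_distrib]
    rw [expect_comm univ univ fun z a => cd (NV φ a z),
      expect_comm univ univ fun z a => cd (NU φ a z)]
    linarith
  have hED : 𝔼 z, (E z + l * D z) ≤ 15 * (l * k) := by
    rw [expect_add_distrib, ← mul_expect]
    have := mul_le_mul_of_nonneg_left hD hl.le
    linarith
  obtain ⟨z, -, hz⟩ := exists_le_of_expect_le univ_nonempty hED
  have hE0 : 0 ≤ E z := expect_nonneg fun x _ => expect_nonneg fun y _ =>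
    add_nonneg (add_nonneg (hA'.tv_nonneg _ _ _) (hA.tv_nonneg _ _ _)) (hA'.tv_nonneg _ _ _)
  have hD0 : 0 ≤ D z := expect_nonneg fun a _ => add_nonneg (hA.cd_nonneg _) (hA'.cd_nonneg _)
  have hlD : 0 ≤ l * D z := mul_nonneg hl.le hD0
  have hlk : l * k ≤ k := by nlinarith
  refine ⟨fun a => SV a ⊓ NV φ a z, fun a => SU a ⊓ NU φ a z, ?_, ?_⟩
  · have h1 : 𝔼 a, (cd (SV a ⊓ NV φ a z) + cd (SU a ⊓ NU φ a z)) ≤
        𝔼 a, (cd (SV a) + cd (SU a) + (cd (NV φ a z) + cd (NU φ a z))) :=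
      expect_le_expect fun a _ => by
        have := hA.cd_inf (SV a) (NV φ a z)
        have := hA'.cd_inf (SU a) (NU φ a z)
        linarith
    rw [expect_add_distrib univ (fun a => cd (SV a) + cd (SU a)),
      expect_add_distrib univ (fun a => cd (SV a))] at h1
    have h2 := mul_le_mul_of_nonneg_left h1 hl.le
    have h3 : l * (𝔼 a, cd (SV a) + 𝔼 a, cd (SU a) + 𝔼 a, (cd (NV φ a z) + cd (NU φ a z))) =
        l * 𝔼 a, cd (SV a) + l * 𝔼 a, cd (SU a) + l * D z := by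
      simp only [D]
      ring
    linarith
  · have h1 := le2 _ _ fun x y => add_le_add (add_le_add (e1 hB φ SV SU x y z)
      (e2 hB φ SV SU x y z)) (e3 hB φ SV SU x y z)
    refine h1.trans ?_
    change E z ≤ _
    linarith

end Pool.Agent.Lib.U4
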