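import Pool.Agent.Lib.U4.BlueU

/-!
Block SYM2: the symmetry argument for bilinear phases.
-/

noncomputable section

open Finset
open scoped BigOperators ComplexConjugate

namespace Pool.Agent.Lib.U4

open Pool.Agent.Lib.MP_3a84e0_co

namespace SYM2

variable {p : ℕ} [Fact p.Prime] {V : Type} [AddCommGroup V] [Module (ZMod p) V] [Fintype V]

omit [Module (ZMod p) V] in
theorem lin (l : V → ZMod p) (hl : ∀ x y, l (x + y) = l x + l y) :
    𝔼 x, ec (l x) = 0 ∨ 𝔼 x, ec (l x) = 1 := by
  by_cases h : ∀ x, ec (l x) = 1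
  · right
    simp [h]
  · left
    push Not at h
    obtain ⟨t, ht⟩ := h
    have := expect_shift (fun x => ec (l x)) t
    simp only [hl, ec_add, ← expect_mul] at this
    by_contra h0
    exact ht (mul_left_cancel₀ h0 (this.trans (mul_one _).symm))

theorem bil (D : Bil p V V) (a b : V → ℂ) (ha : ∀ x, ‖a x‖ ≤ 1) (hb : ∀ x, ‖b x‖ ≤ 1) :
    ‖𝔼 x, 𝔼 y, a x * b y * ec (D x y)‖ ^ 2 ≤ (𝔼 x, 𝔼 t, ec (-D x t)).re := by
  have h1 : ‖𝔼 x, 𝔼 y, a x * b y * ec (D x y)‖ ≤ 𝔼 x, ‖𝔼 y, b y * ec (D x y)‖ := by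
    refine (RCLike.norm_expect_le (K := ℂ)).trans (expect_le_expect fun x _ => ?_)
    simp only [mul_assoc, ← mul_expect, norm_mul]
    exact mul_le_of_le_one_left (norm_nonneg _) (ha x)
  refine (pow_le_pow_left₀ (norm_nonneg _) h1 2).trans ((sq_expect_le _).trans ?_)
  have h2 : ((𝔼 x, ‖𝔼 y, b y * ec (D x y)‖ ^ 2 : ℝ) : ℂ) =
      𝔼 t, (𝔼 y, md t b y) * 𝔼 x, ec (-D x t) := by
    rw [Complex.ofReal_expect]
    simp only [normSq_expect]
    rw [expect_comm]
    refine expect_congr rfl fun t _ => ?_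
    rw [mul_expect]
    refine expect_congr rfl fun x _ => ?_
    rw [expect_mul]
    refine expect_congr rfl fun y _ => ?_
    have : ec (D x y) * conj (ec (D x (y + t))) = ec (-D x t) := by
      rw [← ec_sub, map_add]
      congr 1
      ring
    simp only [md, map_mul]
    rw [← this]
    ring
  rw [← Complex.ofReal_re (𝔼 x, ‖𝔼 y, b y * ec (D x y)‖ ^ 2), h2, expect_comm,
    Complex.re_expect, Complex.re_expect]
  refine expect_le_expect fun t _ => ?_
  rcases lin (fun x => -D x t) (fun x y => by simp; ring) with h | h <;> rw [h]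
  · simp
  · rw [mul_one]
    exact (Complex.re_le_norm _).trans (norm_expect_le_one (md_le hb t))

end SYM2

theorem stSYM2 : St_SYM2 := by
  intro p _ V _ _ _ f g B hf hg
  have h1 : ((𝔼 h, ‖𝔼 x, f (x + h) * g x * ec (B h x)‖ ^ 2 : ℝ) : ℂ) =
      𝔼 w, 𝔼 x, 𝔼 y, (g x * conj (f (w - x)) * ec (B w x - B x x)) *
        (f (w - y) * conj (g y) * ec (B y y - B w y)) * ec ((B - B.flip) x y) := by
    rw [Complex.ofReal_expect]
    simp only [Complex.ofReal_pow, ← Complex.mul_conj', conj_expect, expect_mul_expect]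
    rw [expect_comm]
    conv_rhs => rw [expect_comm]
    refine expect_congr rfl fun x _ => ?_
    rw [expect_comm]
    conv_rhs => rw [expect_comm]
    refine expect_congr rfl fun y _ => ?_
    rw [← expect_shift _ (-x - y)]
    refine expect_congr rfl fun w _ => ?_
    have e1 : x + (w + (-x - y)) = w - y := by abel
    have e2 : y + (w + (-x - y)) = w - x := by abel
    have e3 : ec (B (w + (-x - y)) x) * conj (ec (B (w + (-x - y)) y)) =
        ec (B w x - B x x) * ec (B y y - B w y) * ec ((B - B.flip) x y) := by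
      rw [← ec_sub, ← ec_add, ← ec_add]
      congr 1
      simp
      ring
    rw [e1, e2, map_mul, map_mul]
    linear_combination (f (w - y) * g x * conj (f (w - x)) * conj (g y)) * e3
  have hn : 0 ≤ 𝔼 h, ‖𝔼 x, f (x + h) * g x * ec (B h x)‖ ^ 2 :=
    expect_nonneg fun _ _ => sq_nonneg _
  rw [← Real.norm_of_nonneg hn, ← Complex.norm_real, h1]
  refine (pow_le_pow_left₀ (norm_nonneg _) (RCLike.norm_expect_le (K := ℂ)) 2).trans
    ((sq_expect_le _).trans (expect_le univ_nonempty fun w _ => ?_))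
  refine (SYM2.bil (B - B.flip) _ _ (fun x => ?_) fun y => ?_).trans (le_of_eq ?_)
  · simp only [norm_mul, norm_ec, mul_one, RCLike.norm_conj]
    exact mul_le_one₀ (hg _) (norm_nonneg _) (hf _)
  · simp only [norm_mul, norm_ec, mul_one, RCLike.norm_conj]
    exact mul_le_one₀ (hf _) (norm_nonneg _) (hg _)
  · simp

end Pool.Agent.Lib.U4
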