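import Pool.Agent.Lib.U4.BlueU

noncomputable section

open Finset
open scoped BigOperators

namespace Pool.Agent.Lib.U4

open Pool.Agent.Lib.MP_3a84e0_co

namespace SYMD

variable {p e : ℕ} [Fact p.Prime] {V : Type} [AddCommGroup V] [Module (ZMod p) V]

/-- The bilinear form obtained by freezing the last variables. -/
def fr (Θ : V →ₗ[ZMod p] Ml p (e + 1) V) (c : ZMod p) (k : Fin e → V) : Bil p V V :=
  LinearMap.mk₂ (ZMod p) (fun h x => c * Θ h (Fin.cons x k))
    (fun _ _ _ => by simp [mul_add]) (fun _ _ _ => by simp [mul_left_comm])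
    (fun h _ _ => by rw [(Θ h).cons_add, mul_add])
    (fun a h _ => by rw [(Θ h).cons_smul, smul_eq_mul, smul_eq_mul, mul_left_comm])

lemma sw_cons (Θ : V →ₗ[ZMod p] Ml p (e + 1) V) (c : ZMod p) (k : Fin e → V) (x y : V) :
    (c • sw Θ) (Fin.cons x (Fin.cons y k)) = fr Θ c k y x - fr Θ c k x y := by
  have : Fin.tail (fun i => (Fin.cons x (Fin.cons y k) : Fin (e + 2) → V) (Equiv.swap 0 1 i)) =
      Fin.cons x k := by
    funext i
    refine Fin.cases (by simp [Fin.tail]) (fun j => ?_) i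
    simp only [Fin.tail]
    rw [Equiv.swap_apply_of_ne_of_ne (Fin.succ_ne_zero _) (Fin.succ_succ_ne_one _)]
    rfl
  simp [sw, unc, fr, this, mul_sub]

end SYMD

open SYMD

theorem stSYMD : St_SYMD := by
  intro p _ hG hM hS e he V _ _ _ f g Θ P η hf hg hs hP h0 h1
  set c : ZMod p := (-1) ^ e * ((e + 1).factorial : ZMod p)
  have hc : c ≠ 0 := mul_ne_zero (pow_ne_zero _ (neg_ne_zero.2 one_ne_zero)) (fact_ne he)
  have G := hG V
  have M := hM V
  have h2 : η ^ 2 ^ (e + 1) ≤ 𝔼 k : Fin e → V,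
      𝔼 h, ‖𝔼 x, mdd e k f (x + h) * mdd e k g x * ec (fr Θ c k h x)‖ ^ 2 := by
    rw [expect_comm]
    refine (pow_le_pow_left₀ h0 h1 _).trans ((pow_expect_le (fun _ => norm_nonneg _) _).trans
      (expect_le_expect fun h _ => ?_))
    simp only [ec_add, ← mul_assoc]
    refine (G.norm_le e _ _ (hP h)).trans_eq ?_
    rw [G.gw_iter]
    refine expect_congr rfl fun k _ => ?_
    obtain ⟨a, ha⟩ : ∃ a, ∀ x, dd e k (fun y => Θ h fun _ => y) x = fr Θ c k h x + a :=
      ⟨_, M.dd_diag e _ (hs h) k⟩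
    simp only [G.mdd_mul, G.mdd_shift, G.mdd_ec, ha, ec_add, ← mul_assoc, ← expect_mul, norm_mul,
      norm_ec, mul_one]
  rw [pow_succ, pow_mul, ← M.bias_smul' _ _ c hc, bias]
  refine (pow_le_pow_left₀ (pow_nonneg h0 _) h2 2).trans ((sq_expect_le _).trans
    ((expect_le_expect fun k _ => hS _ _ _ (G.mdd_le e k f hf) (G.mdd_le e k g hg)).trans ?_))
  refine le_trans (le_of_eq ?_) (Complex.re_le_norm _)
  rw [← Complex.re_expect, expect_comm, expect_cons]
  refine congrArg _ (expect_congr rfl fun x _ => ?_)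
  rw [expect_comm, expect_cons]
  simp only [sw_cons]

end Pool.Agent.Lib.U4
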