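import Pool.Agent.Lib.U4.AllP
import Pool.Agent.Lib.U4.RA1b
import Pool.Agent.Lib.U4.RA2b
import Pool.Agent.Lib.U4.INC
import Pool.Agent.Lib.U4.GLOB
import Pool.Agent.Lib.U4.STR
import Pool.Agent.Lib.U4.COC
import Pool.Agent.Lib.U4.LOC
import Pool.Agent.Lib.U4.HALF
import Pool.Agent.Lib.U4.A2
import Pool.Agent.Lib.U4.BLRb
import Pool.Agent.Lib.U4.GCS
import Pool.Agent.Lib.U4.LAB
import Pool.Agent.Lib.U4.LIN
import Pool.Agent.Lib.U4.SAMPLE
import Pool.Agent.Lib.U4.RM2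
import Pool.Agent.Lib.U4.INV1
import Pool.Agent.Lib.U4.CONV
import Pool.Agent.Lib.U4.GW
import Pool.Agent.Lib.U4.ML
import Pool.Agent.Lib.U4.QUAD
import Pool.Agent.Lib.U4.REPL
import Pool.Agent.Lib.U4.SYM2
import Pool.Agent.Lib.U4.SYMD
import Pool.Agent.Lib.U4.INTEG
import Pool.Agent.Lib.U4.STEP
import Pool.Agent.Lib.U4.FINAL

/-! Assembly: the polynomial inverse theorem for `U^4`. -/

namespace Pool.Agent.Lib.U4

open Pool.Agent.Lib.MP_3a84e0_co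

variable (p : ℕ) [Fact p.Prime]

theorem a2 : A2 p :=
  have hA := stRA1b p
  have hB := stRA2b p hA
  have hI : Inc p := stINC p
  stA2 p hA (stHALF p hA hB (stGLOB p hA hI) (stSTR p hA hB hI) (stCOC p hB) (stLOC p hA hB))

theorem rm2 (hp : p ≠ 2) : RM2 p :=
  stRM2 p (stLIN.2 p) (stBLRb p (stRA1b p) (a2 p))
    (stSAMPLE p stLIN.1 (stLAB p (rm1 p hp) stGCS))

theorem step (e : ℕ) (he : e + 2 < p) (h1 : INV p (e + 1)) (h2 : RM p (e + 1)) : INV p (e + 2) :=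
  stSTEP p (stQUAD p) (stREPL p (stML p)) (stSYMD p (stGW p) (stML p) (stSYM2 p))
    (stINTEG p (stGW p) (stML p)) e he h1 h2

theorem inv2 (hp : 2 < p) : INV p 2 :=
  step p 0 hp (stINV1 p) ((stCONV p).1 (rm1 p hp.ne'))

theorem inv3 (hp : 3 < p) : INV p 3 :=
  step p 1 hp (inv2 p (by omega)) ((stCONV p).2 (rm2 p (by omega)))

theorem polyInverse3 (hp : 3 < p) : PolyInverse p 3 3 := stFINAL p 3 hp (inv3 p hp)

end Pool.Agent.Lib.U4
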