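import Pool.Agent.Lib.U4.BlueE

noncomputable section

open Finset

namespace Pool.Agent.Lib.U4

open _root_.Pool.Agent.Lib.U4.FP

namespace BSGb

variable {Ω α γ : Type} [Fintype Ω]

/-- two copies, conditionally independent given `Z` -/
def dbl (P : FP Ω) (Z : Ω → γ) : FP (Ω × Ω) where
  w z := P.w z.1 * (P.cond Z (Z z.1)).w z.2
  nn z := mul_nonneg (P.nn _) ((P.cond Z (Z z.1)).nn _)
  tot := by
    rw [Fintype.sum_prod_type, ← P.tot]
    exact sum_congr rfl fun a _ => by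
      simp only
      rw [← mul_sum, (P.cond Z (Z a)).tot, mul_one]

lemma dbl_E (P : FP Ω) (Z : Ω → γ) (f : Ω × Ω → ℝ) :
    (dbl P Z).E f = P.E fun a => (P.cond Z (Z a)).E fun b => f (a, b) := by
  simp only [E, dbl, Fintype.sum_prod_type, mul_sum, mul_assoc]

open Classical in
lemma pr_eq (P : FP Ω) (X : Ω → α) (x : α) :
    P.pr X x = P.E fun a => if X a = x then 1 else 0 := by
  simp [pr, E]

lemma dbl_pr_fst (h : Api) (P : FP Ω) (Z : Ω → γ) (X : Ω → α) (x : α) :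
    (dbl P Z).pr (fun z => X z.1) x = P.pr X x := by
  rw [pr_eq, pr_eq, dbl_E]
  refine congrArg _ (funext fun a => ?_)
  by_cases h1 : X a = x <;> simp only [h1, if_true, if_false, h.E_const]

lemma dbl_fst (h : Api) (P : FP Ω) (Z : Ω → γ) : ((dbl P Z).map fun z => z.1) = P := by
  conv_rhs => rw [← h.map_id P]
  ext x
  exact dbl_pr_fst h P Z (fun a => a) x

lemma dbl_snd (h : Api) (P : FP Ω) (Z : Ω → γ) : ((dbl P Z).map fun z => z.2) = P := by
  classical
  conv_rhs => rw [← h.map_id P]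
  ext x
  change (dbl P Z).pr (fun z => z.2) x = P.pr (fun a => a) x
  rw [pr_eq, pr_eq, dbl_E]
  exact h.tower P Z fun _ b => if b = x then 1 else 0

lemma H1 (h : Api) (P : FP Ω) (Z : Ω → γ) (X : Ω → α) :
    ((dbl P Z).H fun z => X z.1) = P.H X := by
  rw [← h.H_map (dbl P Z) (fun z => z.1) X, dbl_fst h]

lemma H2 (h : Api) (P : FP Ω) (Z : Ω → γ) (X : Ω → α) :
    ((dbl P Z).H fun z => X z.2) = P.H X := by
  rw [← h.H_map (dbl P Z) (fun z => z.2) X, dbl_snd h]

lemma dbl_supp (h : Api) (P : FP Ω) (Z : Ω → γ) {z : Ω × Ω} (hz : 0 < (dbl P Z).w z) :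
    0 < P.w z.1 ∧ Z z.2 = Z z.1 := by
  have h1 := (pos_iff_pos_of_mul_pos hz)
  have h2 : 0 < P.w z.1 := by
    rcases (P.nn z.1).eq_or_lt with h0 | h0
    · have : (dbl P Z).w z = 0 := by simp [dbl, ← h0]
      exact absurd this hz.ne'
    · exact h0
  exact ⟨h2, ((h.cond_supp P Z z.1 z.2 h2).1 (h1.1 h2)).2⟩

open Classical in
lemma cond_w (P : FP Ω) (Y : Ω → γ) {y : γ} (hy : P.pr Y y ≠ 0) (a : Ω) :
    (P.cond Y y).w a = (if Y a = y then P.w a else 0) / P.pr Y y := by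
  rw [FP.cond, dif_neg hy]

lemma dbl_cond (h : Api) (P : FP Ω) (Z : Ω → γ) {a : Ω} (ha : 0 < P.w a) :
    (dbl P Z).cond (fun z => Z z.1) (Z a) = (P.cond Z (Z a)).prod (P.cond Z (Z a)) := by
  have h1 := (h.pr_pos P Z a ha).ne'
  ext z
  rw [cond_w _ _ (by rwa [dbl_pr_fst h]), dbl_pr_fst h]
  change _ = (P.cond Z (Z a)).w z.1 * (P.cond Z (Z a)).w z.2
  rw [cond_w P Z h1 z.1]
  split_ifs with h2
  · change P.w z.1 * (P.cond Z (Z z.1)).w z.2 / _ = _
    rw [h2]; ring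
  · simp

lemma key (h : Api) (P : FP Ω) (Z : Ω → γ) (X : Ω × Ω → α) :
    (dbl P Z).cH X (fun z => Z z.1) =
      P.E fun a => ((P.cond Z (Z a)).prod (P.cond Z (Z a))).H X := by
  rw [h.chain, h.E_congr _ _ (fun z => ((P.cond Z (Z z.1)).prod (P.cond Z (Z z.1))).H X)
    fun z hz => by rw [dbl_cond h P Z (dbl_supp h P Z hz).1],
    ← h.E_map (dbl P Z) (fun z => z.1)
      (fun a => ((P.cond Z (Z a)).prod (P.cond Z (Z a))).H X), dbl_fst h]

end BSGb

open BSGb in
theorem stBSG : St_BSG := by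
  intro h Ω Γ _ _ _ P A B
  set Z : Ω → Γ := fun x => A x + B x with hZ
  set R := dbl P Z with hR
  have hs : ∀ z, 0 < R.w z → A z.2 + B z.2 = A z.1 + B z.1 := fun z hz => (dbl_supp h P Z hz).2
  have e1 := key h P Z fun z => A z.1 + A z.2
  have e2 := key h P Z fun z => ((A z.1, B z.1), (A z.2, B z.2))
  have e3 := h.chain P A Z
  have e4 := h.chain P (fun x => (A x, B x)) Z
  have e0 : (P.E fun a => ((P.cond Z (Z a)).map A * (P.cond Z (Z a)).map A).ent -
      ((P.cond Z (Z a)).map A).ent) = R.cH (fun z => A z.1 + A z.2) (fun z => Z z.1)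
        - P.cH A Z := by
    rw [e1, e3, ← h.E_sub]
    simp only [← h.prod_add, h.ent_map]
  have e5 : R.cH (fun z => ((A z.1, B z.1), (A z.2, B z.2))) (fun z => Z z.1)
      = 2 * P.cH (fun x => (A x, B x)) Z := by
    rw [e2, e4, two_mul, ← h.E_add]
    exact congrArg _ (funext fun a => h.H_prod _ _ (fun x => (A x, B x)) fun x => (A x, B x))
  have f1 : P.H (fun x => (A x, Z x)) = P.H fun x => (A x, B x) :=
    h.H_congr _ _ _ fun a b _ _ => by
      simp only [hZ, Prod.mk.injEq]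
      exact and_congr_right fun h1 => by rw [h1, add_right_inj]
  have f2 : P.H (fun x => ((A x, B x), Z x)) = P.H fun x => (A x, B x) :=
    h.H_congr _ _ _ fun a b _ _ => by
      simp only [hZ, Prod.mk.injEq]
      exact ⟨fun h1 => h1.1, fun h1 => ⟨h1, by rw [h1.1, h1.2]⟩⟩
  have f3 : R.H (fun z => (((A z.1, B z.1), (A z.2, B z.2)), Z z.1))
      = R.H fun z => ((A z.1, B z.1), (A z.2, B z.2)) :=
    h.H_congr _ _ _ fun a b _ _ => by
      simp only [hZ, Prod.mk.injEq]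
      exact ⟨fun h1 => h1.1, fun h1 => ⟨h1, by rw [h1.1.1, h1.1.2]⟩⟩
  have f4 : R.H (fun z => (A z.1 + A z.2, Z z.1)) ≤ R.H fun z => (A z.1 - B z.2, Z z.1) :=
    h.H_mono _ _ _ fun a b ha hb => by
      simp only [hZ, Prod.mk.injEq]
      rintro ⟨h1, h2⟩
      refine ⟨?_, h2⟩
      linear_combination (norm := abel1) h1 + h2 + hs a ha - hs b hb
  have f5 := h.H_pair_le R (fun z => A z.1 - B z.2) fun z => Z z.1
  have f6 := h.H_sub R (fun z => (A z.1, A z.1 - B z.2)) (fun z => (B z.1, A z.1 - B z.2))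
    (fun z => A z.1 - B z.2) (fun z => ((A z.1, B z.1), (A z.2, B z.2)))
    (fun a b _ _ h1 => congrArg Prod.snd h1) (fun a b _ _ h1 => congrArg Prod.snd h1)
    (fun a b ha hb => by
      simp only [Prod.mk.injEq]
      rintro ⟨h1, h2⟩ ⟨h3, -⟩
      refine ⟨⟨h1, h3⟩, ?_, ?_⟩
      · linear_combination (norm := abel1) h2 + h3 + hs a ha - hs b hb
      · linear_combination (norm := abel1) h1 - h2)
  have f7 : R.H (fun z => (A z.1, A z.1 - B z.2)) ≤ R.H fun z => (A z.1, B z.2) :=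
    h.H_mono _ _ _ fun a b _ _ => by
      simp only [Prod.mk.injEq]
      rintro ⟨h1, h2⟩
      exact ⟨h1, by rw [h1, h2]⟩
  have f8 : R.H (fun z => (B z.1, A z.1 - B z.2)) ≤ R.H fun z => (B z.1, A z.2) :=
    h.H_mono _ _ _ fun a b ha hb => by
      simp only [Prod.mk.injEq]
      rintro ⟨h1, h2⟩
      refine ⟨h1, ?_⟩
      linear_combination (norm := abel1) h2 - h1 - hs a ha + hs b hb
  have f9 := h.H_pair_le R (fun z => A z.1) fun z => B z.2
  have f10 := h.H_pair_le R (fun z => B z.1) fun z => A z.2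
  have g1 : R.H _ = _ := H1 h P Z A
  have g2 : R.H _ = _ := H1 h P Z B
  have g3 : R.H _ = _ := H2 h P Z A
  have g4 : R.H _ = _ := H2 h P Z B
  have g5 : R.H _ = _ := H1 h P Z Z
  refine e0.trans_le ?_
  simp only [cH, I] at e5 ⊢
  linarith

end Pool.Agent.Lib.U4
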