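import Pool.Agent.Lib.U4.BlueE

noncomputable section

open Finset

namespace Pool.Agent.Lib.U4

open _root_.Pool.Agent.Lib.U4.FP

namespace CHAIN

/-- truncation of a vector below the index `k` -/
def trn {n : ℕ} {α : Type} (k : ℕ) (x : Fin n → α) : Fin n → Option α :=
  fun b => if b.val < k then some (x b) else none

lemma trn_eq {n : ℕ} {α : Type} {k : ℕ} {x y : Fin n → α} :
    trn k x = trn k y ↔ ∀ b : Fin n, b.val < k → x b = y b := by
  constructor
  · intro h b hb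
    have := congrFun h b
    simpa [trn, hb] using this
  · intro h
    funext b
    unfold trn
    split_ifs with hb
    · rw [h b hb]
    · rfl

lemma sum_split {n : ℕ} {M : Type} [AddCommGroup M] (b : Fin n) (x : Fin n → M) :
    ∑ b', x b' = ∑ b' ∈ Iio b, x b' + ∑ b' ∈ Ici b, x b' := by
  rw [← sum_union]
  · refine sum_congr ?_ fun _ _ => rfl
    ext c
    simpa using lt_or_ge c b
  · rw [disjoint_left]
    intro c h1 h2
    exact absurd (mem_Iio.1 h1) (not_lt.2 (mem_Ici.1 h2))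

lemma low_eq {n : ℕ} {M : Type} [AddCommGroup M] {b : Fin n} {x y : Fin n → M}
    (h : trn b.val x = trn b.val y) : ∑ b' ∈ Iio b, x b' = ∑ b' ∈ Iio b, y b' :=
  sum_congr rfl fun c hc => trn_eq.1 h c (Fin.lt_def.1 (mem_Iio.1 hc))

lemma step (h : Api) {M Γ : Type} [AddCommGroup M] [Fintype M] {n : ℕ} (Λ : Fin n → FP M)
    (σ : M → Γ) (b : Fin n) :
    (FP.pi Λ).cH (fun ξ => σ (ξ b)) (fun ξ => ∑ b' ∈ Ici b, ξ b') ≤
      (FP.pi Λ).H (fun ξ => (trn (b.val + 1) fun c => σ (ξ c), ∑ c, ξ c)) -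
        (FP.pi Λ).H (fun ξ => (trn b.val fun c => σ (ξ c), ∑ c, ξ c)) := by
  have hhi : ∀ x y : Fin n → M, (∀ i ∉ Iio b, x i = y i) →
      ∑ b' ∈ Ici b, x b' = ∑ b' ∈ Ici b, y b' := fun x y e =>
    sum_congr rfl fun c hc => e c fun h1 => absurd (mem_Iio.1 h1) (not_lt.2 (mem_Ici.1 hc))
  have hlo : ∀ x y : Fin n → M, (∀ i ∈ Iio b, x i = y i) → trn b.val x = trn b.val y :=
    fun x y e => trn_eq.2 fun c hc => e c (mem_Iio.2 hc)
  have h1 := h.H_sub (FP.pi Λ) (fun ξ => (trn (b.val + 1) fun c => σ (ξ c), ∑ c, ξ c))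
    (fun ξ => (trn b.val ξ, ∑ c, ξ c)) (fun ξ => (trn b.val fun c => σ (ξ c), ∑ c, ξ c))
    (fun ξ => (trn b.val ξ, (σ (ξ b), ∑ b' ∈ Ici b, ξ b')))
    (fun x y _ _ e => Prod.ext
      (trn_eq.2 fun c hc => trn_eq.1 (congrArg Prod.fst e) c (Nat.lt_succ_of_lt hc))
      (Prod.mk.inj e).2)
    (fun x y _ _ e => Prod.ext
      (trn_eq.2 fun c hc => congrArg σ (trn_eq.1 (congrArg Prod.fst e) c hc))
      (Prod.mk.inj e).2)
    (fun x y _ _ e e' => by
      have e1 : trn b.val x = trn b.val y := congrArg Prod.fst e'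
      have e2 : ∑ c, x c = ∑ c, y c := congrArg Prod.snd e'
      have e3 : σ (x b) = σ (y b) := trn_eq.1 (congrArg Prod.fst e) b (Nat.lt_succ_self _)
      rw [sum_split b x, sum_split b y, low_eq e1, add_right_inj] at e2
      simp only [e1, e2, e3])
  have h2 := h.H_mono (FP.pi Λ) (fun ξ => (trn b.val ξ, ∑ b' ∈ Ici b, ξ b'))
    (fun ξ => (trn b.val ξ, ∑ c, ξ c)) (fun x y _ _ e => by
      have e1 : trn b.val x = trn b.val y := congrArg Prod.fst e
      have e2 : ∑ b' ∈ Ici b, x b' = ∑ b' ∈ Ici b, y b' := congrArg Prod.snd e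
      simp only [sum_split b x, sum_split b y, low_eq e1, e1, e2])
  have h3 := h.split_H Λ (Iio b) (fun ξ => trn b.val ξ) (fun ξ => ∑ b' ∈ Ici b, ξ b') hlo hhi
  have h4 := h.split_H Λ (Iio b) (fun ξ => trn b.val ξ)
    (fun ξ => (σ (ξ b), ∑ b' ∈ Ici b, ξ b')) hlo (fun x y e => by
      simp only [hhi x y e, e b (by simp)])
  unfold FP.cH
  linarith

end CHAIN

open CHAIN in
theorem stCHAIN : St_CHAIN := by
  intro h M Γ _ _ n Λ σ
  refine (sum_le_sum fun b _ => step h Λ σ b).trans ?_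
  rw [Fin.sum_univ_eq_sum_range (fun k =>
    (FP.pi Λ).H (fun ξ => (trn (k + 1) fun c => σ (ξ c), ∑ c, ξ c)) -
      (FP.pi Λ).H (fun ξ => (trn k fun c => σ (ξ c), ∑ c, ξ c))) n,
    sum_range_sub fun k => (FP.pi Λ).H (fun ξ => (trn k fun c => σ (ξ c), ∑ c, ξ c))]
  have h1 := h.H_mono (FP.pi Λ) (fun ξ => (fun c => σ (ξ c), ∑ c, ξ c))
    (fun ξ => (trn n fun c => σ (ξ c), ∑ c, ξ c)) (fun x y _ _ e =>
      Prod.ext (congrArg (fun p => trn n p.1) e) (Prod.mk.inj e).2)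
  have h2 := h.H_mono (FP.pi Λ) (fun ξ => (trn 0 fun c => σ (ξ c), ∑ c, ξ c))
    (fun ξ => ∑ c, ξ c) (fun x y _ _ e => congrArg Prod.snd e)
  unfold FP.cH
  linarith

end Pool.Agent.Lib.U4
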