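import Pool.Agent.Lib.U4.BlueE

noncomputable section

open Finset
open scoped BigOperators

namespace Pool.Agent.Lib.U4

open _root_.Pool.Agent.Lib.U4.FP

namespace COL

variable {Γ : Type} [AddCommGroup Γ] [Fintype Γ]

lemma ent_sum (h : Api) {n : ℕ} (Λ : Fin n → FP Γ) (s : Finset (Fin n)) :
    (FP.pi Λ).H (fun x => ∑ b ∈ s, x b) = (∏ b ∈ s, Λ b).ent := by
  rw [← h.ent_map, h.pi_sum Λ (fun _ y => y) s]
  simp only [h.map_id]

omit [AddCommGroup Γ] in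
lemma ent_eval (h : Api) {n : ℕ} (Λ : Fin n → FP Γ) (b : Fin n) :
    (FP.pi Λ).H (fun x => x b) = (Λ b).ent := by
  rw [← h.ent_map, h.pi_eval]

lemma pair (h : Api) {n : ℕ} (Λ : Fin n → FP Γ) (b : Fin n) :
    (FP.pi Λ).H (fun x => (x b, ∑ b' ∈ Ici b, x b')) = (Λ b).ent + (∏ b' ∈ Ioi b, Λ b').ent := by
  rw [h.H_congr _ _ (fun x => (x b, ∑ b' ∈ Ioi b, x b')), h.split_H Λ {b}, ent_eval h, ent_sum h]
  · exact fun x y e => e b (mem_singleton_self b)
  · exact fun x y e => sum_congr rfl fun i hi =>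
      e i (notMem_singleton.2 (mem_Ioi.1 hi).ne')
  · intro x y _ _
    rw [← Ioi_insert, sum_insert notMem_Ioi_self, sum_insert notMem_Ioi_self]
    simp only [Prod.mk.injEq]
    exact and_congr_right fun e => by rw [e, add_right_inj]

end COL

theorem stCOL : St_COL := by
  intro h hM Γ ι _ _ _ _ _ η μ0 μ hη hmin n ν b hσ
  obtain ⟨σ, hσ⟩ := hσ
  have key := hM η μ0 μ hη hmin (fun a => FP.pi fun b' => ν (a, b')) (fun _ x => x b)
    (fun _ x => ∑ b' ∈ Ici b, x b')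
  have e1 : (FP.pi fun a => FP.pi fun b' => ν (a, b')).cH (fun x => ∑ i, x i b)
      (fun x i => ∑ b' ∈ Ici b, x i b') =
      (FP.pi ν).cH (fun y => ∑ a, y (a, b)) (fun y a => ∑ b' ∈ Ici b, y (a, b')) := by
    rw [← h.pi_curry ν, cH, cH, h.H_map, h.H_map]
  rw [e1] at key
  simp only [cH, I, COL.pair h, COL.ent_sum h, COL.ent_eval h, h.pi_eval, hσ] at key
  rw [tau, mD] at key
  simp only [cH]
  set D : ι → ℝ := fun a => (∏ b' ∈ Ici b, ν (a, b')).ent - (∏ b' ∈ Ioi b, ν (a, b')).ent with hD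
  have e2 : ∑ i, ((μ (σ i)).ent + (∏ b' ∈ Ioi b, ν (i, b')).ent - (∏ b' ∈ Ici b, ν (i, b')).ent)
      = ∑ i, (μ i).ent - ∑ i, D i := by
    rw [← Equiv.sum_comp σ fun i => (μ i).ent, ← sum_sub_distrib]
    exact sum_congr rfl fun i _ => by simp only [hD]; ring
  have e3 : ∑ i, (rho μ0 (μ (σ i)) + ((μ (σ i)).ent + (∏ b' ∈ Ici b, ν (i, b')).ent
      - ((μ (σ i)).ent + (∏ b' ∈ Ioi b, ν (i, b')).ent)) / 2)
      = ∑ i, rho μ0 (μ i) + (∑ i, D i) / 2 := by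
    rw [← Equiv.sum_comp σ fun i => rho μ0 (μ i), sum_div, ← sum_add_distrib]
    exact sum_congr rfl fun i _ => by simp only [hD]; ring
  rw [e2, e3, sub_div] at key
  have e4 : (1 / (Fintype.card ι : ℝ) + η / 2) * ∑ i, D i
      = (∑ i, D i) / Fintype.card ι + η * ((∑ i, D i) / 2) := by ring
  rw [e4]
  linarith

end Pool.Agent.Lib.U4
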