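import Pool.Agent.Lib.U4.BlueE

noncomputable section

open Finset
open scoped BigOperators

namespace Pool.Agent.Lib.U4

open _root_.Pool.Agent.Lib.U4.FP

namespace COSET

lemma expect_ind {G : Type} [Fintype G] (q : G → Prop) (T : Finset G) (hT : ∀ x, x ∈ T ↔ q x) :
    𝔼 x, ind (q x) = (T.card : ℝ) / Fintype.card G := by
  classical
  rw [expect_eq_sum_div_card, card_univ, show T = univ.filter q by ext; simp [hT], card_filter]
  simp [ind]

lemma expect_three {G : Type} [Fintype G] (q r : G → G → G → Prop) (S : Finset (G × G × G))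
    (hS : ∀ z, z ∈ S ↔ q z.1 z.2.1 z.2.2 ∧ r z.1 z.2.1 z.2.2) :
    𝔼 x, 𝔼 y, 𝔼 t, ind (q x y t) * ind (r x y t) = (S.card : ℝ) / (Fintype.card G : ℝ) ^ 3 := by
  classical
  rw [show S = univ.filter fun z : G × G × G => q z.1 z.2.1 z.2.2 ∧ r z.1 z.2.1 z.2.2 by
    ext; simp [hS]]
  simp only [expect_eq_sum_div_card, card_univ, ← sum_div, card_filter, Fintype.sum_prod_type]
  push_cast
  rw [div_div, div_div]
  congr 1
  · refine sum_congr rfl fun x _ => sum_congr rfl fun y _ => sum_congr rfl fun t _ => ?_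
    by_cases h1 : q x y t <;> by_cases h2 : r x y t <;> simp [ind, h1, h2]
  · ring

lemma unexp {ε u v r : ℝ} {m : ℕ} (h0 : 0 < ε) (h1 : ε ≤ 1) (hu : 0 < u) (hv : 0 < v)
    (hr : r ≤ m) (h : Real.log u ≤ Real.log v + r * -Real.log ε) : (ε / 2) ^ m * u ≤ v := by
  have h2 : Real.log ε ≤ 0 := Real.log_nonpos h0.le h1
  have h3 : Real.log (ε / 2) ≤ Real.log ε := Real.log_le_log (by positivity) (by linarith)
  rw [← Real.log_le_log_iff (by positivity) hv, Real.log_mul (by positivity) hu.ne', Real.log_pow]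
  have h4 : (m : ℝ) * Real.log (ε / 2) ≤ m * Real.log ε :=
    mul_le_mul_of_nonneg_left h3 (Nat.cast_nonneg m)
  nlinarith

lemma le_mul (h : Api) {Γ : Type} [AddCommGroup Γ] [Fintype Γ] (μ ν : FP Γ) :
    μ.ent ≤ (μ * ν).ent := by
  have h1 := h.H_sub (μ.prod ν) (fun z => z.1 + z.2) (fun z => id z.2) (fun _ => ())
    (fun z => (id z.1, id z.2)) (fun _ _ _ _ _ => rfl) (fun _ _ _ _ _ => rfl)
    (fun a b _ _ e1 e2 => by
      simp only [id] at e2 ⊢
      rw [e2] at e1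
      rw [e2, add_right_cancel e1])
  rw [h.H_prod, h.H_snd, h.H_const] at h1
  rw [h.mul_eq, h.ent_map, ent]
  linarith

lemma unif_pos {Ω : Type} [Fintype Ω] {s : Finset Ω} {hs : s.Nonempty} {a : Ω}
    (h : 0 < (unifOn s hs).w a) : a ∈ s := by
  by_contra e
  simp [unifOn, e] at h

lemma H_le (h : Api) {Ω G W : Type} [Fintype Ω] (P : FP Ω) (φ : G → W) (X : Ω → G × W)
    (T : Finset G) (hX : ∀ a, 0 < P.w a → ∃ x ∈ T, (x, φ x) = X a) :
    P.H X ≤ Real.log T.card := by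
  classical
  have := h.H_le_card P X (T.image fun x => (x, φ x)) fun a ha => mem_image.2 (hX a ha)
  rwa [card_image_of_injective _ fun x y e => congrArg Prod.fst e] at this

/-- A law on the graph with small doubling and almost full entropy. -/
lemma law (h : Api) (hB : BSG) {G W : Type} [AddCommGroup G] [Fintype G] [AddCommGroup W]
    [Fintype W] (φ : G → W) (A : Set G) (S : Finset (G × G × G)) (hS : S.Nonempty) (s : ℝ)
    (h1 : ∀ z ∈ S, z.1 ∈ A ∧ dq φ z.1 z.2.1 z.2.2 = 0)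
    (h2 : 3 * Real.log (Fintype.card G) - s ≤ Real.log S.card) :
    ∃ μ : FP (G × W), (∀ b, 0 < μ.w b → ∃ x ∈ A, (x, φ x) = b) ∧
      ((μ * μ).ent - μ.ent) + (Real.log (Fintype.card G) - μ.ent) ≤ 7 * s := by
  set n := Real.log (Fintype.card G) with hn
  set P := unifOn S hS with hP
  let A1 : G × G × G → G × W := fun z => (z.1, φ z.1)
  let A2 : G × G × G → G × W := fun z => (z.2.1 + z.2.2, φ (z.2.1 + z.2.2))
  let A3 : G × G × G → G × W := fun z => (z.1 + z.2.2, φ (z.1 + z.2.2))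
  let A4 : G × G × G → G × W := fun z => (z.2.1, φ z.2.1)
  have b1 : P.H A1 ≤ n := H_le h P φ A1 univ fun a _ => ⟨_, mem_univ _, rfl⟩
  have b2 : P.H A2 ≤ n := H_le h P φ A2 univ fun a _ => ⟨_, mem_univ _, rfl⟩
  have b3 : P.H A3 ≤ n := H_le h P φ A3 univ fun a _ => ⟨_, mem_univ _, rfl⟩
  have b4 : P.H A4 ≤ n := H_le h P φ A4 univ fun a _ => ⟨_, mem_univ _, rfl⟩
  have b5 : P.H id = Real.log S.card := h.H_unif S hS id fun _ _ _ _ e => e
  have hZ : ∀ z, 0 < P.w z → A1 z + A2 z = A3 z + A4 z := by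
    intro z hz
    have e := (h1 z (unif_pos hz)).2
    refine Prod.ext (by simp only [A1, A2, A3, A4, Prod.fst_add]; abel) ?_
    simp only [A1, A2, A3, A4, Prod.snd_add]
    rw [← sub_eq_zero, ← e, dq]
    abel
  have c1 := h.H_sub P (fun z => (A1 z, A2 z)) (fun z => (A3 z, A4 z)) (fun z => A1 z + A2 z) id
    (fun a b _ _ e => congrArg (fun u => u.1 + u.2) e)
    (fun a b ha hb e => by
      rw [hZ a ha, hZ b hb]
      exact congrArg (fun u => u.1 + u.2) e)
    (fun a b _ _ e e' => by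
      have e1 : a.1 = b.1 := congrArg (fun u => u.1.1) e
      have e2 : a.2.1 = b.2.1 := congrArg (fun u => u.2.1) e'
      have e3 : a.1 + a.2.2 = b.1 + b.2.2 := congrArg (fun u => u.1.1) e'
      rw [e1] at e3
      exact Prod.ext e1 (Prod.ext e2 (add_left_cancel e3)))
  have c2 := h.H_sub P (fun z => (A1 z, A2 z)) A3 (fun _ => ()) id
    (fun _ _ _ _ _ => rfl) (fun _ _ _ _ _ => rfl)
    (fun a b _ _ e e' => by
      have e1 : a.1 = b.1 := congrArg (fun u => u.1.1) e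
      have e2 : a.2.1 + a.2.2 = b.2.1 + b.2.2 := congrArg (fun u => u.2.1) e
      have e3 : a.1 + a.2.2 = b.1 + b.2.2 := congrArg (fun u => u.1) e'
      rw [e1] at e3
      have e4 := add_left_cancel e3
      rw [e4] at e2
      exact Prod.ext e1 (Prod.ext (add_right_cancel e2) e4))
  rw [h.H_const] at c2
  have c3 := h.H_pair_le P A1 A2
  have c4 := h.H_pair_le P A3 A4
  have c5 := hB P A1 A2
  have c6 := h.chain P A1 (fun z => A1 z + A2 z)
  have c7 := h.H_congr P (fun z => (A1 z, A1 z + A2 z)) (fun z => (A1 z, A2 z))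
    (fun a b _ _ => by
      simp only [Prod.mk.injEq (A1 a), and_congr_right_iff]
      intro e
      rw [e, add_right_inj])
  rw [cH, c7] at c6
  rw [I] at c5
  obtain ⟨a, ha, ha'⟩ := h.exists_le_E P fun a =>
    (((P.cond (fun x => A1 x + A2 x) (A1 a + A2 a)).map A1 *
      (P.cond (fun x => A1 x + A2 x) (A1 a + A2 a)).map A1).ent -
      ((P.cond (fun x => A1 x + A2 x) (A1 a + A2 a)).map A1).ent) +
      (n - (P.cond (fun x => A1 x + A2 x) (A1 a + A2 a)).H A1)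
  rw [h.E_add, h.E_sub P (fun _ => n), h.E_const, ← c6, ← h.ent_map _ A1] at ha'
  refine ⟨(P.cond (fun x => A1 x + A2 x) (A1 a + A2 a)).map A1, fun b hb => ?_, by linarith⟩
  obtain ⟨z, hz, rfl⟩ := (h.map_supp _ _ _).1 hb
  exact ⟨z.1, (h1 z (unif_pos ((h.cond_supp P (fun x => A1 x + A2 x) a z ha).1 hz).1)).1, rfl⟩

end COSET

open COSET in
theorem stCOSET : St_COSET := by
  rintro h hB p _ ⟨C, hC, hP⟩
  refine ⟨⌈7 * (1 + C)⌉₊, ?_⟩
  intro G W _ _ _ _ _ _ φ A ε h0 hε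
  classical
  haveI : Fintype W := Fintype.ofFinite W
  simp only [in4] at hε
  obtain ⟨S, hS⟩ : ∃ S : Finset (G × G × G), ∀ z, z ∈ S ↔ (z.1 ∈ A ∧ z.1 + z.2.2 ∈ A ∧
      z.2.1 ∈ A ∧ z.2.1 + z.2.2 ∈ A) ∧ dq φ z.1 z.2.1 z.2.2 = 0 :=
    ⟨univ.filter _, fun z => mem_filter.trans (and_iff_right (mem_univ z))⟩
  rw [expect_three _ _ S hS] at hε
  have hN : (0 : ℝ) < Fintype.card G := by exact_mod_cast Fintype.card_pos
  have hN3 : 0 < ε * (Fintype.card G : ℝ) ^ 3 := mul_pos h0 (pow_pos hN 3)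
  rw [le_div_iff₀ (by positivity)] at hε
  have hS0 : (0 : ℝ) < S.card := lt_of_lt_of_le hN3 hε
  have hS1 : (S.card : ℝ) ≤ (Fintype.card G : ℝ) ^ 3 := by
    have := card_le_univ S
    rw [Fintype.card_prod, Fintype.card_prod] at this
    calc (S.card : ℝ) ≤ ((Fintype.card G * (Fintype.card G * Fintype.card G) : ℕ) : ℝ) := by
          exact_mod_cast this
      _ = _ := by push_cast; ring
  have h1 : ε ≤ 1 := le_of_mul_le_mul_right (by linarith) (pow_pos hN 3)
  have hs : 0 ≤ -Real.log ε := neg_nonneg.2 (Real.log_nonpos h0.le h1)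
  obtain ⟨μ, hμ, hμ'⟩ := law h hB φ A S (card_pos.1 (by exact_mod_cast hS0)) (-Real.log ε)
    (fun z hz => ⟨((hS z).1 hz).1.1, ((hS z).1 hz).2⟩) (by
      have := Real.log_le_log hN3 hε
      rw [Real.log_mul h0.ne' (by positivity), Real.log_pow] at this
      push_cast at this
      linarith)
  have d1 := le_mul h μ μ
  have d2 : μ.ent ≤ Real.log (Fintype.card G) := H_le h μ φ id univ fun b hb => by
    obtain ⟨x, -, hx⟩ := hμ b hb
    exact ⟨x, mem_univ _, hx⟩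
  obtain ⟨K, k1, k2⟩ := hP μ
  have d3 : C * ((μ * μ).ent - μ.ent) ≤ C * (7 * -Real.log ε) :=
    mul_le_mul_of_nonneg_left (by linarith) hC
  have d4 := h.chain μ id K.mkQ
  rw [cH, h.H_congr μ (fun a => (id a, K.mkQ a)) id (fun a b _ _ =>
    ⟨fun e => congrArg Prod.fst e, fun e => by rw [show a = b from e]⟩)] at d4
  obtain ⟨c, hc, hc'⟩ := h.exists_le_E μ fun a => (-1) * (μ.cond K.mkQ (K.mkQ a)).H id
  rw [h.E_smul, ← d4] at hc'
  obtain ⟨T, hT⟩ : ∃ T : Finset G, ∀ x, x ∈ T ↔ x ∈ A ∧ (x, φ x) - c ∈ K :=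
    ⟨univ.filter _, fun z => mem_filter.trans (and_iff_right (mem_univ z))⟩
  have d5 : (μ.cond K.mkQ (K.mkQ c)).H id ≤ Real.log T.card := H_le h _ φ id T fun b hb => by
    obtain ⟨e1, e2⟩ := (h.cond_supp μ K.mkQ c b hc).1 hb
    obtain ⟨x, hx, rfl⟩ := hμ b e1
    exact ⟨x, (hT x).2 ⟨hx, (Submodule.Quotient.eq K).1 e2⟩, rfl⟩
  have hT0 : (0 : ℝ) < T.card := by
    obtain ⟨x, hx, e⟩ := hμ c hc
    exact_mod_cast card_pos.2 ⟨x, (hT x).2 ⟨hx, by rw [e, sub_self]; exact K.zero_mem⟩⟩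
  have d6 : μ.H id = μ.ent := rfl
  refine ⟨K, c, ?_, unexp h0 h1 (by exact_mod_cast Nat.card_pos) hN (Nat.le_ceil _) (by linarith)⟩
  rw [expect_ind _ T hT, le_div_iff₀ hN]
  exact unexp h0 h1 hN hT0 (Nat.le_ceil _) (by linarith)

end Pool.Agent.Lib.U4
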