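import Pool.Agent.Lib.U4.BlueE

/-! Block E3: products and convolution of probability vectors. -/

noncomputable section

open Finset
open scoped BigOperators

namespace Pool.Agent.Lib.U4

open _root_.Pool.Agent.Lib.U4.FP

namespace E3

variable {Ω Ω' Ω'' α β : Type} [Fintype Ω] [Fintype Ω'] [Fintype Ω'']

lemma E_prod (P : FP Ω) (Q : FP Ω') (f : Ω × Ω' → ℝ) :
    (P.prod Q).E f = P.E fun a => Q.E fun b => f (a, b) := by
  simp only [FP.E, FP.prod, Fintype.sum_prod_type, mul_sum, mul_assoc]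

lemma pr_pair (P : FP Ω) (Q : FP Ω') (X : Ω → α) (Y : Ω' → β) (x : α) (y : β) :
    (P.prod Q).pr (fun z => (X z.1, Y z.2)) (x, y) = P.pr X x * Q.pr Y y := by
  classical
  simp only [FP.pr, FP.prod, Fintype.sum_prod_type, sum_mul_sum, Prod.mk.injEq]
  refine sum_congr rfl fun a _ => sum_congr rfl fun b _ => ?_
  by_cases h1 : X a = x <;> by_cases h2 : Y b = y <;> simp [h1, h2]

lemma pr_fst (P : FP Ω) (Q : FP Ω') (X : Ω → α) (x : α) :
    (P.prod Q).pr (fun z => X z.1) x = P.pr X x := by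
  classical
  simp only [FP.pr, FP.prod, Fintype.sum_prod_type]
  refine sum_congr rfl fun a _ => ?_
  by_cases h1 : X a = x
  · simp [h1, ← mul_sum, Q.tot]
  · simp [h1]

lemma pr_snd (P : FP Ω) (Q : FP Ω') (Y : Ω' → α) (y : α) :
    (P.prod Q).pr (fun z => Y z.2) y = Q.pr Y y := by
  classical
  simp only [FP.pr, FP.prod, Fintype.sum_prod_type_right]
  refine sum_congr rfl fun a _ => ?_
  by_cases h1 : Y a = y
  · simp [h1, ← sum_mul, P.tot]
  · simp [h1]

lemma pr_id (P : FP Ω) (x : Ω) : P.pr (fun a => a) x = P.w x := by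
  classical
  simp [FP.pr]

/-- The law of an injective-like relabelling. -/
lemma pr_equiv (P : FP Ω) (X : Ω → α) (x : α) (a : Ω) (h : ∀ b, X b = x ↔ b = a) :
    P.pr X x = P.w a := by
  classical
  simp only [FP.pr, h]
  simp

lemma prod_map [Fintype α] [Fintype β] (P : FP Ω) (Q : FP Ω') (X : Ω → α) (Y : Ω' → β) :
    ((P.prod Q).map fun z => (X z.1, Y z.2)) = (P.map X).prod (Q.map Y) := by
  ext ⟨x, y⟩
  exact pr_pair P Q X Y x y

lemma prod_fst (P : FP Ω) (Q : FP Ω') : ((P.prod Q).map fun z => z.1) = P := by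
  ext x
  exact (pr_fst P Q (fun a => a) x).trans (pr_id P x)

lemma prod_snd (P : FP Ω) (Q : FP Ω') : ((P.prod Q).map fun z => z.2) = Q := by
  ext x
  exact (pr_snd P Q (fun a => a) x).trans (pr_id Q x)

lemma prod_swap (P : FP Ω) (Q : FP Ω') : ((P.prod Q).map fun z => (z.2, z.1)) = Q.prod P := by
  ext ⟨y, x⟩
  refine (pr_equiv (P.prod Q) (fun z => (z.2, z.1)) (y, x) (x, y) ?_).trans ?_
  · rintro ⟨a, b⟩
    simp [and_comm]
  · exact mul_comm _ _

lemma prod_assoc (P : FP Ω) (Q : FP Ω') (R : FP Ω'') :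
    (((P.prod Q).prod R).map fun z => (z.1.1, z.1.2, z.2)) = P.prod (Q.prod R) := by
  ext ⟨x, y, z⟩
  refine (pr_equiv ((P.prod Q).prod R) (fun z => (z.1.1, z.1.2, z.2)) (x, y, z) ((x, y), z)
    ?_).trans ?_
  · rintro ⟨⟨a, b⟩, c⟩
    simp [and_assoc]
  · exact mul_assoc _ _ _

lemma H_fst (B : ApiB) (P : FP Ω) (Q : FP Ω') (X : Ω → α) :
    ((P.prod Q).H fun z => X z.1) = P.H X := by
  have h := B.H_map (P.prod Q) (fun z => z.1) X
  rw [prod_fst] at h
  exact h.symm

lemma H_snd (B : ApiB) (P : FP Ω) (Q : FP Ω') (Y : Ω' → α) :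
    ((P.prod Q).H fun z => Y z.2) = Q.H Y := by
  have h := B.H_map (P.prod Q) (fun z => z.2) Y
  rw [prod_snd] at h
  exact h.symm

lemma H_prod (B : ApiB) (P : FP Ω) (Q : FP Ω') (X : Ω → α) (Y : Ω' → β) :
    ((P.prod Q).H fun z => (X z.1, Y z.2)) = P.H X + Q.H Y := by
  unfold FP.H
  rw [E_prod]
  have h1 : (P.E fun a => Q.E fun b =>
      -Real.log ((P.prod Q).pr (fun z => (X z.1, Y z.2)) (X (a, b).1, Y (a, b).2))) =
      P.E fun a => -Real.log (P.pr X (X a)) + Q.E fun b => -Real.log (Q.pr Y (Y b)) := by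
    refine B.E_congr P _ _ fun a ha => ?_
    have h2 : (Q.E fun b =>
        -Real.log ((P.prod Q).pr (fun z => (X z.1, Y z.2)) (X (a, b).1, Y (a, b).2))) =
        Q.E fun b => -Real.log (P.pr X (X a)) + -Real.log (Q.pr Y (Y b)) := by
      refine B.E_congr Q _ _ fun b hb => ?_
      rw [pr_pair, Real.log_mul (B.pr_pos P X a ha).ne' (B.pr_pos Q Y b hb).ne']
      ring
    rw [h2, B.E_add, B.E_const]
  rw [h1, B.E_add, B.E_const]

variable {Γ Γ' : Type} [AddCommGroup Γ] [Fintype Γ] [AddCommGroup Γ'] [Fintype Γ']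

lemma mul_eq (μ ν : FP Γ) : μ * ν = (μ.prod ν).map fun z => z.1 + z.2 := by
  classical
  ext x
  rw [mul_w]
  change _ = (μ.prod ν).pr (fun z => z.1 + z.2) x
  simp only [FP.pr, FP.prod, Fintype.sum_prod_type]
  refine sum_congr rfl fun a _ => ?_
  have h : ∀ b : Γ, a + b = x ↔ b = x - a := fun b => by
    constructor
    · rintro rfl; simp
    · rintro rfl; simp
  simp only [h]
  simp

lemma prod_add (B : ApiB) (P : FP Ω) (Q : FP Ω') (X : Ω → Γ) (Y : Ω' → Γ) :
    ((P.prod Q).map fun z => X z.1 + Y z.2) = P.map X * Q.map Y := by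
  rw [mul_eq, ← prod_map, B.map_map]

lemma map_mul (B : ApiB) (f : Γ →+ Γ') (μ ν : FP Γ) :
    (μ * ν).map f = μ.map f * ν.map f := by
  rw [← prod_add B, mul_eq, B.map_map]
  simp only [map_add]

lemma ent_one (B : ApiB) : (1 : FP Γ).ent = 0 := by
  classical
  rw [B.ent_eq]
  refine sum_eq_zero fun a _ => ?_
  rw [one_w]
  split_ifs <;> simp

lemma map_zero (P : FP Ω) : (P.map fun _ => (0 : Γ)) = 1 := by
  classical
  ext x
  rw [one_w]
  change P.pr (fun _ => (0 : Γ)) x = _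
  unfold FP.pr
  by_cases hx : x = 0
  · simp [hx, P.tot]
  · have hx' : ¬ (0 : Γ) = x := fun h => hx h.symm
    simp [hx, hx']

lemma ent_ng (B : ApiB) (μ : FP Γ) : μ.ng.ent = μ.ent := by
  rw [B.ent_eq, B.ent_eq]
  have h : ∀ x, μ.ng.w x = μ.w (-x) := fun x =>
    pr_equiv μ (fun x => -x) x (-x) fun b => neg_eq_iff_eq_neg
  simp only [h]
  exact Equiv.sum_comp (Equiv.neg Γ) fun x => Real.negMulLog (μ.w x)

end E3

theorem stE3 : St_E3 := fun B =>
  { prod_map := E3.prod_map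
    prod_fst := E3.prod_fst
    prod_snd := E3.prod_snd
    prod_swap := E3.prod_swap
    prod_assoc := E3.prod_assoc
    H_fst := E3.H_fst B
    H_snd := E3.H_snd B
    H_prod := E3.H_prod B
    E_prod := E3.E_prod
    mul_eq := E3.mul_eq
    prod_add := E3.prod_add B
    map_mul := E3.map_mul B
    ent_one := E3.ent_one B
    map_zero := E3.map_zero
    ent_ng := E3.ent_ng B }

end Pool.Agent.Lib.U4
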