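import Pool.Agent.Lib.U4.BlueE

noncomputable section

open Finset
open scoped BigOperators

namespace Pool.Agent.Lib.U4

open _root_.Pool.Agent.Lib.U4.FP

namespace E4

variable {Ω α ι κ Γ : Type} [Fintype Ω] [Fintype ι] [DecidableEq ι]

lemma pi_w (P : ι → FP Ω) (x : ι → Ω) : (FP.pi P).w x = ∏ i, (P i).w (x i) := rfl

lemma sum_pi {R : Type} [CommRing R] [Algebra ℝ R] (P : ι → FP Ω) (f : ι → Ω → R) :
    ∑ x, (FP.pi P).w x • ∏ i, f i (x i) = ∏ i, ∑ a, (P i).w a • f i a := by
  rw [prod_univ_sum, Fintype.piFinset_univ]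
  refine sum_congr rfl fun x _ => ?_
  rw [pi_w, prod_smul]

lemma pr_pi (P : ι → FP Ω) (X : ι → Ω → α) (y : ι → α) :
    (FP.pi P).pr (fun x i => X i (x i)) y = ∏ i, (P i).pr (X i) (y i) := by
  classical
  unfold FP.pr
  rw [prod_univ_sum, Fintype.piFinset_univ]
  refine sum_congr rfl fun x _ => ?_
  by_cases h : (fun i => X i (x i)) = y
  · rw [if_pos h, pi_w]
    exact prod_congr rfl fun i _ => (if_pos (congrFun h i)).symm
  · rw [if_neg h]
    obtain ⟨i, hi⟩ := Function.ne_iff.1 h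
    exact (prod_eq_zero (mem_univ i) (if_neg hi)).symm

lemma pi_supp (P : ι → FP Ω) (x : ι → Ω) : 0 < (FP.pi P).w x ↔ ∀ i, 0 < (P i).w (x i) := by
  refine ⟨fun h i => lt_of_le_of_ne ((P i).nn _) fun h0 => ?_, fun h => prod_pos fun i _ => h i⟩
  rw [pi_w, prod_eq_zero (mem_univ i) h0.symm] at h
  exact lt_irrefl _ h

lemma E_eval (P : ι → FP Ω) (i : ι) (f : Ω → ℝ) :
    ((FP.pi P).E fun x => f (x i)) = (P i).E f := by
  have h := sum_pi P fun j a => if j = i then f a else 1
  have e1 : ∀ x : ι → Ω, (∏ j, if j = i then f (x j) else 1) = f (x i) := fun x => by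
    rw [prod_ite_eq' univ i fun j => f (x j), if_pos (mem_univ i)]
  have e2 : ∀ j, (∑ a, (P j).w a • if j = i then f a else 1) =
      if j = i then (P j).E f else 1 := fun j => by
    split_ifs
    · rfl
    · simp [(P j).tot]
  simp only [e1, e2] at h
  rw [prod_ite_eq' univ i fun j => (P j).E f, if_pos (mem_univ i)] at h
  exact h

open Classical in
lemma pr_eq_E (P : FP Ω) (X : Ω → α) (y : α) :
    P.pr X y = P.E fun a => if X a = y then 1 else 0 := by
  unfold FP.pr FP.E
  exact sum_congr rfl fun a _ => by by_cases h : X a = y <;> simp [h]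

lemma map_equiv {Ω' : Type} [Fintype Ω'] (P : FP Ω) (e : Ω ≃ Ω') (y : Ω') :
    (P.map e).w y = P.w (e.symm y) := by
  classical
  change P.pr e y = _
  unfold FP.pr
  rw [sum_eq_single (e.symm y)]
  · simp
  · intro b _ hb
    rw [if_neg]
    intro h
    exact hb (by rw [← h, e.symm_apply_apply])
  · intro h
    exact absurd (mem_univ _) h

variable [AddCommGroup Γ] [Fintype Γ]

/-- Generating function of a law. -/
def gf (μ : FP Γ) : AddMonoidAlgebra ℝ Γ := ∑ a, μ.w a • AddMonoidAlgebra.single a 1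

lemma gf_coeff (μ : FP Γ) (y : Γ) : (gf μ).coeff y = μ.w y := by
  classical
  simp [gf, AddMonoidAlgebra.coeff_sum, Finsupp.single_apply]

lemma gf_inj {μ ν : FP Γ} (h : gf μ = gf ν) : μ = ν := by
  ext y
  rw [← gf_coeff, h, gf_coeff]

lemma gf_map (P : FP Ω) (X : Ω → Γ) :
    gf (P.map X) = ∑ a, P.w a • AddMonoidAlgebra.single (X a) 1 := by
  classical
  have e : ∀ y, (P.map X).w y = ∑ a, if X a = y then P.w a else 0 := fun y => by
    change P.pr X y = _
    unfold FP.pr
    exact sum_congr rfl fun a _ => by congr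
  simp only [gf, e, sum_smul]
  rw [sum_comm]
  refine sum_congr rfl fun a _ => ?_
  simp only [ite_smul, zero_smul]
  rw [sum_ite_eq, if_pos (mem_univ _)]

lemma gf_one : gf (1 : FP Γ) = 1 := by
  classical
  simp only [gf, one_w, ite_smul, zero_smul, one_smul]
  rw [sum_eq_single 0]
  · simp [AddMonoidAlgebra.one_def]
  · intro b _ hb
    rw [if_neg hb]
  · intro h
    exact absurd (mem_univ _) h

lemma gf_mul (hC : ApiC) (μ ν : FP Γ) : gf (μ * ν) = gf μ * gf ν := by
  rw [hC.mul_eq, gf_map, gf, gf, sum_mul_sum, Fintype.sum_prod_type]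
  refine sum_congr rfl fun a _ => sum_congr rfl fun b _ => ?_
  rw [smul_mul_smul_comm, AddMonoidAlgebra.single_mul_single, mul_one]
  rfl

omit [Fintype ι] in
lemma gf_prod (hC : ApiC) (s : Finset ι) (μ : ι → FP Γ) :
    gf (∏ i ∈ s, μ i) = ∏ i ∈ s, gf (μ i) := by
  induction s using Finset.induction_on with
  | empty => simp [gf_one]
  | insert i s hi ih => rw [prod_insert hi, prod_insert hi, gf_mul hC, ih]

omit [Fintype ι] [Fintype Γ] in
lemma single_sum (s : Finset ι) (g : ι → Γ) :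
    (AddMonoidAlgebra.single (∑ i ∈ s, g i) 1 : AddMonoidAlgebra ℝ Γ) =
      ∏ i ∈ s, AddMonoidAlgebra.single (g i) 1 := by
  induction s using Finset.induction_on with
  | empty => simp [AddMonoidAlgebra.one_def]
  | insert i s hi ih =>
    rw [prod_insert hi, sum_insert hi, ← ih, AddMonoidAlgebra.single_mul_single, mul_one]

lemma pi_sum (hC : ApiC) (P : ι → FP Ω) (X : ι → Ω → Γ) (s : Finset ι) :
    ((FP.pi P).map fun x => ∑ i ∈ s, X i (x i)) = ∏ i ∈ s, (P i).map (X i) := by
  apply gf_inj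
  rw [gf_prod hC, gf_map]
  have h := sum_pi P fun j a => if j ∈ s then
    (AddMonoidAlgebra.single (X j a) 1 : AddMonoidAlgebra ℝ Γ) else 1
  have e2 : ∀ j, (∑ a, (P j).w a • if j ∈ s then
      (AddMonoidAlgebra.single (X j a) 1 : AddMonoidAlgebra ℝ Γ) else 1) =
      if j ∈ s then gf ((P j).map (X j)) else 1 := fun j => by
    split_ifs
    · rw [gf_map]
    · rw [← sum_smul, (P j).tot, one_smul]
  simp only [e2, prod_ite_mem, univ_inter] at h
  simp only [single_sum]
  exact h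

end E4

open E4 in
theorem stE4 : St_E4 := by
  intro hB hC
  refine ⟨pi_supp, ?_, ?_, ?_, ?_, ?_, ?_, ?_⟩
  · intro Ω α ι _ _ _ _ P X
    ext y
    exact pr_pi P X y
  · intro Ω ι _ _ _ P i
    classical
    ext a
    change (FP.pi P).pr (fun x => x i) a = _
    rw [pr_eq_E]
    refine (E_eval P i fun b => if b = a then 1 else 0).trans ?_
    simp [FP.E]
  · intro Ω α ι _ _ _ P X
    unfold FP.H
    rw [hB.E_congr _ _ (fun x => ∑ i, -Real.log ((P i).pr (X i) (X i (x i)))) fun x hx => ?_,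
      hB.E_sum]
    · exact sum_congr rfl fun i _ => E_eval P i fun a => -Real.log ((P i).pr (X i) (X i a))
    · rw [pr_pi, Real.log_prod, sum_neg_distrib]
      exact fun i _ => (hB.pr_pos _ _ _ ((pi_supp P x).1 hx i)).ne'
  · intro Ω Γ ι _ _ _ _ _ P X s
    exact pi_sum hC P X s
  · intro Ω ι κ _ _ _ _ _ P e
    ext y
    refine (map_equiv (FP.pi P) (Equiv.piCongrLeft' (fun _ => Ω) e.symm) y).trans ?_
    rw [pi_w, pi_w, ← e.prod_comp]
    refine prod_congr rfl fun k _ => ?_
    simp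
  · intro Ω ι κ _ _ _ _ _ P
    ext y
    refine (map_equiv (FP.pi P) (Equiv.curry ι κ Ω) y).trans ?_
    rw [pi_w, pi_w, Fintype.prod_prod_type]
    rfl
  · intro Ω ι κ _ _ _ _ _ P
    ext y
    let e : (ι × κ → Ω) ≃ (κ → ι → Ω) :=
      ⟨fun x b a => x (a, b), fun y t => y t.2 t.1, fun _ => rfl, fun _ => rfl⟩
    refine (map_equiv (FP.pi P) e y).trans ?_
    rw [pi_w, pi_w, Fintype.prod_prod_type_right]
    rfl

end Pool.Agent.Lib.U4
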