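import Pool.Agent.Lib.U4.BlueE

/-! Block E5: splitting products, conditioning products, equality case. -/

noncomputable section

open Finset

namespace Pool.Agent.Lib.U4

open _root_.Pool.Agent.Lib.U4.FP

namespace E5

variable {Ω α β ι : Type} [Fintype Ω] [Fintype ι] [DecidableEq ι]

lemma unzip (P : ι → FP Ω) :
    ((FP.pi fun i => (P i).prod (P i)).map fun z => (fun i => (z i).1, fun i => (z i).2)) =
      (FP.pi P).prod (FP.pi P) := by
  ext ⟨x, y⟩
  change FP.pr _ _ _ = _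
  unfold FP.pr
  rw [sum_eq_single (fun i => (x i, y i))]
  · simp [FP.pi, FP.prod, prod_mul_distrib]
  · intro z _ hz
    refine if_neg fun e => hz (funext fun i => ?_)
    obtain ⟨e1, e2⟩ := Prod.ext_iff.1 e
    exact Prod.ext (congrFun e1 i) (congrFun e2 i)
  · simp

lemma merge (hC : ApiC) (hD : ApiD) (P : ι → FP Ω) (s : Finset ι) :
    ((FP.pi fun i => (P i).prod (P i)).map fun z i => if i ∈ s then (z i).1 else (z i).2) =
      FP.pi P := by
  rw [hD.pi_map _ fun i (a : Ω × Ω) => if i ∈ s then a.1 else a.2]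
  congr 1
  funext i
  by_cases h : i ∈ s
  · simp only [h, if_true]
    exact hC.prod_fst _ _
  · simp only [h, if_false]
    exact hC.prod_snd _ _

omit [Fintype Ω] [Fintype ι] in
lemma pair_eq {s : Finset ι} {X : (ι → Ω) → α} {Y : (ι → Ω) → β}
    (hX : ∀ x y, (∀ i ∈ s, x i = y i) → X x = X y) (hY : ∀ x y, (∀ i ∉ s, x i = y i) → Y x = Y y) :
    (fun z : ι → Ω × Ω => (X fun i => if i ∈ s then (z i).1 else (z i).2,
      Y fun i => if i ∈ s then (z i).1 else (z i).2)) =
      fun z => (X fun i => (z i).1, Y fun i => (z i).2) :=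
  funext fun _ => Prod.ext (hX _ _ fun _ h => if_pos h) (hY _ _ fun _ h => if_neg h)

lemma pr_pi (P : ι → FP Ω) (Y : ι → Ω → β) (y : ι → β) :
    (FP.pi P).pr (fun z i => Y i (z i)) y = ∏ i, (P i).pr (Y i) (y i) := by
  classical
  unfold FP.pr
  rw [prod_univ_sum, Fintype.piFinset_univ]
  refine sum_congr rfl fun z _ => ?_
  rw [Fintype.prod_ite_zero]
  simp only [funext_iff]
  rfl

open Classical in
lemma cond_w (P : FP Ω) (Y : Ω → β) {y : β} (h : P.pr Y y ≠ 0) (a : Ω) :
    (P.cond Y y).w a = (if Y a = y then P.w a else 0) / P.pr Y y := by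
  rw [FP.cond, dif_neg h]

end E5

open E5 in
theorem stE5 : St_E5 := by
  intro hB hC hD
  refine ⟨fun P s X Y hX hY => ?_, fun P s X Y hX hY => ?_, fun P Y x hx => ?_,
    fun μ ν h y hy z => ?_⟩
  · rw [← hC.H_prod, ← unzip, hB.H_map]
    conv_lhs => rw [← merge hC hD P s, hB.H_map, pair_eq hX hY]
  · rw [← hC.prod_map, ← unzip, hB.map_map]
    conv_lhs => rw [← merge hC hD P s, hB.map_map, pair_eq hX hY]
  · classical
    have h1 := (hB.pr_pos _ (fun z i => Y i (z i)) x hx).ne'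
    have h2 := fun i => (hB.pr_pos _ (Y i) (x i) ((hD.pi_supp P x).1 hx i)).ne'
    ext z
    rw [cond_w _ _ h1, pr_pi]
    simp only [FP.pi, cond_w _ _ (h2 _), prod_div_distrib]
    rw [Fintype.prod_ite_zero]
    simp only [funext_iff]
  · have hw : ∀ z, (μ * ν).w z = ∑ y, ν.w y • μ.w (z - y) := fun z => by
      rw [mul_comm, mul_w]
      rfl
    have hm : ∀ z, ∀ y ∈ univ, μ.w (z - y) ∈ Set.Ici (0 : ℝ) := fun z y _ => μ.nn _
    have hle : ∀ z ∈ univ, ∑ y, ν.w y • Real.negMulLog (μ.w (z - y)) ≤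
        Real.negMulLog ((μ * ν).w z) := fun z _ => by
      rw [hw]
      exact Real.concaveOn_negMulLog.le_map_sum (fun y _ => ν.nn y) ν.tot (hm z)
    have hs : ∑ z, ∑ y, ν.w y • Real.negMulLog (μ.w (z - y)) = μ.ent := by
      rw [sum_comm, hB.ent_eq]
      have : ∀ y, ∑ z, Real.negMulLog (μ.w (z - y)) = ∑ a, Real.negMulLog (μ.w a) :=
        fun y => (Equiv.subRight y).sum_comp fun a => Real.negMulLog (μ.w a)
      simp only [smul_eq_mul, ← mul_sum, this, ← sum_mul, ν.tot, one_mul]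
    rw [hB.ent_eq (μ * ν), ← hs] at h
    have he := (sum_eq_sum_iff_of_le hle).1 (le_antisymm (sum_le_sum hle) h) z (mem_univ z)
    rw [hw] at he ⊢
    exact (Real.strictConcaveOn_negMulLog.map_sum_eq_iff' (fun y _ => ν.nn y) ν.tot (hm z)).1
      he.symm y (mem_univ y) hy.ne'

end Pool.Agent.Lib.U4
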