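import Pool.Agent.Lib.U4.BlueE

/-! The endgame inequality. -/

noncomputable section

open Finset
open scoped BigOperators

namespace Pool.Agent.Lib.U4

open _root_.Pool.Agent.Lib.U4.FP

namespace ENDG

variable {Γ ι Ω : Type} [AddCommGroup Γ] [Fintype Γ] [Fintype ι] [Nonempty ι] [Fintype Ω]
  {η : ℝ} {μ0 : FP Γ} {μ : ι → FP Γ}

/-- comparison with a constant family -/
lemma const (hs : Sums) (hm : IsMin η μ0 μ) (U : FP Γ) :
    tau η μ0 μ ≤ ((Fintype.card ι : ℝ) - 1) * ((U * U).ent - U.ent) +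
      η * Fintype.card ι * rho μ0 U := by
  have h1 := hm fun _ => U
  obtain ⟨n, hn⟩ : ∃ n, Fintype.card ι = n + 1 := ⟨Fintype.card ι - 1, by
    have := Fintype.card_pos (α := ι); omega⟩
  have h2 := hs.kv_pow U n
  refine h1.trans ?_
  simp only [tau, mD, prod_const, sum_const, card_univ, nsmul_eq_mul, hn]
  have h3 : ((n + 1 : ℕ) : ℝ) ≠ 0 := by positivity
  rw [mul_div_cancel_left₀ _ h3]
  push_cast
  nlinarith

/-- the case of a trivial conditioning variable -/
lemma triv (h : Api) (hs : Sums) (hr : RhoCond) (hb : BSG) (hη : 0 ≤ η) (hm : IsMin η μ0 μ)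
    (Q : FP Ω) (T1 T2 : Ω → Γ) :
    tau η μ0 μ ≤ ((Fintype.card ι : ℝ) - 1) * (Q.I T1 T2 + Q.I T1 (fun a => T1 a + T2 a) +
        Q.I T2 (fun a => T1 a + T2 a)) +
      η * Fintype.card ι * (rho μ0 (Q.map T2) + Q.I T2 (fun a => T1 a + T2 a) / 2) := by
  have hc : (0 : ℝ) ≤ (Fintype.card ι : ℝ) - 1 := by
    have : (1 : ℝ) ≤ Fintype.card ι := by exact_mod_cast Fintype.card_pos (α := ι)
    linarith
  have hc' : (0 : ℝ) ≤ η * Fintype.card ι := by positivity
  have e0 : (fun a => T1 a + T2 a) = fun a => T2 a + T1 a := funext fun a => add_comm _ _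
  have h1 := h.E_mono Q (fun _ => tau η μ0 μ) _ fun a _ =>
    const hs hm ((Q.cond (fun x => T2 x + T1 x) (T2 a + T1 a)).map T2)
  rw [h.E_const, h.E_add, h.E_smul, h.E_smul] at h1
  have h2 := hb Q T2 T1
  have h3 := hr μ0 Q T2 (fun x => T2 x + T1 x)
  have e1 : Q.H (fun a => (T2 a, T1 a)) = Q.H (fun a => (T1 a, T2 a)) :=
    h.H_congr Q _ _ fun a b _ _ => by simp only [Prod.mk.injEq]; tauto
  have e2 : Q.H (fun a => (T1 a, T2 a + T1 a)) = Q.H (fun a => (T1 a, T2 a)) :=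
    h.H_congr Q _ _ fun a b _ _ => by
      simp only [Prod.mk.injEq]
      refine and_congr_right fun e => ?_
      rw [e, add_left_inj]
  have e3 : Q.H (fun a => (T2 a, T2 a + T1 a)) = Q.H (fun a => (T1 a, T2 a)) :=
    h.H_congr Q _ _ fun a b _ _ => by
      simp only [Prod.mk.injEq]
      rw [and_comm (a := T1 a = T1 b)]
      refine and_congr_right fun e => ?_
      rw [e, add_right_inj]
  have e4 : 3 * Q.I T2 T1 + 2 * Q.H (fun x => T2 x + T1 x) - Q.H T2 - Q.H T1 =
      Q.I T1 T2 + Q.I T1 (fun a => T2 a + T1 a) + Q.I T2 (fun a => T2 a + T1 a) := by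
    simp only [FP.I, e1, e2, e3]
    ring
  rw [e4] at h2
  rw [e0]
  exact h1.trans (add_le_add (mul_le_mul_of_nonneg_left h2 hc) (mul_le_mul_of_nonneg_left h3 hc'))

/-- the average of the mutual informations of the conditioned laws -/
lemma avgI (h : Api) {α β γ : Type} (P : FP Ω) (X : Ω → α) (Y : Ω → β) (W : Ω → γ) :
    (P.E fun a => (P.cond W (W a)).I X Y) = P.cI X Y W := by
  have e1 : P.H (fun a => ((X a, Y a), W a)) = P.H (fun a => (X a, Y a, W a)) :=
    h.H_congr P _ _ fun a b _ _ => by simp only [Prod.mk.injEq]; tauto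
  simp only [FP.I]
  rw [h.E_sub, h.E_add, ← h.chain, ← h.chain, ← h.chain]
  simp only [FP.cH, FP.cI, e1]
  ring

end ENDG

open ENDG in
theorem stENDG : St_ENDG := by
  intro h hs hr hb Γ ι Ω β _ _ _ _ _ η μ0 μ hη hm P T1 T2 W
  have hc' : (0 : ℝ) ≤ η * Fintype.card ι := by positivity
  have h1 := h.E_mono P (fun _ => tau η μ0 μ) _ fun a _ =>
    triv h hs hr hb hη hm (P.cond W (W a)) T1 T2
  simp only [div_eq_inv_mul] at h1
  rw [h.E_const, h.E_add, h.E_smul, h.E_smul, h.E_add, h.E_add, h.E_add, h.E_smul, avgI h, avgI h,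
    avgI h] at h1
  have h2 := hr μ0 P T2 W
  refine h1.trans (add_le_add le_rfl (mul_le_mul_of_nonneg_left ?_ hc'))
  linarith

end Pool.Agent.Lib.U4
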