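import Pool.Agent.Lib.U4.BlueE

/-! Block KZERO: a minimiser has multidistance zero. -/

noncomputable section

namespace Pool.Agent.Lib.U4

open _root_.Pool.Agent.Lib.U4.FP

namespace KZERO

theorem num {p η k R c1 c2 c3 ρ I : ℝ} (hp : 2 ≤ p) (hη : η = 1 / (8 * p ^ 4)) (hk : 0 ≤ k)
    (h1 : c1 ≤ η * (p * k)) (h2 : c2 ≤ η * (p * k)) (h3 : c3 ≤ η * (p * k))
    (h4 : p * ρ ≤ R + p * (3 * p ^ 3 + 1) * k / 2) (h5 : I ≤ p ^ 2 * k)
    (h : k + η * R ≤ (p - 1) * (c1 + c2 + c3) + η * p * (ρ + I / 2 + c3 / 2)) : k ≤ 0 := by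
  have p0 : 0 < p := by linarith
  have e0 : 0 < η := by rw [hη]; positivity
  have e1 : η * p ^ 4 = 1 / 8 := by rw [hη]; field_simp
  have q2 : 4 ≤ p ^ 2 := by nlinarith
  have q3 : 2 * p ^ 2 ≤ p ^ 3 := by nlinarith
  have q4 : 2 * p ^ 3 ≤ p ^ 4 := by nlinarith
  have e2 : η ≤ 1 := by nlinarith
  have a1 : (p - 1) * (c1 + c2 + c3) ≤ (p - 1) * (3 * (η * (p * k))) :=
    mul_le_mul_of_nonneg_left (by linarith) (by linarith)
  have a2 := mul_le_mul_of_nonneg_left h4 e0.le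
  have a3 := mul_le_mul_of_nonneg_left h5 (mul_pos e0 p0).le
  have a4 : c3 ≤ p * k := h3.trans (mul_le_of_le_one_left (by positivity) e2)
  have a5 := mul_le_mul_of_nonneg_left a4 (mul_pos e0 p0).le
  have a6 : η * k * (3 * p * (p - 1) + p * (3 * p ^ 3 + 1) / 2 + p ^ 3 / 2 + p ^ 2 / 2) ≤
      η * k * (4 * p ^ 4) :=
    mul_le_mul_of_nonneg_left (by nlinarith) (by positivity)
  have a7 : η * k * (4 * p ^ 4) = k / 2 := by linear_combination 4 * k * e1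
  linarith

end KZERO

theorem stKZERO : St_KZERO := by
  intro hE hL hA hM p hp h2 Γ _ _ _ μ0 μ h
  have e0 : (0 : ℝ) ≤ 1 / (8 * p ^ 4) := by positivity
  obtain ⟨l1, l2, l3⟩ := hL p μ0 μ
  obtain ⟨a1, a2⟩ := hA p μ
  obtain ⟨m1, m2, m3⟩ := hM p h2 _ μ0 μ e0 h
  have := hE _ μ0 μ e0 h (arr μ) (fun y => ∑ t, t.1 • y t) (fun y => ∑ t, t.2 • y t)
    fun y => ∑ t, y t
  rw [ZMod.card, a1] at this
  exact KZERO.num (by exact_mod_cast hp.out.two_le) rfl l1 m1 m2 m3 l3 (a2.trans l2) this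

end Pool.Agent.Lib.U4
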