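import Pool.Agent.Lib.U4.BlueE

noncomputable section

open Finset

namespace Pool.Agent.Lib.U4

open _root_.Pool.Agent.Lib.U4.FP

theorem stLAWB : St_LAWB := by
  intro h s p _ Γ _ _ _ μ0 μ
  classical
  have hp : (1 : ℝ) ≤ p := by exact_mod_cast (Fact.out : p.Prime).one_le
  have hc : (Fintype.card (ZMod p) : ℝ) = p := by rw [ZMod.card]
  set Q := ∏ i, μ i with hQ
  set k := mD μ
  have e1 : ∑ i, (Q.ent - (μ i).ent) = p * k := by
    rw [sum_sub_distrib, sum_const, card_univ, nsmul_eq_mul, hc, show k = Q.ent - _ / _ from rfl, hc]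
    field_simp
  have q1 : ∀ i, μ i * ∏ j ∈ univ.erase i, μ j = Q := fun i => mul_prod_erase _ _ (mem_univ i)
  have a : ∀ i, (μ i).ent ≤ Q.ent := fun i => q1 i ▸ s.le_mul _ _
  have k0 : 0 ≤ k := by
    have : 0 ≤ p * k := e1 ▸ sum_nonneg fun i _ => sub_nonneg.2 (a i)
    exact nonneg_of_mul_nonneg_right this (by linarith)
  have κ0 : 0 ≤ (Q * Q).ent - Q.ent := sub_nonneg.2 (s.le_mul _ _)
  have κ : (Q * Q).ent - Q.ent ≤ p * k := by
    refine (s.kv_prod Q univ μ).trans ?_
    rw [← e1, ← Equiv.sum_comp (Equiv.addRight (1 : ZMod p)) fun i => Q.ent - (μ i).ent]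
    refine sum_le_sum fun i _ => ?_
    have b1 := s.kv (μ (i + 1)) (∏ j ∈ univ.erase (i + 1), μ j) (μ i)
    have b2 := s.le_mul (μ (i + 1) * μ i) (∏ j ∈ (univ.erase (i + 1)).erase i, μ j)
    rw [mul_assoc, mul_prod_erase _ _ (by simp), q1] at b2
    rw [q1] at b1
    simp only [Equiv.coe_addRight]
    linarith
  have f : ∀ a : ℕ, (Q * Q.map fun y => a • y).ent - Q.ent ≤ 3 * a * (p * k) := fun a => by
    induction a with
    | zero => simp [h.map_zero]
    | succ a ih =>
      have b1 := s.step Q Q a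
      have b2 := s.kv Q Q Q.ng
      have b3 := s.ruzsa Q Q
      push_cast
      linarith
  refine ⟨k0, ?_, ?_⟩
  · have := s.kv_pow Q (p - 1)
    rw [Nat.sub_add_cancel (Fact.out : p.Prime).one_le,
      Nat.cast_sub (Fact.out : p.Prime).one_le, Nat.cast_one] at this
    nlinarith
  set Z := ∏ j : ZMod p, Q.map fun x => j • x
  have z1 : Q * ∏ j ∈ univ.erase (1 : ZMod p), (Q.map fun x => j • x) = Z := by
    refine Eq.trans ?_ (mul_prod_erase _ (fun j : ZMod p => Q.map fun x => j • x) (mem_univ 1))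
    simp [h.map_id]
  have z2 : Z.ent - Q.ent ≤ 3 * p ^ 3 * k := by
    rw [← z1]
    refine (s.kv_prod Q _ _).trans ((sum_le_card_nsmul _ _ (3 * p * (p * k)) fun j _ => ?_).trans ?_)
    · have := f j.val
      simp only [← Nat.cast_smul_eq_nsmul (ZMod p), ZMod.natCast_zmod_val] at this
      refine this.trans ?_
      gcongr
      exact (ZMod.val_lt j).le
    · rw [nsmul_eq_mul, show 3 * (p : ℝ) ^ 3 * k = p * (3 * p * (p * k)) by ring]
      gcongr
      exact (card_le_univ _).trans (ZMod.card p).le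
  have z3 : ∀ i, rho μ0 Z ≤ rho μ0 (μ i) + (Z.ent - Q.ent) / 2 + (Q.ent - (μ i).ent) / 2 := by
    intro i
    have := s.rho_mul μ0 (μ i) ((∏ j ∈ univ.erase i, μ j) *
      ∏ j ∈ univ.erase (1 : ZMod p), (Q.map fun x => j • x))
    rw [← mul_assoc, q1, z1] at this
    linarith
  have := sum_le_sum fun i (_ : i ∈ univ) => z3 i
  rw [sum_add_distrib, sum_add_distrib, ← sum_div _ (fun i => Q.ent - (μ i).ent), e1, sum_const,
    sum_const, card_univ, nsmul_eq_mul, nsmul_eq_mul, hc] at this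
  nlinarith

end Pool.Agent.Lib.U4
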