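import Pool.Agent.Lib.U4.BlueE

noncomputable section

open Finset

namespace Pool.Agent.Lib.U4

open _root_.Pool.Agent.Lib.U4.FP

namespace MIN

variable {T Γ : Type} [TopologicalSpace T] [AddCommGroup Γ] [Fintype Γ]

/-- Families of laws with continuous weights. -/
def Ct (f : T → FP Γ) : Prop := ∀ x, Continuous fun t => (f t).w x

omit [AddCommGroup Γ] in
theorem ct_const (μ : FP Γ) : Ct fun _ : T => μ := fun _ => continuous_const

theorem Ct.mul {f g : T → FP Γ} (hf : Ct f) (hg : Ct g) : Ct fun t => f t * g t := fun x => by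
  simp only [mul_w]
  exact continuous_finsetSum _ fun a _ => (hf a).mul (hg _)

theorem ct_prod {ι : Type} (s : Finset ι) (f : ι → T → FP Γ) (hf : ∀ i, Ct (f i)) :
    Ct fun t => ∏ i ∈ s, f i t := by
  classical
  induction s using Finset.induction_on with
  | empty => simpa using ct_const 1
  | insert a s ha ih =>
    simp only [prod_insert ha]
    exact (hf a).mul ih

omit [AddCommGroup Γ] in
theorem Ct.ent (h : Api) {f : T → FP Γ} (hf : Ct f) : Continuous fun t => (f t).ent := by
  simp only [h.ent_eq]
  exact continuous_finsetSum _ fun a _ => Real.continuous_negMulLog.comp (hf a)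

end MIN

open MIN in
theorem stMIN : St_MIN := by
  intro h Γ ι _ _ _ η μ0
  have : CompactSpace (stdSimplex ℝ Γ) := isCompact_iff_compactSpace.1 (isCompact_stdSimplex ℝ Γ)
  let F : (ι → stdSimplex ℝ Γ) → ι → FP Γ := fun v i => ⟨(v i).1, (v i).2.1, (v i).2.2⟩
  have hF : ∀ i, Ct fun v => F v i := fun i x =>
    (continuous_apply x).comp (continuous_subtype_val.comp (continuous_apply i))
  have hc : Continuous fun v => tau η μ0 (F v) := by
    unfold tau mD rho
    refine (((ct_prod univ (fun i v => F v i) hF).ent h).sub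
      ((continuous_finsetSum _ fun i _ => (hF i).ent h).div_const _)).add
      (continuous_const.mul (continuous_finsetSum _ fun i _ => ?_))
    exact ((((ct_const μ0).mul (hF i)).ent h).sub continuous_const).sub
      (((hF i).ent h).div_const _)
  obtain ⟨v, -, hv⟩ := isCompact_univ.exists_isMinOn
    ⟨fun _ => (⟨μ0.w, μ0.nn, μ0.tot⟩ : stdSimplex ℝ Γ), Set.mem_univ _⟩ hc.continuousOn
  refine ⟨F v, fun ν => ?_⟩
  let u : ι → stdSimplex ℝ Γ := fun i => ⟨(ν i).w, (ν i).nn, (ν i).tot⟩
  have e : F u = ν := rfl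
  have := isMinOn_iff.1 hv u (Set.mem_univ _)
  rwa [e] at this

end Pool.Agent.Lib.U4
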