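import Pool.Agent.Lib.U4.BlueE

noncomputable section

open Finset

namespace Pool.Agent.Lib.U4

open _root_.Pool.Agent.Lib.U4.FP

theorem stMINC : St_MINC := by
  intro h hR Γ ι Ω β _ _ _ _ _ η μ0 μ hη hm P X Y
  have ev : ∀ (i : ι) (f : Ω → ℝ), ((FP.pi P).E fun x => f (x i)) = (P i).E f := fun i f => by
    rw [← h.E_map (FP.pi P) (fun x => x i) f, h.pi_eval]
  have key : ∀ x, 0 < (FP.pi P).w x → tau η μ0 μ ≤
      ((FP.pi P).cond (fun z i => Y i (z i)) (fun i => Y i (x i))).H (fun z => ∑ i, X i (z i)) -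
        (Fintype.card ι : ℝ)⁻¹ * ∑ i, ((P i).cond (Y i) (Y i (x i))).H (X i) +
        η * ∑ i, rho μ0 (((P i).cond (Y i) (Y i (x i))).map (X i)) := by
    intro x hx
    refine (hm fun i => ((P i).cond (Y i) (Y i (x i))).map (X i)).trans (le_of_eq ?_)
    rw [h.pi_cond P Y x hx, ← h.ent_map, h.pi_sum]
    simp only [tau, mD, h.ent_map, div_eq_inv_mul]
  have h1 := h.E_mono (FP.pi P) _ _ key
  rw [h.E_const, h.E_add, h.E_sub, h.E_smul, h.E_smul, h.E_sum, h.E_sum,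
    ← h.chain (FP.pi P) (fun z => ∑ i, X i (z i)) (fun z i => Y i (z i))] at h1
  have h2 : ∀ i, ((FP.pi P).E fun x => ((P i).cond (Y i) (Y i (x i))).H (X i)) =
      (P i).cH (X i) (Y i) := fun i => by
    rw [h.chain]; exact ev i fun a => ((P i).cond (Y i) (Y i a)).H (X i)
  have h3 : ∀ i, ((FP.pi P).E fun x => rho μ0 (((P i).cond (Y i) (Y i (x i))).map (X i))) ≤
      rho μ0 ((P i).map (X i)) + (P i).I (X i) (Y i) / 2 := fun i =>
    (ev i fun a => rho μ0 (((P i).cond (Y i) (Y i a)).map (X i))).le.trans (hR μ0 (P i) _ _)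
  simp only [h2] at h1
  rw [div_eq_inv_mul]
  have h4 := mul_le_mul_of_nonneg_left (sum_le_sum fun i (_ : i ∈ univ) => h3 i) hη
  linarith

end Pool.Agent.Lib.U4
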