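import Pool.Agent.Lib.U4.BlueE

/-! Block MUT: mutual information between column sums and row sums. -/

noncomputable section

open Finset
open scoped BigOperators

namespace Pool.Agent.Lib.U4

open _root_.Pool.Agent.Lib.U4.FP

namespace MUT

lemma cH_map (h : Api) {Ω α β γ : Type} [Fintype Ω] [Fintype α] (P : FP Ω) (T : Ω → α)
    (f : α → β) (g : α → γ) :
    (P.map T).cH f g = P.cH (fun a => f (T a)) (fun a => g (T a)) := by
  unfold cH
  rw [h.H_map, h.H_map]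

lemma cH_nonneg (h : Api) {Ω α β : Type} [Fintype Ω] (P : FP Ω) (X : Ω → α) (Y : Ω → β) :
    0 ≤ P.cH X Y :=
  sub_nonneg.2 (h.H_mono P _ _ fun _ _ _ _ e => congrArg Prod.snd e)

lemma H_sum (h : Api) {Γ ι : Type} [AddCommGroup Γ] [Fintype Γ] [Fintype ι] [DecidableEq ι]
    (ν : ι → FP Γ) : ((FP.pi ν).H fun x => ∑ i, x i) = (∏ i, ν i).ent := by
  rw [← h.ent_map, h.pi_sum ν (fun _ x => x) univ]
  simp only [h.map_id]

lemma tele {n : ℕ} (f : Fin (n + 1) → ℝ) :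
    ∑ b : Fin n, (f b.castSucc - f b.succ) = f 0 - f (Fin.last n) := by
  have h1 := Fin.sum_univ_succ f
  have h2 := Fin.sum_univ_castSucc f
  rw [sum_sub_distrib]; linarith

lemma Ioi_eq {n : ℕ} (b : Fin n) : Ioi b.castSucc = Ici b.succ := by
  ext c; simp only [mem_Ioi, mem_Ici]; exact Fin.castSucc_lt_iff_succ_le

lemma Ici_last (n : ℕ) : Ici (Fin.last n) = {Fin.last n} := by
  ext c; simp only [mem_Ici, mem_singleton]; exact Fin.last_le_iff

lemma Ici_zero (n : ℕ) : Ici (0 : Fin (n + 1)) = univ := by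
  ext c; simp

end MUT

open MUT in
theorem stMUT : St_MUT := by
  intro h hS hC hCol Γ ι _ _ _ _ _ η μ0 μ hη hmin n ν hν
  have hW1 : ∀ y : ι × Fin (n + 1) → Γ, ∑ t, y t = ∑ b, ∑ a, y (a, b) := fun y =>
    Fintype.sum_prod_type_right y
  have hW2 : ∀ y : ι × Fin (n + 1) → Γ, ∑ t, y t = ∑ a, ∑ b, y (a, b) := fun y =>
    Fintype.sum_prod_type y
  have e1 : ((FP.pi ν).H fun y => (fun b => ∑ a, y (a, b), ∑ t, y t)) =
      (FP.pi ν).H fun y b => ∑ a, y (a, b) := by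
    refine h.H_congr _ _ _ fun x y _ _ => ⟨fun e => congrArg Prod.fst e, fun e => ?_⟩
    rw [hW1, hW1, e]
  have e2 : ((FP.pi ν).H fun y => (fun a => ∑ b, y (a, b), ∑ t, y t)) =
      (FP.pi ν).H fun y a => ∑ b, y (a, b) := by
    refine h.H_congr _ _ _ fun x y _ _ => ⟨fun e => congrArg Prod.fst e, fun e => ?_⟩
    rw [hW2, hW2, e]
  have e3 : ((FP.pi ν).H fun y => (fun b => ∑ a, y (a, b), fun a => ∑ b, y (a, b), ∑ t, y t)) =
      (FP.pi ν).H fun y => (fun b => ∑ a, y (a, b), fun a => ∑ b, y (a, b)) := by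
    refine h.H_congr _ _ _ fun x y _ _ => ⟨fun e => ?_, fun e => ?_⟩
    · exact congrArg (fun z => (z.1, z.2.1)) e
    · have a1 := congrArg Prod.fst e
      have a2 := congrArg Prod.snd e
      simp only at a1 a2
      rw [hW2, hW2, a1, a2]
  have hcol : ∀ b, (∏ a, ν (a, b)) = ∏ i, μ i := fun b => by
    obtain ⟨σ, hσ⟩ := hν b
    rw [prod_congr rfl fun a _ => hσ a, Equiv.prod_comp σ μ]
  have e4 : ((FP.pi ν).H fun y b => ∑ a, y (a, b)) = (n + 1) * (∏ i, μ i).ent := by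
    have := h.H_pi (fun b => FP.pi fun a => ν (a, b)) (fun _ x => ∑ a, x a)
    rw [← h.pi_curry' ν, h.H_map] at this
    rw [this]
    simp only [H_sum h, hcol, sum_const, card_univ, Fintype.card_fin, nsmul_eq_mul]
    push_cast; rfl
  have e5 : ((FP.pi ν).H fun y => ∑ t, y t) = (∏ a, ∏ b, ν (a, b)).ent := by
    rw [H_sum h, Fintype.prod_prod_type]
  obtain ⟨σ, hσ⟩ := hν (Fin.last n)
  have hlast : ∑ a, (ν (a, Fin.last n)).ent = ∑ i, (μ i).ent := by
    rw [sum_congr rfl fun a _ => congrArg ent (hσ a), Equiv.sum_comp σ fun i => (μ i).ent]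
  have hrho : ∑ a, rho μ0 (ν (a, Fin.last n)) = ∑ i, rho μ0 (μ i) := by
    rw [sum_congr rfl fun a _ => congrArg (rho μ0) (hσ a),
      Equiv.sum_comp σ fun i => rho μ0 (μ i)]
  have e6 := hC (n + 1) (fun b => FP.pi fun a => ν (a, b)) (fun x : ι → Γ => ∑ a, x a)
  rw [← h.pi_curry' ν] at e6
  simp only [cH_map h] at e6
  have hfun : ∀ (s : Finset (Fin (n + 1))) (y : ι × Fin (n + 1) → Γ),
      (∑ b' ∈ s, fun a => y (a, b')) = fun a => ∑ b' ∈ s, y (a, b') := fun s y => by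
    funext a; exact Finset.sum_apply _ _ _
  simp only [hfun] at e6
  rw [Fin.sum_univ_castSucc] at e6
  have e7 := sum_le_sum fun (b : Fin n) (_ : b ∈ univ) =>
    hCol η μ0 μ hη hmin (n + 1) ν b.castSucc (hν _)
  have e8 : ∑ b : Fin n, ∑ a, ((∏ b' ∈ Ici b.castSucc, ν (a, b')).ent -
      (∏ b' ∈ Ioi b.castSucc, ν (a, b')).ent) =
      ∑ a, (∏ b, ν (a, b)).ent - ∑ i, (μ i).ent := by
    rw [sum_comm, ← hlast, ← sum_sub_distrib]
    refine sum_congr rfl fun a _ => ?_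
    simp only [Ioi_eq]
    rw [tele fun b => (∏ b' ∈ Ici b, ν (a, b')).ent, Ici_zero, Ici_last, prod_singleton]
  rw [sum_sub_distrib, ← mul_sum, e8, sum_const, card_univ, Fintype.card_fin, nsmul_eq_mul] at e7
  have e9 := cH_nonneg h (FP.pi ν) (fun y => ∑ a, y (a, Fin.last n))
    (fun y a => ∑ b' ∈ Ici (Fin.last n), y (a, b'))
  have e10 := hmin fun a => ∏ b, ν (a, b)
  have e11 : ∑ a, rho μ0 (∏ b, ν (a, b)) ≤ ∑ i, rho μ0 (μ i) +
      (∑ a, (∏ b, ν (a, b)).ent - ∑ i, (μ i).ent) / 2 := by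
    rw [← hrho, ← hlast, ← sum_sub_distrib, sum_div, ← sum_add_distrib]
    refine sum_le_sum fun a _ => ?_
    have := hS.rho_mul μ0 (ν (a, Fin.last n)) (∏ b : Fin n, ν (a, b.castSucc))
    rwa [mul_comm (ν (a, Fin.last n)), ← Fin.prod_univ_castSucc fun b => ν (a, b)] at this
  have e12 := mul_le_mul_of_nonneg_left e11 hη
  unfold cI
  rw [e1, e2, e3, e4, e5]
  unfold tau mD at e10
  have e13 : (FP.pi ν).cH (fun y b => ∑ a, y (a, b)) (fun y a => ∑ b, y (a, b)) =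
      ((FP.pi ν).H fun y => (fun b => ∑ a, y (a, b), fun a => ∑ b, y (a, b))) -
        (FP.pi ν).H fun y a => ∑ b, y (a, b) := rfl
  rw [e13] at e6
  generalize ∑ a, (∏ b, ν (a, b)).ent = A at *
  generalize ∑ i, (μ i).ent = B at *
  have e14 : (1 / (Fintype.card ι : ℝ) + η / 2) * (A - B) =
      A / Fintype.card ι - B / Fintype.card ι + η * (A - B) / 2 := by ring
  rw [e14] at e7
  linarith

end Pool.Agent.Lib.U4
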