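import Pool.Agent.Lib.U4.BlueE

/-! The entropic polynomial Freiman-Ruzsa theorem from the properties of a minimiser. -/

noncomputable section

open Finset

namespace Pool.Agent.Lib.U4

open _root_.Pool.Agent.Lib.U4.FP

theorem stPFR : St_PFR := by
  intro hS hM hK hZ p _ hp2
  have hp : p.Prime := Fact.out
  have hp1 : (1 : ℝ) ≤ p := by exact_mod_cast hp.one_lt.le
  refine ⟨2 * (8 * p ^ 4 + 1), by positivity, fun {Γ} _ _ _ μ0 => ?_⟩
  obtain ⟨μ, hμ⟩ := hM (ι := ZMod p) (1 / (8 * p ^ 4)) μ0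
  have hc : Fintype.card (ZMod p) = p := ZMod.card p
  have hc' : (Fintype.card (ZMod p) : ℝ) = p := by rw [hc]
  set κ := (μ0 * μ0).ent - μ0.ent with hκ
  have hr : rho μ0 μ0 = κ := by rw [rho, hκ]; ring
  have hκ0 : 0 ≤ κ := hr ▸ hS.rho_nonneg μ0 μ0
  have h0 : 0 ≤ mD μ := by
    classical
    have h1 : ∀ i ∈ (univ : Finset (ZMod p)), (μ i).ent ≤ (∏ i, μ i).ent := fun i hi => by
      rw [← mul_prod_erase _ _ hi]; exact hS.le_mul _ _
    have h2 := sum_le_card_nsmul _ _ _ h1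
    rw [card_univ, nsmul_eq_mul, hc'] at h2
    rw [mD, hc', sub_nonneg, div_le_iff₀ (by linarith)]
    linarith
  have h1 := hμ fun _ => μ0
  have h2 := hS.kv_pow μ0 (p - 1)
  rw [Nat.sub_add_cancel hp.one_lt.le, Nat.cast_sub hp.one_lt.le, Nat.cast_one, ← hκ] at h2
  have h3 : mD (fun _ : ZMod p => μ0) = (μ0 ^ p).ent - μ0.ent := by
    rw [mD, prod_const, sum_const, card_univ, nsmul_eq_mul, hc, mul_div_cancel_left₀ _ (by linarith)]
  rw [tau, tau, h3, sum_const, card_univ, nsmul_eq_mul, hc', hr] at h1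
  have h4 : ∑ i, rho μ0 (μ i) ≤ ∑ _i : ZMod p, (8 * p ^ 4 + 1) * κ := by
    have e : (0 : ℝ) < 8 * p ^ 4 := by positivity
    have h5 : 1 / (8 * (p : ℝ) ^ 4) * ∑ i, rho μ0 (μ i) ≤ p * κ + 1 / (8 * p ^ 4) * (p * κ) := by
      nlinarith
    have h6 := mul_le_mul_of_nonneg_left h5 e.le
    rw [← mul_assoc, mul_one_div_cancel e.ne', one_mul, mul_add, ← mul_assoc _ (1 / _),
      mul_one_div_cancel e.ne', one_mul] at h6
    rw [sum_const, card_univ, nsmul_eq_mul, hc']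
    linarith
  obtain ⟨i, -, hi⟩ := exists_le_of_sum_le univ_nonempty h4
  obtain ⟨K, k1, k2⟩ := hZ p μ0 μ (hK p hp2 μ0 μ hμ) i
  exact ⟨K, by linarith, by linarith⟩

end Pool.Agent.Lib.U4
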