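import Pool.Agent.Lib.U4.BlueE

/-! Block RHO: the average of `rho` over conditionings. -/

noncomputable section

open Finset

namespace Pool.Agent.Lib.U4

open _root_.Pool.Agent.Lib.U4.FP

namespace RHO

variable {Ω Ω' β : Type} [Fintype Ω] [Fintype Ω']

lemma pr_snd (Q : FP Ω') (P : FP Ω) (Y : Ω → β) (y : β) :
    (Q.prod P).pr (fun z => Y z.2) y = P.pr Y y := by
  classical
  unfold pr
  rw [Fintype.sum_prod_type, sum_comm]
  refine sum_congr rfl fun a _ => ?_
  by_cases h : Y a = y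
  · simp only [h, if_true, FP.prod, ← sum_mul, Q.tot, one_mul]
  · simp [h]

lemma cond_snd (Q : FP Ω') (P : FP Ω) (Y : Ω → β) (y : β) :
    (Q.prod P).cond (fun z => Y z.2) y = Q.prod (P.cond Y y) := by
  unfold FP.cond
  by_cases h : P.pr Y y = 0
  · rw [dif_pos h, dif_pos ((pr_snd Q P Y y).trans h)]
  · rw [dif_neg h, dif_neg (fun e => h ((pr_snd Q P Y y).symm.trans e))]
    ext z
    simp only [pr_snd]
    simp only [FP.prod]
    split_ifs
    · ring
    · simp

end RHO

theorem stRHO : St_RHO := by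
  intro h Ω β Γ _ _ _ μ0 P X Y
  have e1 : ∀ Q : FP Ω, (μ0 * Q.map X).ent = (μ0.prod Q).H fun z => z.1 + X z.2 := fun Q => by
    rw [← h.ent_map, h.prod_add μ0 Q (fun a => a) X, h.map_id]
  have e2 : (P.E fun a => (μ0 * (P.cond Y (Y a)).map X).ent) =
      (μ0.prod P).cH (fun z => z.1 + X z.2) (fun z => Y z.2) := by
    rw [h.chain]
    simp only [RHO.cond_snd, ← e1]
    conv_lhs => rw [← h.prod_snd μ0 P, h.E_map]
    simp only [h.prod_snd]
  have e3 : (P.E fun a => ((P.cond Y (Y a)).map X).ent) = P.cH X Y := by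
    rw [h.chain]
    simp only [h.ent_map]
  have e4 := h.H_pair_le (μ0.prod P) (fun z => z.1 + X z.2) (fun z => Y z.2)
  have e5 : (P.E fun a => rho μ0 ((P.cond Y (Y a)).map X)) =
      (P.E fun a => (μ0 * (P.cond Y (Y a)).map X).ent) - μ0.ent / 2 -
        (1 / 2) * P.E fun a => ((P.cond Y (Y a)).map X).ent := by
    rw [← h.E_smul, ← h.E_const P (μ0.ent / 2), ← h.E_sub, ← h.E_sub]
    refine h.E_congr _ _ _ fun a _ => ?_
    rw [rho]
    ring
  rw [e5, e2, e3, rho, e1, h.ent_map, cH, cH, I]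
  linarith

end Pool.Agent.Lib.U4
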