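import Pool.Agent.Lib.U4.BlueE

/-!
From a large piece of the graph in a coset of a small subspace to an affine map.
-/

noncomputable section

open Finset
open scoped BigOperators

namespace Pool.Agent.Lib.U4

namespace RM1b

lemma exp_ind {G : Type} [Fintype G] (P : G → Prop) [DecidablePred P] :
    𝔼 x, ind (P x) = ((univ.filter P).card : ℝ) / Fintype.card G := by
  rw [Fintype.expect_eq_sum_div_card, ← sum_boole]
  congr 1
  refine sum_congr rfl fun x _ => ?_
  by_cases h : P x <;> simp [ind, h]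

lemma sect {F G W : Type} [Field F] [AddCommGroup G] [Module F G] [AddCommGroup W] [Module F W]
    (K : Submodule F (G × W)) : ∃ L : G →ₗ[F] W, ∀ z ∈ K, (z.1, L z.1) ∈ K := by
  let f : K →ₗ[F] G := (LinearMap.fst F G W).comp K.subtype
  obtain ⟨g, hg⟩ := f.rangeRestrict.exists_rightInverse_of_surjective f.range_rangeRestrict
  obtain ⟨L, hL⟩ := LinearMap.exists_extend ((LinearMap.snd F G W).comp (K.subtype.comp g))
  refine ⟨L, fun z hz => ?_⟩
  let y : LinearMap.range f := ⟨z.1, ⟨z, hz⟩, rfl⟩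
  have h1 : (g y : G × W).1 = z.1 := congrArg Subtype.val (LinearMap.congr_fun hg y)
  have h2 : L z.1 = (g y : G × W).2 := LinearMap.congr_fun hL y
  rw [h2, ← h1]
  exact (g y).2

end RM1b

theorem stRM1 : St_RM1 := by
  classical
  intro p _ ⟨C, hC⟩
  refine ⟨3 * C, fun {G W} _ _ _ _ _ _ φ A ε hε h => ?_⟩
  obtain ⟨K, c, h1, h2⟩ := hC φ A ε hε h
  obtain ⟨L, hL⟩ := RM1b.sect K
  have := Fintype.ofFinite W
  rw [mul_comm 3, pow_mul]
  have hθ : 0 < (ε / 2) ^ C := by positivity
  generalize (ε / 2) ^ C = θ at *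
  have hN : (0 : ℝ) < Fintype.card G := by exact_mod_cast Fintype.card_pos
  rw [RM1b.exp_ind, le_div_iff₀ hN] at h1
  set S := univ.filter fun x => x ∈ A ∧ (x, φ x) - c ∈ K with hS
  set T := univ.filter fun w : W => ((0 : G), w) ∈ K with hT
  have h3 : S.card * T.card ≤ Nat.card K := by
    rw [← card_product, Nat.card_eq_fintype_card, Fintype.card_subtype]
    refine card_le_card_of_injOn (fun z => (z.1, φ z.1) - c + (0, z.2)) (fun z hz => ?_) ?_
    · obtain ⟨a, b⟩ := mem_product.1 hz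
      exact mem_filter.2 ⟨mem_univ _, K.add_mem (mem_filter.1 a).2.2 (mem_filter.1 b).2⟩
    · rintro ⟨x, w⟩ - ⟨x', w'⟩ - e
      have e1 : x = x' := by simpa using congrArg Prod.fst e
      subst e1
      have e2 : w = w' := by simpa using congrArg Prod.snd e
      rw [e2]
  have h4 : (S.card : ℝ) * T.card ≤ Nat.card K := by exact_mod_cast h3
  have hT0 : (0 : ℝ) ≤ T.card := Nat.cast_nonneg _
  have h5 : θ ^ 2 * T.card ≤ 1 := by
    have a1 : θ * Fintype.card G * T.card ≤ Nat.card K :=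
      (mul_le_mul_of_nonneg_right h1 hT0).trans h4
    have a2 := (mul_le_mul_of_nonneg_left a1 hθ.le).trans h2
    refine le_of_mul_le_mul_right ?_ hN
    linarith
  obtain ⟨w, -, hw⟩ := exists_le_card_fiber_of_nsmul_le_card_of_maps_to (M := ℝ) (s := S) (t := T)
    (f := fun x => φ x - c.2 - L (x - c.1)) (b := θ ^ 3 * Fintype.card G)
    (fun x hx => by
      have a1 := (mem_filter.1 hx).2.2
      have a2 := K.sub_mem a1 (hL _ a1)
      refine mem_filter.2 ⟨mem_univ _, ?_⟩
      convert a2 using 1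
      ext <;> simp)
    ⟨0, mem_filter.2 ⟨mem_univ _, K.zero_mem⟩⟩
    (by
      rw [nsmul_eq_mul]
      have := mul_le_mul_of_nonneg_left h5 (mul_pos hθ hN).le
      linarith)
  refine ⟨L, w + c.2 - L c.1, ?_⟩
  rw [RM1b.exp_ind, le_div_iff₀ hN]
  refine hw.trans (Nat.cast_le.2 (card_le_card fun x hx => ?_))
  obtain ⟨a1, a2⟩ := mem_filter.1 hx
  refine mem_filter.2 ⟨mem_univ _, (mem_filter.1 a1).2.1, ?_⟩
  rw [← a2, map_sub]
  abel

end Pool.Agent.Lib.U4
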