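import Pool.Agent.Lib.U4.BlueE

noncomputable section

open Finset

namespace Pool.Agent.Lib.U4

open _root_.Pool.Agent.Lib.U4.FP

namespace SUMS

variable {Γ : Type} [AddCommGroup Γ] [Fintype Γ] (h : Api)
include h

omit [AddCommGroup Γ] in
lemma m1 (μ ν : FP Γ) (f : Γ → Γ) : ((μ.prod ν).map fun w => f w.1) = μ.map f := by
  rw [← h.map_map (μ.prod ν) (fun w => w.1) f, h.prod_fst]

omit [AddCommGroup Γ] in
lemma m2 (μ ν : FP Γ) (f : Γ → Γ) : ((μ.prod ν).map fun w => f w.2) = ν.map f := by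
  rw [← h.map_map (μ.prod ν) (fun w => w.2) f, h.prod_snd]

lemma h12 (μ ν ξ : FP Γ) (f g : Γ → Γ) :
    (((μ.prod ν).prod ξ).H fun z => f z.1.1 + g z.1.2) = (μ.map f * ν.map g).ent := by
  rw [h.H_fst (μ.prod ν) ξ (fun w => f w.1 + g w.2), ← h.ent_map, h.prod_add]

lemma h13 (μ ν ξ : FP Γ) (f g : Γ → Γ) :
    (((μ.prod ν).prod ξ).H fun z => f z.1.1 + g z.2) = (μ.map f * ξ.map g).ent := by
  rw [← h.ent_map, h.prod_add (μ.prod ν) ξ (fun w => f w.1) g, m1 h]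

lemma h23 (μ ν ξ : FP Γ) (f g : Γ → Γ) :
    (((μ.prod ν).prod ξ).H fun z => f z.1.2 + g z.2) = (ν.map f * ξ.map g).ent := by
  rw [← h.ent_map, h.prod_add (μ.prod ν) ξ (fun w => f w.2) g, m2 h]

lemma h123 (μ ν ξ : FP Γ) (f g k : Γ → Γ) :
    (((μ.prod ν).prod ξ).H fun z => f z.1.1 + g z.1.2 + k z.2)
      = (μ.map f * ν.map g * ξ.map k).ent := by
  rw [← h.ent_map, h.prod_add (μ.prod ν) ξ (fun w => f w.1 + g w.2) k, h.prod_add]

omit [AddCommGroup Γ] in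
lemma p12 (μ ν ξ : FP Γ) : (((μ.prod ν).prod ξ).H fun z => z.1) = μ.ent + ν.ent := by
  rw [h.H_fst (μ.prod ν) ξ (fun w => w)]
  exact h.H_prod μ ν id id

omit [AddCommGroup Γ] in
lemma p123 (μ ν ξ : FP Γ) : (((μ.prod ν).prod ξ).H fun z => z) = μ.ent + ν.ent + ξ.ent := by
  have e1 := h.H_prod (μ.prod ν) ξ id id
  have e2 := h.H_prod μ ν id id
  exact e1.trans (congrArg (· + ξ.ent) e2)

omit [AddCommGroup Γ] in
lemma p2 (μ ν ξ : FP Γ) : (((μ.prod ν).prod ξ).H fun z => z.1.2) = ν.ent := by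
  rw [h.H_fst (μ.prod ν) ξ (fun w => w.2)]
  exact h.H_snd μ ν id

omit [AddCommGroup Γ] in
lemma p3 (μ ν ξ : FP Γ) : (((μ.prod ν).prod ξ).H fun z => z.2) = ξ.ent :=
  h.H_snd (μ.prod ν) ξ id

lemma le_mul (μ ν : FP Γ) : μ.ent ≤ (μ * ν).ent := by
  have e1 := h.H_pair_le (μ.prod ν) (fun z => z.1 + z.2) (fun z => z.2)
  have e2 := h.H_mono (μ.prod ν) (fun z => (z.1 + z.2, z.2)) (fun z => (z.1, z.2)) (by
    intro a b _ _ e
    obtain ⟨e1, e2⟩ := Prod.mk.inj e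
    rw [e2] at e1 ⊢
    rw [add_right_cancel e1])
  have e3 : ((μ.prod ν).H fun z => (z.1, z.2)) = μ.ent + ν.ent := h.H_prod μ ν id id
  have e4 : ((μ.prod ν).H fun z => z.2) = ν.ent := h.H_snd μ ν id
  rw [h.mul_eq, h.ent_map]
  linarith

lemma kv (μ ν ξ : FP Γ) : (μ * ν * ξ).ent + μ.ent ≤ (μ * ν).ent + (μ * ξ).ent := by
  have e1 := h.H_sub ((μ.prod ν).prod ξ) (fun z => (z.1.2, z.1.1 + z.2))
    (fun z => (z.2, z.1.1 + z.1.2)) (fun z => z.1.1 + z.1.2 + z.2) (fun z => z) (by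
      intro a b _ _ e
      obtain ⟨e1, e2⟩ := Prod.mk.inj e
      rw [add_right_comm, e1, e2, add_right_comm]) (by
      intro a b _ _ e
      obtain ⟨e1, e2⟩ := Prod.mk.inj e
      rw [e1, e2]) (by
      intro a b _ _ e e'
      obtain ⟨e1, e2⟩ := Prod.mk.inj e
      obtain ⟨e3, -⟩ := Prod.mk.inj e'
      rw [e3] at e2
      exact Prod.ext (Prod.ext (add_right_cancel e2) e1) e3)
  have e2 := h.H_pair_le ((μ.prod ν).prod ξ) (fun z => z.1.2) (fun z => z.1.1 + z.2)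
  have e3 := h.H_pair_le ((μ.prod ν).prod ξ) (fun z => z.2) (fun z => z.1.1 + z.1.2)
  have e4 := h123 h μ ν ξ (fun a => a) (fun a => a) (fun a => a)
  have e5 := h12 h μ ν ξ (fun a => a) (fun a => a)
  have e6 := h13 h μ ν ξ (fun a => a) (fun a => a)
  simp only [h.map_id] at e4 e5 e6
  have e7 := p123 h μ ν ξ
  have e8 := p2 h μ ν ξ
  have e9 := p3 h μ ν ξ
  linarith

lemma kv_prod {ι : Type} (μ : FP Γ) (s : Finset ι) (ν : ι → FP Γ) :
    (μ * ∏ i ∈ s, ν i).ent - μ.ent ≤ ∑ i ∈ s, ((μ * ν i).ent - μ.ent) := by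
  classical
  induction s using Finset.induction_on with
  | empty => simp
  | insert i s hi ih =>
    rw [prod_insert hi, sum_insert hi, ← mul_assoc]
    have := kv h μ (ν i) (∏ i ∈ s, ν i)
    linarith

lemma kv_pow (μ : FP Γ) (n : ℕ) : (μ ^ (n + 1)).ent - μ.ent ≤ n * ((μ * μ).ent - μ.ent) := by
  have := kv_prod h μ (range n) (fun _ => μ)
  rwa [prod_const, card_range, ← pow_succ', sum_const, card_range, nsmul_eq_mul] at this

lemma ruzsa (μ ν : FP Γ) : (μ * μ.ng).ent + ν.ent ≤ 2 * (μ * ν).ent := by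
  have e1 := h.H_sub ((μ.prod μ).prod ν) (fun z => (z.1.1 + z.2, z.1.2 + z.2))
    (fun z => z.1) (fun z => z.1.1 + -z.1.2) (fun z => z) (by
      intro a b _ _ e
      obtain ⟨e1, e2⟩ := Prod.mk.inj e
      linear_combination (norm := abel1) e1 - e2) (by
      intro a b _ _ e
      rw [e]) (by
      intro a b _ _ e e'
      obtain ⟨e1, -⟩ := Prod.mk.inj e
      rw [e'] at e1
      exact Prod.ext e' (add_left_cancel e1))
  have e2 := h.H_pair_le ((μ.prod μ).prod ν) (fun z => z.1.1 + z.2) (fun z => z.1.2 + z.2)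
  have e4 := h12 h μ μ ν (fun a => a) (fun a => -a)
  have e5 := h13 h μ μ ν (fun a => a) (fun a => a)
  have e6 := h23 h μ μ ν (fun a => a) (fun a => a)
  simp only [h.map_id] at e4 e5 e6
  have e7 := p123 h μ μ ν
  have e8 := p12 h μ μ ν
  unfold ng
  linarith

lemma step (μ ν : FP Γ) (a : ℕ) : (μ * ν.map fun y => (a + 1) • y).ent + μ.ent ≤
    (μ * ν.map fun y => a • y).ent + (μ * ν * μ.ng).ent := by
  have e1 := h.H_sub ((μ.prod ν).prod μ) (fun z => (a • z.1.2 + z.2, z.1.1 + z.1.2 + -z.2))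
    (fun z => z.1) (fun z => z.1.1 + (a + 1) • z.1.2) (fun z => z) (by
      intro x y _ _ e
      obtain ⟨e1, e2⟩ := Prod.mk.inj e
      rw [succ_nsmul, succ_nsmul]
      linear_combination (norm := abel1) e1 + e2) (by
      intro x y _ _ e
      rw [e]) (by
      intro x y _ _ e e'
      obtain ⟨e1, -⟩ := Prod.mk.inj e
      rw [e'] at e1
      exact Prod.ext e' (add_left_cancel e1))
  have e2 := h.H_pair_le ((μ.prod ν).prod μ) (fun z => a • z.1.2 + z.2)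
    (fun z => z.1.1 + z.1.2 + -z.2)
  have e4 := h12 h μ ν μ (fun y => y) (fun y => (a + 1) • y)
  have e5 := h23 h μ ν μ (fun y => a • y) (fun y => y)
  have e6 := h123 h μ ν μ (fun y => y) (fun y => y) (fun y => -y)
  simp only [h.map_id] at e4 e5 e6
  have e7 := p123 h μ ν μ
  have e8 := p12 h μ ν μ
  rw [mul_comm] at e5
  unfold ng
  linarith

lemma rho_mul (μ0 μ ν : FP Γ) : rho μ0 (μ * ν) ≤ rho μ0 μ + ((μ * ν).ent - μ.ent) / 2 := by
  have := kv h μ μ0 ν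
  rw [mul_comm μ μ0, mul_assoc] at this
  unfold rho
  linarith

lemma rho_nonneg (μ0 μ : FP Γ) : 0 ≤ rho μ0 μ := by
  have e1 := le_mul h μ0 μ
  have e2 := le_mul h μ μ0
  rw [mul_comm] at e2
  unfold rho
  linarith

end SUMS

theorem stSUMS : St_SUMS := fun h =>
  ⟨SUMS.le_mul h, SUMS.kv h, SUMS.kv_prod h, SUMS.kv_pow h, SUMS.ruzsa h, SUMS.step h,
    SUMS.rho_mul h, SUMS.rho_nonneg h⟩

end Pool.Agent.Lib.U4
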