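import Pool.Agent.Lib.U4.BlueE

/-!
Block ZERO: the case of multidistance zero.
-/

noncomputable section

open Finset
open scoped BigOperators

namespace Pool.Agent.Lib.U4

open _root_.Pool.Agent.Lib.U4.FP

namespace ZERO

variable {p : ℕ} [Fact p.Prime] {Γ : Type} [AddCommGroup Γ] [Fintype Γ] [Module (ZMod p) Γ]

/-- Periods of a law. -/
def per (p : ℕ) [Fact p.Prime] [Module (ZMod p) Γ] (A : FP Γ) : Submodule (ZMod p) Γ :=
  AddSubgroup.toZModSubmodule p
    { carrier := {t | ∀ x, A.w (x + t) = A.w x}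
      add_mem' := fun {a b} ha hb x => by rw [← add_assoc, hb, ha]
      zero_mem' := fun x => by rw [add_zero]
      neg_mem' := fun {a} ha x => by rw [← ha (x + -a), neg_add_cancel_right] }

theorem mem_per (A : FP Γ) (t : Γ) : t ∈ per p A ↔ ∀ x, A.w (x + t) = A.w x := Iff.rfl

theorem core (h : Api) (hS : Sums) (μ0 A B : FP Γ) (h1 : (A * B).ent ≤ A.ent)
    (h2 : A.ent ≤ B.ent) : ∃ K : Submodule (ZMod p) Γ, μ0.H K.mkQ ≤ 2 * rho μ0 A ∧
      Real.log (Nat.card K) ≤ μ0.ent + 2 * rho μ0 A := by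
  classical
  set K := per p A with hK
  set s : Finset Γ := univ.filter (· ∈ K) with hs
  have ms : ∀ t, t ∈ s ↔ t ∈ K := fun t => by simp [hs]
  have cs : s.card = Nat.card K := by
    rw [Nat.card_eq_fintype_card, Fintype.card_subtype]
  have ne : s.Nonempty := ⟨0, (ms 0).2 K.zero_mem⟩
  obtain ⟨y0, hy0, -⟩ := h.exists_le_E B fun _ => 0
  have hB : B.ent ≤ Real.log (Nat.card K) := by
    have := h.H_le_card B id (s.image (· + y0)) fun y hy => by
      refine mem_image.2 ⟨y - y0, (ms _).2 ((mem_per A _).2 fun x => ?_), by simp⟩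
      have e1 := h.eq_case A B h1 y hy (x + y)
      have e2 := h.eq_case A B h1 y0 hy0 (x + y)
      rw [add_sub_cancel_right] at e1
      rw [e1, ← e2, add_sub_assoc]
    rwa [card_image_of_injective _ (add_left_injective y0), cs] at this
  set u := unifOn s ne with hu
  have us : ∀ a, u.w a ≠ 0 → a ∈ K := by
    intro a ha
    by_contra hc
    exact ha (if_neg fun e => hc ((ms a).1 e))
  have eu : u.ent = Real.log (Nat.card K) := by
    rw [← cs]
    exact h.H_unif s ne id fun a _ b _ e => e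
  have hA : u * A = A := by
    ext x
    rw [mul_w]
    have : ∀ a, u.w a * A.w (x - a) = u.w a * A.w x := by
      intro a
      by_cases ha : u.w a = 0
      · rw [ha, zero_mul, zero_mul]
      · rw [← (mem_per A a).1 (us a ha) (x - a), sub_add_cancel]
    simp only [this]
    rw [← sum_mul, u.tot, one_mul]
  have a1 : u.ent ≤ A.ent := by
    have := hS.le_mul u A
    rwa [hA] at this
  set ξ := μ0 * A with hξ
  have hξu : ξ * u = ξ := by rw [hξ, mul_assoc, mul_comm A u, hA]
  have a2 : μ0.ent ≤ ξ.ent := hS.le_mul μ0 A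
  have a3 : A.ent ≤ ξ.ent := by
    rw [hξ, mul_comm]
    exact hS.le_mul A μ0
  have a4 := h.H_sub (ξ.prod u) (fun z => z.1 + z.2) (fun z => id z.1) (fun z => K.mkQ z.1)
    (fun z => (id z.1, id z.2)) (fun a b ha hb e => by
      have ka : a.2 ∈ K := us _ fun e0 => by simp [FP.prod, e0] at ha
      have kb : b.2 ∈ K := us _ fun e0 => by simp [FP.prod, e0] at hb
      rw [Submodule.mkQ_apply, Submodule.mkQ_apply, Submodule.Quotient.eq]
      have : a.1 - b.1 = b.2 - a.2 := by
        rw [sub_eq_sub_iff_add_eq_add, e, add_comm]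
      rw [this]
      exact K.sub_mem kb ka)
    (fun a b _ _ e => congrArg _ e)
    (fun a b _ _ e e' => by
      have e1 : a.1 = b.1 := e'
      have e2 : a.1 + a.2 = b.1 + b.2 := e
      rw [e1, add_right_inj] at e2
      simp [e1, e2])
  rw [h.H_prod, h.H_fst, h.H_fst, ← h.ent_map (ξ.prod u), ← h.mul_eq, hξu] at a4
  have a5 : μ0.H K.mkQ ≤ ξ.H K.mkQ := by
    have := Fintype.ofFinite (Γ ⧸ K)
    rw [← h.ent_map, ← h.ent_map, hξ]
    have e := h.map_mul K.mkQ.toAddMonoidHom μ0 A
    have e' : (μ0 * A).map K.mkQ = μ0.map K.mkQ * A.map K.mkQ := e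
    rw [e']
    exact hS.le_mul _ _
  have e1 : ξ.H id = ξ.ent := rfl
  have e2 : u.H id = u.ent := rfl
  refine ⟨K, ?_, ?_⟩ <;> unfold rho <;> rw [← hξ] <;> linarith

end ZERO

theorem stZERO : St_ZERO := by
  intro h hS p _ Γ _ _ _ μ0 μ hD i
  classical
  have l1 : ∀ k, (μ k).ent ≤ (∏ i, μ i).ent := fun k => by
    rw [← mul_prod_erase _ _ (mem_univ k)]
    exact hS.le_mul _ _
  have hp : (0 : ℝ) < Fintype.card (ZMod p) := by exact_mod_cast Fintype.card_pos
  have l2 : ∀ k, (μ k).ent = (∏ i, μ i).ent := by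
    have h0 : ∑ k, ((∏ i, μ i).ent - (μ k).ent) = 0 := by
      refine le_antisymm ?_ (sum_nonneg fun k _ => sub_nonneg.2 (l1 k))
      unfold mD at hD
      rw [sub_nonpos, le_div_iff₀ hp] at hD
      rw [sum_sub_distrib, sum_const, card_univ, nsmul_eq_mul]
      linarith
    intro k
    have := (sum_eq_zero_iff_of_nonneg fun k _ => sub_nonneg.2 (l1 k)).1 h0 k (mem_univ k)
    linarith
  have hj : i + 1 ∈ univ.erase i := by simp
  refine ZERO.core h hS μ0 (μ i) (μ (i + 1)) ?_ (by rw [l2, l2])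
  rw [l2, ← mul_prod_erase _ _ (mem_univ i), ← mul_prod_erase _ _ hj, ← mul_assoc]
  exact hS.le_mul _ _

end Pool.Agent.Lib.U4
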