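import Pool.Agent.Lib.U4.E1
import Pool.Agent.Lib.U4.E2
import Pool.Agent.Lib.U4.E3
import Pool.Agent.Lib.U4.E4
import Pool.Agent.Lib.U4.E5
import Pool.Agent.Lib.U4.SUMS
import Pool.Agent.Lib.U4.RHO
import Pool.Agent.Lib.U4.MIN
import Pool.Agent.Lib.U4.MINC
import Pool.Agent.Lib.U4.CHAIN
import Pool.Agent.Lib.U4.COL
import Pool.Agent.Lib.U4.MUT
import Pool.Agent.Lib.U4.BSG
import Pool.Agent.Lib.U4.ENDG
import Pool.Agent.Lib.U4.LAWB
import Pool.Agent.Lib.U4.ARRL
import Pool.Agent.Lib.U4.ARRM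
import Pool.Agent.Lib.U4.KZERO
import Pool.Agent.Lib.U4.ZERO
import Pool.Agent.Lib.U4.PFR
import Pool.Agent.Lib.U4.COSET
import Pool.Agent.Lib.U4.RM1

/-! Assembly of part 1: entropy library, entropic PFR in odd characteristic, `RM1`. -/

namespace Pool.Agent.Lib.U4

theorem api : Api :=
  have b := stE2
  have c := stE3 b
  have d := stE4 b c
  { toApiA := stE1, toApiB := b, toApiC := c, toApiD := d, toApiE := stE5 b c d }

theorem sums : Sums := stSUMS api

theorem bsg : BSG := stBSG api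

theorem pfr (p : ℕ) [Fact p.Prime] (hp : p ≠ 2) : PFR p :=
  have r : RhoCond := stRHO api
  have m : MutBound := stMUT api sums (stCHAIN api) (stCOL api (stMINC api r))
  stPFR sums (stMIN api)
    (stKZERO (stENDG api sums r bsg) (stLAWB api sums) (stARRL api) (stARRM api m))
    (stZERO api sums) p hp

theorem rm1 (p : ℕ) [Fact p.Prime] (hp : p ≠ 2) : RM1 p :=
  stRM1 p (stCOSET api bsg p (pfr p hp))

end Pool.Agent.Lib.U4
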