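import Pool.Agent.Lib.U4.BlueE

/-!
Blueprint, part A: linear stability of approximate homomorphisms into bilinear forms, and the
one-percent version `RM2`.  Proofs: `/team-store/u4_PLAN.md`.
-/

noncomputable section

open Finset Module
open scoped BigOperators

namespace Pool.Agent.Lib.U4

/-- Bilinear forms on `V × U` over `F_p`. -/
abbrev Bil (p : ℕ) (V U : Type) [AddCommGroup V] [Module (ZMod p) V] [AddCommGroup U]
    [Module (ZMod p) U] : Type := V →ₗ[ZMod p] U →ₗ[ZMod p] ZMod p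

section defs

variable {p : ℕ} {V U : Type} [AddCommGroup V] [Module (ZMod p) V] [AddCommGroup U]
  [Module (ZMod p) U]

/-- Rank. -/
def rk (M : Bil p V U) : ℝ := finrank (ZMod p) (LinearMap.range M)

/-- Rank of the restriction to `A × B`. -/
def rr (M : Bil p V U) (A : Submodule (ZMod p) V) (B : Submodule (ZMod p) U) : ℝ :=
  rk (M.compl₁₂ A.subtype B.subtype)

/-- Dimension, as a real number. -/
def dm (A : Submodule (ZMod p) V) : ℝ := finrank (ZMod p) A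

/-- Codimension. -/
def cd (A : Submodule (ZMod p) V) : ℝ := finrank (ZMod p) V - dm A

/-- Failure of `N`, `N'` to span `S` inside `S`. -/
def tv (S N N' : Submodule (ZMod p) V) : ℝ := dm S - dm ((N ⊓ S) ⊔ (N' ⊓ S))

/-- The defect of additivity. -/
def df {G W : Type} [AddCommGroup G] [AddCommGroup W] (φ : G → W) (x y : G) : W :=
  φ (x + y) - φ x - φ y

/-- Average transversality defect of a point against a plane. -/
def tvA {G : Type} [AddCommGroup G] [Fintype G] (S : Submodule (ZMod p) V)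
    (Va : G → Submodule (ZMod p) V) : ℝ :=
  𝔼 a, 𝔼 b, 𝔼 w, tv S (Va a ⊓ Va b ⊓ Va (a + b)) (Va w)

/-- Density of the left kernel. -/
def bb [Fintype V] (M : Bil p V U) : ℝ := 𝔼 v, ind (M v = 0)

end defs

/-- Block RA1: ranks on fixed spaces. -/
structure RkA (p : ℕ) (V U : Type) [AddCommGroup V] [Module (ZMod p) V] [AddCommGroup U]
    [Module (ZMod p) U] : Prop where
  rk_nonneg : ∀ M : Bil p V U, 0 ≤ rk M
  rk_add : ∀ M N : Bil p V U, rk (M + N) ≤ rk M + rk N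
  rk_neg : ∀ M : Bil p V U, rk (-M) = rk M
  rk_sub : ∀ M N : Bil p V U, rk (M - N) ≤ rk M + rk N
  rk_zero : rk (0 : Bil p V U) = 0
  eq_zero : ∀ M : Bil p V U, rk M ≤ 0 → M = 0
  rk_flip : ∀ M : Bil p V U, rk M.flip = rk M
  cd_ker : ∀ M : Bil p V U, cd (LinearMap.ker M) = rk M
  cd_ker_flip : ∀ M : Bil p V U, cd (LinearMap.ker M.flip) = rk M
  rk_le_cd : ∀ (M : Bil p V U) (A : Submodule (ZMod p) V), A ≤ LinearMap.ker M → rk M ≤ cd A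
  cd_nonneg : ∀ A : Submodule (ZMod p) V, 0 ≤ cd A
  cd_inf : ∀ A B : Submodule (ZMod p) V, cd (A ⊓ B) ≤ cd A + cd B
  tv_nonneg : ∀ S N N' : Submodule (ZMod p) V, 0 ≤ tv S N N'
  tv_comm : ∀ S N N' : Submodule (ZMod p) V, tv S N N' = tv S N' N
  tv_mono : ∀ S N N' N1 N1' : Submodule (ZMod p) V, N ≤ N1 → N' ≤ N1' → tv S N1 N1' ≤ tv S N N'
  proj : ∀ (A : Submodule (ZMod p) V) (B : Submodule (ZMod p) U),
    ∃ (P : V →ₗ[ZMod p] V) (Q : U →ₗ[ZMod p] U), (∀ v, P v ∈ A) ∧ (∀ v ∈ A, P v = v) ∧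
      (∀ u, Q u ∈ B) ∧ (∀ u ∈ B, Q u = u) ∧
      ∀ M : Bil p V U, rk (M - M.compl₁₂ P Q) ≤ cd A + cd B

/-- Block RA2: restricted ranks. -/
structure RkB (p : ℕ) (V U : Type) [AddCommGroup V] [Module (ZMod p) V] [AddCommGroup U]
    [Module (ZMod p) U] : Prop where
  rr_nonneg : ∀ (M : Bil p V U) A B, 0 ≤ rr M A B
  rr_add : ∀ (M N : Bil p V U) A B, rr (M + N) A B ≤ rr M A B + rr N A B
  rr_sub : ∀ (M N : Bil p V U) A B, rr (M - N) A B ≤ rr M A B + rr N A B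
  rr_neg : ∀ (M : Bil p V U) A B, rr (-M) A B = rr M A B
  rr_congr : ∀ (M N : Bil p V U) A B, (∀ v ∈ A, ∀ u ∈ B, M v u = N v u) → rr M A B = rr N A B
  rr_zero : ∀ (M : Bil p V U) A B, (∀ v ∈ A, ∀ u ∈ B, M v u = 0) → rr M A B = 0
  rr_mono : ∀ (M : Bil p V U) A A' B B', A ≤ A' → B ≤ B' → rr M A B ≤ rr M A' B'
  rr_le : ∀ (M : Bil p V U) A B, rr M A B ≤ rk M
  rr_sup_left : ∀ (M : Bil p V U) A A' B, rr M (A ⊔ A') B ≤ rr M A B + rr M A' B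
  rr_sup_right : ∀ (M : Bil p V U) A B B', rr M A (B ⊔ B') ≤ rr M A B + rr M A B'
  rr_tv_left : ∀ (M : Bil p V U) S N N' B,
    rr M S B ≤ rr M (N ⊓ S) B + rr M (N' ⊓ S) B + tv S N N'
  rr_tv_right : ∀ (M : Bil p V U) A S N N',
    rr M A S ≤ rr M A (N ⊓ S) + rr M A (N' ⊓ S) + tv S N N'
  rk_compl : ∀ (M : Bil p V U) A B (P : V →ₗ[ZMod p] V) (Q : U →ₗ[ZMod p] U),
    (∀ v, P v ∈ A) → (∀ u, Q u ∈ B) → rk (M.compl₁₂ P Q) ≤ rr M A B
  r3 : ∀ (M : Bil p V U) A A' B B', ∃ r : Bil p V U, A' ≤ LinearMap.ker r ∧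
    B' ≤ LinearMap.ker r.flip ∧ rr (M - r) A B ≤ rr M (A ⊓ A') B + rr M A (B ⊓ B')

/-- `RkA` for all finite spaces. -/
def RA (p : ℕ) : Prop := ∀ (V U : Type) [AddCommGroup V] [Module (ZMod p) V] [Finite V]
  [AddCommGroup U] [Module (ZMod p) U] [Finite U], RkA p V U

/-- `RkB` for all finite spaces. -/
def RB (p : ℕ) : Prop := ∀ (V U : Type) [AddCommGroup V] [Module (ZMod p) V] [Finite V]
  [AddCommGroup U] [Module (ZMod p) U] [Finite U], RkB p V U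

def St_RA1 : Prop := ∀ (p : ℕ) [Fact p.Prime], RA p
def St_RA2 : Prop := ∀ (p : ℕ) [Fact p.Prime], RA p → RB p

/-- Increment lemma: a subspace in which a random family becomes transversal. -/
def Inc (p : ℕ) : Prop := ∀ {V Z : Type} [AddCommGroup V] [Module (ZMod p) V] [Finite V]
  [Fintype Z] [Nonempty Z] (N : Z → Submodule (ZMod p) V) (l : ℝ), 0 < l →
  ∃ S : Submodule (ZMod p) V, l * cd S ≤ 𝔼 z, cd (N z) ∧
    𝔼 z, 𝔼 z', tv S (N z) (N z') ≤ l * 𝔼 z, cd (N z)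

def St_INC : Prop := ∀ (p : ℕ) [Fact p.Prime], Inc p

/-- A global subspace in which points are transversal to planes. -/
def Glob (p : ℕ) : Prop := ∀ {G V : Type} [AddCommGroup G] [Fintype G] [AddCommGroup V]
  [Module (ZMod p) V] [Finite V] (Va : G → Submodule (ZMod p) V) (l : ℝ), 0 < l →
  ∃ S : Submodule (ZMod p) V, l * cd S ≤ 3 * 𝔼 a, cd (Va a) ∧ tvA S Va ≤ 3 * l * 𝔼 a, cd (Va a)

def St_GLOB : Prop := ∀ (p : ℕ) [Fact p.Prime], RA p → Inc p → Glob p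

/-- Local subspaces attached to the points of `G`. -/
def Str (p : ℕ) : Prop := ∀ {G V U : Type} [AddCommGroup G] [Fintype G] [AddCommGroup V]
  [Module (ZMod p) V] [Finite V] [AddCommGroup U] [Module (ZMod p) U] [Finite U]
  (φ : G → Bil p V U) (l : ℝ), 0 < l → l ≤ 1 →
  ∃ (Va : G → Submodule (ZMod p) V) (Ua : G → Submodule (ZMod p) U),
    l * 𝔼 a, (cd (Va a) + cd (Ua a)) ≤ 21 * 𝔼 x, 𝔼 y, rk (df φ x y) ∧
    𝔼 x, 𝔼 y, (rr (df φ x y) (Va x ⊓ Va (x + y)) (Ua y) + rr (df φ x y) (Va x) (Ua y ⊓ Ua (x + y)) +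
      rr (df φ x y) (Va x ⊓ Va y) (Ua (x + y))) ≤ 15 * l * 𝔼 x, 𝔼 y, rk (df φ x y)

def St_STR : Prop := ∀ (p : ℕ) [Fact p.Prime], RA p → RB p → Inc p → Str p

/-- The part of the cocycle that depends on the sum only. -/
def Coc (p : ℕ) : Prop := ∀ {G V U : Type} [AddCommGroup G] [Fintype G] [AddCommGroup V]
  [Module (ZMod p) V] [Finite V] [AddCommGroup U] [Module (ZMod p) U] [Finite U]
  (φ : G → Bil p V U) (Va : G → Submodule (ZMod p) V) (Ua : G → Submodule (ZMod p) U)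
  (V0 : Submodule (ZMod p) V) (U0 : Submodule (ZMod p) U) (δ : ℝ),
  𝔼 x, 𝔼 y, (rr (df φ x y) (Va x ⊓ Va (x + y)) (Ua y) +
    rr (df φ x y) (Va x) (Ua y ⊓ Ua (x + y))) ≤ δ →
  ∃ b : G → Bil p V U, (∀ a, Va a ≤ LinearMap.ker (b a) ∧ Ua a ≤ LinearMap.ker (b a).flip) ∧
    𝔼 x, 𝔼 y, rr (df φ x y - b (x + y)) (Va x ⊓ V0) (Ua y ⊓ U0) ≤ 4 * δ + tvA V0 Va + tvA U0 Ua

def St_COC : Prop := ∀ (p : ℕ) [Fact p.Prime], RB p → Coc p

/-- From local smallness to global smallness. -/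
def Loc (p : ℕ) : Prop := ∀ {G V U : Type} [AddCommGroup G] [Fintype G] [AddCommGroup V]
  [Module (ZMod p) V] [Finite V] [AddCommGroup U] [Module (ZMod p) U] [Finite U]
  (ψ : G → Bil p V U) (Va : G → Submodule (ZMod p) V) (Ua : G → Submodule (ZMod p) U)
  (V0 : Submodule (ZMod p) V) (U0 : Submodule (ZMod p) U) (δ δ' : ℝ),
  𝔼 x, 𝔼 y, rr (df ψ x y) (Va x ⊓ V0) (Ua y ⊓ U0) ≤ δ' →
  𝔼 x, 𝔼 y, rr (df ψ x y) (Va x ⊓ Va y) (Ua (x + y)) ≤ δ →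
  𝔼 x, 𝔼 y, rr (df ψ x y) V0 U0 ≤ 8 * δ' + 2 * δ + 3 * (tvA V0 Va + tvA U0 Ua)

def St_LOC : Prop := ∀ (p : ℕ) [Fact p.Prime], RA p → RB p → Loc p

/-- The halving step. -/
def Half (p : ℕ) : Prop := ∃ C : ℝ, 0 ≤ C ∧ ∀ {G V U : Type} [AddCommGroup G] [Fintype G]
  [AddCommGroup V] [Module (ZMod p) V] [Finite V] [AddCommGroup U] [Module (ZMod p) U] [Finite U]
  (φ : G → Bil p V U), ∃ φ' : G → Bil p V U,
    𝔼 x, 𝔼 y, rk (df φ' x y) ≤ (𝔼 x, 𝔼 y, rk (df φ x y)) / 2 ∧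
    𝔼 x, rk (φ x - φ' x) ≤ C * 𝔼 x, 𝔼 y, rk (df φ x y)

def St_HALF : Prop := ∀ (p : ℕ) [Fact p.Prime], RA p → RB p → Glob p → Str p → Coc p → Loc p →
  Half p

/-- Linear stability of approximate homomorphisms into bilinear forms. -/
def A2 (p : ℕ) : Prop := ∃ C : ℝ, 0 ≤ C ∧ ∀ {G V U : Type} [AddCommGroup G] [Fintype G]
  [AddCommGroup V] [Module (ZMod p) V] [Finite V] [AddCommGroup U] [Module (ZMod p) U] [Finite U]
  (φ : G → Bil p V U), ∃ T : G →+ Bil p V U,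
    𝔼 x, rk (φ x - T x) ≤ C * 𝔼 x, 𝔼 y, rk (df φ x y)

def St_A2 : Prop := ∀ (p : ℕ) [Fact p.Prime], RA p → Half p → A2 p

/-- The ninety-percent version. -/
def Blr (p : ℕ) : Prop := ∃ C : ℝ, 0 ≤ C ∧ ∀ {G V U : Type} [AddCommGroup G] [Fintype G]
  [AddCommGroup V] [Module (ZMod p) V] [Finite V] [AddCommGroup U] [Module (ZMod p) U] [Finite U]
  (φ : G → Bil p V U) (R : ℝ), 0 < R → 𝔼 x, 𝔼 y, ind (R < rk (df φ x y)) ≤ 1 / 10 →
  ∃ T : G →+ Bil p V U, 𝔼 x, ind (C * R < rk (φ x - T x)) ≤ 1 / 2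

def St_BLR : Prop := ∀ (p : ℕ) [Fact p.Prime], RA p → A2 p → Blr p

/-- Gowers-Cauchy-Schwarz on a graph. -/
def Gcs : Prop := ∀ {G W : Type} [AddCommGroup G] [Fintype G] [AddCommGroup W] (g : G → W)
  (B : Set G), (𝔼 x, 𝔼 y, 𝔼 t, ind (x ∈ B ∧ dq g x y t = 0)) ^ 4 ≤
    𝔼 x, 𝔼 y, 𝔼 t, in4 B x y t * ind (dq g x y t = 0)

def St_GCS : Prop := Gcs

/-- Few affine maps explain almost all respected quadruples. -/
def Lab (p : ℕ) [Fact p.Prime] : Prop := ∃ C : ℕ, ∀ {G W : Type} [AddCommGroup G] [Fintype G]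
  [Module (ZMod p) G] [AddCommGroup W] [Finite W] [Module (ZMod p) W] (g : G → W) (γ : ℝ),
  0 < γ → γ ≤ 1 → ∃ (lab : G → (G →ₗ[ZMod p] W) × W) (s : Finset ((G →ₗ[ZMod p] W) × W)),
    (∀ x, lab x ∈ s) ∧ (s.card : ℝ) ≤ (2 / γ) ^ C ∧
    𝔼 x, 𝔼 y, 𝔼 t, ind (g x ≠ (lab x).1 x + (lab x).2 ∧ dq g x y t = 0) ≤ γ

def St_LAB : Prop := ∀ (p : ℕ) [Fact p.Prime], RM1 p → Gcs → Lab p

/-- Small atoms carry little mass. -/
def Atom : Prop := ∀ {G Λ : Type} [Fintype G] [Nonempty G] (lab : G → Λ) (s : Finset Λ)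
  (S : Set G) (β : ℝ), 0 ≤ β → (∀ x, lab x ∈ s) →
  𝔼 x, ind (x ∈ S ∧ 𝔼 y, ind (y ∈ S ∧ lab y = lab x) < β) ≤ s.card * β

/-- Counting lemmas for linear maps. -/
structure LinA (p : ℕ) : Prop where
  bb_eq : ∀ {V U : Type} [AddCommGroup V] [Module (ZMod p) V] [Fintype V] [AddCommGroup U]
    [Module (ZMod p) U] [Finite U] (M : Bil p V U), bb M = (p : ℝ) ^ (-rk M)
  aff : ∀ {V U : Type} [AddCommGroup V] [Module (ZMod p) V] [Fintype V] [AddCommGroup U]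
    [Module (ZMod p) U] [Finite U] (M : Bil p V U) (c : U →ₗ[ZMod p] ZMod p),
    𝔼 v, ind (M v + c = 0) ≤ (p : ℝ) ^ (-rk M)
  coll : ∀ {V U : Type} [AddCommGroup V] [Module (ZMod p) V] [Fintype V] [AddCommGroup U]
    [Module (ZMod p) U] [Finite U] (M : Bil p V U) (S : Set V),
    (𝔼 v, ind (v ∈ S)) ^ 2 * (p : ℝ) ^ (-rk M) ≤ 𝔼 v, 𝔼 v', ind (v ∈ S ∧ v' ∈ S ∧ M v = M v')
  sub_avg : ∀ {V : Type} [AddCommGroup V] [Module (ZMod p) V] [Fintype V]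
    (K : Submodule (ZMod p) V) [Fintype K] (F : V → ℝ),
    𝔼 v, ind (v ∈ K) * F v = (𝔼 v, ind (v ∈ K)) * 𝔼 v : K, F v

def St_LIN : Prop := Atom ∧ ∀ (p : ℕ) [Fact p.Prime], LinA p

/-- A subspace on which the chosen affine maps are almost always jointly valid. -/
def Sample (p : ℕ) [Fact p.Prime] : Prop := ∃ C : ℕ, ∀ {G V U : Type} [AddCommGroup G] [Fintype G]
  [Module (ZMod p) G] [AddCommGroup V] [Module (ZMod p) V] [Fintype V] [AddCommGroup U]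
  [Module (ZMod p) U] [Finite U] (φ : G → Bil p V U) (A : Set G) (ε : ℝ), 0 < ε →
  ε ≤ 𝔼 x, 𝔼 y, 𝔼 t, in4 A x y t * bb (dq φ x y t) →
  ∃ (K : Submodule (ZMod p) V) (l : V → Bil p G U) (c : V → U →ₗ[ZMod p] ZMod p),
    ε / 2 ≤ 𝔼 v, ind (v ∈ K) ∧
    𝔼 v, 𝔼 v', ind (v ∈ K ∧ v' ∈ K ∧ 𝔼 x, ind (x ∈ A ∧ φ x v = l v x + c v ∧
      φ x v' = l v' x + c v' ∧ φ x (v + v') = l (v + v') x + c (v + v')) < (ε / 2) ^ C) ≤
      (𝔼 v, ind (v ∈ K)) ^ 2 / 10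

def St_SAMPLE : Prop := ∀ (p : ℕ) [Fact p.Prime], Atom → Lab p → Sample p

/-- Maps into bilinear forms that respect many quadruples up to low rank. -/
def RM2 (p : ℕ) [Fact p.Prime] : Prop := ∃ C : ℕ, ∀ {G V U : Type} [AddCommGroup G] [Fintype G]
  [Module (ZMod p) G] [AddCommGroup V] [Module (ZMod p) V] [Fintype V] [AddCommGroup U]
  [Module (ZMod p) U] [Finite U] (φ : G → Bil p V U) (A : Set G) (ε : ℝ), 0 < ε →
  ε ≤ 𝔼 x, 𝔼 y, 𝔼 t, in4 A x y t * bb (dq φ x y t) →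
  ∃ (T : G →ₗ[ZMod p] Bil p V U) (B0 : Bil p V U),
    (ε / 2) ^ C ≤ 𝔼 x, ind (x ∈ A) * bb (φ x - T x - B0)

def St_RM2 : Prop := ∀ (p : ℕ) [Fact p.Prime], LinA p → Blr p → Sample p → RM2 p

end Pool.Agent.Lib.U4
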