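import Pool.Agent.Lib.U4.Ent

/-!
Blueprint, part E/P: entropy library and the polynomial Freiman-Ruzsa theorem in odd
characteristic (Gowers-Green-Manners-Tao), in entropy form.  Proofs: `/team-store/u4_PLAN.md`.
-/

noncomputable section

open Finset
open scoped BigOperators

namespace Pool.Agent.Lib.U4

open _root_.Pool.Agent.Lib.U4.FP

/-- Block E1. -/
structure ApiA : Prop where
  H_nonneg : ∀ {Ω α : Type} [Fintype Ω] (P : FP Ω) (X : Ω → α), 0 ≤ P.H X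
  H_mono : ∀ {Ω α β : Type} [Fintype Ω] (P : FP Ω) (X : Ω → α) (Y : Ω → β),
    (∀ a b, 0 < P.w a → 0 < P.w b → X a = X b → Y a = Y b) → P.H Y ≤ P.H X
  H_congr : ∀ {Ω α β : Type} [Fintype Ω] (P : FP Ω) (X : Ω → α) (Y : Ω → β),
    (∀ a b, 0 < P.w a → 0 < P.w b → (X a = X b ↔ Y a = Y b)) → P.H X = P.H Y
  H_sub : ∀ {Ω α β γ δ : Type} [Fintype Ω] (P : FP Ω) (X : Ω → α) (Y : Ω → β) (K : Ω → γ)
    (J : Ω → δ), (∀ a b, 0 < P.w a → 0 < P.w b → X a = X b → K a = K b) →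
    (∀ a b, 0 < P.w a → 0 < P.w b → Y a = Y b → K a = K b) →
    (∀ a b, 0 < P.w a → 0 < P.w b → X a = X b → Y a = Y b → J a = J b) →
    P.H J + P.H K ≤ P.H X + P.H Y
  H_const : ∀ {Ω α : Type} [Fintype Ω] (P : FP Ω) (c : α), P.H (fun _ => c) = 0
  H_pair_le : ∀ {Ω α β : Type} [Fintype Ω] (P : FP Ω) (X : Ω → α) (Y : Ω → β),
    P.H (fun a => (X a, Y a)) ≤ P.H X + P.H Y
  H_le_card : ∀ {Ω α : Type} [Fintype Ω] (P : FP Ω) (X : Ω → α) (s : Finset α),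
    (∀ a, 0 < P.w a → X a ∈ s) → P.H X ≤ Real.log s.card
  H_unif : ∀ {Ω α : Type} [Fintype Ω] (s : Finset Ω) (hs : s.Nonempty) (X : Ω → α),
    (∀ a ∈ s, ∀ b ∈ s, X a = X b → a = b) → (unifOn s hs).H X = Real.log s.card

/-- Block E2. -/
structure ApiB : Prop where
  E_map : ∀ {Ω α : Type} [Fintype Ω] [Fintype α] (P : FP Ω) (X : Ω → α) (f : α → ℝ),
    (P.map X).E f = P.E fun a => f (X a)
  H_map : ∀ {Ω α β : Type} [Fintype Ω] [Fintype α] (P : FP Ω) (X : Ω → α) (f : α → β),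
    (P.map X).H f = P.H fun a => f (X a)
  ent_map : ∀ {Ω α : Type} [Fintype Ω] [Fintype α] (P : FP Ω) (X : Ω → α),
    (P.map X).ent = P.H X
  map_map : ∀ {Ω α β : Type} [Fintype Ω] [Fintype α] [Fintype β] (P : FP Ω) (X : Ω → α)
    (f : α → β), (P.map X).map f = P.map fun a => f (X a)
  map_id : ∀ {Ω : Type} [Fintype Ω] (P : FP Ω), (P.map fun a => a) = P
  map_congr : ∀ {Ω α : Type} [Fintype Ω] [Fintype α] (P : FP Ω) (X Y : Ω → α),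
    (∀ a, 0 < P.w a → X a = Y a) → P.map X = P.map Y
  map_supp : ∀ {Ω α : Type} [Fintype Ω] [Fintype α] (P : FP Ω) (X : Ω → α) (x : α),
    0 < (P.map X).w x ↔ ∃ a, 0 < P.w a ∧ X a = x
  pr_pos : ∀ {Ω α : Type} [Fintype Ω] (P : FP Ω) (X : Ω → α) (a : Ω),
    0 < P.w a → 0 < P.pr X (X a)
  cond_supp : ∀ {Ω α : Type} [Fintype Ω] (P : FP Ω) (Y : Ω → α) (a b : Ω),
    0 < P.w a → (0 < (P.cond Y (Y a)).w b ↔ 0 < P.w b ∧ Y b = Y a)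
  chain : ∀ {Ω α β : Type} [Fintype Ω] (P : FP Ω) (X : Ω → α) (Y : Ω → β),
    P.cH X Y = P.E fun a => (P.cond Y (Y a)).H X
  tower : ∀ {Ω β : Type} [Fintype Ω] (P : FP Ω) (Y : Ω → β) (F : β → Ω → ℝ),
    (P.E fun a => (P.cond Y (Y a)).E (F (Y a))) = P.E fun a => F (Y a) a
  E_mono : ∀ {Ω : Type} [Fintype Ω] (P : FP Ω) (f g : Ω → ℝ),
    (∀ a, 0 < P.w a → f a ≤ g a) → P.E f ≤ P.E g
  E_congr : ∀ {Ω : Type} [Fintype Ω] (P : FP Ω) (f g : Ω → ℝ),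
    (∀ a, 0 < P.w a → f a = g a) → P.E f = P.E g
  E_const : ∀ {Ω : Type} [Fintype Ω] (P : FP Ω) (c : ℝ), (P.E fun _ => c) = c
  E_add : ∀ {Ω : Type} [Fintype Ω] (P : FP Ω) (f g : Ω → ℝ),
    (P.E fun a => f a + g a) = P.E f + P.E g
  E_sub : ∀ {Ω : Type} [Fintype Ω] (P : FP Ω) (f g : Ω → ℝ),
    (P.E fun a => f a - g a) = P.E f - P.E g
  E_smul : ∀ {Ω : Type} [Fintype Ω] (P : FP Ω) (c : ℝ) (f : Ω → ℝ),
    (P.E fun a => c * f a) = c * P.E f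
  E_sum : ∀ {Ω ι : Type} [Fintype Ω] (P : FP Ω) (s : Finset ι) (f : ι → Ω → ℝ),
    (P.E fun a => ∑ i ∈ s, f i a) = ∑ i ∈ s, P.E (f i)
  exists_le_E : ∀ {Ω : Type} [Fintype Ω] (P : FP Ω) (f : Ω → ℝ), ∃ a, 0 < P.w a ∧ f a ≤ P.E f
  ent_eq : ∀ {Ω : Type} [Fintype Ω] (μ : FP Ω), μ.ent = ∑ a, Real.negMulLog (μ.w a)

/-- Block E3. -/
structure ApiC : Prop where
  prod_map : ∀ {Ω Ω' α β : Type} [Fintype Ω] [Fintype Ω'] [Fintype α] [Fintype β] (P : FP Ω)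
    (Q : FP Ω') (X : Ω → α) (Y : Ω' → β),
    ((P.prod Q).map fun z => (X z.1, Y z.2)) = (P.map X).prod (Q.map Y)
  prod_fst : ∀ {Ω Ω' : Type} [Fintype Ω] [Fintype Ω'] (P : FP Ω) (Q : FP Ω'),
    ((P.prod Q).map fun z => z.1) = P
  prod_snd : ∀ {Ω Ω' : Type} [Fintype Ω] [Fintype Ω'] (P : FP Ω) (Q : FP Ω'),
    ((P.prod Q).map fun z => z.2) = Q
  prod_swap : ∀ {Ω Ω' : Type} [Fintype Ω] [Fintype Ω'] (P : FP Ω) (Q : FP Ω'),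
    ((P.prod Q).map fun z => (z.2, z.1)) = Q.prod P
  prod_assoc : ∀ {Ω Ω' Ω'' : Type} [Fintype Ω] [Fintype Ω'] [Fintype Ω''] (P : FP Ω) (Q : FP Ω')
    (R : FP Ω''), (((P.prod Q).prod R).map fun z => (z.1.1, z.1.2, z.2)) = P.prod (Q.prod R)
  H_fst : ∀ {Ω Ω' α : Type} [Fintype Ω] [Fintype Ω'] (P : FP Ω) (Q : FP Ω') (X : Ω → α),
    ((P.prod Q).H fun z => X z.1) = P.H X
  H_snd : ∀ {Ω Ω' α : Type} [Fintype Ω] [Fintype Ω'] (P : FP Ω) (Q : FP Ω') (Y : Ω' → α),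
    ((P.prod Q).H fun z => Y z.2) = Q.H Y
  H_prod : ∀ {Ω Ω' α β : Type} [Fintype Ω] [Fintype Ω'] (P : FP Ω) (Q : FP Ω') (X : Ω → α)
    (Y : Ω' → β), ((P.prod Q).H fun z => (X z.1, Y z.2)) = P.H X + Q.H Y
  E_prod : ∀ {Ω Ω' : Type} [Fintype Ω] [Fintype Ω'] (P : FP Ω) (Q : FP Ω') (f : Ω × Ω' → ℝ),
    (P.prod Q).E f = P.E fun a => Q.E fun b => f (a, b)
  mul_eq : ∀ {Γ : Type} [AddCommGroup Γ] [Fintype Γ] (μ ν : FP Γ),
    μ * ν = (μ.prod ν).map fun z => z.1 + z.2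
  prod_add : ∀ {Ω Ω' Γ : Type} [Fintype Ω] [Fintype Ω'] [AddCommGroup Γ] [Fintype Γ] (P : FP Ω)
    (Q : FP Ω') (X : Ω → Γ) (Y : Ω' → Γ),
    ((P.prod Q).map fun z => X z.1 + Y z.2) = P.map X * Q.map Y
  map_mul : ∀ {Γ Γ' : Type} [AddCommGroup Γ] [Fintype Γ] [AddCommGroup Γ'] [Fintype Γ']
    (f : Γ →+ Γ') (μ ν : FP Γ), (μ * ν).map f = μ.map f * ν.map f
  ent_one : ∀ {Γ : Type} [AddCommGroup Γ] [Fintype Γ], (1 : FP Γ).ent = 0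
  map_zero : ∀ {Ω Γ : Type} [Fintype Ω] [AddCommGroup Γ] [Fintype Γ] (P : FP Ω),
    (P.map fun _ => (0 : Γ)) = 1
  ent_ng : ∀ {Γ : Type} [AddCommGroup Γ] [Fintype Γ] (μ : FP Γ), μ.ng.ent = μ.ent

/-- Block E4. -/
structure ApiD : Prop where
  pi_supp : ∀ {Ω ι : Type} [Fintype Ω] [Fintype ι] [DecidableEq ι] (P : ι → FP Ω) (x : ι → Ω),
    0 < (FP.pi P).w x ↔ ∀ i, 0 < (P i).w (x i)
  pi_map : ∀ {Ω α ι : Type} [Fintype Ω] [Fintype α] [Fintype ι] [DecidableEq ι] (P : ι → FP Ω)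
    (X : ι → Ω → α), ((FP.pi P).map fun x i => X i (x i)) = FP.pi fun i => (P i).map (X i)
  pi_eval : ∀ {Ω ι : Type} [Fintype Ω] [Fintype ι] [DecidableEq ι] (P : ι → FP Ω) (i : ι),
    ((FP.pi P).map fun x => x i) = P i
  H_pi : ∀ {Ω α ι : Type} [Fintype Ω] [Fintype ι] [DecidableEq ι] (P : ι → FP Ω)
    (X : ι → Ω → α), ((FP.pi P).H fun x i => X i (x i)) = ∑ i, (P i).H (X i)
  pi_sum : ∀ {Ω Γ ι : Type} [Fintype Ω] [AddCommGroup Γ] [Fintype Γ] [Fintype ι] [DecidableEq ι]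
    (P : ι → FP Ω) (X : ι → Ω → Γ) (s : Finset ι),
    ((FP.pi P).map fun x => ∑ i ∈ s, X i (x i)) = ∏ i ∈ s, (P i).map (X i)
  pi_equiv : ∀ {Ω ι κ : Type} [Fintype Ω] [Fintype ι] [DecidableEq ι] [Fintype κ] [DecidableEq κ]
    (P : ι → FP Ω) (e : κ ≃ ι), ((FP.pi P).map fun x k => x (e k)) = FP.pi fun k => P (e k)
  pi_curry : ∀ {Ω ι κ : Type} [Fintype Ω] [Fintype ι] [DecidableEq ι] [Fintype κ] [DecidableEq κ]
    (P : ι × κ → FP Ω),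
    ((FP.pi P).map fun x a b => x (a, b)) = FP.pi fun a => FP.pi fun b => P (a, b)
  pi_curry' : ∀ {Ω ι κ : Type} [Fintype Ω] [Fintype ι] [DecidableEq ι] [Fintype κ] [DecidableEq κ]
    (P : ι × κ → FP Ω),
    ((FP.pi P).map fun x b a => x (a, b)) = FP.pi fun b => FP.pi fun a => P (a, b)

/-- Block E5. -/
structure ApiE : Prop where
  split_H : ∀ {Ω α β ι : Type} [Fintype Ω] [Fintype ι] [DecidableEq ι] (P : ι → FP Ω)
    (s : Finset ι) (X : (ι → Ω) → α) (Y : (ι → Ω) → β),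
    (∀ x y, (∀ i ∈ s, x i = y i) → X x = X y) → (∀ x y, (∀ i ∉ s, x i = y i) → Y x = Y y) →
    ((FP.pi P).H fun x => (X x, Y x)) = (FP.pi P).H X + (FP.pi P).H Y
  split_map : ∀ {Ω α β ι : Type} [Fintype Ω] [Fintype α] [Fintype β] [Fintype ι] [DecidableEq ι]
    (P : ι → FP Ω) (s : Finset ι) (X : (ι → Ω) → α) (Y : (ι → Ω) → β),
    (∀ x y, (∀ i ∈ s, x i = y i) → X x = X y) → (∀ x y, (∀ i ∉ s, x i = y i) → Y x = Y y) →
    ((FP.pi P).map fun x => (X x, Y x)) = ((FP.pi P).map X).prod ((FP.pi P).map Y)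
  pi_cond : ∀ {Ω β ι : Type} [Fintype Ω] [Fintype ι] [DecidableEq ι] (P : ι → FP Ω)
    (Y : ι → Ω → β) (x : ι → Ω), 0 < (FP.pi P).w x →
    (FP.pi P).cond (fun z i => Y i (z i)) (fun i => Y i (x i)) =
      FP.pi fun i => (P i).cond (Y i) (Y i (x i))
  eq_case : ∀ {Γ : Type} [AddCommGroup Γ] [Fintype Γ] (μ ν : FP Γ), (μ * ν).ent ≤ μ.ent →
    ∀ y, 0 < ν.w y → ∀ z, μ.w (z - y) = (μ * ν).w z

/-- The whole entropy library. -/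
structure Api : Prop extends ApiA, ApiB, ApiC, ApiD, ApiE

def St_E1 : Prop := ApiA
def St_E2 : Prop := ApiB
def St_E3 : Prop := ApiB → ApiC
def St_E4 : Prop := ApiB → ApiC → ApiD
def St_E5 : Prop := ApiB → ApiC → ApiD → ApiE

/-- Sumset calculus for laws. -/
structure Sums : Prop where
  le_mul : ∀ {Γ : Type} [AddCommGroup Γ] [Fintype Γ] (μ ν : FP Γ), μ.ent ≤ (μ * ν).ent
  kv : ∀ {Γ : Type} [AddCommGroup Γ] [Fintype Γ] (μ ν ξ : FP Γ),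
    (μ * ν * ξ).ent + μ.ent ≤ (μ * ν).ent + (μ * ξ).ent
  kv_prod : ∀ {Γ ι : Type} [AddCommGroup Γ] [Fintype Γ] (μ : FP Γ) (s : Finset ι) (ν : ι → FP Γ),
    (μ * ∏ i ∈ s, ν i).ent - μ.ent ≤ ∑ i ∈ s, ((μ * ν i).ent - μ.ent)
  kv_pow : ∀ {Γ : Type} [AddCommGroup Γ] [Fintype Γ] (μ : FP Γ) (n : ℕ),
    (μ ^ (n + 1)).ent - μ.ent ≤ n * ((μ * μ).ent - μ.ent)
  ruzsa : ∀ {Γ : Type} [AddCommGroup Γ] [Fintype Γ] (μ ν : FP Γ),
    (μ * μ.ng).ent + ν.ent ≤ 2 * (μ * ν).ent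
  step : ∀ {Γ : Type} [AddCommGroup Γ] [Fintype Γ] (μ ν : FP Γ) (a : ℕ),
    (μ * ν.map fun y => (a + 1) • y).ent + μ.ent ≤
      (μ * ν.map fun y => a • y).ent + (μ * ν * μ.ng).ent
  rho_mul : ∀ {Γ : Type} [AddCommGroup Γ] [Fintype Γ] (μ0 μ ν : FP Γ),
    rho μ0 (μ * ν) ≤ rho μ0 μ + ((μ * ν).ent - μ.ent) / 2
  rho_nonneg : ∀ {Γ : Type} [AddCommGroup Γ] [Fintype Γ] (μ0 μ : FP Γ), 0 ≤ rho μ0 μ

def St_SUMS : Prop := Api → Sums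

/-- Average of `rho` over conditionings. -/
def RhoCond : Prop := ∀ {Ω β Γ : Type} [Fintype Ω] [AddCommGroup Γ] [Fintype Γ] (μ0 : FP Γ)
  (P : FP Ω) (X : Ω → Γ) (Y : Ω → β),
  (P.E fun a => rho μ0 ((P.cond Y (Y a)).map X)) ≤ rho μ0 (P.map X) + P.I X Y / 2

def St_RHO : Prop := Api → RhoCond

/-- A minimiser of `tau` exists. -/
def MinEx : Prop := ∀ {Γ ι : Type} [AddCommGroup Γ] [Fintype Γ] [Fintype ι] (η : ℝ) (μ0 : FP Γ),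
  ∃ μ : ι → FP Γ, IsMin η μ0 μ

def St_MIN : Prop := Api → MinEx

/-- Conditional minimality. -/
def MinC : Prop := ∀ {Γ ι Ω β : Type} [AddCommGroup Γ] [Fintype Γ] [Fintype ι] [DecidableEq ι]
  [Fintype Ω] (η : ℝ) (μ0 : FP Γ) (μ : ι → FP Γ), 0 ≤ η → IsMin η μ0 μ →
  ∀ (P : ι → FP Ω) (X : ι → Ω → Γ) (Y : ι → Ω → β),
    tau η μ0 μ ≤ (FP.pi P).cH (fun x => ∑ i, X i (x i)) (fun x i => Y i (x i)) -
      (∑ i, (P i).cH (X i) (Y i)) / Fintype.card ι +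
      η * ∑ i, (rho μ0 ((P i).map (X i)) + (P i).I (X i) (Y i) / 2)

def St_MINC : Prop := Api → RhoCond → MinC

/-- Chain inequality along suffix sums. -/
def Chain : Prop := ∀ {M Γ : Type} [AddCommGroup M] [Fintype M] (n : ℕ) (Λ : Fin n → FP M)
  (σ : M → Γ),
  ∑ b : Fin n, (FP.pi Λ).cH (fun ξ => σ (ξ b)) (fun ξ => ∑ b' ∈ Ici b, ξ b') ≤
    (FP.pi Λ).cH (fun ξ b => σ (ξ b)) (fun ξ => ∑ b, ξ b)

def St_CHAIN : Prop := Api → Chain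

/-- One column conditioned on a suffix of row sums. -/
def ColBound : Prop := ∀ {Γ ι : Type} [AddCommGroup Γ] [Fintype Γ] [Fintype ι] [DecidableEq ι]
  [Nonempty ι] (η : ℝ) (μ0 : FP Γ) (μ : ι → FP Γ), 0 ≤ η → IsMin η μ0 μ →
  ∀ (n : ℕ) (ν : ι × Fin n → FP Γ) (b : Fin n), (∃ σ : Equiv.Perm ι, ∀ a, ν (a, b) = μ (σ a)) →
    (∏ i, μ i).ent - (1 / Fintype.card ι + η / 2) *
        ∑ a, ((∏ b' ∈ Ici b, ν (a, b')).ent - (∏ b' ∈ Ioi b, ν (a, b')).ent) ≤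
      (FP.pi ν).cH (fun y => ∑ a, y (a, b)) (fun y a => ∑ b' ∈ Ici b, y (a, b'))

def St_COL : Prop := Api → MinC → ColBound

/-- Bound on the mutual information between column sums and row sums. -/
def MutBound : Prop := ∀ {Γ ι : Type} [AddCommGroup Γ] [Fintype Γ] [Fintype ι] [DecidableEq ι]
  [Nonempty ι] (η : ℝ) (μ0 : FP Γ) (μ : ι → FP Γ), 0 ≤ η → IsMin η μ0 μ →
  ∀ (n : ℕ) (ν : ι × Fin (n + 1) → FP Γ), (∀ b, ∃ σ : Equiv.Perm ι, ∀ a, ν (a, b) = μ (σ a)) →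
    (FP.pi ν).cI (fun y b => ∑ a, y (a, b)) (fun y a => ∑ b, y (a, b)) (fun y => ∑ t, y t) ≤
      η * (∑ a, (∏ b, ν (a, b)).ent - ∑ i, (μ i).ent)

def St_MUT : Prop := Api → Sums → Chain → ColBound → MutBound

/-- Entropic Balog-Szemeredi-Gowers. -/
def BSG : Prop := ∀ {Ω Γ : Type} [Fintype Ω] [AddCommGroup Γ] [Fintype Γ] (P : FP Ω)
  (A B : Ω → Γ),
  (P.E fun a => ((P.cond (fun x => A x + B x) (A a + B a)).map A *
      (P.cond (fun x => A x + B x) (A a + B a)).map A).ent -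
      ((P.cond (fun x => A x + B x) (A a + B a)).map A).ent) ≤
    3 * P.I A B + 2 * P.H (fun x => A x + B x) - P.H A - P.H B

def St_BSG : Prop := Api → BSG

/-- Endgame inequality. -/
def EndG : Prop := ∀ {Γ ι Ω β : Type} [AddCommGroup Γ] [Fintype Γ] [Fintype ι] [Nonempty ι]
  [Fintype Ω] (η : ℝ) (μ0 : FP Γ) (μ : ι → FP Γ), 0 ≤ η → IsMin η μ0 μ →
  ∀ (P : FP Ω) (T1 T2 : Ω → Γ) (W : Ω → β),
    tau η μ0 μ ≤ ((Fintype.card ι : ℝ) - 1) * (P.cI T1 T2 W + P.cI T1 (fun a => T1 a + T2 a) W +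
        P.cI T2 (fun a => T1 a + T2 a) W) +
      η * Fintype.card ι * (rho μ0 (P.map T2) + P.I T2 W / 2 +
        P.cI T2 (fun a => T1 a + T2 a) W / 2)

def St_ENDG : Prop := Api → Sums → RhoCond → BSG → EndG

/-- Law-level bounds for `Q = ∑ X_i` and `Z = ∑ j Q_j`. -/
def LawB : Prop := ∀ (p : ℕ) [Fact p.Prime] {Γ : Type} [AddCommGroup Γ] [Fintype Γ]
  [Module (ZMod p) Γ] (μ0 : FP Γ) (μ : ZMod p → FP Γ),
  0 ≤ mD μ ∧
  ((∏ i, μ i) ^ p).ent - (∏ i, μ i).ent ≤ p ^ 2 * mD μ ∧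
  p * rho μ0 (∏ j : ZMod p, (∏ i, μ i).map fun x => j • x) ≤
    ∑ i, rho μ0 (μ i) + p * (3 * p ^ 3 + 1) * mD μ / 2

def St_LAWB : Prop := Api → Sums → LawB

/-- The array `Y (i,j)` with law `μ (i - j)`. -/
def arr {p : ℕ} [Fact p.Prime] {Γ : Type} [Fintype Γ] (μ : ZMod p → FP Γ) :
    FP (ZMod p × ZMod p → Γ) := FP.pi fun t => μ (t.1 - t.2)

/-- Laws of `Z₂` and `W`, and their mutual information. -/
def ArrLaw : Prop := ∀ (p : ℕ) [Fact p.Prime] {Γ : Type} [AddCommGroup Γ] [Fintype Γ]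
  [Module (ZMod p) Γ] (μ : ZMod p → FP Γ),
  ((arr μ).map fun y => ∑ t, t.2 • y t) = ∏ j : ZMod p, (∏ i, μ i).map (fun x => j • x) ∧
  (arr μ).I (fun y => ∑ t, t.2 • y t) (fun y => ∑ t, y t) ≤
    ((∏ i, μ i) ^ p).ent - (∏ i, μ i).ent

def St_ARRL : Prop := Api → ArrLaw

/-- The three conditional mutual informations. -/
def ArrMut : Prop := ∀ (p : ℕ) [Fact p.Prime], p ≠ 2 → ∀ {Γ : Type} [AddCommGroup Γ] [Fintype Γ]
  [Module (ZMod p) Γ] (η : ℝ) (μ0 : FP Γ) (μ : ZMod p → FP Γ), 0 ≤ η → IsMin η μ0 μ →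
  (arr μ).cI (fun y => ∑ t, t.1 • y t) (fun y => ∑ t, t.2 • y t) (fun y => ∑ t, y t) ≤
      η * (p * mD μ) ∧
  (arr μ).cI (fun y => ∑ t, t.1 • y t) (fun y => ∑ t, t.1 • y t + ∑ t, t.2 • y t)
      (fun y => ∑ t, y t) ≤ η * (p * mD μ) ∧
  (arr μ).cI (fun y => ∑ t, t.2 • y t) (fun y => ∑ t, t.1 • y t + ∑ t, t.2 • y t)
      (fun y => ∑ t, y t) ≤ η * (p * mD μ)

def St_ARRM : Prop := Api → MutBound → ArrMut

/-- A minimiser has multidistance zero. -/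
def KZero : Prop := ∀ (p : ℕ) [Fact p.Prime], p ≠ 2 → ∀ {Γ : Type} [AddCommGroup Γ] [Fintype Γ]
  [Module (ZMod p) Γ] (μ0 : FP Γ) (μ : ZMod p → FP Γ), IsMin (1 / (8 * p ^ 4)) μ0 μ → mD μ ≤ 0

def St_KZERO : Prop := EndG → LawB → ArrLaw → ArrMut → KZero

/-- The case of multidistance zero. -/
def ZeroCase : Prop := ∀ (p : ℕ) [Fact p.Prime] {Γ : Type} [AddCommGroup Γ] [Fintype Γ]
  [Module (ZMod p) Γ] (μ0 : FP Γ) (μ : ZMod p → FP Γ), mD μ ≤ 0 → ∀ i,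
  ∃ K : Submodule (ZMod p) Γ, μ0.H K.mkQ ≤ 2 * rho μ0 (μ i) ∧
    Real.log (Nat.card K) ≤ μ0.ent + 2 * rho μ0 (μ i)

def St_ZERO : Prop := Api → Sums → ZeroCase

/-- Entropic polynomial Freiman-Ruzsa theorem over `F_p`. -/
def PFR (p : ℕ) [Fact p.Prime] : Prop := ∃ C : ℝ, 0 ≤ C ∧ ∀ {Γ : Type} [AddCommGroup Γ] [Fintype Γ]
  [Module (ZMod p) Γ] (μ0 : FP Γ), ∃ K : Submodule (ZMod p) Γ,
    μ0.H K.mkQ ≤ C * ((μ0 * μ0).ent - μ0.ent) ∧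
    Real.log (Nat.card K) ≤ μ0.ent + C * ((μ0 * μ0).ent - μ0.ent)

def St_PFR : Prop := Sums → MinEx → KZero → ZeroCase →
  ∀ (p : ℕ) [Fact p.Prime], p ≠ 2 → PFR p

open Classical in
/-- Indicator of a proposition. -/
def ind (P : Prop) : ℝ := if P then 1 else 0

/-- Indicator that the four points `x, x+t, y, y+t` lie in `A`. -/
def in4 {G : Type} [AddCommGroup G] (A : Set G) (x y t : G) : ℝ :=
  ind (x ∈ A ∧ x + t ∈ A ∧ y ∈ A ∧ y + t ∈ A)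

/-- The defect of `φ` on the additive quadruple `x, x+t, y, y+t`. -/
def dq {G W : Type} [AddCommGroup G] [AddCommGroup W] (φ : G → W) (x y t : G) : W :=
  φ x - φ (x + t) - φ y + φ (y + t)

/-- A large piece of the graph in a coset of a small subspace. -/
def Coset (p : ℕ) [Fact p.Prime] : Prop := ∃ C : ℕ, ∀ {G W : Type} [AddCommGroup G] [Fintype G]
  [Module (ZMod p) G] [AddCommGroup W] [Finite W] [Module (ZMod p) W] (φ : G → W) (A : Set G)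
  (ε : ℝ), 0 < ε → ε ≤ 𝔼 x, 𝔼 y, 𝔼 t, in4 A x y t * ind (dq φ x y t = 0) →
  ∃ (K : Submodule (ZMod p) (G × W)) (c : G × W),
    (ε / 2) ^ C ≤ 𝔼 x, ind (x ∈ A ∧ (x, φ x) - c ∈ K) ∧
    (ε / 2) ^ C * Nat.card K ≤ Fintype.card G

def St_COSET : Prop := Api → BSG → ∀ (p : ℕ) [Fact p.Prime], PFR p → Coset p

/-- A map respecting many additive quadruples agrees with an affine map on a large set. -/
def RM1 (p : ℕ) [Fact p.Prime] : Prop := ∃ C : ℕ, ∀ {G W : Type} [AddCommGroup G] [Fintype G]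
  [Module (ZMod p) G] [AddCommGroup W] [Finite W] [Module (ZMod p) W] (φ : G → W) (A : Set G)
  (ε : ℝ), 0 < ε → ε ≤ 𝔼 x, 𝔼 y, 𝔼 t, in4 A x y t * ind (dq φ x y t = 0) →
  ∃ (L : G →ₗ[ZMod p] W) (c : W), (ε / 2) ^ C ≤ 𝔼 x, ind (x ∈ A ∧ φ x = L x + c)

def St_RM1 : Prop := ∀ (p : ℕ) [Fact p.Prime], Coset p → RM1 p

end Pool.Agent.Lib.U4
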