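import Pool.Agent.Lib.U4.BlueA
import Pool.Agent.Lib.MP_3a84e0_co.Main

/-!
Blueprint, part U: from the structure of approximate homomorphisms into multilinear forms to
the inverse theorem for Gowers norms.  Proofs: `/team-store/u4_PLAN.md`.
-/

noncomputable section

open Finset
open scoped BigOperators ComplexConjugate

namespace Pool.Agent.Lib.U4

open Pool.Agent.Lib.MP_3a84e0_co

/-- `d`-linear forms on `V`. -/
abbrev Ml (p d : ℕ) (V : Type) [AddCommGroup V] [Module (ZMod p) V] : Type :=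
  MultilinearMap (ZMod p) (fun _ : Fin d => V) (ZMod p)

section defs

variable {p d : ℕ} [Fact p.Prime] {V : Type} [AddCommGroup V] [Module (ZMod p) V]

/-- The bias of a multilinear form. -/
def bias [Fintype V] (M : Ml p d V) : ℝ := ‖𝔼 h : Fin d → V, ec (M h)‖

/-- Symmetric multilinear forms. -/
def IsSym (M : Ml p d V) : Prop :=
  ∀ (σ : Equiv.Perm (Fin d)) (k : Fin d → V), M (fun i => k (σ i)) = M k

/-- The `(d+1)`-linear form `k ↦ Θ (k 0) (tail k)`. -/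
def unc (Θ : V →ₗ[ZMod p] Ml p d V) : Ml p (d + 1) V :=
  LinearMap.uncurryLeft (M := fun _ : Fin (d + 1) => V) Θ

/-- Failure of symmetry in the first two variables. -/
def sw (Θ : V →ₗ[ZMod p] Ml p (d + 1) V) : Ml p (d + 2) V :=
  (unc Θ).domDomCongr (Equiv.swap 0 1) - unc Θ

/-- Iterated multiplicative difference. -/
def mdd : (k : ℕ) → (Fin k → V) → (V → ℂ) → V → ℂ
  | 0, _, f => f
  | k + 1, h, f => mdd k (Fin.tail h) (md (h 0) f)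

end defs

/-- Structure of maps into `d`-linear forms that respect many quadruples up to biased forms. -/
def RM (p d : ℕ) [Fact p.Prime] : Prop := ∃ C : ℕ, ∀ {G V : Type} [AddCommGroup G] [Fintype G]
  [Module (ZMod p) G] [AddCommGroup V] [Module (ZMod p) V] [Fintype V] (φ : G → Ml p d V)
  (A : Set G) (ε : ℝ), 0 < ε → ε ≤ 𝔼 x, 𝔼 y, 𝔼 t, in4 A x y t * bias (dq φ x y t) →
  ∃ (T : G →ₗ[ZMod p] Ml p d V) (B0 : Ml p d V),
    (ε / 2) ^ C ≤ 𝔼 x, ind (x ∈ A) * bias (φ x - T x - B0)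

/-- Polynomial inverse theorem for `U^{k+1}` on all finite `F_p`-spaces. -/
def INV (p k : ℕ) [Fact p.Prime] : Prop := ∃ C : ℕ, ∀ {V : Type} [AddCommGroup V]
  [Module (ZMod p) V] [Fintype V] (f : V → ℂ) (δ : ℝ), 0 < δ → (∀ x, ‖f x‖ ≤ 1) → δ ≤ gw k f →
  ∃ ψ ∈ (Van (k + 1) : Submodule (ZMod p) (V → ZMod p)), (δ / 2) ^ C ≤ ‖𝔼 x, f x * ec (ψ x)‖

def St_INV1 : Prop := ∀ (p : ℕ) [Fact p.Prime], INV p 1

def St_CONV : Prop := ∀ (p : ℕ) [Fact p.Prime], (RM1 p → RM p 1) ∧ (RM2 p → RM p 2)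

/-- Facts on Gowers averages. -/
structure GwA (p : ℕ) [Fact p.Prime] (V : Type) [AddCommGroup V] [Fintype V] : Prop where
  gw_iter : ∀ (j : ℕ) (f : V → ℂ), gw j f = 𝔼 k : Fin j → V, ‖𝔼 x, mdd j k f x‖ ^ 2
  gw_phase : ∀ (j : ℕ) (f : V → ℂ), ∀ P ∈ (Van (j + 1) : Submodule (ZMod p) (V → ZMod p)),
    gw j (fun x => f x * ec (P x)) = gw j f
  gw_shift' : ∀ (j : ℕ) (f : V → ℂ) (h : V), gw j (fun x => f (x + h)) = gw j f
  norm_le : ∀ (j : ℕ) (f : V → ℂ), ∀ P ∈ (Van (j + 1) : Submodule (ZMod p) (V → ZMod p)),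
    ‖𝔼 x, f x * ec (P x)‖ ^ 2 ^ (j + 1) ≤ gw j f
  mdd_mul : ∀ (j : ℕ) (k : Fin j → V) (f g : V → ℂ) (x : V),
    mdd j k (fun y => f y * g y) x = mdd j k f x * mdd j k g x
  mdd_shift : ∀ (j : ℕ) (k : Fin j → V) (f : V → ℂ) (h x : V),
    mdd j k (fun y => f (y + h)) x = mdd j k f (x + h)
  mdd_ec : ∀ (j : ℕ) (k : Fin j → V) (P : V → ZMod p) (x : V),
    mdd j k (fun y => ec (P y)) x = ec (dd j k P x)
  mdd_le : ∀ (j : ℕ) (k : Fin j → V) (f : V → ℂ), (∀ x, ‖f x‖ ≤ 1) → ∀ x, ‖mdd j k f x‖ ≤ 1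
  mix : ∀ (j : ℕ) (f g : V → ℂ) (P : V → V → ZMod p), (∀ x, ‖g x‖ ≤ 1) →
    (∀ h, P h ∈ (Van (j + 1) : Submodule (ZMod p) (V → ZMod p))) →
    (𝔼 h, ‖𝔼 x, f (x + h) * g x * ec (P h x)‖) ^ 2 ^ (j + 2) ≤ gw (j + 1) f

/-- `GwA` for all finite groups. -/
def GA (p : ℕ) [Fact p.Prime] : Prop := ∀ (V : Type) [AddCommGroup V] [Fintype V], GwA p V

def St_GW : Prop := ∀ (p : ℕ) [Fact p.Prime], GA p

/-- Facts on multilinear forms. -/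
structure MlA (p : ℕ) [Fact p.Prime] (V : Type) [AddCommGroup V] [Module (ZMod p) V]
    [Fintype V] : Prop where
  red : ∀ {W : Type} [AddCommGroup W] [Fintype W] (d : ℕ) (M : Ml p (d + 1) V)
    (L : Fin (d + 1) → W →+ V), Red (d + 1) (bias M) fun z => M fun i => L i z
  bias_smul : ∀ (d : ℕ) (M : Ml p (d + 1) V) (c : ZMod p), bias M ≤ bias (c • M)
  bias_smul' : ∀ (d : ℕ) (M : Ml p (d + 1) V) (c : ZMod p), c ≠ 0 → bias (c • M) = bias M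
  symm : ∀ d : ℕ, d < p → ∀ Θ : V →ₗ[ZMod p] Ml p d V, ∃ Θ' : V →ₗ[ZMod p] Ml p d V,
    (∀ h, IsSym (Θ' h)) ∧ ∀ h x, Θ' h (fun _ => x) = Θ h fun _ => x
  diag_mem : ∀ (d : ℕ) (M : Ml p d V),
    (fun x => M fun _ => x) ∈ (Van (d + 1) : Submodule (ZMod p) (V → ZMod p))
  expand : ∀ (d : ℕ) (M : Ml p (d + 1) V) (h : V),
    (fun x => M (fun _ => x + h) - M (fun _ => x) - ∑ i, M (Function.update (fun _ => x) i h)) ∈
      (Van d : Submodule (ZMod p) (V → ZMod p))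
  dd_diag : ∀ (d : ℕ) (M : Ml p (d + 1) V), IsSym M → ∀ (k : Fin d → V) (x : V),
    dd d k (fun y => M fun _ => y) x = (-1) ^ d * ((d + 1).factorial : ZMod p) * M (Fin.cons x k) +
      dd d k (fun y => M fun _ => y) 0

/-- `MlA` for all finite spaces. -/
def MA (p : ℕ) [Fact p.Prime] : Prop := ∀ (V : Type) [AddCommGroup V] [Module (ZMod p) V]
  [Fintype V], MlA p V

def St_ML : Prop := ∀ (p : ℕ) [Fact p.Prime], MA p

/-- Gowers' Cauchy-Schwarz argument: the top forms respect many quadruples. -/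
def Quad (p : ℕ) [Fact p.Prime] : Prop := ∀ (e : ℕ) {V : Type} [AddCommGroup V]
  [Module (ZMod p) V] [Fintype V] (f g : V → ℂ) (P : V → V → ZMod p)
  (hP : ∀ h, P h ∈ (Van (e + 1 + 1) : Submodule (ZMod p) (V → ZMod p))) (A : Set V) (η : ℝ),
  (∀ x, ‖f x‖ ≤ 1) → (∀ x, ‖g x‖ ≤ 1) → 0 ≤ η →
  η ≤ 𝔼 h, ind (h ∈ A) * ‖𝔼 x, f (x + h) * g x * ec (P h x)‖ →
  η ^ (4 * 2 ^ (e + 1)) ≤ 𝔼 x, 𝔼 y, 𝔼 t, in4 A x y t * bias (dq (fun h => top (hP h)) x y t)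

def St_QUAD : Prop := ∀ (p : ℕ) [Fact p.Prime], Quad p

/-- Replacing the top forms by a linear family. -/
def Repl (p : ℕ) [Fact p.Prime] : Prop := ∀ e : ℕ, e + 1 < p → ∀ {V : Type} [AddCommGroup V]
  [Module (ZMod p) V] [Fintype V] (f g : V → ℂ) (P : V → V → ZMod p)
  (hP : ∀ h, P h ∈ (Van (e + 1 + 1) : Submodule (ZMod p) (V → ZMod p))) (A : Set V) (η η' : ℝ)
  (T : V →ₗ[ZMod p] Ml p (e + 1) V) (B0 : Ml p (e + 1) V), (∀ x, ‖g x‖ ≤ 1) → 0 ≤ η →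
  (∀ h ∈ A, η ≤ ‖𝔼 x, f (x + h) * g x * ec (P h x)‖) →
  η' ≤ 𝔼 h, ind (h ∈ A) * bias (top (hP h) - T h - B0) →
  ∃ (Θ : V →ₗ[ZMod p] Ml p (e + 1) V) (g' : V → ℂ) (P' : V → V → ZMod p), (∀ h, IsSym (Θ h)) ∧
    (∀ x, ‖g' x‖ ≤ 1) ∧ (∀ h, P' h ∈ (Van (e + 1) : Submodule (ZMod p) (V → ZMod p))) ∧
    η * η' ≤ 𝔼 h, ‖𝔼 x, f (x + h) * g' x * ec (Θ h (fun _ => x) + P' h x)‖

def St_REPL : Prop := ∀ (p : ℕ) [Fact p.Prime], MA p → Repl p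

/-- The symmetry argument for bilinear phases. -/
def Sym2 (p : ℕ) [Fact p.Prime] : Prop := ∀ {V : Type} [AddCommGroup V] [Module (ZMod p) V]
  [Fintype V] (f g : V → ℂ) (B : Bil p V V), (∀ x, ‖f x‖ ≤ 1) → (∀ x, ‖g x‖ ≤ 1) →
  (𝔼 h, ‖𝔼 x, f (x + h) * g x * ec (B h x)‖ ^ 2) ^ 2 ≤ (𝔼 x, 𝔼 y, ec (B y x - B x y)).re

def St_SYM2 : Prop := ∀ (p : ℕ) [Fact p.Prime], Sym2 p

/-- The symmetry argument. -/
def SymD (p : ℕ) [Fact p.Prime] : Prop := ∀ e : ℕ, e + 1 < p → ∀ {V : Type} [AddCommGroup V]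
  [Module (ZMod p) V] [Fintype V] (f g : V → ℂ) (Θ : V →ₗ[ZMod p] Ml p (e + 1) V)
  (P : V → V → ZMod p) (η : ℝ), (∀ x, ‖f x‖ ≤ 1) → (∀ x, ‖g x‖ ≤ 1) → (∀ h, IsSym (Θ h)) →
  (∀ h, P h ∈ (Van (e + 1) : Submodule (ZMod p) (V → ZMod p))) → 0 ≤ η →
  η ≤ 𝔼 h, ‖𝔼 x, f (x + h) * g x * ec (Θ h (fun _ => x) + P h x)‖ →
  η ^ 2 ^ (e + 2) ≤ bias (sw Θ)

def St_SYMD : Prop := ∀ (p : ℕ) [Fact p.Prime], GA p → MA p → Sym2 p → SymD p

/-- Integration. -/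
def Integ (p : ℕ) [Fact p.Prime] : Prop := ∀ e : ℕ, e + 2 < p → ∀ {V : Type} [AddCommGroup V]
  [Module (ZMod p) V] [Fintype V] (f g : V → ℂ) (Θ : V →ₗ[ZMod p] Ml p (e + 1) V)
  (P : V → V → ZMod p) (η : ℝ), (∀ x, ‖g x‖ ≤ 1) → (∀ h, IsSym (Θ h)) →
  (∀ h, P h ∈ (Van (e + 1) : Submodule (ZMod p) (V → ZMod p))) → 0 ≤ η →
  η ≤ 𝔼 h, ‖𝔼 x, f (x + h) * g x * ec (Θ h (fun _ => x) + P h x)‖ →
  ∃ Q ∈ (Van (e + 3) : Submodule (ZMod p) (V → ZMod p)),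
    (bias (sw Θ) * η) ^ 2 ^ (e + 2) ≤ gw (e + 1) fun x => f x * ec (Q x)

def St_INTEG : Prop := ∀ (p : ℕ) [Fact p.Prime], GA p → MA p → Integ p

def St_STEP : Prop := ∀ (p : ℕ) [Fact p.Prime], Quad p → Repl p → SymD p → Integ p →
  ∀ e : ℕ, e + 2 < p → INV p (e + 1) → RM p (e + 1) → INV p (e + 2)

def St_FINAL : Prop := ∀ (p : ℕ) [Fact p.Prime] (s : ℕ), s < p → INV p s → PolyInverse p s s

end Pool.Agent.Lib.U4
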