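import Mathlib

/-!
Finite probability vectors, Shannon entropy, conditioning, products, convolution.
Definitions only (statements to prove: `BlueE`).
-/

noncomputable section

open Finset

namespace Pool.Agent.Lib.U4

/-- A probability vector on a finite type. -/
@[ext] structure FP (Ω : Type) [Fintype Ω] where
  w : Ω → ℝ
  nn : ∀ a, 0 ≤ w a
  tot : ∑ a, w a = 1

namespace FP

variable {Ω Ω' α β γ ι : Type} [Fintype Ω] [Fintype Ω']

/-- Expectation. -/
def E (P : FP Ω) (f : Ω → ℝ) : ℝ := ∑ a, P.w a * f a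

open Classical in
/-- Probability that `X = x`. -/
def pr (P : FP Ω) (X : Ω → α) (x : α) : ℝ := ∑ a, if X a = x then P.w a else 0

/-- Entropy of the random variable `X` (any codomain). -/
def H (P : FP Ω) (X : Ω → α) : ℝ := P.E fun a => -Real.log (P.pr X (X a))

/-- Conditional entropy `H(X | Y)`. -/
def cH (P : FP Ω) (X : Ω → α) (Y : Ω → β) : ℝ := P.H (fun a => (X a, Y a)) - P.H Y

/-- Mutual information `I(X : Y)`. -/
def I (P : FP Ω) (X : Ω → α) (Y : Ω → β) : ℝ := P.H X + P.H Y - P.H (fun a => (X a, Y a))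

/-- Conditional mutual information `I(X : Y | Z)`. -/
def cI (P : FP Ω) (X : Ω → α) (Y : Ω → β) (Z : Ω → γ) : ℝ :=
  P.H (fun a => (X a, Z a)) + P.H (fun a => (Y a, Z a)) - P.H (fun a => (X a, Y a, Z a)) - P.H Z

lemma pr_nonneg (P : FP Ω) (X : Ω → α) (x : α) : 0 ≤ P.pr X x :=
  sum_nonneg fun a _ => by split_ifs; exacts [P.nn a, le_rfl]

/-- The law of `X`. -/
def map [Fintype α] (P : FP Ω) (X : Ω → α) : FP α where
  w := P.pr X
  nn := P.pr_nonneg X
  tot := by
    classical
    unfold pr
    rw [sum_comm, ← P.tot]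
    exact sum_congr rfl fun a _ => by simp

open Classical in
/-- `P` conditioned on the event `Y = y` (and `P` itself if that event is null). -/
def cond (P : FP Ω) (Y : Ω → β) (y : β) : FP Ω :=
  if h : P.pr Y y = 0 then P else
    { w := fun a => (if Y a = y then P.w a else 0) / P.pr Y y
      nn := fun a => div_nonneg (by split_ifs; exacts [P.nn a, le_rfl]) (P.pr_nonneg Y y)
      tot := by rw [← sum_div]; exact div_self h }

/-- Product of two probability vectors. -/
def prod (P : FP Ω) (Q : FP Ω') : FP (Ω × Ω') where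
  w z := P.w z.1 * Q.w z.2
  nn z := mul_nonneg (P.nn _) (Q.nn _)
  tot := by rw [Fintype.sum_prod_type, ← sum_mul_sum, P.tot, Q.tot, one_mul]

/-- Product of a finite family of probability vectors. -/
def pi [Fintype ι] [DecidableEq ι] (P : ι → FP Ω) : FP (ι → Ω) where
  w x := ∏ i, (P i).w (x i)
  nn x := prod_nonneg fun i _ => (P i).nn _
  tot := by
    rw [← Fintype.piFinset_univ, ← prod_univ_sum]
    simp [FP.tot]

open Classical in
/-- The uniform probability vector on a nonempty finite set. -/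
def unifOn (s : Finset Ω) (hs : s.Nonempty) : FP Ω where
  w a := if a ∈ s then (s.card : ℝ)⁻¹ else 0
  nn a := by split_ifs <;> positivity
  tot := by
    have : (s.card : ℝ) ≠ 0 := by exact_mod_cast hs.card_pos.ne'
    simp [this]

/-- Entropy of a law. -/
def ent (μ : FP Ω) : ℝ := μ.H id

section conv

variable {Γ : Type} [AddCommGroup Γ] [Fintype Γ]

/-- Convolution: the law of the sum of two independent variables. -/
def conv (μ ν : FP Γ) : FP Γ where
  w x := ∑ a, μ.w a * ν.w (x - a)
  nn x := sum_nonneg fun a _ => mul_nonneg (μ.nn _) (ν.nn _)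
  tot := by
    rw [sum_comm, ← μ.tot]
    refine sum_congr rfl fun a _ => ?_
    have h : ∑ x, ν.w (x - a) = 1 := ((Equiv.subRight a).sum_comp ν.w).trans ν.tot
    rw [← mul_sum, h, mul_one]

open Classical in
/-- The point mass at `0`. -/
def delta0 : FP Γ where
  w x := if x = 0 then 1 else 0
  nn x := by split_ifs <;> norm_num
  tot := by simp

lemma conv_comm (μ ν : FP Γ) : conv μ ν = conv ν μ := by
  ext x
  refine Fintype.sum_equiv (Equiv.subLeft x) _ _ fun a => ?_
  simp [mul_comm]

lemma conv_assoc (μ ν ξ : FP Γ) : conv (conv μ ν) ξ = conv μ (conv ν ξ) := by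
  ext x
  simp only [conv, sum_mul, mul_sum]
  rw [sum_comm]
  refine sum_congr rfl fun a _ => ?_
  refine Fintype.sum_equiv (Equiv.subRight a) _ _ fun b => ?_
  simp [mul_assoc]

lemma delta0_conv (μ : FP Γ) : conv delta0 μ = μ := by
  classical
  ext x
  simp [conv, delta0]

/-- Laws on a finite abelian group form a commutative monoid under convolution; so `∏ i, μ i`
is the law of a sum of independent variables. -/
instance : CommMonoid (FP Γ) where
  mul := conv
  one := delta0
  mul_assoc := conv_assoc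
  mul_comm := conv_comm
  one_mul := delta0_conv
  mul_one μ := (conv_comm μ _).trans (delta0_conv μ)

lemma mul_w (μ ν : FP Γ) (x : Γ) : (μ * ν).w x = ∑ a, μ.w a * ν.w (x - a) := rfl

open Classical in
lemma one_w (x : Γ) : (1 : FP Γ).w x = if x = 0 then 1 else 0 := rfl

/-- The law of `-X`. -/
def ng (μ : FP Γ) : FP Γ := μ.map fun x => -x

/-- `H(X⁰ + X) - H(X⁰)/2 - H(X)/2`. -/
def rho (μ0 μ : FP Γ) : ℝ := (μ0 * μ).ent - μ0.ent / 2 - μ.ent / 2

/-- Multidistance `H(∑ X_i) - avg H(X_i)`. -/
def mD [Fintype ι] (μ : ι → FP Γ) : ℝ := (∏ i, μ i).ent - (∑ i, (μ i).ent) / Fintype.card ι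

/-- The functional of Gowers, Green, Manners and Tao. -/
def tau [Fintype ι] (η : ℝ) (μ0 : FP Γ) (μ : ι → FP Γ) : ℝ := mD μ + η * ∑ i, rho μ0 (μ i)

/-- `μ` minimises `tau`. -/
def IsMin [Fintype ι] (η : ℝ) (μ0 : FP Γ) (μ : ι → FP Γ) : Prop :=
  ∀ ν : ι → FP Γ, tau η μ0 μ ≤ tau η μ0 ν

end conv

end FP

end Pool.Agent.Lib.U4
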