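import Pool.Agent.Lib.U4.BlueA

/-! Block RA2: restricted ranks. -/

noncomputable section

open Finset Module

namespace Pool.Agent.Lib.U4

namespace RA2

variable {p : ℕ} [Fact p.Prime] {V U V' U' : Type} [AddCommGroup V] [Module (ZMod p) V] [Finite V]
  [AddCommGroup U] [Module (ZMod p) U] [Finite U] [AddCommGroup V'] [Module (ZMod p) V']
  [AddCommGroup U'] [Module (ZMod p) U']

lemma compl_le (M : Bil p V U) (f : V' →ₗ[ZMod p] V) (g : U' →ₗ[ZMod p] U) :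
    rk (M.compl₁₂ f g) ≤ rk M := by
  unfold rk
  have h : LinearMap.range (M.compl₁₂ f g) ≤ (LinearMap.range M).map g.dualMap := by
    rintro _ ⟨v, rfl⟩
    exact ⟨M (f v), ⟨f v, rfl⟩, rfl⟩
  exact_mod_cast (Submodule.finrank_mono h).trans (Submodule.finrank_map_le _ _)

lemma gen_le (M : Bil p V U) (A : Submodule (ZMod p) V) (B : Submodule (ZMod p) U)
    (f : V' →ₗ[ZMod p] V) (g : U' →ₗ[ZMod p] U) (hf : ∀ v, f v ∈ A) (hg : ∀ u, g u ∈ B) :
    rk (M.compl₁₂ f g) ≤ rr M A B :=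
  compl_le (M.compl₁₂ A.subtype B.subtype) (f.codRestrict A hf) (g.codRestrict B hg)

lemma rr_eq (M : Bil p V U) (A : Submodule (ZMod p) V) (B : Submodule (ZMod p) U) :
    rr M A B = finrank (ZMod p) (A.map (M.compl₂ B.subtype)) := by
  have h : LinearMap.range (M.compl₁₂ A.subtype B.subtype) = A.map (M.compl₂ B.subtype) := by
    apply le_antisymm
    · rintro _ ⟨v, rfl⟩
      exact ⟨v, v.2, rfl⟩
    · rintro _ ⟨v, hv, rfl⟩
      exact ⟨⟨v, hv⟩, rfl⟩
  unfold rr rk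
  rw [h]

lemma rr_flip (h : RA p) (M : Bil p V U) (A : Submodule (ZMod p) V) (B : Submodule (ZMod p) U) :
    rr M.flip B A = rr M A B :=
  (h A B).rk_flip (M.compl₁₂ A.subtype B.subtype)

lemma sup_left (M : Bil p V U) (A A' : Submodule (ZMod p) V) (B : Submodule (ZMod p) U) :
    rr M (A ⊔ A') B ≤ rr M A B + rr M A' B := by
  rw [rr_eq, rr_eq, rr_eq, Submodule.map_sup]
  exact_mod_cast Submodule.finrank_add_le_finrank_add_finrank _ _

lemma codim (M : Bil p V U) {A S : Submodule (ZMod p) V} (hA : A ≤ S) (B : Submodule (ZMod p) U) :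
    rr M S B ≤ rr M A B + (dm S - dm A) := by
  obtain ⟨C, hC⟩ := Submodule.exists_isCompl A
  have h1 : A ⊔ C ⊓ S = S := by
    rw [← sup_inf_assoc_of_le _ hA, hC.sup_eq_top, top_inf_eq]
  have h2 : A ⊓ (C ⊓ S) = ⊥ := by rw [← inf_assoc, hC.inf_eq_bot, bot_inf_eq]
  have h3 := Submodule.finrank_sup_add_finrank_inf_eq A (C ⊓ S)
  rw [h1, h2, finrank_bot, add_zero] at h3
  have h4 := sup_left M A (C ⊓ S) B
  rw [h1, rr_eq M (C ⊓ S)] at h4
  have h5 : (finrank (ZMod p) ((C ⊓ S).map (M.compl₂ B.subtype)) : ℝ) ≤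
      finrank (ZMod p) ↥(C ⊓ S) := by exact_mod_cast Submodule.finrank_map_le _ _
  have h6 : dm S = dm A + finrank (ZMod p) ↥(C ⊓ S) := by
    unfold dm
    exact_mod_cast h3
  linarith

lemma tv_left (M : Bil p V U) (S N N' : Submodule (ZMod p) V) (B : Submodule (ZMod p) U) :
    rr M S B ≤ rr M (N ⊓ S) B + rr M (N' ⊓ S) B + tv S N N' := by
  have h1 := codim M (A := (N ⊓ S) ⊔ (N' ⊓ S)) (S := S) (sup_le inf_le_right inf_le_right) B
  have h2 := sup_left M (N ⊓ S) (N' ⊓ S) B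
  unfold tv
  linarith

omit [Finite V] in
lemma proj (A A' : Submodule (ZMod p) V) : ∃ P : V →ₗ[ZMod p] V, (∀ v ∈ A', P v = 0) ∧
    (∀ v, P v ∈ A) ∧ ∀ v ∈ A, v - P v ∈ A ⊓ A' := by
  let f : A →ₗ[ZMod p] V ⧸ A' := A'.mkQ ∘ₗ A.subtype
  obtain ⟨g0, hg0⟩ := f.rangeRestrict.exists_rightInverse_of_surjective f.range_rangeRestrict
  obtain ⟨g, hg⟩ := LinearMap.exists_extend g0
  refine ⟨A.subtype ∘ₗ g ∘ₗ A'.mkQ, fun v hv => ?_, fun v => (g (A'.mkQ v)).2, fun v hv => ?_⟩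
  · have : A'.mkQ v = 0 := (Submodule.Quotient.mk_eq_zero _).2 hv
    simp only [LinearMap.comp_apply, this, map_zero]
  · refine ⟨A.sub_mem hv (g (A'.mkQ v)).2, ?_⟩
    have h1 : g (A'.mkQ v) = g0 ⟨f ⟨v, hv⟩, ⟨_, rfl⟩⟩ := by
      rw [← hg]; rfl
    have h2 : f (g0 ⟨f ⟨v, hv⟩, ⟨_, rfl⟩⟩) = f ⟨v, hv⟩ :=
      congrArg Subtype.val (LinearMap.congr_fun hg0 ⟨f ⟨v, hv⟩, ⟨_, rfl⟩⟩)
    rw [← h1] at h2
    exact (Submodule.Quotient.eq A').1 h2.symm

end RA2

open RA2 in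
theorem stRA2 : St_RA2 := by
  intro p _ h V U _ _ _ _ _ _
  have congr' : ∀ (M N : Bil p V U) A B, (∀ v ∈ A, ∀ u ∈ B, M v u = N v u) →
      rr M A B = rr N A B := by
    intro M N A B e
    unfold rr
    congr 1
    ext v u
    exact e v v.2 u u.2
  refine ⟨fun M A B => (h A B).rk_nonneg _, fun M N A B => ?_, fun M N A B => ?_,
    fun M A B => ?_, congr', fun M A B e => ?_, fun M A A' B B' hA hB => ?_,
    fun M A B => compl_le M _ _, sup_left, fun M A B B' => ?_, tv_left, fun M A S N N' => ?_,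
    fun M A B P Q hP hQ => gen_le M A B P Q hP hQ, fun M A A' B B' => ?_⟩
  · exact (h A B).rk_add (M.compl₁₂ A.subtype B.subtype) (N.compl₁₂ A.subtype B.subtype)
  · exact (h A B).rk_sub (M.compl₁₂ A.subtype B.subtype) (N.compl₁₂ A.subtype B.subtype)
  · exact (h A B).rk_neg (M.compl₁₂ A.subtype B.subtype)
  · rw [congr' M 0 A B e]
    exact (h A B).rk_zero
  · exact gen_le M A' B' A.subtype B.subtype (fun v => hA v.2) fun u => hB u.2
  · rw [← rr_flip h, ← rr_flip h M A B, ← rr_flip h M A B']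
    exact sup_left _ _ _ _
  · rw [← rr_flip h, ← rr_flip h M A (N ⊓ S), ← rr_flip h M A (N' ⊓ S)]
    exact tv_left _ _ _ _ _
  · obtain ⟨P, p1, p2, p3⟩ := proj A A'
    obtain ⟨Q, q1, q2, q3⟩ := proj B B'
    refine ⟨M.compl₁₂ P Q, fun v hv => ?_, fun u hu => ?_, ?_⟩
    · rw [LinearMap.mem_ker]
      ext u
      simp [p1 v hv]
    · rw [LinearMap.mem_ker]
      ext v
      simp [q1 u hu]
    · have e : (M - M.compl₁₂ P Q).compl₁₂ A.subtype B.subtype =
          M.compl₁₂ (A.subtype - P ∘ₗ A.subtype) B.subtype +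
            M.compl₁₂ (P ∘ₗ A.subtype) (B.subtype - Q ∘ₗ B.subtype) := by
        ext v u
        simp
      have h1 := gen_le M (A ⊓ A') B (A.subtype - P ∘ₗ A.subtype) B.subtype
        (fun v => p3 v v.2) fun u => u.2
      have h2 := gen_le M A (B ⊓ B') (P ∘ₗ A.subtype) (B.subtype - Q ∘ₗ B.subtype)
        (fun v => p2 v) fun u => q3 u u.2
      have h3 := (h A B).rk_add (M.compl₁₂ (A.subtype - P ∘ₗ A.subtype) B.subtype)
        (M.compl₁₂ (P ∘ₗ A.subtype) (B.subtype - Q ∘ₗ B.subtype))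
      rw [← e] at h3
      exact h3.trans (add_le_add h1 h2)

end Pool.Agent.Lib.U4
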